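import Mathlib.Data.Nat.Notation

namespace Pool.Agent.Lib.MP_1dd8f3_al

noncomputable section

/-- strict evaluation of a natural number before passing it on -/
def frc {α : Type} (x : ℕ) (f : ℕ → α) : α :=
  Nat.rec (f 0) (fun n _ => f (Nat.succ n)) x

inductive Tr where
  | nil : Tr
  | node : ℕ → Tr → Tr → Tr

def Tr.full (d : ℕ) (v : ℕ) : Tr := Nat.rec Tr.nil (fun _ t => Tr.node v t t) d

def Tr.get (t : Tr) (dflt : ℕ) : ℕ → ℕ :=
  Tr.rec (motive := fun _ => ℕ → ℕ) (fun _ => dflt)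
    (fun v _ _ il ir k => Nat.rec v
      (fun k' _ => Nat.rec (il (Nat.div k' 2)) (fun _ _ => ir (Nat.div k' 2)) (Nat.mod k' 2)) k) t

def Tr.ins (t : Tr) (v : ℕ) : ℕ → (Tr → Bool) → Bool :=
  Tr.rec (motive := fun _ => ℕ → (Tr → Bool) → Bool) (fun _ c => c Tr.nil)
    (fun w l r il ir k c => Nat.rec (c (Tr.node v l r))
      (fun k' _ => Nat.rec (il (Nat.div k' 2) (fun l' => c (Tr.node w l' r)))
        (fun _ _ => ir (Nat.div k' 2) (fun r' => c (Tr.node w l r'))) (Nat.mod k' 2)) k) t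

def ap {α : Type} (f : α → Bool) (a : α) : Bool := f a

/-- token number `i` (16 bits) -/
def tk (x i : ℕ) : ℕ := Nat.mod (Nat.shiftRight x (Nat.mul 16 i)) 65536

/-- code of a signed variable -/
def cT (K t : ℕ) : ℕ :=
  Nat.shiftLeft 1 (Nat.mul 32 (Nat.add (Nat.mod (Nat.div t 2) K) (Nat.mul K (Nat.mod t 2))))

def cF (K : ℕ) (f : List ℕ) : ℕ := List.rec 0 (fun t _ r => Nat.add (cT K t) r) f

def ngT (t : ℕ) : ℕ := Nat.xor t 1

def cN (K : ℕ) (f : List ℕ) : ℕ := List.rec 0 (fun t _ r => Nat.add (cT K (ngT t)) r) f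

/-- final test: the positive and negative halves agree and the constant is positive -/
def fin (K acc : ℕ) : Bool :=
  frc acc fun a =>
    and (Nat.beq (Nat.mod a (Nat.shiftLeft 1 (Nat.mul 32 K)))
        (Nat.mod (Nat.shiftRight a (Nat.mul 32 K)) (Nat.shiftLeft 1 (Nat.mul 32 K))))
      (Nat.ble 1 (Nat.mod (Nat.shiftRight a (Nat.mul 64 K)) 4294967296))

/-- Farkas loop -/
def far (K : ℕ) (A : Tr) (c : ℕ → Bool) (n : ℕ) : ℕ → ℕ → ℕ → Bool :=
  Nat.rec (motive := fun _ => ℕ → ℕ → ℕ → Bool)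
    (fun _ acc C => Bool.rec false (c C) (fin K acc))
    (fun _ ih x acc C => frc x fun x => frc (Nat.mod x 65536) fun l =>
      ih (Nat.shiftRight x 32)
        (Nat.add acc (Nat.mul (Nat.mod (Nat.shiftRight x 16) 65536) (A.get 0 l)))
        (Nat.lor C (Nat.shiftLeft 1 (Nat.xor l 1)))) n

/-- resolution chain -/
def chain (T : Tr) (n : ℕ) : ℕ → ℕ → ℕ :=
  Nat.rec (motive := fun _ => ℕ → ℕ → ℕ) (fun _ C => C)
    (fun _ ih x C => frc x fun x => frc (Nat.mod x 65536) fun l =>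
      ih (Nat.shiftRight x 32)
        (Nat.lor (Nat.xor C (Nat.shiftLeft 1 (Nat.xor l 1)))
          (Nat.xor (T.get 3 (Nat.mod (Nat.shiftRight x 16) 65536)) (Nat.shiftLeft 1 l)))) n

/-- one disjunct: `D` together with the negation of a literal is infeasible -/
def imp (K : ℕ) (A : Tr) (D x C : ℕ) (c : ℕ → Bool) : Bool :=
  Nat.rec (Bool.rec false (c C) (fin K D))
    (fun l _ => Bool.rec false (c (Nat.lor C (Nat.shiftLeft 1 l)))
      (fin K (Nat.add D (Nat.mul (Nat.mod (Nat.shiftRight x 16) 65536) (A.get 0 (Nat.xor l 1))))))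
    (Nat.mod x 65536)

def imps (K : ℕ) (A : Tr) (c : ℕ → Bool) (Ds : List ℕ) : ℕ → ℕ → Bool :=
  List.rec (motive := fun _ => ℕ → ℕ → Bool) (fun _ C => c C)
    (fun D _ ih x C => frc x fun x => imp K A D x C (fun C' => ih (Nat.shiftRight x 32) C')) Ds

def nth {α : Type} (l : List α) (d : α) : ℕ → α :=
  List.rec (motive := fun _ => ℕ → α) (fun _ => d)
    (fun a _ ih n => Nat.rec a (fun m _ => ih m) n) l

structure V6 where
  a : ℕ
  b : ℕ
  c : ℕ
  d : ℕ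
  e : ℕ
  p : ℕ
  n : ℕ

def V6.add (x y : V6) : V6 :=
  V6.rec (fun a b c d e p n => V6.rec (fun a' b' c' d' e' p' n' =>
    ⟨Nat.add a a', Nat.add b b', Nat.add c c', Nat.add d d', Nat.add e e', Nat.add p p',
      Nat.add n n'⟩) y) x

def V6.z : V6 := ⟨0, 0, 0, 0, 0, 0, 0⟩

def comb (Bs : List V6) (n : ℕ) : ℕ → V6 → V6 :=
  Nat.rec (motive := fun _ => ℕ → V6 → V6) (fun _ v => v)
    (fun _ ih x v => frc x fun x =>
      ih (Nat.shiftRight x 16) (V6.add v (nth Bs V6.z (Nat.mod x 65536)))) n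

structure Pre where
  K : ℕ
  A : Tr
  Bs : List V6
  Fs : List V6
  Hs : List (List ℕ)

/-- the clause produced by a step -/
def mk (P : Pre) (T : Tr) (x : ℕ) (c : ℕ → Bool) : Bool :=
  Pre.rec (fun K A Bs Fs Hs =>
    Nat.rec (imps K A c (nth Hs [0] (tk x 3)) (Nat.shiftRight x 64) 0)
      (fun k _ => Nat.rec
        (V6.rec (fun a b c' d e p n => Bool.rec false
            (imps K A c [a, b, c', d, e] (Nat.shiftRight x 80) 0) (Nat.beq p n))
          (comb Bs (Nat.mod (tk x 4) 64) (Nat.shiftRight x 240) (nth Fs ⟨0, 0, 0, 0, 0, 0, 0⟩ (tk x 3))))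
        (fun k _ => Nat.rec
          (frc (Nat.mod (tk x 3) 256) fun nF =>
            far K A (fun C => c (chain T (tk x 4) (Nat.shiftRight x (Nat.add 80 (Nat.mul 32 nF))) C))
              nF (Nat.shiftRight x 80) 0 0)
          (fun _ _ => c (chain T (tk x 4) (Nat.shiftRight x 80) (T.get 3 (tk x 3)))) k) k)
      (tk x 0)) P

def run (P : Pre) (L : List ℕ) : Tr → ℕ → Bool :=
  List.rec (motive := fun _ => Tr → ℕ → Bool) (fun _ _ => false)
    (fun x _ ih T U => frc x fun x => mk P T x fun C =>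
      Nat.rec true (fun C' _ =>
        Nat.rec (Nat.rec (ap (ih T) U) (fun i _ => T.ins (Nat.succ C') (Nat.succ i) (fun T' => ap (ih T') U)) (tk x 1))
          (fun l _ => Bool.rec false
            (frc (Nat.lor U (Nat.shiftLeft 1 (Nat.xor l 1))) fun U' => ap (ih T) U')
            (Nat.beq (Nat.succ C') (Nat.shiftLeft 1 l)))
          (tk x 2))
        (Nat.xor (Nat.lor C U) U)) L

/-- the code of an atom given by packed tokens -/
def cA (K s : ℕ) (n : ℕ) : ℕ → ℕ :=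
  Nat.rec (motive := fun _ => ℕ → ℕ) (fun _ => 0)
    (fun _ ih x => frc x fun x =>
      Nat.add (cT K (Nat.xor (Nat.mod x 256) s)) (ih (Nat.shiftRight x 8))) n

def atoms (K : ℕ) (c : Tr → Bool) (L : List ℕ) : ℕ → Tr → Bool :=
  List.rec (motive := fun _ => ℕ → Tr → Bool) (fun _ A => c A)
    (fun x _ ih i A => frc x fun x => frc i fun i =>
      frc (cA K 0 (Nat.mod x 16) (Nat.shiftRight x 4)) fun D0 =>
      frc (Nat.add (cA K 1 (Nat.mod x 16) (Nat.shiftRight x 4)) (Nat.shiftLeft 1 (Nat.mul 64 K))) fun D1 =>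
        A.ins D0 i (fun A => ap (A.ins D1 (Nat.succ i)) (fun A => ap (ih (Nat.add i 2)) A))) L

structure Cx where
  bas : List (List (List ℕ) × ℕ)
  fam : List (List (List ℕ) × List ℕ)
  hyp : List (List (List ℕ × ℕ))

def frcV {α : Type} (v : V6) (f : V6 → α) : α :=
  V6.rec (fun a b c d e p n => frc a fun a => frc b fun b => frc c fun c => frc d fun d =>
    frc e fun e => frc p fun p => frc n fun n => f ⟨a, b, c, d, e, p, n⟩) v

def frcL {α : Type} (L : List V6) : (List V6 → α) → α :=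
  List.rec (motive := fun _ => (List V6 → α) → α) (fun f => f [])
    (fun v _ ih f => frcV v fun v => ih fun L => f (v :: L)) L

def preB (K : ℕ) (L : List (List (List ℕ) × ℕ)) : List V6 :=
  List.rec [] (fun b _ r =>
    ⟨cF K (nth b.1 [] 0), cF K (nth b.1 [] 1), cF K (nth b.1 [] 2), cF K (nth b.1 [] 3),
      cF K (nth b.1 [] 4), b.2, 0⟩ ::
    ⟨cN K (nth b.1 [] 0), cN K (nth b.1 [] 1), cN K (nth b.1 [] 2), cN K (nth b.1 [] 3),
      cN K (nth b.1 [] 4), 0, b.2⟩ :: r) L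

def cS (K : ℕ) (f : List ℕ) (r : ℕ) : ℕ := Nat.add (cF K f) (Nat.shiftLeft r (Nat.mul 64 K))

def preF1 (K : ℕ) (L : List (List (List ℕ) × List ℕ)) : List V6 :=
  List.rec [] (fun b _ r =>
    ⟨cS K (nth b.1 [] 0) (Nat.sub 1 (nth b.2 0 0)), cS K (nth b.1 [] 1) (Nat.sub 1 (nth b.2 0 1)),
      cS K (nth b.1 [] 2) (Nat.sub 1 (nth b.2 0 2)), cS K (nth b.1 [] 3) (Nat.sub 1 (nth b.2 0 3)),
      cS K (nth b.1 [] 4) (Nat.sub 1 (nth b.2 0 4)), 0, 0⟩ :: r) L

def preF (K : ℕ) (L : List (List (List ℕ) × List ℕ)) : List V6 :=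
  ⟨0, 0, 0, 0, 0, 0, 1⟩ :: preF1 K L

def preH (K : ℕ) (L : List (List (List ℕ × ℕ))) : List (List ℕ) :=
  List.rec [] (fun h _ r => List.rec [] (fun q _ s => cS K q.1 q.2 :: s) h :: r) L

def check (X : Cx) (K : ℕ) (At St : List ℕ) : Bool :=
  frcL (preB K X.bas) fun Bs => frcL (preF K X.fam) fun Fs =>
    atoms K (fun A => run ⟨K, A, Bs, Fs, preH K X.hyp⟩ St (Tr.full 16 3) 0) At 0 (Tr.full 16 0)

/-- syntactic bounds -/
def bF (n : ℕ) (f : List ℕ) : Bool := f.all (fun t => Nat.blt t (2 * n)) && Nat.ble f.length 255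

def bV (n : ℕ) (v : List (List ℕ)) : Bool :=
  bF n (nth v [] 0) && bF n (nth v [] 1) && bF n (nth v [] 2) && bF n (nth v [] 3) &&
    bF n (nth v [] 4)

def bS (s : List ℕ) : Bool :=
  Nat.ble (nth s 0 0) 1 && Nat.ble (nth s 0 1) 1 && Nat.ble (nth s 0 2) 1 &&
    Nat.ble (nth s 0 3) 1 && Nat.ble (nth s 0 4) 1

def bnd (n : ℕ) (X : Cx) : Bool :=
  X.bas.all (fun b => bV n b.1) && X.fam.all (fun f => bV n f.1 && bS f.2) &&
    X.hyp.all (fun h => h.all (fun q => bF n q.1 && Nat.ble q.2 255))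

/-- introduce the dual witness of family number `i` on the fresh variables `n, …, n+4` -/
def addB (X : Cx) (n i : ℕ) : Cx :=
  ⟨X.bas ++ [([[2 * n], [2 * (n + 1)], [2 * (n + 2)], [2 * (n + 3)], [2 * (n + 4)]], 1)], X.fam,
    X.hyp ++ List.map (fun j =>
      [((2 * (n + j) + 1) :: nth (nth X.fam ([], [1, 1, 1, 1, 1]) i).1 [] j,
        1 - nth (nth X.fam ([], [1, 1, 1, 1, 1]) i).2 0 j)]) [0, 1, 2, 3, 4]⟩

def go (At St : List ℕ) : List ℕ → Cx → ℕ → Bool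
  | [], X, n => Nat.blt 0 n && bnd n X && check X n At St
  | i :: l, X, n => go At St l (addB X n i) (n + 5)

/-- surface expressions -/
inductive Ex where
  | g : ℕ → Ex
  | m : ℕ → ℕ → Ex
  | add : Ex → Ex → Ex
  | sub : Ex → Ex → Ex

def Ex.fm (j : ℕ) : Ex → ℕ → List ℕ
  | .g _, _ => []
  | .m t i, s => if i = j then [2 * t + s] else []
  | .add a b, s => a.fm j s ++ b.fm j s
  | .sub a b, s => a.fm j s ++ b.fm j (1 - s)

def Ex.ct (j : ℕ) : Ex → ℕ → ℕ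
  | .g i, s => if i = j then 1 - s else 0
  | .m _ _, _ => 0
  | .add a b, s => a.ct j s + b.ct j s
  | .sub a b, s => a.ct j s + b.ct j (1 - s)

def Ex.vec (e : Ex) : List (List ℕ) := [e.fm 0 0, e.fm 1 0, e.fm 2 0, e.fm 3 0, e.fm 4 0]

def Ex.cts (e : Ex) (s : ℕ) : List ℕ := [e.ct 0 s, e.ct 1 s, e.ct 2 s, e.ct 3 s, e.ct 4 s]

inductive Hy where
  | pos : ℕ → Hy
  | nn : ℕ → Hy
  | lt : ℕ → ℕ → Hy
  | le : ℕ → ℕ → Hy
  | or2 : ℕ → ℕ → Hy
  | or3 : ℕ → ℕ → ℕ → Hy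

def Hy.cmp : Hy → List (List ℕ × ℕ)
  | .pos t => [([2 * t + 1], 1)]
  | .nn t => [([2 * t + 1], 0)]
  | .lt t u => [([2 * t, 2 * u + 1], 1)]
  | .le t u => [([2 * t, 2 * u + 1], 0)]
  | .or2 t u => [([2 * t + 1], 1), ([2 * u + 1], 1)]
  | .or3 t u v => [([2 * t + 1], 1), ([2 * u + 1], 1), ([2 * v + 1], 1)]

structure Sx where
  bas : List (Ex × Ex)
  fam : List Ex
  hyp : List Hy

def zf : List (List (List ℕ) × List ℕ) :=
  [([], [1, 0, 0, 0, 0]), ([], [0, 1, 0, 0, 0]), ([], [0, 0, 1, 0, 0]), ([], [0, 0, 0, 1, 0]),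
    ([], [0, 0, 0, 0, 1])]

def Sx.cmp (S : Sx) : Cx :=
  ⟨S.bas.map (fun b => ((Ex.sub b.1 b.2).vec, 0)), zf ++ S.fam.map (fun e => (e.vec, e.cts 1)),
    S.hyp.map Hy.cmp⟩

def z5 (l : List ℕ) : Bool := l.all (fun t => Nat.beq t 0)

def Sx.ok (S : Sx) : Bool :=
  S.bas.all (fun b => z5 ((Ex.sub b.1 b.2).cts 0) && z5 ((Ex.sub b.1 b.2).cts 1)) &&
    S.fam.all (fun e => z5 (e.cts 0))

def full (S : Sx) (n : ℕ) (l At St : List ℕ) : Bool :=
  S.ok && bnd n S.cmp && go At St l S.cmp n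

end

end Pool.Agent.Lib.MP_1dd8f3_al
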