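import Pool.Agent.Lib.MP_1dd8f3_al.Dig

namespace Pool.Agent.Lib.MP_1dd8f3_al

theorem Tr.get_full (d v dflt : ℕ) : ∀ k, (Tr.full d v).get dflt k = v ∨
    (Tr.full d v).get dflt k = dflt := by
  induction d with
  | zero => intro k; exact Or.inr rfl
  | succ d ih =>
    intro k
    cases k with
    | zero => exact Or.inl rfl
    | succ k =>
      change (Nat.rec ((Tr.full d v).get dflt (Nat.div k 2))
        (fun _ _ => (Tr.full d v).get dflt (Nat.div k 2)) (Nat.mod k 2) : ℕ) = v ∨
        (Nat.rec ((Tr.full d v).get dflt (Nat.div k 2))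
        (fun _ _ => (Tr.full d v).get dflt (Nat.div k 2)) (Nat.mod k 2) : ℕ) = dflt
      cases Nat.mod k 2 <;> exact ih _

theorem Tr.get_node (w : ℕ) (l r : Tr) (d k : ℕ) : (Tr.node w l r).get d (k + 1) =
    if k % 2 = 0 then l.get d (k / 2) else r.get d (k / 2) := by
  change (Nat.rec (l.get d (k / 2)) (fun _ _ => r.get d (k / 2)) (k % 2) : ℕ) = _
  cases k % 2 <;> simp

theorem Tr.ins_spec (t : Tr) (v : ℕ) : ∀ (k : ℕ) (c : Tr → Bool), t.ins v k c = true →
    ∃ t', c t' = true ∧ ∀ d j, t'.get d j = t.get d j ∨ (j = k ∧ t'.get d j = v) := by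
  induction t with
  | nil => intro k c h; exact ⟨Tr.nil, h, fun d j => Or.inl rfl⟩
  | node w l r il ir =>
    intro k c h
    cases k with
    | zero =>
      refine ⟨Tr.node v l r, h, fun d j => ?_⟩
      cases j with
      | zero => exact Or.inr ⟨rfl, rfl⟩
      | succ j => exact Or.inl rfl
    | succ k =>
      change (Nat.rec (l.ins v (k / 2) (fun l' => c (Tr.node w l' r)))
        (fun _ _ => r.ins v (k / 2) (fun r' => c (Tr.node w l r'))) (k % 2) : Bool) = true at h
      rcases Nat.mod_two_eq_zero_or_one k with hk | hk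
      · rw [hk] at h
        obtain ⟨l', h1, h2⟩ := il _ _ h
        refine ⟨_, h1, fun d j => ?_⟩
        cases j with
        | zero => exact Or.inl rfl
        | succ j =>
          rw [Tr.get_node, Tr.get_node]
          split
          · rcases h2 d (j / 2) with h3 | h3
            · exact Or.inl h3
            · exact Or.inr ⟨by omega, h3.2⟩
          · exact Or.inl rfl
      · rw [hk] at h
        obtain ⟨r', h1, h2⟩ := ir _ _ h
        refine ⟨_, h1, fun d j => ?_⟩
        cases j with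
        | zero => exact Or.inl rfl
        | succ j =>
          rw [Tr.get_node, Tr.get_node]
          split
          · exact Or.inl rfl
          · rcases h2 d (j / 2) with h3 | h3
            · exact Or.inl h3
            · exact Or.inr ⟨by omega, h3.2⟩

/-- a truth assignment for literals compatible with the atom table -/
structure Lit (K : ℕ) (x : ℕ → ℤ) (A : Tr) (τ : ℕ → Prop) : Prop where
  neg : ∀ l, τ (Nat.xor l 1) ↔ ¬ τ l
  le : ∀ l, τ l → ev K x (A.get 0 l) ≤ 0
  bd : ∀ l, Bd (A.get 0 l) 16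

def Cl (τ : ℕ → Prop) (C : ℕ) : Prop := ∃ l, C.testBit l = true ∧ τ l

theorem tb_shl (l j : ℕ) : (Nat.shiftLeft 1 l).testBit j = decide (l = j) := by
  change (1 <<< l).testBit j = _
  rw [Nat.shiftLeft_eq, one_mul, Nat.testBit_two_pow]

theorem Cl.lor {τ : ℕ → Prop} {C : ℕ} (h : Cl τ C) (D : ℕ) : Cl τ (Nat.lor C D) := by
  obtain ⟨l, h1, h2⟩ := h
  refine ⟨l, ?_, h2⟩
  change (C ||| D).testBit l = true
  simp [Nat.testBit_or, h1]

theorem Cl.one {τ : ℕ → Prop} {l : ℕ} (h : τ l) (C : ℕ) : Cl τ (Nat.lor C (Nat.shiftLeft 1 l)) := by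
  refine ⟨l, ?_, h⟩
  change (C ||| Nat.shiftLeft 1 l).testBit l = true
  rw [Nat.testBit_or, tb_shl]
  simp

theorem bool_rec {a b : Bool} (h : (Bool.rec false a b : Bool) = true) : b = true ∧ a = true := by
  cases b
  · cases h
  · exact ⟨rfl, h⟩

variable {K : ℕ} {x : ℕ → ℤ} {A : Tr} {τ : ℕ → Prop}

theorem lin_step (L : Lit K x A τ) {acc w : ℕ} (h : Bd acc w) (hw : w + 1048576 < 4294967296)
    (y l : ℕ) : Bd (Nat.add acc (Nat.mul (Nat.mod y 65536) (A.get 0 l))) (w + 1048576) ∧
      (ev K x acc ≤ 0 → τ l → ev K x (Nat.add acc (Nat.mul (Nat.mod y 65536) (A.get 0 l))) ≤ 0) := by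
  have hm : Nat.mod y 65536 < 65536 := Nat.mod_lt _ (by norm_num)
  generalize Nat.mod y 65536 = m at hm
  obtain ⟨a1, a2⟩ := mul_spec K x (L.bd l) m (by omega)
  have a3 : Bd (m * A.get 0 l) 1048576 := a1.mono (by omega)
  refine ⟨h.add a3 hw, fun h1 h2 => ?_⟩
  change ev K x (acc + m * A.get 0 l) ≤ 0
  rw [ev_add K x h a3 hw, a2]
  have := L.le l h2
  have : (m : ℤ) * ev K x (A.get 0 l) ≤ 0 := mul_nonpos_of_nonneg_of_nonpos (by positivity) this
  omega

theorem far_sound (L : Lit K x A τ) (c : ℕ → Bool) (n : ℕ) : ∀ y acc C w : ℕ,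
    far K A c n y acc C = true → Bd acc w → w + n * 1048576 < 4294967296 →
    (Cl τ C ∨ ev K x acc ≤ 0) → ∃ C', c C' = true ∧ Cl τ C' := by
  induction n with
  | zero =>
    intro y acc C w h _ _ h3
    obtain ⟨h1, h2⟩ := bool_rec h
    have := fin_sound x h1
    rcases h3 with h3 | h3
    · exact ⟨C, h2, h3⟩
    · omega
  | succ n ih =>
    intro y acc C w h h1 h2 h3
    have e : far K A c (n + 1) y acc C = far K A c n (Nat.shiftRight y 32)
        (Nat.add acc (Nat.mul (Nat.mod (Nat.shiftRight y 16) 65536) (A.get 0 (Nat.mod y 65536))))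
        (Nat.lor C (Nat.shiftLeft 1 (Nat.xor (Nat.mod y 65536) 1))) := by
      simp only [far, frc_eq]
      try rfl
    rw [e] at h
    obtain ⟨b1, b2⟩ := lin_step L h1 (by omega) (Nat.shiftRight y 16) (Nat.mod y 65536)
    refine ih _ _ _ _ h b1 (by omega) ?_
    rcases h3 with h3 | h3
    · exact Or.inl (h3.lor _)
    · by_cases ht : τ (Nat.mod y 65536)
      · exact Or.inr (b2 h3 ht)
      · exact Or.inl (Cl.one ((L.neg _).mpr ht) _)

theorem res_sound (hn : ∀ l, τ (Nat.xor l 1) ↔ ¬ τ l) {C D : ℕ} (hC : Cl τ C) (hD : Cl τ D)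
    (l : ℕ) : Cl τ (Nat.lor (Nat.xor C (Nat.shiftLeft 1 (Nat.xor l 1)))
      (Nat.xor D (Nat.shiftLeft 1 l))) := by
  obtain ⟨a, a1, a2⟩ := hC
  obtain ⟨b, b1, b2⟩ := hD
  by_cases h : Nat.xor l 1 = a
  · refine ⟨b, ?_, b2⟩
    have hb : l ≠ b := by
      rintro rfl
      exact (hn l).mp (h ▸ a2) b2
    change ((C ^^^ _) ||| (D ^^^ _)).testBit b = true
    rw [Nat.testBit_or, Nat.testBit_xor D, tb_shl]
    simp [hb, b1]
  · refine ⟨a, ?_, a2⟩
    change ((C ^^^ _) ||| (D ^^^ _)).testBit a = true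
    rw [Nat.testBit_or, Nat.testBit_xor C, tb_shl, a1, decide_eq_false h]
    rfl

theorem chain_sound (hn : ∀ l, τ (Nat.xor l 1) ↔ ¬ τ l) {T : Tr} (hT : ∀ j, Cl τ (T.get 3 j))
    (n : ℕ) : ∀ y C : ℕ, Cl τ C → Cl τ (chain T n y C) := by
  induction n with
  | zero => intro y C h; exact h
  | succ n ih =>
    intro y C h
    have e : chain T (n + 1) y C = chain T n (Nat.shiftRight y 32)
        (Nat.lor (Nat.xor C (Nat.shiftLeft 1 (Nat.xor (Nat.mod y 65536) 1)))
          (Nat.xor (T.get 3 (Nat.mod (Nat.shiftRight y 16) 65536))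
            (Nat.shiftLeft 1 (Nat.mod y 65536)))) := by
      simp only [chain, frc_eq]
      try rfl
    rw [e]
    exact ih _ _ (res_sound hn h (hT _) _)

theorem xor_xor (l : ℕ) : Nat.xor (Nat.xor l 1) 1 = l := by
  change l ^^^ 1 ^^^ 1 = l
  rw [Nat.xor_assoc]
  simp

theorem imp_sound (L : Lit K x A τ) {D y C : ℕ} {c : ℕ → Bool} (h : imp K A D y C c = true)
    (hD : Bd D 65536) : ∃ C', c C' = true ∧ ((Cl τ C ∨ ev K x D ≤ 0) → Cl τ C') := by
  unfold imp at h
  generalize Nat.mod y 65536 = l at h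
  cases l with
  | zero =>
    obtain ⟨h1, h2⟩ := bool_rec h
    have := fin_sound x h1
    refine ⟨C, h2, fun h3 => ?_⟩
    rcases h3 with h3 | h3
    · exact h3
    · omega
  | succ l =>
    obtain ⟨h1, h2⟩ := bool_rec h
    have h4 := fin_sound x h1
    refine ⟨_, h2, fun h3 => ?_⟩
    rcases h3 with h3 | h3
    · exact h3.lor _
    · obtain ⟨-, b2⟩ := lin_step L hD (by omega) (Nat.shiftRight y 16) (Nat.xor l 1)
      by_cases ht : τ l
      · exact Cl.one ht _
      · have := b2 h3 ((L.neg l).mpr ht)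
        omega

theorem imps_sound (L : Lit K x A τ) (c : ℕ → Bool) (Ds : List ℕ) : ∀ y C : ℕ,
    imps K A c Ds y C = true → (∀ D ∈ Ds, Bd D 65536) →
    (Cl τ C ∨ ∃ D ∈ Ds, ev K x D ≤ 0) → ∃ C', c C' = true ∧ Cl τ C' := by
  induction Ds with
  | nil =>
    intro y C h _ h3
    rcases h3 with h3 | ⟨D, h3, -⟩
    · exact ⟨C, h, h3⟩
    · cases h3
  | cons D Ds ih =>
    intro y C h h2 h3
    have e : imps K A c (D :: Ds) y C =
        imp K A D y C (fun C' => imps K A c Ds (Nat.shiftRight y 32) C') := by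
      simp only [imps, frc_eq]
      try rfl
    rw [e] at h
    obtain ⟨C', a1, a2⟩ := imp_sound L h (h2 D List.mem_cons_self)
    refine ih _ _ a1 (fun D hD => h2 D (List.mem_cons_of_mem _ hD)) ?_
    rcases h3 with h3 | ⟨D', h3, h4⟩
    · exact Or.inl (a2 (Or.inl h3))
    · rcases List.mem_cons.mp h3 with rfl | h3
      · exact Or.inl (a2 (Or.inr h4))
      · exact Or.inr ⟨D', h3, h4⟩

theorem nth_mem {α : Type} (l : List α) (d : α) : ∀ n, nth l d n = d ∨ nth l d n ∈ l := by
  induction l with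
  | nil => intro n; exact Or.inl rfl
  | cons a l ih =>
    intro n
    cases n with
    | zero => exact Or.inr List.mem_cons_self
    | succ n =>
      rcases ih n with h | h
      · exact Or.inl h
      · exact Or.inr (List.mem_cons_of_mem _ h)

theorem atoms_sound (hK : 0 < K) (x : ℕ → ℤ) (c : Tr → Bool) (L : List ℕ) : ∀ (i : ℕ) (A : Tr),
    atoms K c L i A = true → i % 2 = 0 → (∀ j, i ≤ j → A.get 0 j = 0) →
    (∀ j, Bd (A.get 0 j) 16) →
    (∀ j, j % 2 = 0 → ev K x (A.get 0 j) ≤ 0 ∨ ev K x (A.get 0 (j + 1)) ≤ 0) →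
    ∃ A, c A = true ∧ (∀ j, Bd (A.get 0 j) 16) ∧
      (∀ j, j % 2 = 0 → ev K x (A.get 0 j) ≤ 0 ∨ ev K x (A.get 0 (j + 1)) ≤ 0) := by
  induction L with
  | nil => intro i A h _ _ h3 h4; exact ⟨A, h, h3, h4⟩
  | cons y L ih =>
    intro i A h h1 h2 h3 h4
    have e : atoms K c (y :: L) i A = A.ins (cA K 0 (Nat.mod y 16) (Nat.shiftRight y 4)) i
        (fun A => A.ins (Nat.add (cA K 1 (Nat.mod y 16) (Nat.shiftRight y 4))
          (Nat.shiftLeft 1 (Nat.mul 64 K))) (i + 1) (fun A => atoms K c L (i + 2) A)) := by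
      simp only [atoms, frc_eq]
      try rfl
    rw [e] at h
    have hn : Nat.mod y 16 ≤ 15 := Nat.le_of_lt_succ (Nat.mod_lt y (by norm_num))
    obtain ⟨b1, b2, b3⟩ := cA_spec hK x _ hn (Nat.shiftRight y 4)
    generalize cA K 0 (Nat.mod y 16) (Nat.shiftRight y 4) = D0 at h b1 b3
    generalize cA K 1 (Nat.mod y 16) (Nat.shiftRight y 4) = D1 at h b2 b3
    rw [mul64, shl_one] at h
    have hw : Nat.mod y 16 + 1 < 4294967296 := by omega
    have b4 := b2.add (Bd.pow (2 * K)) hw
    have b5 := ev_add K x b2 (Bd.pow (2 * K)) hw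
    rw [ev_pow_one, b3] at b5
    obtain ⟨A1, a1, a2⟩ := Tr.ins_spec _ _ _ _ h
    obtain ⟨A2, a3, a4⟩ := Tr.ins_spec _ _ _ _ a1
    refine ih _ _ a3 (by omega) (fun j hj => ?_) (fun j => ?_) (fun j hj => ?_)
    · rcases a4 0 j with a5 | a5
      · rcases a2 0 j with a6 | a6
        · rw [a5, a6]; exact h2 j (by omega)
        · omega
      · omega
    · rcases a4 0 j with a5 | a5
      · rcases a2 0 j with a6 | a6
        · rw [a5, a6]; exact h3 j
        · rw [a5, a6.2]; exact b1.mono (by omega)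
      · rw [a5.2]; exact b4.mono (by omega)
    · by_cases hij : j = i
      · subst hij
        rcases a4 0 (j + 1) with a5 | a5
        · rcases a2 0 (j + 1) with a6 | a6
          · right; rw [a5, a6, h2 _ (by omega), ev_zero]
          · omega
        · rcases a4 0 j with a7 | a7
          · rcases a2 0 j with a6 | a6
            · left; rw [a7, a6, h2 _ (by omega), ev_zero]
            · rw [a7, a6.2, a5.2]
              change _ ∨ ev K x (D1 + _) ≤ 0
              omega
          · omega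
      · have e1 : A2.get 0 j = A.get 0 j := by
          rcases a4 0 j with a5 | a5
          · rcases a2 0 j with a6 | a6
            · rw [a5, a6]
            · omega
          · omega
        have e2 : A2.get 0 (j + 1) = A.get 0 (j + 1) := by
          rcases a4 0 (j + 1) with a5 | a5
          · rcases a2 0 (j + 1) with a6 | a6
            · rw [a5, a6]
            · omega
          · omega
        rw [e1, e2]
        exact h4 j hj

theorem lit_exists (h1 : ∀ j, Bd (A.get 0 j) 16)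
    (h2 : ∀ j, j % 2 = 0 → ev K x (A.get 0 j) ≤ 0 ∨ ev K x (A.get 0 (j + 1)) ≤ 0) :
    ∃ τ, Lit K x A τ := by
  refine ⟨fun l => (ev K x (A.get 0 (2 * (l / 2))) ≤ 0 ↔ l % 2 = 0), fun l => ?_, fun l h => ?_, h1⟩
  · rw [xor1_div, xor1_mod]
    rcases Nat.mod_two_eq_zero_or_one l with h | h <;> simp [h]
  · rcases Nat.mod_two_eq_zero_or_one l with h3 | h3
    · have e : 2 * (l / 2) = l := by omega
      rw [e] at h
      exact h.mpr h3
    · have e : 2 * (l / 2) + 1 = l := by omega
      rcases h2 (2 * (l / 2)) (by omega) with h4 | h4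
      · have := h.mp h4
        omega
      · rwa [e] at h4

end Pool.Agent.Lib.MP_1dd8f3_al
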