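import Mathlib.Data.Finset.Card
import Pool.Agent.Lib.MP_1dd8f3_al.Snd1

namespace Pool.Agent.Lib.MP_1dd8f3_al

noncomputable section

def anyF (fs : List ℕ) (m : ℕ) : Bool :=
  List.rec false (fun f _ r => Bool.rec r true (Nat.beq (Nat.land f m) f)) fs

def inc (D : ℕ → ℕ → Bool) (i : ℕ) (fs : List ℕ) (m k : ℕ) : Bool :=
  frc (Nat.lor m (Nat.shiftLeft 1 i)) fun m2 =>
    Bool.rec (Nat.rec false (fun k' _ => D m2 k') k) true (anyF fs m2)

def dfs (L : List (ℕ × ℕ × List ℕ)) : ℕ → ℕ → Bool :=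
  List.rec (motive := fun _ => ℕ → ℕ → Bool) (fun _ _ => true)
    (fun e _ D m k => Bool.rec (Bool.rec false (inc D e.2.1 e.2.2 m k) (D m k)) true
      (Nat.ble e.1 k)) L

def hd : List (ℕ × ℕ × List ℕ) → ℕ
  | [] => 0
  | e :: _ => e.1

def rd : List (ℕ × ℕ × List ℕ) → Bool
  | [] => true
  | e :: L => rd L && (Nat.ble (hd L + 1) e.1 || (Nat.ble (hd L) e.1 && inc (dfs L) e.2.1 e.2.2 0 e.1))

open Classical in
def cntL (P : ℕ → Prop) : List (ℕ × ℕ × List ℕ) → ℕ
  | [] => 0
  | e :: L => cntL P L + if P e.2.1 then 1 else 0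

def Ub (P : ℕ → Prop) : List (ℕ × ℕ × List ℕ) → Prop
  | [] => True
  | e :: L => cntL P (e :: L) ≤ e.1 ∧ Ub P L

def mkM : List ℕ → ℕ
  | [] => 0
  | i :: r => Nat.lor (mkM r) (Nat.shiftLeft 1 i)

def cmpL (L : List (ℕ × ℕ × List (List ℕ))) : List (ℕ × ℕ × List ℕ) :=
  L.map fun e => (e.1, e.2.1, e.2.2.map mkM)

def Imp (P : ℕ → Prop) : List ℕ → Prop
  | [] => False
  | i :: r => P i → Imp P r

def AI1 (P : ℕ → Prop) : List (List ℕ) → Prop
  | [] => True
  | c :: r => Imp P c ∧ AI1 P r

def AI (P : ℕ → Prop) : List (ℕ × ℕ × List (List ℕ)) → Prop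
  | [] => True
  | e :: r => AI1 P e.2.2 ∧ AI P r

end

def Sat (P : ℕ → Prop) (m : ℕ) : Prop := ∀ i, m.testBit i = true → P i

variable {P : ℕ → Prop}

theorem Sat.lor {m i : ℕ} (h : Sat P m) (hi : P i) : Sat P (Nat.lor m (Nat.shiftLeft 1 i)) := by
  intro j hj
  change (m ||| _).testBit j = true at hj
  rw [Nat.testBit_or, tb_shl, Bool.or_eq_true, decide_eq_true_eq] at hj
  rcases hj with hj | rfl
  exacts [h j hj, hi]

theorem imp_mk (c : List ℕ) (h : Imp P c) : ¬ Sat P (mkM c) := by
  induction c with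
  | nil => exact h.elim
  | cons i r ih =>
    intro h1
    refine ih (h (h1 i ?_)) (fun j hj => h1 j ?_)
    · change (mkM r ||| _).testBit i = true
      rw [Nat.testBit_or, tb_shl]
      simp
    · change (mkM r ||| _).testBit j = true
      rw [Nat.testBit_or, hj]
      rfl

theorem AI.spec {L : List (ℕ × ℕ × List (List ℕ))} (h : AI P L) :
    ∀ e ∈ cmpL L, ∀ f ∈ e.2.2, ¬ Sat P f := by
  induction L with
  | nil => intro e he; cases he
  | cons a L ih =>
    intro e he
    rcases List.mem_cons.mp he with rfl | he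
    · have h1 := h.1
      change ∀ f ∈ a.2.2.map mkM, ¬ Sat P f
      generalize a.2.2 = r at h1
      induction r with
      | nil => intro f hf; cases hf
      | cons c r ih =>
        intro f hf
        rcases List.mem_cons.mp hf with rfl | hf
        exacts [imp_mk c h1.1, ih h1.2 f hf]
    · exact ih h.2 e he

theorem anyF_sound {fs : List ℕ} {m : ℕ} (hF : ∀ f ∈ fs, ¬ Sat P f) (hm : Sat P m) :
    anyF fs m = false := by
  induction fs with
  | nil => rfl
  | cons f r ih =>
    change (Bool.rec (anyF r m) true (Nat.beq (Nat.land f m) f) : Bool) = false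
    cases h : Nat.beq (Nat.land f m) f with
    | false => exact ih fun f hf => hF f (List.mem_cons_of_mem _ hf)
    | true =>
      exfalso
      refine hF f List.mem_cons_self fun i hi => hm i ?_
      have e : f &&& m = f := Nat.eq_of_beq_eq_true h
      rw [← e, Nat.testBit_and, Bool.and_eq_true] at hi
      exact hi.2

theorem inc_sound {D : ℕ → ℕ → Bool} {i m k n : ℕ} {fs : List ℕ}
    (hD : ∀ m k, D m k = true → Sat P m → n ≤ k) (hF : ∀ f ∈ fs, ¬ Sat P f) (hm : Sat P m)
    (hi : P i) (h : inc D i fs m k = true) : n + 1 ≤ k := by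
  unfold inc at h
  rw [frc_eq, anyF_sound hF (hm.lor hi)] at h
  cases k with
  | zero => cases h
  | succ k => exact Nat.succ_le_succ (hD _ _ h (hm.lor hi))

theorem dfs_sound (L : List (ℕ × ℕ × List ℕ)) (hF : ∀ e ∈ L, ∀ f ∈ e.2.2, ¬ Sat P f)
    (hU : Ub P L) : ∀ m k, dfs L m k = true → Sat P m → cntL P L ≤ k := by
  induction L with
  | nil => intro m k _ _; exact Nat.zero_le _
  | cons e L ih =>
    intro m k h hm
    have ih := ih (fun e he => hF e (List.mem_cons_of_mem _ he)) hU.2
    change (Bool.rec (Bool.rec false (inc (dfs L) e.2.1 e.2.2 m k) (dfs L m k)) true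
      (Nat.ble e.1 k) : Bool) = true at h
    cases h1 : Nat.ble e.1 k with
    | true => exact hU.1.trans (Nat.le_of_ble_eq_true h1)
    | false =>
      rw [h1] at h
      obtain ⟨h2, h3⟩ := bool_rec h
      unfold cntL
      split
      · exact inc_sound ih (hF e List.mem_cons_self) hm ‹_› h3
      · exact ih m k h2 hm

theorem rd_sound (L : List (ℕ × ℕ × List ℕ)) (hF : ∀ e ∈ L, ∀ f ∈ e.2.2, ¬ Sat P f)
    (h : rd L = true) : Ub P L := by
  induction L with
  | nil => trivial
  | cons e L ih =>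
    simp only [rd, Bool.and_eq_true, Bool.or_eq_true, Nat.ble_eq] at h
    have hF' : ∀ e ∈ L, ∀ f ∈ e.2.2, ¬ Sat P f := fun e he => hF e (List.mem_cons_of_mem _ he)
    have hU := ih hF' h.1
    have h0 : cntL P L ≤ hd L := by
      cases L with
      | nil => exact le_rfl
      | cons a L => exact hU.1
    refine ⟨?_, hU⟩
    unfold cntL
    split
    · rcases h.2 with h1 | h1
      · omega
      · exact inc_sound (dfs_sound L hF' hU) (hF e List.mem_cons_self) (fun i hi => by simp at hi)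
          ‹_› h1.2
    · rcases h.2 with h1 | h1 <;> omega

theorem ex_finset {α : Type} (T : α → ℕ → Prop) (hT : ∀ i s t, T s i → T t i → s = t)
    (L : List (ℕ × ℕ × List ℕ)) : ∃ S : Finset α, S.card ≤ cntL (fun i => ∃ s, T s i) L ∧
      ∀ e ∈ L, ∀ s, T s e.2.1 → s ∈ S := by
  classical
  induction L with
  | nil => exact ⟨∅, le_rfl, fun e he => by cases he⟩
  | cons a L ih =>
    obtain ⟨S, h1, h2⟩ := ih
    unfold cntL
    split
    · obtain ⟨t, ht⟩ := ‹∃ s, T s a.2.1›
      refine ⟨insert t S, (Finset.card_insert_le _ _).trans (by omega), fun e he s hs => ?_⟩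
      rcases List.mem_cons.mp he with rfl | he
      · exact Finset.mem_insert.mpr (Or.inl (hT _ _ _ hs ht))
      · exact Finset.mem_insert_of_mem (h2 e he s hs)
    · refine ⟨S, by omega, fun e he s hs => ?_⟩
      rcases List.mem_cons.mp he with rfl | he
      · exact absurd (⟨s, hs⟩ : ∃ s, T s _) ‹_›
      · exact h2 e he s hs

end Pool.Agent.Lib.MP_1dd8f3_al
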