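import Pool.Agent.Lib.MP_1dd8f3_al.Cross
import Pool.Agent.Lib.MP_1dd8f3_al.Dfs

namespace Pool.Agent.Lib.MP_1dd8f3_al

variable {M : ℤ → Prop} {F g0 g1 g2 g3 g4 : ℤ}

def L0 : List (ℕ × ℕ × List (List ℕ)) := [
  (8, 24, []),
  (8, 23, [[24, 23]]),
  (8, 22, []),
  (8, 21, []),
  (8, 20, [[20, 22, 21], [23, 20, 22], [24, 20, 21]]),
  (7, 19, [[24, 19], [19, 20, 21]]),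
  (7, 18, [[18, 19], [18, 20, 21], [18, 20, 22], [18, 22, 21]]),
  (7, 17, [[18, 17], [23, 17], [17, 20, 22]]),
  (7, 16, [[17, 16, 21], [23, 16, 21], [24, 16, 21]]),
  (7, 15, [[15, 17], [15, 20, 22], [18, 20, 15, 16], [18, 22, 15, 16]]),
  (7, 14, [[15, 14], [19, 14], [14, 20, 21]]),
  (7, 13, [[14, 22, 13], [15, 22, 13], [19, 22, 13], [18, 20, 24, 13], [18, 21, 24, 13]]),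
  (7, 12, [[15, 12, 13], [24, 12, 13], [23, 12, 15, 16], [23, 12, 18, 21], [19, 22, 23, 12], [17, 16, 24, 12], [17, 21, 24, 12], [24, 12, 18, 22]]),
  (6, 11, [[14, 12, 11], [17, 16, 11], [18, 16, 11], [19, 16, 11], [14, 21, 11], [15, 21, 11], [16, 21, 11], [17, 21, 11], [23, 12, 11], [23, 11, 19, 13], [18, 20, 23, 11], [18, 22, 23, 11], [24, 13, 17, 11]]),
  (6, 10, [[17, 13, 10], [18, 13, 10], [19, 13, 10], [22, 13, 10], [19, 22, 10], [23, 22, 10], [24, 22, 10], [13, 10, 16, 11], [14, 10, 17, 16], [15, 16, 19, 10], [18, 20, 14, 10], [18, 21, 14, 10], [19, 10, 23, 12], [24, 12, 14, 10]]),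
  (5, 9, [[14, 9, 10], [15, 9, 16], [23, 9, 10], [24, 9, 16], [12, 11, 9, 10], [9, 16, 12, 13], [17, 11, 14, 9], [19, 13, 15, 9], [17, 21, 14, 9], [15, 9, 18, 21], [14, 9, 18, 22], [19, 22, 15, 9], [15, 9, 23, 11], [14, 9, 24, 13], [13, 12, 11, 21, 9], [10, 9, 16, 21, 12], [11, 12, 13, 22, 9], [16, 9, 10, 22, 12]]),
  (4, 8, [[12, 13, 8], [14, 12, 8], [17, 13, 8], [18, 12, 8], [19, 12, 8], [23, 13, 8], [24, 12, 8], [24, 13, 8], [13, 8, 16, 21], [20, 21, 12, 8], [24, 8, 14, 10], [15, 9, 24, 8], [15, 16, 24, 8], [24, 8, 17, 11], [24, 8, 18, 22], [9, 10, 13, 8, 11], [16, 11, 12, 8, 10], [8, 12, 11, 16, 20], [8, 13, 22, 20, 16], [22, 21, 16, 9, 8], [16, 21, 22, 10, 8]]),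
  (4, 7, [[15, 9, 7], [9, 7, 16], [14, 7, 16], [15, 7, 16], [17, 9, 7], [18, 7, 8], [18, 9, 7], [19, 7, 16], [23, 9, 7], [15, 7, 19, 10], [15, 7, 18, 21], [7, 16, 22, 13], [9, 7, 20, 22], [22, 21, 7, 8], [15, 7, 23, 11], [24, 12, 15, 7], [24, 13, 15, 7], [13, 10, 9, 7, 11], [12, 11, 16, 7, 10], [10, 9, 7, 8, 20], [11, 12, 8, 7, 20], [7, 9, 10, 13, 20], [13, 8, 7, 9, 21], [7, 8, 13, 10, 21], [7, 16, 21, 20, 13], [8, 7, 16, 11, 22], [16, 7, 8, 12, 22], [13, 22, 21, 11, 7], [21, 22, 13, 12, 7]]),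
  (4, 6, [[15, 6], [24, 6], [6, 7, 8], [6, 12, 13], [6, 9, 16], [6, 21, 11], [6, 22, 10], [6, 22, 21], [6, 8, 14, 9], [14, 10, 6, 7], [17, 11, 6, 7], [6, 8, 17, 16], [19, 10, 6, 8], [6, 7, 19, 13], [6, 7, 18, 20], [6, 8, 18, 20], [17, 21, 6, 7], [19, 22, 6, 8], [23, 11, 6, 8], [6, 7, 23, 12]]),
  (3, 5, [[6, 7, 5], [6, 8, 5], [7, 8, 5], [14, 8, 5], [15, 8, 5], [17, 8, 5], [19, 7, 5], [14, 20, 5], [23, 7, 5], [23, 20, 5], [24, 7, 5], [6, 5, 14, 9], [6, 5, 17, 16], [6, 5, 19, 13], [20, 5, 9, 10], [12, 11, 20, 5], [8, 5, 21, 11], [18, 21, 6, 5], [22, 10, 7, 5], [18, 22, 6, 5], [6, 5, 23, 12], [20, 5, 8, 13, 11], [20, 5, 7, 16, 10], [7, 5, 20, 21, 10], [21, 20, 5, 7, 12], [5, 20, 21, 16, 12], [22, 20, 5, 8, 9], [8, 5, 20, 22,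 11], [5, 20, 22, 13, 9], [9, 10, 22, 21, 5], [12, 11, 21, 22, 5]]),
  (3, 4, [[4, 6], [18, 4], [4, 7, 8], [4, 9, 10], [4, 12, 11], [4, 13, 10], [4, 12, 13], [4, 9, 16], [4, 16, 11], [4, 20, 5], [4, 22, 21], [15, 9, 4, 5], [4, 20, 15, 7], [17, 11, 4, 20], [17, 16, 4, 20], [19, 10, 4, 20], [19, 13, 4, 20], [4, 5, 19, 22], [24, 12, 4, 5], [4, 20, 24, 8]]),
  (2, 3, [[6, 3, 11], [12, 3, 11], [15, 12, 3], [17, 12, 3], [18, 12, 3], [19, 3, 11], [23, 3, 11], [23, 12, 3], [24, 3, 11], [3, 11, 7, 5], [9, 7, 12, 3], [3, 11, 22, 10], [20, 22, 12, 3], [23, 3, 6, 8], [14, 9, 23, 3], [14, 10, 23, 3], [23, 3, 15, 16], [23, 3, 19, 13], [4, 20, 23, 3], [23, 3, 18, 21], [8, 7, 9, 10, 3], [3, 12, 8, 5, 9], [9, 7, 8, 13, 3], [3, 11, 16, 9, 5],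 [9, 16, 11, 3, 13], [10, 13, 12, 3, 16], [20, 21, 11, 3, 8], [20, 22, 13, 8, 3], [10, 22, 21, 16, 3]]),
  (2, 2, [[4, 3, 2], [6, 3, 2], [6, 2, 10], [9, 2, 10], [14, 9, 2], [14, 2, 10], [15, 2, 10], [17, 2, 10], [18, 3, 2], [18, 9, 2], [19, 9, 2], [24, 9, 2], [2, 10, 8, 5], [12, 8, 9, 2], [4, 5, 14, 2], [14, 2, 6, 7], [14, 2, 17, 16], [4, 20, 14, 2], [2, 10, 21, 11], [20, 21, 9, 2], [14, 2, 18, 22], [23, 11, 14, 2], [23, 12, 14, 2], [14, 2, 24, 13], [2, 9, 7, 5, 12], [2, 10, 13, 12, 5], [12, 8, 7, 16, 2], [11, 16, 9, 2, 13], [12, 13, 10, 2, 16], [20, 21, 16, 7, 2], [20, 22, 10, 2, 7], [11, 21, 22, 13, 2]]),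
  (2, 1, [[1, 4], [1, 14], [1, 23], [1, 3, 2], [1, 7, 8], [1, 9, 10], [1, 12, 11], [1, 13, 8], [1, 7, 16], [1, 20, 5], [1, 16, 21], [1, 22, 13], [1, 22, 21], [1, 2, 6, 5], [1, 3, 6, 5], [15, 7, 1, 2], [1, 3, 15, 9], [17, 16, 1, 3], [19, 13, 1, 2]]),
  (1, 0, [[1, 0, 2], [1, 3, 0], [3, 0, 2], [4, 0, 5], [14, 3, 0], [15, 3, 0], [17, 0, 2], [17, 0, 5], [18, 0, 5], [19, 3, 0], [19, 0, 5], [4, 20, 0], [20, 0, 5], [6, 20, 0], [15, 20, 0], [23, 0, 2], [24, 0, 2], [24, 20, 0], [6, 7, 1, 0], [6, 8, 1, 0], [13, 8, 0, 2], [0, 5, 13, 10], [4, 0, 15, 7], [0, 5, 16, 11], [1, 0, 17, 11], [1, 0, 19, 10], [8, 5, 0, 3, 10]])]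

def L1 : List (ℕ × ℕ × List ℕ) := [
  (8, 24, []),
  (8, 23, [25165824]),
  (8, 22, []),
  (8, 21, []),
  (8, 20, [7340032, 13631488, 19922944]),
  (7, 19, [17301504, 3670016]),
  (7, 18, [786432, 3407872, 5505024, 6553600]),
  (7, 17, [393216, 8519680, 5373952]),
  (7, 16, [2293760, 10551296, 18939904]),
  (7, 15, [163840, 5275648, 1409024, 4554752]),
  (7, 14, [49152, 540672, 3162112]),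
  (7, 13, [4218880, 4235264, 4726784, 18096128, 19144704]),
  (7, 12, [45056, 16789504, 8491008, 10752000, 13111296, 16977920, 19009536, 21237760]),
  (6, 11, [22528, 198656, 329728, 591872, 2115584, 2131968, 2164736, 2230272, 8394752, 8923136, 9701376, 12847104, 16918528]),
  (6, 10, [140288, 271360, 533504, 4203520, 4719616, 12583936, 20972544, 76800, 214016, 623616, 1328128, 2376704, 8918016, 16798720]),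
  (5, 9, [17920, 98816, 8390144, 16843264, 7680, 78336, 150016, 565760, 2245120, 2392576, 4473344, 4751872, 8423936, 16802304, 2112000, 2168320, 4209152, 4265472]),
  (4, 8, [12544, 20736, 139520, 266496, 528640, 8397056, 16781568, 16785664, 2171136, 3150080, 16794880, 16810752, 16875776, 16910592, 21233920, 12032, 72960, 1120512, 5316864, 6357760, 6358272]),
  (4, 7, [33408, 66176, 82048, 98432, 131712, 262528, 262784, 589952, 8389248, 558208, 2392192, 4268160, 5243520, 6291840, 8423552, 16814208, 16818304, 11904, 72832, 1050496, 1055104, 1058432, 2106240, 2106752, 3219584, 4262272, 4264320, 6301824, 6303872]),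
  (4, 6, [32832, 16777280, 448, 12352, 66112, 2099264, 4195392, 6291520, 17216, 17600, 133312, 196928, 525632, 532672, 1310912, 1311040, 2228416, 4718912, 8390976, 8392896]),
  (3, 5, [224, 352, 416, 16672, 33056, 131360, 524448, 1064992, 8388768, 9437216, 16777376, 16992, 196704, 532576, 1050144, 1054752, 2099488, 2359392, 4195488, 4456544, 8392800, 1059104, 1115296, 3146912, 3149984, 3215392, 5243680, 5245216, 5251616, 6293024, 6297632]),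
  (3, 4, [80, 262160, 400, 1552, 6160, 9232, 12304, 66064, 67600, 1048624, 6291472, 33328, 1081488, 1181712, 1245200, 1573904, 1581072, 4718640, 16781360, 17826064]),
  (2, 3, [2120, 6152, 36872, 135176, 266248, 526344, 8390664, 8392712, 16779272, 2216, 4744, 4197384, 5246984, 8388936, 8405512, 8406024, 8486920, 8921096, 9437208, 10747912, 1928, 4904, 9096, 68136, 76296, 78856, 3148040, 5251336, 6358024]),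
  (2, 2, [28, 76, 1092, 1540, 16900, 17412, 33796, 132100, 262156, 262660, 524804, 16777732, 1316, 4868, 16436, 16580, 212996, 1064980, 2100228, 3146244, 4472836, 8407044, 8409092, 16801796, 4772, 13348, 70020, 76292, 78852, 3211396, 5244036, 6301700]),
  (2, 1, [18, 16386, 8388610, 14, 386, 1538, 6146, 8450, 65666, 1048610, 2162690, 4202498, 6291458, 102, 106, 32902, 33290, 196618, 532486]),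
  (1, 0, [7, 11, 13, 49, 16393, 32777, 131077, 131105, 262177, 524297, 524321, 1048593, 1048609, 1048641, 1081345, 8388613, 16777221, 17825793, 195, 323, 8453, 9249, 32913, 67617, 133123, 525315, 1321])]

theorem L01 : cmpL L0 = L1 := by decide +kernel

theorem rdL : rd L1 = true := by decide +kernel

noncomputable def TT (M : ℤ → Prop) (g0 g1 g2 g3 g4 s : ℤ) : ℕ → Prop := nth [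
  IsE M s g0 g4 g1 g3 g2,
  IsH M s g0 g4 g1 g2 g3,
  IsE M s g0 g4 g2 g3 g1,
  IsE M s g0 g4 g1 g2 g3,
  IsH M s g1 g3 g0 g2 g4,
  IsE M s g1 g3 g2 g4 g0,
  IsH M s g2 g4 g0 g1 g3,
  IsE M s g0 g1 g2 g4 g3,
  IsE M s g0 g3 g2 g4 g1,
  IsE M s g0 g1 g2 g3 g4,
  IsE M s g1 g4 g2 g3 g0,
  IsE M s g1 g2 g3 g4 g0,
  IsE M s g0 g3 g1 g2 g4,
  IsE M s g0 g3 g1 g4 g2,
  IsH M s g2 g3 g0 g1 g4,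
  IsH M s g0 g1 g2 g3 g4,
  IsE M s g0 g1 g3 g4 g2,
  IsH M s g3 g4 g0 g1 g2,
  IsH M s g0 g2 g1 g3 g4,
  IsH M s g1 g4 g0 g2 g3,
  IsE M s g0 g2 g1 g3 g4,
  IsE M s g0 g2 g3 g4 g1,
  IsE M s g0 g2 g1 g4 g3,
  IsH M s g1 g2 g0 g3 g4,
  IsH M s g0 g3 g1 g2 g4] False

theorem z25165824 (c : Ctx M F g0 g1 g2 g3 g4) : (∃ s, IsH M s g0 g3 g1 g2 g4) → (∃ s, IsH M s g1 g2 g0 g3 g4) → False :=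
  fun ⟨_, h0⟩ ⟨_, h1⟩ => f1 c.s23.s12 h0 h1

theorem z7340032 (c : Ctx M F g0 g1 g2 g3 g4) : (∃ s, IsE M s g0 g2 g1 g3 g4) → (∃ s, IsE M s g0 g2 g1 g4 g3) → (∃ s, IsE M s g0 g2 g3 g4 g1) → False :=
  fun ⟨_, h0⟩ ⟨_, h1⟩ ⟨_, h2⟩ => d2 c.s12 h0 h1 h2

theorem z13631488 (c : Ctx M F g0 g1 g2 g3 g4) : (∃ s, IsH M s g1 g2 g0 g3 g4) → (∃ s, IsE M s g0 g2 g1 g3 g4) → (∃ s, IsE M s g0 g2 g1 g4 g3) → False :=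
  fun ⟨_, h0⟩ ⟨_, h1⟩ ⟨_, h2⟩ => f3 c.s12.s01.s12 h0.s01 h1.s01 h2.s01

theorem z19922944 (c : Ctx M F g0 g1 g2 g3 g4) : (∃ s, IsH M s g0 g3 g1 g2 g4) → (∃ s, IsE M s g0 g2 g1 g3 g4) → (∃ s, IsE M s g0 g2 g3 g4 g1) → False :=
  fun ⟨_, h0⟩ ⟨_, h1⟩ ⟨_, h2⟩ => f3 c.s23.s12.s23 h0.s23 h1.s23 h2

theorem z17301504 (c : Ctx M F g0 g1 g2 g3 g4) : (∃ s, IsH M s g0 g3 g1 g2 g4) → (∃ s, IsH M s g1 g4 g0 g2 g3) → False :=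
  fun ⟨_, h0⟩ ⟨_, h1⟩ => f1 c.s23.s12.s34 h0.s34 h1.s34

theorem z3670016 (c : Ctx M F g0 g1 g2 g3 g4) : (∃ s, IsH M s g1 g4 g0 g2 g3) → (∃ s, IsE M s g0 g2 g1 g3 g4) → (∃ s, IsE M s g0 g2 g3 g4 g1) → False :=
  fun ⟨_, h0⟩ ⟨_, h1⟩ ⟨_, h2⟩ => f5 c.s01.s34.s23.s12.s34.s23 h0.s34.s23 h1.fl h2.fl.s01

theorem z786432 (c : Ctx M F g0 g1 g2 g3 g4) : (∃ s, IsH M s g0 g2 g1 g3 g4) → (∃ s, IsH M s g1 g4 g0 g2 g3) → False :=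
  fun ⟨_, h0⟩ ⟨_, h1⟩ => f1 c.s12.s34 h0.s34 h1

theorem z3407872 (c : Ctx M F g0 g1 g2 g3 g4) : (∃ s, IsH M s g0 g2 g1 g3 g4) → (∃ s, IsE M s g0 g2 g1 g3 g4) → (∃ s, IsE M s g0 g2 g3 g4 g1) → False :=
  fun ⟨_, h0⟩ ⟨_, h1⟩ ⟨_, h2⟩ => d1 c.s12.s23 h0.s23 h1.s23 h2

theorem z5505024 (c : Ctx M F g0 g1 g2 g3 g4) : (∃ s, IsH M s g0 g2 g1 g3 g4) → (∃ s, IsE M s g0 g2 g1 g3 g4) → (∃ s, IsE M s g0 g2 g1 g4 g3) → False :=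
  fun ⟨_, h0⟩ ⟨_, h1⟩ ⟨_, h2⟩ => d1 c.s12 h0 h1 h2

theorem z6553600 (c : Ctx M F g0 g1 g2 g3 g4) : (∃ s, IsH M s g0 g2 g1 g3 g4) → (∃ s, IsE M s g0 g2 g1 g4 g3) → (∃ s, IsE M s g0 g2 g3 g4 g1) → False :=
  fun ⟨_, h0⟩ ⟨_, h1⟩ ⟨_, h2⟩ => d1 c.s12.s34.s23 h0.s34.s23 h1.s23 h2.s23

theorem z393216 (c : Ctx M F g0 g1 g2 g3 g4) : (∃ s, IsH M s g0 g2 g1 g3 g4) → (∃ s, IsH M s g3 g4 g0 g1 g2) → False :=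
  fun ⟨_, h0⟩ ⟨_, h1⟩ => f1 c.s12.s23.s34 h0.s23.s34 h1.s34

theorem z8519680 (c : Ctx M F g0 g1 g2 g3 g4) : (∃ s, IsH M s g1 g2 g0 g3 g4) → (∃ s, IsH M s g3 g4 g0 g1 g2) → False :=
  fun ⟨_, h0⟩ ⟨_, h1⟩ => f1 c.s01.s12.s23.s34 h0.s23.s34 h1.s23.s34

theorem z5373952 (c : Ctx M F g0 g1 g2 g3 g4) : (∃ s, IsH M s g3 g4 g0 g1 g2) → (∃ s, IsE M s g0 g2 g1 g3 g4) → (∃ s, IsE M s g0 g2 g1 g4 g3) → False :=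
  fun ⟨_, h0⟩ ⟨_, h1⟩ ⟨_, h2⟩ => f5 c.s23.s12.s01.s34.s23.s12.s23 h0.s23 h1.fl.s01 h2.fl.s01

theorem z2293760 (c : Ctx M F g0 g1 g2 g3 g4) : (∃ s, IsH M s g3 g4 g0 g1 g2) → (∃ s, IsE M s g0 g1 g3 g4 g2) → (∃ s, IsE M s g0 g2 g3 g4 g1) → False :=
  fun ⟨_, h0⟩ ⟨_, h1⟩ ⟨_, h2⟩ => d1 c.s23.s12.s01.s34.s23.s12 h0 h1.fl h2.fl

theorem z10551296 (c : Ctx M F g0 g1 g2 g3 g4) : (∃ s, IsH M s g1 g2 g0 g3 g4) → (∃ s, IsE M s g0 g1 g3 g4 g2) → (∃ s, IsE M s g0 g2 g3 g4 g1) → False :=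
  fun ⟨_, h0⟩ ⟨_, h1⟩ ⟨_, h2⟩ => f5 c.s01.s12 h0 h1.s01 h2.s01

theorem z18939904 (c : Ctx M F g0 g1 g2 g3 g4) : (∃ s, IsH M s g0 g3 g1 g2 g4) → (∃ s, IsE M s g0 g1 g3 g4 g2) → (∃ s, IsE M s g0 g2 g3 g4 g1) → False :=
  fun ⟨_, h0⟩ ⟨_, h1⟩ ⟨_, h2⟩ => f3 c.s23.s12.s01.s34.s23 h0.s01.s34.s23 h1.fl h2.fl

theorem z163840 (c : Ctx M F g0 g1 g2 g3 g4) : (∃ s, IsH M s g0 g1 g2 g3 g4) → (∃ s, IsH M s g3 g4 g0 g1 g2) → False :=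
  fun ⟨_, h0⟩ ⟨_, h1⟩ => f1 c.s23.s34 h0.s23.s34 h1

theorem z5275648 (c : Ctx M F g0 g1 g2 g3 g4) : (∃ s, IsH M s g0 g1 g2 g3 g4) → (∃ s, IsE M s g0 g2 g1 g3 g4) → (∃ s, IsE M s g0 g2 g1 g4 g3) → False :=
  fun ⟨_, h0⟩ ⟨_, h1⟩ ⟨_, h2⟩ => f3 c h0 h1 h2

theorem z1409024 (c : Ctx M F g0 g1 g2 g3 g4) : (∃ s, IsH M s g0 g2 g1 g3 g4) → (∃ s, IsE M s g0 g2 g1 g3 g4) → (∃ s, IsH M s g0 g1 g2 g3 g4) → (∃ s, IsE M s g0 g1 g3 g4 g2) → False :=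
  fun ⟨_, h0⟩ ⟨_, h1⟩ ⟨_, h2⟩ ⟨_, h3⟩ => hh c.s12.s23 h0.s23 h1.s23 h2 h3

theorem z4554752 (c : Ctx M F g0 g1 g2 g3 g4) : (∃ s, IsH M s g0 g2 g1 g3 g4) → (∃ s, IsE M s g0 g2 g1 g4 g3) → (∃ s, IsH M s g0 g1 g2 g3 g4) → (∃ s, IsE M s g0 g1 g3 g4 g2) → False :=
  fun ⟨_, h0⟩ ⟨_, h1⟩ ⟨_, h2⟩ ⟨_, h3⟩ => hh c.s12.s34.s23 h0.s34.s23 h1.s23 h2.s34 h3.s23

theorem z49152 (c : Ctx M F g0 g1 g2 g3 g4) : (∃ s, IsH M s g0 g1 g2 g3 g4) → (∃ s, IsH M s g2 g3 g0 g1 g4) → False :=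
  fun ⟨_, h0⟩ ⟨_, h1⟩ => f1 c h0 h1

theorem z540672 (c : Ctx M F g0 g1 g2 g3 g4) : (∃ s, IsH M s g1 g4 g0 g2 g3) → (∃ s, IsH M s g2 g3 g0 g1 g4) → False :=
  fun ⟨_, h0⟩ ⟨_, h1⟩ => f1 c.s01.s34.s23.s12.s23.s34 h0.s23.s34 h1.s23.s34

theorem z3162112 (c : Ctx M F g0 g1 g2 g3 g4) : (∃ s, IsH M s g2 g3 g0 g1 g4) → (∃ s, IsE M s g0 g2 g1 g3 g4) → (∃ s, IsE M s g0 g2 g3 g4 g1) → False :=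
  fun ⟨_, h0⟩ ⟨_, h1⟩ ⟨_, h2⟩ => f3 c.s12.s01.s23.s12 h0 h1.s01.s23 h2.s01

theorem z4218880 (c : Ctx M F g0 g1 g2 g3 g4) : (∃ s, IsH M s g2 g3 g0 g1 g4) → (∃ s, IsE M s g0 g2 g1 g4 g3) → (∃ s, IsE M s g0 g3 g1 g4 g2) → False :=
  fun ⟨_, h0⟩ ⟨_, h1⟩ ⟨_, h2⟩ => f5 c.s12.s01.s23.s12 h0 h1.s01 h2.s01

theorem z4235264 (c : Ctx M F g0 g1 g2 g3 g4) : (∃ s, IsH M s g0 g1 g2 g3 g4) → (∃ s, IsE M s g0 g2 g1 g4 g3) → (∃ s, IsE M s g0 g3 g1 g4 g2) → False :=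
  fun ⟨_, h0⟩ ⟨_, h1⟩ ⟨_, h2⟩ => f3 c.s01.s34.s23 h0.s01.s34.s23 h1.fl h2.fl

theorem z4726784 (c : Ctx M F g0 g1 g2 g3 g4) : (∃ s, IsH M s g1 g4 g0 g2 g3) → (∃ s, IsE M s g0 g2 g1 g4 g3) → (∃ s, IsE M s g0 g3 g1 g4 g2) → False :=
  fun ⟨_, h0⟩ ⟨_, h1⟩ ⟨_, h2⟩ => d1 c.s01.s34.s23.s12 h0 h1.fl h2.fl

theorem z18096128 (c : Ctx M F g0 g1 g2 g3 g4) : (∃ s, IsH M s g0 g2 g1 g3 g4) → (∃ s, IsE M s g0 g2 g1 g3 g4) → (∃ s, IsH M s g0 g3 g1 g2 g4) → (∃ s, IsE M s g0 g3 g1 g4 g2) → False :=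
  fun ⟨_, h0⟩ ⟨_, h1⟩ ⟨_, h2⟩ ⟨_, h3⟩ => hh c.s12 h0 h1 h2.s23 h3

theorem z19144704 (c : Ctx M F g0 g1 g2 g3 g4) : (∃ s, IsH M s g0 g2 g1 g3 g4) → (∃ s, IsE M s g0 g2 g3 g4 g1) → (∃ s, IsH M s g0 g3 g1 g2 g4) → (∃ s, IsE M s g0 g3 g1 g4 g2) → False :=
  fun ⟨_, h0⟩ ⟨_, h1⟩ ⟨_, h2⟩ ⟨_, h3⟩ => hh c.s12.s34.s23.s34 h0.s34.s23.s34 h1.s23 h2.s23.s34 h3.s23

theorem z45056 (c : Ctx M F g0 g1 g2 g3 g4) : (∃ s, IsH M s g0 g1 g2 g3 g4) → (∃ s, IsE M s g0 g3 g1 g2 g4) → (∃ s, IsE M s g0 g3 g1 g4 g2) → False :=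
  fun ⟨_, h0⟩ ⟨_, h1⟩ ⟨_, h2⟩ => f3 c.s23 h0.s23 h1 h2

theorem z16789504 (c : Ctx M F g0 g1 g2 g3 g4) : (∃ s, IsH M s g0 g3 g1 g2 g4) → (∃ s, IsE M s g0 g3 g1 g2 g4) → (∃ s, IsE M s g0 g3 g1 g4 g2) → False :=
  fun ⟨_, h0⟩ ⟨_, h1⟩ ⟨_, h2⟩ => d1 c.s23.s12 h0 h1 h2

theorem z8491008 (c : Ctx M F g0 g1 g2 g3 g4) : (∃ s, IsH M s g1 g2 g0 g3 g4) → (∃ s, IsE M s g0 g3 g1 g2 g4) → (∃ s, IsH M s g0 g1 g2 g3 g4) → (∃ s, IsE M s g0 g1 g3 g4 g2) → False :=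
  fun ⟨_, h0⟩ ⟨_, h1⟩ ⟨_, h2⟩ ⟨_, h3⟩ => hh c.s01.s12.s23 h0.s23 h1.fl.s23 h2.s01 h3.s01

theorem z10752000 (c : Ctx M F g0 g1 g2 g3 g4) : (∃ s, IsH M s g1 g2 g0 g3 g4) → (∃ s, IsE M s g0 g3 g1 g2 g4) → (∃ s, IsH M s g0 g2 g1 g3 g4) → (∃ s, IsE M s g0 g2 g3 g4 g1) → False :=
  fun ⟨_, h0⟩ ⟨_, h1⟩ ⟨_, h2⟩ ⟨_, h3⟩ => hh c.s12.s01.s12.s23 h0.s01.s23 h1.fl.s01.s23 h2.s01 h3.s01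

theorem z13111296 (c : Ctx M F g0 g1 g2 g3 g4) : (∃ s, IsH M s g1 g4 g0 g2 g3) → (∃ s, IsE M s g0 g2 g1 g4 g3) → (∃ s, IsH M s g1 g2 g0 g3 g4) → (∃ s, IsE M s g0 g3 g1 g2 g4) → False :=
  fun ⟨_, h0⟩ ⟨_, h1⟩ ⟨_, h2⟩ ⟨_, h3⟩ => hh c.s01.s34.s23.s12 h0 h1.fl h2.s34.s23 h3.fl

theorem z16977920 (c : Ctx M F g0 g1 g2 g3 g4) : (∃ s, IsH M s g3 g4 g0 g1 g2) → (∃ s, IsE M s g0 g1 g3 g4 g2) → (∃ s, IsH M s g0 g3 g1 g2 g4) → (∃ s, IsE M s g0 g3 g1 g2 g4) → False :=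
  fun ⟨_, h0⟩ ⟨_, h1⟩ ⟨_, h2⟩ ⟨_, h3⟩ => hh c.s23.s12.s01.s34.s23.s12.s23 h0.s23 h1.fl.s23 h2.s01.s34.s23 h3.s01

theorem z19009536 (c : Ctx M F g0 g1 g2 g3 g4) : (∃ s, IsH M s g3 g4 g0 g1 g2) → (∃ s, IsE M s g0 g2 g3 g4 g1) → (∃ s, IsH M s g0 g3 g1 g2 g4) → (∃ s, IsE M s g0 g3 g1 g2 g4) → False :=
  fun ⟨_, h0⟩ ⟨_, h1⟩ ⟨_, h2⟩ ⟨_, h3⟩ => hh c.s23.s12.s01.s34.s23.s12.s34.s23 h0.s34.s23 h1.fl.s23 h2.s01.s34.s23.s34 h3.s01.s23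

theorem z21237760 (c : Ctx M F g0 g1 g2 g3 g4) : (∃ s, IsH M s g0 g3 g1 g2 g4) → (∃ s, IsE M s g0 g3 g1 g2 g4) → (∃ s, IsH M s g0 g2 g1 g3 g4) → (∃ s, IsE M s g0 g2 g1 g4 g3) → False :=
  fun ⟨_, h0⟩ ⟨_, h1⟩ ⟨_, h2⟩ ⟨_, h3⟩ => hh c.s23.s12 h0 h1 h2.s23 h3

theorem z22528 (c : Ctx M F g0 g1 g2 g3 g4) : (∃ s, IsH M s g2 g3 g0 g1 g4) → (∃ s, IsE M s g0 g3 g1 g2 g4) → (∃ s, IsE M s g1 g2 g3 g4 g0) → False :=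
  fun ⟨_, h0⟩ ⟨_, h1⟩ ⟨_, h2⟩ => f3 c.s12.s01.s23.s12.s23 h0.s23 h1.fl.s01.s23 h2.s01

theorem z198656 (c : Ctx M F g0 g1 g2 g3 g4) : (∃ s, IsH M s g3 g4 g0 g1 g2) → (∃ s, IsE M s g0 g1 g3 g4 g2) → (∃ s, IsE M s g1 g2 g3 g4 g0) → False :=
  fun ⟨_, h0⟩ ⟨_, h1⟩ ⟨_, h2⟩ => d1 c.s23.s12.s01.s34.s23.s12.s23 h0.s23 h1.fl.s23 h2.fl

theorem z329728 (c : Ctx M F g0 g1 g2 g3 g4) : (∃ s, IsH M s g0 g2 g1 g3 g4) → (∃ s, IsE M s g0 g1 g3 g4 g2) → (∃ s, IsE M s g1 g2 g3 g4 g0) → False :=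
  fun ⟨_, h0⟩ ⟨_, h1⟩ ⟨_, h2⟩ => f5 c.s12 h0 h1 h2.s01

theorem z591872 (c : Ctx M F g0 g1 g2 g3 g4) : (∃ s, IsH M s g1 g4 g0 g2 g3) → (∃ s, IsE M s g0 g1 g3 g4 g2) → (∃ s, IsE M s g1 g2 g3 g4 g0) → False :=
  fun ⟨_, h0⟩ ⟨_, h1⟩ ⟨_, h2⟩ => f3 c.s34.s23.s12.s01.s12.s34.s23 h0.s01.s34.s23 h1.fl.s01.s23 h2.fl.s01

theorem z2115584 (c : Ctx M F g0 g1 g2 g3 g4) : (∃ s, IsH M s g2 g3 g0 g1 g4) → (∃ s, IsE M s g0 g2 g3 g4 g1) → (∃ s, IsE M s g1 g2 g3 g4 g0) → False :=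
  fun ⟨_, h0⟩ ⟨_, h1⟩ ⟨_, h2⟩ => f3 c.s23.s12.s01.s23.s12.s34.s23 h0.s01.s34.s23 h1.fl.s23 h2.fl.s23

theorem z2131968 (c : Ctx M F g0 g1 g2 g3 g4) : (∃ s, IsH M s g0 g1 g2 g3 g4) → (∃ s, IsE M s g0 g2 g3 g4 g1) → (∃ s, IsE M s g1 g2 g3 g4 g0) → False :=
  fun ⟨_, h0⟩ ⟨_, h1⟩ ⟨_, h2⟩ => f5 c h0 h1 h2

theorem z2164736 (c : Ctx M F g0 g1 g2 g3 g4) : (∃ s, IsE M s g0 g1 g3 g4 g2) → (∃ s, IsE M s g0 g2 g3 g4 g1) → (∃ s, IsE M s g1 g2 g3 g4 g0) → False :=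
  fun ⟨_, h0⟩ ⟨_, h1⟩ ⟨_, h2⟩ => d2 c.s23.s12.s01.s34.s23.s12 h0.fl h1.fl h2.fl

theorem z2230272 (c : Ctx M F g0 g1 g2 g3 g4) : (∃ s, IsH M s g3 g4 g0 g1 g2) → (∃ s, IsE M s g0 g2 g3 g4 g1) → (∃ s, IsE M s g1 g2 g3 g4 g0) → False :=
  fun ⟨_, h0⟩ ⟨_, h1⟩ ⟨_, h2⟩ => d1 c.s23.s12.s01.s34.s23.s12.s34.s23 h0.s34.s23 h1.fl.s23 h2.fl.s23

theorem z8394752 (c : Ctx M F g0 g1 g2 g3 g4) : (∃ s, IsH M s g1 g2 g0 g3 g4) → (∃ s, IsE M s g0 g3 g1 g2 g4) → (∃ s, IsE M s g1 g2 g3 g4 g0) → False :=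
  fun ⟨_, h0⟩ ⟨_, h1⟩ ⟨_, h2⟩ => d1 c.s01.s12.s23 h0.s23 h1.fl.s23 h2

theorem z8923136 (c : Ctx M F g0 g1 g2 g3 g4) : (∃ s, IsH M s g1 g2 g0 g3 g4) → (∃ s, IsE M s g1 g2 g3 g4 g0) → (∃ s, IsH M s g1 g4 g0 g2 g3) → (∃ s, IsE M s g0 g3 g1 g4 g2) → False :=
  fun ⟨_, h0⟩ ⟨_, h1⟩ ⟨_, h2⟩ ⟨_, h3⟩ => hh c.s01.s12.s23.s34 h0.s23.s34 h1 h2.s23.s34 h3.fl.s23

theorem z9701376 (c : Ctx M F g0 g1 g2 g3 g4) : (∃ s, IsH M s g0 g2 g1 g3 g4) → (∃ s, IsE M s g0 g2 g1 g3 g4) → (∃ s, IsH M s g1 g2 g0 g3 g4) → (∃ s, IsE M s g1 g2 g3 g4 g0) → False :=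
  fun ⟨_, h0⟩ ⟨_, h1⟩ ⟨_, h2⟩ ⟨_, h3⟩ => hh c.s12.s01.s23 h0.s01.s23 h1.s01.s23 h2.s01 h3.s01

theorem z12847104 (c : Ctx M F g0 g1 g2 g3 g4) : (∃ s, IsH M s g0 g2 g1 g3 g4) → (∃ s, IsE M s g0 g2 g1 g4 g3) → (∃ s, IsH M s g1 g2 g0 g3 g4) → (∃ s, IsE M s g1 g2 g3 g4 g0) → False :=
  fun ⟨_, h0⟩ ⟨_, h1⟩ ⟨_, h2⟩ ⟨_, h3⟩ => hh c.s12.s01.s34.s23 h0.s01.s34.s23 h1.s01.s23 h2.s01.s34 h3.s01.s23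

theorem z16918528 (c : Ctx M F g0 g1 g2 g3 g4) : (∃ s, IsH M s g0 g3 g1 g2 g4) → (∃ s, IsE M s g0 g3 g1 g4 g2) → (∃ s, IsH M s g3 g4 g0 g1 g2) → (∃ s, IsE M s g1 g2 g3 g4 g0) → False :=
  fun ⟨_, h0⟩ ⟨_, h1⟩ ⟨_, h2⟩ ⟨_, h3⟩ => hh c.s23.s12.s01.s34 h0.s01.s34 h1.s01 h2 h3.fl

theorem z140288 (c : Ctx M F g0 g1 g2 g3 g4) : (∃ s, IsH M s g3 g4 g0 g1 g2) → (∃ s, IsE M s g0 g3 g1 g4 g2) → (∃ s, IsE M s g1 g4 g2 g3 g0) → False :=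
  fun ⟨_, h0⟩ ⟨_, h1⟩ ⟨_, h2⟩ => f3 c.s34.s23.s12.s01.s34.s23.s12.s23 h0.s01.s23 h1.fl.s01.s23 h2.s01.s23

theorem z271360 (c : Ctx M F g0 g1 g2 g3 g4) : (∃ s, IsH M s g0 g2 g1 g3 g4) → (∃ s, IsE M s g0 g3 g1 g4 g2) → (∃ s, IsE M s g1 g4 g2 g3 g0) → False :=
  fun ⟨_, h0⟩ ⟨_, h1⟩ ⟨_, h2⟩ => f5 c.s12.s23 h0.s23 h1 h2.fl

theorem z533504 (c : Ctx M F g0 g1 g2 g3 g4) : (∃ s, IsH M s g1 g4 g0 g2 g3) → (∃ s, IsE M s g0 g3 g1 g4 g2) → (∃ s, IsE M s g1 g4 g2 g3 g0) → False :=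
  fun ⟨_, h0⟩ ⟨_, h1⟩ ⟨_, h2⟩ => d1 c.s01.s34.s23.s12.s34.s23 h0.s34.s23 h1.fl.s23 h2.s23

theorem z4203520 (c : Ctx M F g0 g1 g2 g3 g4) : (∃ s, IsE M s g0 g2 g1 g4 g3) → (∃ s, IsE M s g0 g3 g1 g4 g2) → (∃ s, IsE M s g1 g4 g2 g3 g0) → False :=
  fun ⟨_, h0⟩ ⟨_, h1⟩ ⟨_, h2⟩ => d2 c.s01.s34.s23.s12 h0.fl h1.fl h2

theorem z4719616 (c : Ctx M F g0 g1 g2 g3 g4) : (∃ s, IsH M s g1 g4 g0 g2 g3) → (∃ s, IsE M s g0 g2 g1 g4 g3) → (∃ s, IsE M s g1 g4 g2 g3 g0) → False :=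
  fun ⟨_, h0⟩ ⟨_, h1⟩ ⟨_, h2⟩ => d1 c.s01.s34.s23.s12.s23 h0.s23 h1.fl.s23 h2

theorem z12583936 (c : Ctx M F g0 g1 g2 g3 g4) : (∃ s, IsH M s g1 g2 g0 g3 g4) → (∃ s, IsE M s g0 g2 g1 g4 g3) → (∃ s, IsE M s g1 g4 g2 g3 g0) → False :=
  fun ⟨_, h0⟩ ⟨_, h1⟩ ⟨_, h2⟩ => f3 c.s01.s12.s34.s23 h0.s34.s23 h1.fl.s23 h2

theorem z20972544 (c : Ctx M F g0 g1 g2 g3 g4) : (∃ s, IsH M s g0 g3 g1 g2 g4) → (∃ s, IsE M s g0 g2 g1 g4 g3) → (∃ s, IsE M s g1 g4 g2 g3 g0) → False :=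
  fun ⟨_, h0⟩ ⟨_, h1⟩ ⟨_, h2⟩ => f5 c.s23.s12.s23 h0.s23 h1 h2.fl.s01

theorem z76800 (c : Ctx M F g0 g1 g2 g3 g4) : (∃ s, IsE M s g0 g3 g1 g4 g2) → (∃ s, IsE M s g1 g4 g2 g3 g0) → (∃ s, IsE M s g0 g1 g3 g4 g2) → (∃ s, IsE M s g1 g2 g3 g4 g0) → False :=
  fun ⟨_, h0⟩ ⟨_, h1⟩ ⟨_, h2⟩ ⟨_, h3⟩ => f10 c.s34.s23.s12.s01.s12.s34.s23 h0.fl.s01.s23 h1.s01.s23 h2.fl.s01.s23 h3.fl.s01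

theorem z214016 (c : Ctx M F g0 g1 g2 g3 g4) : (∃ s, IsH M s g2 g3 g0 g1 g4) → (∃ s, IsE M s g1 g4 g2 g3 g0) → (∃ s, IsH M s g3 g4 g0 g1 g2) → (∃ s, IsE M s g0 g1 g3 g4 g2) → False :=
  fun ⟨_, h0⟩ ⟨_, h1⟩ ⟨_, h2⟩ ⟨_, h3⟩ => hh c.s23.s12.s01.s23.s12.s23.s34 h0.s01.s23.s34 h1.fl.s01 h2.s34.s23.s34 h3.fl.s23

theorem z623616 (c : Ctx M F g0 g1 g2 g3 g4) : (∃ s, IsH M s g0 g1 g2 g3 g4) → (∃ s, IsE M s g0 g1 g3 g4 g2) → (∃ s, IsH M s g1 g4 g0 g2 g3) → (∃ s, IsE M s g1 g4 g2 g3 g0) → False :=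
  fun ⟨_, h0⟩ ⟨_, h1⟩ ⟨_, h2⟩ ⟨_, h3⟩ => hh c.s01.s23.s34 h0.s01.s23.s34 h1.s01 h2.s34 h3.s23

theorem z1328128 (c : Ctx M F g0 g1 g2 g3 g4) : (∃ s, IsH M s g0 g2 g1 g3 g4) → (∃ s, IsE M s g0 g2 g1 g3 g4) → (∃ s, IsH M s g2 g3 g0 g1 g4) → (∃ s, IsE M s g1 g4 g2 g3 g0) → False :=
  fun ⟨_, h0⟩ ⟨_, h1⟩ ⟨_, h2⟩ ⟨_, h3⟩ => hh c.s12.s01 h0.s01 h1.s01 h2 h3.fl

theorem z2376704 (c : Ctx M F g0 g1 g2 g3 g4) : (∃ s, IsH M s g0 g2 g1 g3 g4) → (∃ s, IsE M s g0 g2 g3 g4 g1) → (∃ s, IsH M s g2 g3 g0 g1 g4) → (∃ s, IsE M s g1 g4 g2 g3 g0) → False :=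
  fun ⟨_, h0⟩ ⟨_, h1⟩ ⟨_, h2⟩ ⟨_, h3⟩ => hh c.s12.s01.s34.s23.s34 h0.s01.s34.s23.s34 h1.s01.s23 h2.s34 h3.fl.s23

theorem z8918016 (c : Ctx M F g0 g1 g2 g3 g4) : (∃ s, IsH M s g1 g4 g0 g2 g3) → (∃ s, IsE M s g1 g4 g2 g3 g0) → (∃ s, IsH M s g1 g2 g0 g3 g4) → (∃ s, IsE M s g0 g3 g1 g2 g4) → False :=
  fun ⟨_, h0⟩ ⟨_, h1⟩ ⟨_, h2⟩ ⟨_, h3⟩ => hh c.s01.s34.s23.s12.s34.s23.s34 h0.s34.s23.s34 h1.s23 h2.s34.s23.s34 h3.fl.s23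

theorem z16798720 (c : Ctx M F g0 g1 g2 g3 g4) : (∃ s, IsH M s g0 g3 g1 g2 g4) → (∃ s, IsE M s g0 g3 g1 g2 g4) → (∃ s, IsH M s g2 g3 g0 g1 g4) → (∃ s, IsE M s g1 g4 g2 g3 g0) → False :=
  fun ⟨_, h0⟩ ⟨_, h1⟩ ⟨_, h2⟩ ⟨_, h3⟩ => hh c.s23.s12.s01 h0.s01 h1.s01 h2.s01 h3.fl.s01

theorem z17920 (c : Ctx M F g0 g1 g2 g3 g4) : (∃ s, IsH M s g2 g3 g0 g1 g4) → (∃ s, IsE M s g0 g1 g2 g3 g4) → (∃ s, IsE M s g1 g4 g2 g3 g0) → False :=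
  fun ⟨_, h0⟩ ⟨_, h1⟩ ⟨_, h2⟩ => d1 c.s12.s01.s23.s12.s23 h0.s23 h1.fl.s23 h2.fl

theorem z98816 (c : Ctx M F g0 g1 g2 g3 g4) : (∃ s, IsH M s g0 g1 g2 g3 g4) → (∃ s, IsE M s g0 g1 g2 g3 g4) → (∃ s, IsE M s g0 g1 g3 g4 g2) → False :=
  fun ⟨_, h0⟩ ⟨_, h1⟩ ⟨_, h2⟩ => d1 c.s23 h0.s23 h1.s23 h2

theorem z8390144 (c : Ctx M F g0 g1 g2 g3 g4) : (∃ s, IsH M s g1 g2 g0 g3 g4) → (∃ s, IsE M s g0 g1 g2 g3 g4) → (∃ s, IsE M s g1 g4 g2 g3 g0) → False :=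
  fun ⟨_, h0⟩ ⟨_, h1⟩ ⟨_, h2⟩ => f3 c.s12.s01.s12.s23 h0.s01.s23 h1.fl.s23 h2.fl

theorem z16843264 (c : Ctx M F g0 g1 g2 g3 g4) : (∃ s, IsH M s g0 g3 g1 g2 g4) → (∃ s, IsE M s g0 g1 g2 g3 g4) → (∃ s, IsE M s g0 g1 g3 g4 g2) → False :=
  fun ⟨_, h0⟩ ⟨_, h1⟩ ⟨_, h2⟩ => f3 c.s23.s12 h0 h1.s23 h2

theorem z7680 (c : Ctx M F g0 g1 g2 g3 g4) : (∃ s, IsE M s g0 g3 g1 g2 g4) → (∃ s, IsE M s g1 g2 g3 g4 g0) → (∃ s, IsE M s g0 g1 g2 g3 g4) → (∃ s, IsE M s g1 g4 g2 g3 g0) → False :=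
  fun ⟨_, h0⟩ ⟨_, h1⟩ ⟨_, h2⟩ ⟨_, h3⟩ => f10 c.s12.s01.s12.s23 h0.fl.s01.s23 h1.s01 h2.fl.s23 h3.fl

theorem z78336 (c : Ctx M F g0 g1 g2 g3 g4) : (∃ s, IsE M s g0 g1 g2 g3 g4) → (∃ s, IsE M s g0 g1 g3 g4 g2) → (∃ s, IsE M s g0 g3 g1 g2 g4) → (∃ s, IsE M s g0 g3 g1 g4 g2) → False :=
  fun ⟨_, h0⟩ ⟨_, h1⟩ ⟨_, h2⟩ ⟨_, h3⟩ => f10 c.s23 h0.s23 h1 h2 h3

theorem z150016 (c : Ctx M F g0 g1 g2 g3 g4) : (∃ s, IsH M s g3 g4 g0 g1 g2) → (∃ s, IsE M s g1 g2 g3 g4 g0) → (∃ s, IsH M s g2 g3 g0 g1 g4) → (∃ s, IsE M s g0 g1 g2 g3 g4) → False :=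
  fun ⟨_, h0⟩ ⟨_, h1⟩ ⟨_, h2⟩ ⟨_, h3⟩ => hh c.s23.s12.s01.s34.s23.s12.s23.s34 h0.s23.s34 h1.fl h2.s01.s34.s23.s34 h3.fl.s01.s23

theorem z565760 (c : Ctx M F g0 g1 g2 g3 g4) : (∃ s, IsH M s g1 g4 g0 g2 g3) → (∃ s, IsE M s g0 g3 g1 g4 g2) → (∃ s, IsH M s g0 g1 g2 g3 g4) → (∃ s, IsE M s g0 g1 g2 g3 g4) → False :=
  fun ⟨_, h0⟩ ⟨_, h1⟩ ⟨_, h2⟩ ⟨_, h3⟩ => hh c.s01.s34.s23.s12.s34.s23 h0.s34.s23 h1.fl.s23 h2.s01.s34.s23.s34 h3.s01.s23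

theorem z2245120 (c : Ctx M F g0 g1 g2 g3 g4) : (∃ s, IsH M s g3 g4 g0 g1 g2) → (∃ s, IsE M s g0 g2 g3 g4 g1) → (∃ s, IsH M s g2 g3 g0 g1 g4) → (∃ s, IsE M s g0 g1 g2 g3 g4) → False :=
  fun ⟨_, h0⟩ ⟨_, h1⟩ ⟨_, h2⟩ ⟨_, h3⟩ => hh c.s23.s12.s01.s34.s23.s12.s34 h0.s34 h1.fl h2.s01.s34.s23 h3.fl.s01

theorem z2392576 (c : Ctx M F g0 g1 g2 g3 g4) : (∃ s, IsH M s g0 g1 g2 g3 g4) → (∃ s, IsE M s g0 g1 g2 g3 g4) → (∃ s, IsH M s g0 g2 g1 g3 g4) → (∃ s, IsE M s g0 g2 g3 g4 g1) → False :=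
  fun ⟨_, h0⟩ ⟨_, h1⟩ ⟨_, h2⟩ ⟨_, h3⟩ => hh c.s23 h0.s23 h1.s23 h2 h3

theorem z4473344 (c : Ctx M F g0 g1 g2 g3 g4) : (∃ s, IsH M s g2 g3 g0 g1 g4) → (∃ s, IsE M s g0 g1 g2 g3 g4) → (∃ s, IsH M s g0 g2 g1 g3 g4) → (∃ s, IsE M s g0 g2 g1 g4 g3) → False :=
  fun ⟨_, h0⟩ ⟨_, h1⟩ ⟨_, h2⟩ ⟨_, h3⟩ => hh c.s12.s01.s23.s12.s23 h0.s23 h1.fl.s23 h2.s01.s23 h3.s01

theorem z4751872 (c : Ctx M F g0 g1 g2 g3 g4) : (∃ s, IsH M s g1 g4 g0 g2 g3) → (∃ s, IsE M s g0 g2 g1 g4 g3) → (∃ s, IsH M s g0 g1 g2 g3 g4) → (∃ s, IsE M s g0 g1 g2 g3 g4) → False :=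
  fun ⟨_, h0⟩ ⟨_, h1⟩ ⟨_, h2⟩ ⟨_, h3⟩ => hh c.s01.s34.s23.s12.s23 h0.s23 h1.fl.s23 h2.s01.s34.s23 h3.s01

theorem z8423936 (c : Ctx M F g0 g1 g2 g3 g4) : (∃ s, IsH M s g0 g1 g2 g3 g4) → (∃ s, IsE M s g0 g1 g2 g3 g4) → (∃ s, IsH M s g1 g2 g0 g3 g4) → (∃ s, IsE M s g1 g2 g3 g4 g0) → False :=
  fun ⟨_, h0⟩ ⟨_, h1⟩ ⟨_, h2⟩ ⟨_, h3⟩ => hh c.s01.s23 h0.s01.s23 h1.s01.s23 h2 h3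

theorem z16802304 (c : Ctx M F g0 g1 g2 g3 g4) : (∃ s, IsH M s g2 g3 g0 g1 g4) → (∃ s, IsE M s g0 g1 g2 g3 g4) → (∃ s, IsH M s g0 g3 g1 g2 g4) → (∃ s, IsE M s g0 g3 g1 g4 g2) → False :=
  fun ⟨_, h0⟩ ⟨_, h1⟩ ⟨_, h2⟩ ⟨_, h3⟩ => hh c.s23.s12.s01.s23.s12.s23 h0.s01.s23 h1.fl.s01.s23 h2.s01.s23 h3.s01

theorem z2112000 (c : Ctx M F g0 g1 g2 g3 g4) : (∃ s, IsE M s g0 g3 g1 g4 g2) → (∃ s, IsE M s g0 g3 g1 g2 g4) → (∃ s, IsE M s g1 g2 g3 g4 g0) → (∃ s, IsE M s g0 g2 g3 g4 g1) → (∃ s, IsE M s g0 g1 g2 g3 g4) → False :=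
  fun ⟨_, h0⟩ ⟨_, h1⟩ ⟨_, h2⟩ ⟨_, h3⟩ ⟨_, h4⟩ => f14 c.s23.s12 h0 h1 h2.fl h3 h4.s23

theorem z2168320 (c : Ctx M F g0 g1 g2 g3 g4) : (∃ s, IsE M s g1 g4 g2 g3 g0) → (∃ s, IsE M s g0 g1 g2 g3 g4) → (∃ s, IsE M s g0 g1 g3 g4 g2) → (∃ s, IsE M s g0 g2 g3 g4 g1) → (∃ s, IsE M s g0 g3 g1 g2 g4) → False :=
  fun ⟨_, h0⟩ ⟨_, h1⟩ ⟨_, h2⟩ ⟨_, h3⟩ ⟨_, h4⟩ => f14 c.s12.s01.s23.s12.s23 h0.fl h1.fl.s23 h2.fl.s23 h3.s01 h4.fl.s01.s23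

theorem z4209152 (c : Ctx M F g0 g1 g2 g3 g4) : (∃ s, IsE M s g1 g2 g3 g4 g0) → (∃ s, IsE M s g0 g3 g1 g2 g4) → (∃ s, IsE M s g0 g3 g1 g4 g2) → (∃ s, IsE M s g0 g2 g1 g4 g3) → (∃ s, IsE M s g0 g1 g2 g3 g4) → False :=
  fun ⟨_, h0⟩ ⟨_, h1⟩ ⟨_, h2⟩ ⟨_, h3⟩ ⟨_, h4⟩ => f14 c.s12.s01.s12.s23 h0.s01 h1.fl.s01.s23 h2.fl.s23 h3.s01 h4.fl.s23

theorem z4265472 (c : Ctx M F g0 g1 g2 g3 g4) : (∃ s, IsE M s g0 g1 g3 g4 g2) → (∃ s, IsE M s g0 g1 g2 g3 g4) → (∃ s, IsE M s g1 g4 g2 g3 g0) → (∃ s, IsE M s g0 g2 g1 g4 g3) → (∃ s, IsE M s g0 g3 g1 g2 g4) → False :=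
  fun ⟨_, h0⟩ ⟨_, h1⟩ ⟨_, h2⟩ ⟨_, h3⟩ ⟨_, h4⟩ => f14 c.s23 h0 h1.s23 h2.s23 h3 h4

theorem z12544 (c : Ctx M F g0 g1 g2 g3 g4) : (∃ s, IsE M s g0 g3 g1 g2 g4) → (∃ s, IsE M s g0 g3 g1 g4 g2) → (∃ s, IsE M s g0 g3 g2 g4 g1) → False :=
  fun ⟨_, h0⟩ ⟨_, h1⟩ ⟨_, h2⟩ => d2 c.s23.s12 h0 h1 h2

theorem z20736 (c : Ctx M F g0 g1 g2 g3 g4) : (∃ s, IsH M s g2 g3 g0 g1 g4) → (∃ s, IsE M s g0 g3 g1 g2 g4) → (∃ s, IsE M s g0 g3 g2 g4 g1) → False :=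
  fun ⟨_, h0⟩ ⟨_, h1⟩ ⟨_, h2⟩ => f3 c.s23.s12.s01.s23.s12 h0.s01 h1.s01.s23 h2.s01

theorem z139520 (c : Ctx M F g0 g1 g2 g3 g4) : (∃ s, IsH M s g3 g4 g0 g1 g2) → (∃ s, IsE M s g0 g3 g1 g4 g2) → (∃ s, IsE M s g0 g3 g2 g4 g1) → False :=
  fun ⟨_, h0⟩ ⟨_, h1⟩ ⟨_, h2⟩ => f3 c.s23.s12.s01.s34.s23.s12 h0 h1.s01.s23 h2.s01.s23

theorem z266496 (c : Ctx M F g0 g1 g2 g3 g4) : (∃ s, IsH M s g0 g2 g1 g3 g4) → (∃ s, IsE M s g0 g3 g1 g2 g4) → (∃ s, IsE M s g0 g3 g2 g4 g1) → False :=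
  fun ⟨_, h0⟩ ⟨_, h1⟩ ⟨_, h2⟩ => f3 c.s12.s23 h0.s23 h1.s23 h2

theorem z528640 (c : Ctx M F g0 g1 g2 g3 g4) : (∃ s, IsH M s g1 g4 g0 g2 g3) → (∃ s, IsE M s g0 g3 g1 g2 g4) → (∃ s, IsE M s g0 g3 g2 g4 g1) → False :=
  fun ⟨_, h0⟩ ⟨_, h1⟩ ⟨_, h2⟩ => f5 c.s01.s34.s23.s12.s23 h0.s23 h1.fl h2.fl.s01

theorem z8397056 (c : Ctx M F g0 g1 g2 g3 g4) : (∃ s, IsH M s g1 g2 g0 g3 g4) → (∃ s, IsE M s g0 g3 g1 g4 g2) → (∃ s, IsE M s g0 g3 g2 g4 g1) → False :=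
  fun ⟨_, h0⟩ ⟨_, h1⟩ ⟨_, h2⟩ => f5 c.s01.s12.s34.s23 h0.s34.s23 h1.fl h2.fl

theorem z16781568 (c : Ctx M F g0 g1 g2 g3 g4) : (∃ s, IsH M s g0 g3 g1 g2 g4) → (∃ s, IsE M s g0 g3 g1 g2 g4) → (∃ s, IsE M s g0 g3 g2 g4 g1) → False :=
  fun ⟨_, h0⟩ ⟨_, h1⟩ ⟨_, h2⟩ => d1 c.s23.s12.s23 h0.s23 h1.s23 h2

theorem z16785664 (c : Ctx M F g0 g1 g2 g3 g4) : (∃ s, IsH M s g0 g3 g1 g2 g4) → (∃ s, IsE M s g0 g3 g1 g4 g2) → (∃ s, IsE M s g0 g3 g2 g4 g1) → False :=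
  fun ⟨_, h0⟩ ⟨_, h1⟩ ⟨_, h2⟩ => d1 c.s23.s12.s34.s23 h0.s34.s23 h1.s23 h2.s23

theorem z2171136 (c : Ctx M F g0 g1 g2 g3 g4) : (∃ s, IsE M s g0 g3 g1 g4 g2) → (∃ s, IsE M s g0 g3 g2 g4 g1) → (∃ s, IsE M s g0 g1 g3 g4 g2) → (∃ s, IsE M s g0 g2 g3 g4 g1) → False :=
  fun ⟨_, h0⟩ ⟨_, h1⟩ ⟨_, h2⟩ ⟨_, h3⟩ => f10 c.s23.s12.s01.s34.s23 h0.s01.s23 h1.s01.s23 h2.fl h3.fl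

theorem z3150080 (c : Ctx M F g0 g1 g2 g3 g4) : (∃ s, IsE M s g0 g2 g1 g3 g4) → (∃ s, IsE M s g0 g2 g3 g4 g1) → (∃ s, IsE M s g0 g3 g1 g2 g4) → (∃ s, IsE M s g0 g3 g2 g4 g1) → False :=
  fun ⟨_, h0⟩ ⟨_, h1⟩ ⟨_, h2⟩ ⟨_, h3⟩ => f10 c.s12.s23 h0.s23 h1 h2.s23 h3

theorem z16794880 (c : Ctx M F g0 g1 g2 g3 g4) : (∃ s, IsH M s g0 g3 g1 g2 g4) → (∃ s, IsE M s g0 g3 g2 g4 g1) → (∃ s, IsH M s g2 g3 g0 g1 g4) → (∃ s, IsE M s g1 g4 g2 g3 g0) → False :=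
  fun ⟨_, h0⟩ ⟨_, h1⟩ ⟨_, h2⟩ ⟨_, h3⟩ => hh c.s23.s12.s01.s34.s23.s34 h0.s01.s34.s23.s34 h1.s01.s23 h2.s01.s34 h3.fl.s01.s23

theorem z16810752 (c : Ctx M F g0 g1 g2 g3 g4) : (∃ s, IsH M s g0 g1 g2 g3 g4) → (∃ s, IsE M s g0 g1 g2 g3 g4) → (∃ s, IsH M s g0 g3 g1 g2 g4) → (∃ s, IsE M s g0 g3 g2 g4 g1) → False :=
  fun ⟨_, h0⟩ ⟨_, h1⟩ ⟨_, h2⟩ ⟨_, h3⟩ => hh c h0 h1 h2 h3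

theorem z16875776 (c : Ctx M F g0 g1 g2 g3 g4) : (∃ s, IsH M s g0 g1 g2 g3 g4) → (∃ s, IsE M s g0 g1 g3 g4 g2) → (∃ s, IsH M s g0 g3 g1 g2 g4) → (∃ s, IsE M s g0 g3 g2 g4 g1) → False :=
  fun ⟨_, h0⟩ ⟨_, h1⟩ ⟨_, h2⟩ ⟨_, h3⟩ => hh c.s34.s23.s34 h0.s34.s23.s34 h1.s23 h2.s34 h3.s23

theorem z16910592 (c : Ctx M F g0 g1 g2 g3 g4) : (∃ s, IsH M s g0 g3 g1 g2 g4) → (∃ s, IsE M s g0 g3 g2 g4 g1) → (∃ s, IsH M s g3 g4 g0 g1 g2) → (∃ s, IsE M s g1 g2 g3 g4 g0) → False :=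
  fun ⟨_, h0⟩ ⟨_, h1⟩ ⟨_, h2⟩ ⟨_, h3⟩ => hh c.s23.s12.s01.s23.s34 h0.s01.s23.s34 h1.s01 h2.s34 h3.fl.s23

theorem z21233920 (c : Ctx M F g0 g1 g2 g3 g4) : (∃ s, IsH M s g0 g3 g1 g2 g4) → (∃ s, IsE M s g0 g3 g2 g4 g1) → (∃ s, IsH M s g0 g2 g1 g3 g4) → (∃ s, IsE M s g0 g2 g1 g4 g3) → False :=
  fun ⟨_, h0⟩ ⟨_, h1⟩ ⟨_, h2⟩ ⟨_, h3⟩ => hh c.s23.s12.s34.s23.s34 h0.s34.s23.s34 h1.s23 h2.s23.s34 h3.s23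

theorem z12032 (c : Ctx M F g0 g1 g2 g3 g4) : (∃ s, IsE M s g0 g1 g2 g3 g4) → (∃ s, IsE M s g1 g4 g2 g3 g0) → (∃ s, IsE M s g0 g3 g1 g4 g2) → (∃ s, IsE M s g0 g3 g2 g4 g1) → (∃ s, IsE M s g1 g2 g3 g4 g0) → False :=
  fun ⟨_, h0⟩ ⟨_, h1⟩ ⟨_, h2⟩ ⟨_, h3⟩ ⟨_, h4⟩ => f14 c.s12.s01.s23.s12.s23.s34 h0.fl.s23 h1.fl h2.s01 h3.fl.s23 h4.s01

theorem z72960 (c : Ctx M F g0 g1 g2 g3 g4) : (∃ s, IsE M s g0 g1 g3 g4 g2) → (∃ s, IsE M s g1 g2 g3 g4 g0) → (∃ s, IsE M s g0 g3 g1 g2 g4) → (∃ s, IsE M s g0 g3 g2 g4 g1) → (∃ s, IsE M s g1 g4 g2 g3 g0) → False :=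
  fun ⟨_, h0⟩ ⟨_, h1⟩ ⟨_, h2⟩ ⟨_, h3⟩ ⟨_, h4⟩ => f14 c.s34.s23.s12.s01.s34.s23.s12.s23.s34 h0.fl.s01.s23 h1.fl.s01 h2.s01 h3.fl.s01.s23 h4.s01.s23

theorem z1120512 (c : Ctx M F g0 g1 g2 g3 g4) : (∃ s, IsE M s g0 g3 g2 g4 g1) → (∃ s, IsE M s g0 g3 g1 g2 g4) → (∃ s, IsE M s g1 g2 g3 g4 g0) → (∃ s, IsE M s g0 g1 g3 g4 g2) → (∃ s, IsE M s g0 g2 g1 g3 g4) → False :=
  fun ⟨_, h0⟩ ⟨_, h1⟩ ⟨_, h2⟩ ⟨_, h3⟩ ⟨_, h4⟩ => f14 c.s23.s12.s23 h0 h1.s23 h2.fl.s23 h3 h4.s23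

theorem z5316864 (c : Ctx M F g0 g1 g2 g3 g4) : (∃ s, IsE M s g0 g3 g2 g4 g1) → (∃ s, IsE M s g0 g3 g1 g4 g2) → (∃ s, IsE M s g0 g2 g1 g4 g3) → (∃ s, IsE M s g0 g2 g1 g3 g4) → (∃ s, IsE M s g0 g1 g3 g4 g2) → False :=
  fun ⟨_, h0⟩ ⟨_, h1⟩ ⟨_, h2⟩ ⟨_, h3⟩ ⟨_, h4⟩ => f14 c.s23.s12.s01.s34.s23 h0.s01.s23 h1.s01.s23 h2.s23 h3.fl.s01 h4.fl

theorem z6357760 (c : Ctx M F g0 g1 g2 g3 g4) : (∃ s, IsE M s g0 g2 g1 g4 g3) → (∃ s, IsE M s g0 g2 g3 g4 g1) → (∃ s, IsE M s g0 g1 g3 g4 g2) → (∃ s, IsE M s g0 g1 g2 g3 g4) → (∃ s, IsE M s g0 g3 g2 g4 g1) → False :=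
  fun ⟨_, h0⟩ ⟨_, h1⟩ ⟨_, h2⟩ ⟨_, h3⟩ ⟨_, h4⟩ => f14 c.s12.s01.s34.s23.s34 h0.s01.s23 h1.s01.s23 h2.s23 h3.fl h4.fl

theorem z6358272 (c : Ctx M F g0 g1 g2 g3 g4) : (∃ s, IsE M s g0 g1 g3 g4 g2) → (∃ s, IsE M s g0 g2 g3 g4 g1) → (∃ s, IsE M s g0 g2 g1 g4 g3) → (∃ s, IsE M s g1 g4 g2 g3 g0) → (∃ s, IsE M s g0 g3 g2 g4 g1) → False :=
  fun ⟨_, h0⟩ ⟨_, h1⟩ ⟨_, h2⟩ ⟨_, h3⟩ ⟨_, h4⟩ => f14 c.s23.s12.s01.s34.s23.s12.s34 h0.fl h1.fl h2.fl.s01 h3.fl.s01.s23 h4.s01.s23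

theorem z33408 (c : Ctx M F g0 g1 g2 g3 g4) : (∃ s, IsH M s g0 g1 g2 g3 g4) → (∃ s, IsE M s g0 g1 g2 g3 g4) → (∃ s, IsE M s g0 g1 g2 g4 g3) → False :=
  fun ⟨_, h0⟩ ⟨_, h1⟩ ⟨_, h2⟩ => d1 c h0 h1 h2

theorem z66176 (c : Ctx M F g0 g1 g2 g3 g4) : (∃ s, IsE M s g0 g1 g2 g3 g4) → (∃ s, IsE M s g0 g1 g2 g4 g3) → (∃ s, IsE M s g0 g1 g3 g4 g2) → False :=
  fun ⟨_, h0⟩ ⟨_, h1⟩ ⟨_, h2⟩ => d2 c h0 h1 h2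

theorem z82048 (c : Ctx M F g0 g1 g2 g3 g4) : (∃ s, IsH M s g2 g3 g0 g1 g4) → (∃ s, IsE M s g0 g1 g2 g4 g3) → (∃ s, IsE M s g0 g1 g3 g4 g2) → False :=
  fun ⟨_, h0⟩ ⟨_, h1⟩ ⟨_, h2⟩ => f5 c.s12.s01.s23.s12.s34.s23 h0.s34.s23 h1.fl h2.fl

theorem z98432 (c : Ctx M F g0 g1 g2 g3 g4) : (∃ s, IsH M s g0 g1 g2 g3 g4) → (∃ s, IsE M s g0 g1 g2 g4 g3) → (∃ s, IsE M s g0 g1 g3 g4 g2) → False :=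
  fun ⟨_, h0⟩ ⟨_, h1⟩ ⟨_, h2⟩ => d1 c.s34.s23 h0.s34.s23 h1.s23 h2.s23

theorem z131712 (c : Ctx M F g0 g1 g2 g3 g4) : (∃ s, IsH M s g3 g4 g0 g1 g2) → (∃ s, IsE M s g0 g1 g2 g3 g4) → (∃ s, IsE M s g0 g1 g2 g4 g3) → False :=
  fun ⟨_, h0⟩ ⟨_, h1⟩ ⟨_, h2⟩ => f5 c.s23.s12.s01.s34.s23.s12.s34.s23 h0.s34.s23 h1.fl.s01 h2.fl.s01

theorem z262528 (c : Ctx M F g0 g1 g2 g3 g4) : (∃ s, IsH M s g0 g2 g1 g3 g4) → (∃ s, IsE M s g0 g1 g2 g4 g3) → (∃ s, IsE M s g0 g3 g2 g4 g1) → False :=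
  fun ⟨_, h0⟩ ⟨_, h1⟩ ⟨_, h2⟩ => f3 c.s12.s01.s34.s23 h0.s01.s34.s23 h1.fl h2.fl

theorem z262784 (c : Ctx M F g0 g1 g2 g3 g4) : (∃ s, IsH M s g0 g2 g1 g3 g4) → (∃ s, IsE M s g0 g1 g2 g3 g4) → (∃ s, IsE M s g0 g1 g2 g4 g3) → False :=
  fun ⟨_, h0⟩ ⟨_, h1⟩ ⟨_, h2⟩ => f3 c.s12 h0 h1 h2

theorem z589952 (c : Ctx M F g0 g1 g2 g3 g4) : (∃ s, IsH M s g1 g4 g0 g2 g3) → (∃ s, IsE M s g0 g1 g2 g4 g3) → (∃ s, IsE M s g0 g1 g3 g4 g2) → False :=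
  fun ⟨_, h0⟩ ⟨_, h1⟩ ⟨_, h2⟩ => f3 c.s01.s34.s23.s12 h0 h1.s01.s23 h2.s01.s23

theorem z8389248 (c : Ctx M F g0 g1 g2 g3 g4) : (∃ s, IsH M s g1 g2 g0 g3 g4) → (∃ s, IsE M s g0 g1 g2 g3 g4) → (∃ s, IsE M s g0 g1 g2 g4 g3) → False :=
  fun ⟨_, h0⟩ ⟨_, h1⟩ ⟨_, h2⟩ => f3 c.s01.s12 h0 h1.s01 h2.s01

theorem z558208 (c : Ctx M F g0 g1 g2 g3 g4) : (∃ s, IsH M s g0 g1 g2 g3 g4) → (∃ s, IsE M s g0 g1 g2 g4 g3) → (∃ s, IsH M s g1 g4 g0 g2 g3) → (∃ s, IsE M s g1 g4 g2 g3 g0) → False :=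
  fun ⟨_, h0⟩ ⟨_, h1⟩ ⟨_, h2⟩ ⟨_, h3⟩ => hh c.s01.s34 h0.s01.s34 h1.s01 h2 h3

theorem z2392192 (c : Ctx M F g0 g1 g2 g3 g4) : (∃ s, IsH M s g0 g1 g2 g3 g4) → (∃ s, IsE M s g0 g1 g2 g4 g3) → (∃ s, IsH M s g0 g2 g1 g3 g4) → (∃ s, IsE M s g0 g2 g3 g4 g1) → False :=
  fun ⟨_, h0⟩ ⟨_, h1⟩ ⟨_, h2⟩ ⟨_, h3⟩ => hh c.s34.s23 h0.s34.s23 h1.s23 h2.s34 h3.s23

theorem z4268160 (c : Ctx M F g0 g1 g2 g3 g4) : (∃ s, IsE M s g0 g1 g2 g4 g3) → (∃ s, IsE M s g0 g1 g3 g4 g2) → (∃ s, IsE M s g0 g2 g1 g4 g3) → (∃ s, IsE M s g0 g3 g1 g4 g2) → False :=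
  fun ⟨_, h0⟩ ⟨_, h1⟩ ⟨_, h2⟩ ⟨_, h3⟩ => f10 c.s01.s34.s23 h0.s01.s23 h1.s01.s23 h2.fl h3.fl

theorem z5243520 (c : Ctx M F g0 g1 g2 g3 g4) : (∃ s, IsE M s g0 g1 g2 g3 g4) → (∃ s, IsE M s g0 g1 g2 g4 g3) → (∃ s, IsE M s g0 g2 g1 g3 g4) → (∃ s, IsE M s g0 g2 g1 g4 g3) → False :=
  fun ⟨_, h0⟩ ⟨_, h1⟩ ⟨_, h2⟩ ⟨_, h3⟩ => f10 c h0 h1 h2 h3

theorem z6291840 (c : Ctx M F g0 g1 g2 g3 g4) : (∃ s, IsE M s g0 g2 g1 g4 g3) → (∃ s, IsE M s g0 g2 g3 g4 g1) → (∃ s, IsE M s g0 g1 g2 g4 g3) → (∃ s, IsE M s g0 g3 g2 g4 g1) → False :=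
  fun ⟨_, h0⟩ ⟨_, h1⟩ ⟨_, h2⟩ ⟨_, h3⟩ => f10 c.s12.s01.s34.s23 h0.s01.s23 h1.s01.s23 h2.fl h3.fl

theorem z8423552 (c : Ctx M F g0 g1 g2 g3 g4) : (∃ s, IsH M s g0 g1 g2 g3 g4) → (∃ s, IsE M s g0 g1 g2 g4 g3) → (∃ s, IsH M s g1 g2 g0 g3 g4) → (∃ s, IsE M s g1 g2 g3 g4 g0) → False :=
  fun ⟨_, h0⟩ ⟨_, h1⟩ ⟨_, h2⟩ ⟨_, h3⟩ => hh c.s01.s34.s23 h0.s01.s34.s23 h1.s01.s23 h2.s34 h3.s23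

theorem z16814208 (c : Ctx M F g0 g1 g2 g3 g4) : (∃ s, IsH M s g0 g3 g1 g2 g4) → (∃ s, IsE M s g0 g3 g1 g2 g4) → (∃ s, IsH M s g0 g1 g2 g3 g4) → (∃ s, IsE M s g0 g1 g2 g4 g3) → False :=
  fun ⟨_, h0⟩ ⟨_, h1⟩ ⟨_, h2⟩ ⟨_, h3⟩ => hh c.s23.s12.s23 h0.s23 h1.s23 h2.s23 h3

theorem z16818304 (c : Ctx M F g0 g1 g2 g3 g4) : (∃ s, IsH M s g0 g3 g1 g2 g4) → (∃ s, IsE M s g0 g3 g1 g4 g2) → (∃ s, IsH M s g0 g1 g2 g3 g4) → (∃ s, IsE M s g0 g1 g2 g4 g3) → False :=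
  fun ⟨_, h0⟩ ⟨_, h1⟩ ⟨_, h2⟩ ⟨_, h3⟩ => hh c.s23.s12.s34.s23 h0.s34.s23 h1.s23 h2.s23.s34 h3.s23

theorem z11904 (c : Ctx M F g0 g1 g2 g3 g4) : (∃ s, IsE M s g0 g3 g1 g4 g2) → (∃ s, IsE M s g1 g4 g2 g3 g0) → (∃ s, IsE M s g0 g1 g2 g3 g4) → (∃ s, IsE M s g0 g1 g2 g4 g3) → (∃ s, IsE M s g1 g2 g3 g4 g0) → False :=
  fun ⟨_, h0⟩ ⟨_, h1⟩ ⟨_, h2⟩ ⟨_, h3⟩ ⟨_, h4⟩ => f14 c.s34.s23.s12.s01.s12.s34.s23.s34 h0.fl.s01.s23 h1.s01.s23 h2.s01.s23 h3.fl.s01.s23 h4.fl.s01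

theorem z72832 (c : Ctx M F g0 g1 g2 g3 g4) : (∃ s, IsE M s g0 g3 g1 g2 g4) → (∃ s, IsE M s g1 g2 g3 g4 g0) → (∃ s, IsE M s g0 g1 g3 g4 g2) → (∃ s, IsE M s g0 g1 g2 g4 g3) → (∃ s, IsE M s g1 g4 g2 g3 g0) → False :=
  fun ⟨_, h0⟩ ⟨_, h1⟩ ⟨_, h2⟩ ⟨_, h3⟩ ⟨_, h4⟩ => f14 c.s12.s01.s12.s23.s34 h0.fl.s01.s23 h1.s01 h2.s01 h3.fl.s23 h4.fl

theorem z1050496 (c : Ctx M F g0 g1 g2 g3 g4) : (∃ s, IsE M s g1 g4 g2 g3 g0) → (∃ s, IsE M s g0 g1 g2 g3 g4) → (∃ s, IsE M s g0 g1 g2 g4 g3) → (∃ s, IsE M s g0 g3 g2 g4 g1) → (∃ s, IsE M s g0 g2 g1 g3 g4) → False :=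
  fun ⟨_, h0⟩ ⟨_, h1⟩ ⟨_, h2⟩ ⟨_, h3⟩ ⟨_, h4⟩ => f14 c.s23.s12.s01.s23.s12.s23 h0.fl.s01 h1.fl.s01.s23 h2.fl.s23 h3.s01 h4.fl.s01.s23

theorem z1055104 (c : Ctx M F g0 g1 g2 g3 g4) : (∃ s, IsE M s g1 g2 g3 g4 g0) → (∃ s, IsE M s g0 g3 g1 g2 g4) → (∃ s, IsE M s g0 g3 g2 g4 g1) → (∃ s, IsE M s g0 g1 g2 g4 g3) → (∃ s, IsE M s g0 g2 g1 g3 g4) → False :=
  fun ⟨_, h0⟩ ⟨_, h1⟩ ⟨_, h2⟩ ⟨_, h3⟩ ⟨_, h4⟩ => f14 c.s01.s12.s23 h0 h1.fl.s23 h2.fl.s23 h3.s01 h4.fl.s23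

theorem z1058432 (c : Ctx M F g0 g1 g2 g3 g4) : (∃ s, IsE M s g0 g1 g2 g4 g3) → (∃ s, IsE M s g0 g1 g2 g3 g4) → (∃ s, IsE M s g1 g4 g2 g3 g0) → (∃ s, IsE M s g0 g3 g1 g4 g2) → (∃ s, IsE M s g0 g2 g1 g3 g4) → False :=
  fun ⟨_, h0⟩ ⟨_, h1⟩ ⟨_, h2⟩ ⟨_, h3⟩ ⟨_, h4⟩ => f14 c h0 h1 h2 h3 h4

theorem z2106240 (c : Ctx M F g0 g1 g2 g3 g4) : (∃ s, IsE M s g0 g3 g1 g4 g2) → (∃ s, IsE M s g0 g3 g2 g4 g1) → (∃ s, IsE M s g0 g1 g2 g4 g3) → (∃ s, IsE M s g0 g1 g2 g3 g4) → (∃ s, IsE M s g0 g2 g3 g4 g1) → False :=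
  fun ⟨_, h0⟩ ⟨_, h1⟩ ⟨_, h2⟩ ⟨_, h3⟩ ⟨_, h4⟩ => f14 c.s23.s12.s01.s34.s23.s34 h0.s01.s23 h1.s01.s23 h2.s23 h3.fl.s01 h4.fl

theorem z2106752 (c : Ctx M F g0 g1 g2 g3 g4) : (∃ s, IsE M s g0 g1 g2 g4 g3) → (∃ s, IsE M s g0 g3 g2 g4 g1) → (∃ s, IsE M s g0 g3 g1 g4 g2) → (∃ s, IsE M s g1 g4 g2 g3 g0) → (∃ s, IsE M s g0 g2 g3 g4 g1) → False :=
  fun ⟨_, h0⟩ ⟨_, h1⟩ ⟨_, h2⟩ ⟨_, h3⟩ ⟨_, h4⟩ => f14 c.s12.s01.s34.s23.s12.s34 h0.fl h1.fl h2.fl.s01 h3.fl.s23 h4.s01.s23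

theorem z3219584 (c : Ctx M F g0 g1 g2 g3 g4) : (∃ s, IsE M s g0 g1 g2 g4 g3) → (∃ s, IsE M s g0 g1 g3 g4 g2) → (∃ s, IsE M s g0 g2 g3 g4 g1) → (∃ s, IsE M s g0 g2 g1 g3 g4) → (∃ s, IsE M s g0 g3 g1 g4 g2) → False :=
  fun ⟨_, h0⟩ ⟨_, h1⟩ ⟨_, h2⟩ ⟨_, h3⟩ ⟨_, h4⟩ => f14 c.s01.s34.s23.s34 h0.s01.s23 h1.s01.s23 h2.s23 h3.fl h4.fl

theorem z4262272 (c : Ctx M F g0 g1 g2 g3 g4) : (∃ s, IsE M s g0 g3 g2 g4 g1) → (∃ s, IsE M s g0 g1 g2 g4 g3) → (∃ s, IsE M s g0 g1 g3 g4 g2) → (∃ s, IsE M s g1 g2 g3 g4 g0) → (∃ s, IsE M s g0 g2 g1 g4 g3) → False :=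
  fun ⟨_, h0⟩ ⟨_, h1⟩ ⟨_, h2⟩ ⟨_, h3⟩ ⟨_, h4⟩ => f14 c.s12.s01.s34.s23.s12 h0.fl h1.fl h2.fl.s01 h3.s01.s23 h4.s01.s23

theorem z4264320 (c : Ctx M F g0 g1 g2 g3 g4) : (∃ s, IsE M s g0 g1 g3 g4 g2) → (∃ s, IsE M s g0 g1 g2 g4 g3) → (∃ s, IsE M s g0 g3 g2 g4 g1) → (∃ s, IsE M s g0 g3 g1 g2 g4) → (∃ s, IsE M s g0 g2 g1 g4 g3) → False :=
  fun ⟨_, h0⟩ ⟨_, h1⟩ ⟨_, h2⟩ ⟨_, h3⟩ ⟨_, h4⟩ => f14 c.s01.s34.s23 h0.s01.s23 h1.s01.s23 h2.s23 h3.fl h4.fl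

theorem z6301824 (c : Ctx M F g0 g1 g2 g3 g4) : (∃ s, IsE M s g0 g3 g1 g4 g2) → (∃ s, IsE M s g0 g2 g1 g4 g3) → (∃ s, IsE M s g0 g2 g3 g4 g1) → (∃ s, IsE M s g1 g2 g3 g4 g0) → (∃ s, IsE M s g0 g1 g2 g4 g3) → False :=
  fun ⟨_, h0⟩ ⟨_, h1⟩ ⟨_, h2⟩ ⟨_, h3⟩ ⟨_, h4⟩ => f14 c.s01.s34.s23.s12 h0.fl h1.fl h2.fl.s01 h3.s23 h4.s01.s23

theorem z6303872 (c : Ctx M F g0 g1 g2 g3 g4) : (∃ s, IsE M s g0 g2 g3 g4 g1) → (∃ s, IsE M s g0 g2 g1 g4 g3) → (∃ s, IsE M s g0 g3 g1 g4 g2) → (∃ s, IsE M s g0 g3 g1 g2 g4) → (∃ s, IsE M s g0 g1 g2 g4 g3) → False :=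
  fun ⟨_, h0⟩ ⟨_, h1⟩ ⟨_, h2⟩ ⟨_, h3⟩ ⟨_, h4⟩ => f14 c.s12.s01.s34.s23 h0.s01.s23 h1.s01.s23 h2.s23 h3.fl.s01 h4.fl

theorem z32832 (c : Ctx M F g0 g1 g2 g3 g4) : (∃ s, IsH M s g0 g1 g2 g3 g4) → (∃ s, IsH M s g2 g4 g0 g1 g3) → False :=
  fun ⟨_, h0⟩ ⟨_, h1⟩ => f1 c.s34 h0.s34 h1

theorem z16777280 (c : Ctx M F g0 g1 g2 g3 g4) : (∃ s, IsH M s g0 g3 g1 g2 g4) → (∃ s, IsH M s g2 g4 g0 g1 g3) → False :=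
  fun ⟨_, h0⟩ ⟨_, h1⟩ => f1 c.s23.s12.s23.s34 h0.s23.s34 h1.s34

theorem z448 (c : Ctx M F g0 g1 g2 g3 g4) : (∃ s, IsH M s g2 g4 g0 g1 g3) → (∃ s, IsE M s g0 g1 g2 g4 g3) → (∃ s, IsE M s g0 g3 g2 g4 g1) → False :=
  fun ⟨_, h0⟩ ⟨_, h1⟩ ⟨_, h2⟩ => d1 c.s12.s01.s34.s23.s12 h0 h1.fl h2.fl

theorem z12352 (c : Ctx M F g0 g1 g2 g3 g4) : (∃ s, IsH M s g2 g4 g0 g1 g3) → (∃ s, IsE M s g0 g3 g1 g2 g4) → (∃ s, IsE M s g0 g3 g1 g4 g2) → False :=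
  fun ⟨_, h0⟩ ⟨_, h1⟩ ⟨_, h2⟩ => f5 c.s12.s01.s34.s23.s12.s23 h0.s23 h1.fl.s01 h2.fl.s01

theorem z66112 (c : Ctx M F g0 g1 g2 g3 g4) : (∃ s, IsH M s g2 g4 g0 g1 g3) → (∃ s, IsE M s g0 g1 g2 g3 g4) → (∃ s, IsE M s g0 g1 g3 g4 g2) → False :=
  fun ⟨_, h0⟩ ⟨_, h1⟩ ⟨_, h2⟩ => f5 c.s12.s01.s34.s23.s12.s34.s23 h0.s34.s23 h1.fl h2.fl.s01

theorem z2099264 (c : Ctx M F g0 g1 g2 g3 g4) : (∃ s, IsH M s g2 g4 g0 g1 g3) → (∃ s, IsE M s g0 g2 g3 g4 g1) → (∃ s, IsE M s g1 g2 g3 g4 g0) → False :=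
  fun ⟨_, h0⟩ ⟨_, h1⟩ ⟨_, h2⟩ => f3 c.s34.s23.s12.s01.s23.s12.s34.s23 h0.s01.s34.s23 h1.fl.s01.s23 h2.fl.s01.s23

theorem z4195392 (c : Ctx M F g0 g1 g2 g3 g4) : (∃ s, IsH M s g2 g4 g0 g1 g3) → (∃ s, IsE M s g0 g2 g1 g4 g3) → (∃ s, IsE M s g1 g4 g2 g3 g0) → False :=
  fun ⟨_, h0⟩ ⟨_, h1⟩ ⟨_, h2⟩ => f3 c.s34.s23.s12.s01.s23.s12.s23 h0.s01.s23 h1.fl.s01.s23 h2.s01

theorem z6291520 (c : Ctx M F g0 g1 g2 g3 g4) : (∃ s, IsH M s g2 g4 g0 g1 g3) → (∃ s, IsE M s g0 g2 g1 g4 g3) → (∃ s, IsE M s g0 g2 g3 g4 g1) → False :=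
  fun ⟨_, h0⟩ ⟨_, h1⟩ ⟨_, h2⟩ => f3 c.s12.s01.s34.s23.s12 h0 h1.s01.s23 h2.s01.s23

theorem z17216 (c : Ctx M F g0 g1 g2 g3 g4) : (∃ s, IsH M s g2 g4 g0 g1 g3) → (∃ s, IsE M s g0 g3 g2 g4 g1) → (∃ s, IsH M s g2 g3 g0 g1 g4) → (∃ s, IsE M s g0 g1 g2 g3 g4) → False :=
  fun ⟨_, h0⟩ ⟨_, h1⟩ ⟨_, h2⟩ ⟨_, h3⟩ => hh c.s12.s01.s34.s23.s12.s34 h0.s34 h1.fl h2.s34.s23 h3.fl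

theorem z17600 (c : Ctx M F g0 g1 g2 g3 g4) : (∃ s, IsH M s g2 g3 g0 g1 g4) → (∃ s, IsE M s g1 g4 g2 g3 g0) → (∃ s, IsH M s g2 g4 g0 g1 g3) → (∃ s, IsE M s g0 g1 g2 g4 g3) → False :=
  fun ⟨_, h0⟩ ⟨_, h1⟩ ⟨_, h2⟩ ⟨_, h3⟩ => hh c.s12.s01.s23.s12.s23.s34 h0.s23.s34 h1.fl h2.s34.s23.s34 h3.fl.s23

theorem z133312 (c : Ctx M F g0 g1 g2 g3 g4) : (∃ s, IsH M s g3 g4 g0 g1 g2) → (∃ s, IsE M s g1 g2 g3 g4 g0) → (∃ s, IsH M s g2 g4 g0 g1 g3) → (∃ s, IsE M s g0 g1 g2 g4 g3) → False :=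
  fun ⟨_, h0⟩ ⟨_, h1⟩ ⟨_, h2⟩ ⟨_, h3⟩ => hh c.s34.s23.s12.s01.s34.s23.s12.s23.s34 h0.s01.s23.s34 h1.fl.s01 h2.s01.s34.s23.s34 h3.fl.s01.s23

theorem z196928 (c : Ctx M F g0 g1 g2 g3 g4) : (∃ s, IsH M s g2 g4 g0 g1 g3) → (∃ s, IsE M s g0 g3 g2 g4 g1) → (∃ s, IsH M s g3 g4 g0 g1 g2) → (∃ s, IsE M s g0 g1 g3 g4 g2) → False :=
  fun ⟨_, h0⟩ ⟨_, h1⟩ ⟨_, h2⟩ ⟨_, h3⟩ => hh c.s34.s23.s12.s01.s23.s12.s34 h0.s01.s34 h1.fl.s01 h2.s01.s34.s23 h3.fl.s01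

theorem z525632 (c : Ctx M F g0 g1 g2 g3 g4) : (∃ s, IsH M s g1 g4 g0 g2 g3) → (∃ s, IsE M s g1 g4 g2 g3 g0) → (∃ s, IsH M s g2 g4 g0 g1 g3) → (∃ s, IsE M s g0 g3 g2 g4 g1) → False :=
  fun ⟨_, h0⟩ ⟨_, h1⟩ ⟨_, h2⟩ ⟨_, h3⟩ => hh c.s34.s23.s12.s01.s12.s34.s23.s34 h0.s01.s34.s23.s34 h1.s01.s23 h2.s01.s23.s34 h3.fl.s01.s23

theorem z532672 (c : Ctx M F g0 g1 g2 g3 g4) : (∃ s, IsH M s g2 g4 g0 g1 g3) → (∃ s, IsE M s g0 g1 g2 g4 g3) → (∃ s, IsH M s g1 g4 g0 g2 g3) → (∃ s, IsE M s g0 g3 g1 g4 g2) → False :=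
  fun ⟨_, h0⟩ ⟨_, h1⟩ ⟨_, h2⟩ ⟨_, h3⟩ => hh c.s34.s23.s12.s01.s23.s12 h0.s01 h1.fl.s01 h2.s01.s23 h3.fl.s01

theorem z1310912 (c : Ctx M F g0 g1 g2 g3 g4) : (∃ s, IsH M s g2 g4 g0 g1 g3) → (∃ s, IsE M s g0 g1 g2 g4 g3) → (∃ s, IsH M s g0 g2 g1 g3 g4) → (∃ s, IsE M s g0 g2 g1 g3 g4) → False :=
  fun ⟨_, h0⟩ ⟨_, h1⟩ ⟨_, h2⟩ ⟨_, h3⟩ => hh c.s12.s01.s34.s23.s12.s23 h0.s23 h1.fl.s23 h2.s01.s34.s23 h3.s01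

theorem z1311040 (c : Ctx M F g0 g1 g2 g3 g4) : (∃ s, IsH M s g2 g4 g0 g1 g3) → (∃ s, IsE M s g0 g3 g2 g4 g1) → (∃ s, IsH M s g0 g2 g1 g3 g4) → (∃ s, IsE M s g0 g2 g1 g3 g4) → False :=
  fun ⟨_, h0⟩ ⟨_, h1⟩ ⟨_, h2⟩ ⟨_, h3⟩ => hh c.s12.s01.s34.s23.s12.s34.s23 h0.s34.s23 h1.fl.s23 h2.s01.s34.s23.s34 h3.s01.s23

theorem z2228416 (c : Ctx M F g0 g1 g2 g3 g4) : (∃ s, IsH M s g3 g4 g0 g1 g2) → (∃ s, IsE M s g0 g2 g3 g4 g1) → (∃ s, IsH M s g2 g4 g0 g1 g3) → (∃ s, IsE M s g0 g1 g2 g4 g3) → False :=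
  fun ⟨_, h0⟩ ⟨_, h1⟩ ⟨_, h2⟩ ⟨_, h3⟩ => hh c.s34.s23.s12.s01.s34.s23.s12.s34 h0.s01.s34 h1.fl.s01 h2.s01.s34.s23 h3.fl.s01

theorem z4718912 (c : Ctx M F g0 g1 g2 g3 g4) : (∃ s, IsH M s g1 g4 g0 g2 g3) → (∃ s, IsE M s g0 g2 g1 g4 g3) → (∃ s, IsH M s g2 g4 g0 g1 g3) → (∃ s, IsE M s g0 g3 g2 g4 g1) → False :=
  fun ⟨_, h0⟩ ⟨_, h1⟩ ⟨_, h2⟩ ⟨_, h3⟩ => hh c.s34.s23.s12.s01.s12 h0.s01 h1.fl.s01 h2.s01.s23 h3.fl.s01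

theorem z8390976 (c : Ctx M F g0 g1 g2 g3 g4) : (∃ s, IsH M s g1 g2 g0 g3 g4) → (∃ s, IsE M s g1 g2 g3 g4 g0) → (∃ s, IsH M s g2 g4 g0 g1 g3) → (∃ s, IsE M s g0 g3 g2 g4 g1) → False :=
  fun ⟨_, h0⟩ ⟨_, h1⟩ ⟨_, h2⟩ ⟨_, h3⟩ => hh c.s12.s01.s12.s23.s34 h0.s01.s23.s34 h1.s01 h2.s23.s34 h3.fl.s23

theorem z8392896 (c : Ctx M F g0 g1 g2 g3 g4) : (∃ s, IsH M s g2 g4 g0 g1 g3) → (∃ s, IsE M s g0 g1 g2 g4 g3) → (∃ s, IsH M s g1 g2 g0 g3 g4) → (∃ s, IsE M s g0 g3 g1 g2 g4) → False :=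
  fun ⟨_, h0⟩ ⟨_, h1⟩ ⟨_, h2⟩ ⟨_, h3⟩ => hh c.s12.s01.s34.s23.s12 h0 h1.fl h2.s01.s34.s23 h3.fl.s01

theorem z224 (c : Ctx M F g0 g1 g2 g3 g4) : (∃ s, IsH M s g2 g4 g0 g1 g3) → (∃ s, IsE M s g0 g1 g2 g4 g3) → (∃ s, IsE M s g1 g3 g2 g4 g0) → False :=
  fun ⟨_, h0⟩ ⟨_, h1⟩ ⟨_, h2⟩ => d1 c.s12.s01.s34.s23.s12.s23 h0.s23 h1.fl.s23 h2.fl

theorem z352 (c : Ctx M F g0 g1 g2 g3 g4) : (∃ s, IsH M s g2 g4 g0 g1 g3) → (∃ s, IsE M s g0 g3 g2 g4 g1) → (∃ s, IsE M s g1 g3 g2 g4 g0) → False :=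
  fun ⟨_, h0⟩ ⟨_, h1⟩ ⟨_, h2⟩ => d1 c.s12.s01.s34.s23.s12.s34.s23 h0.s34.s23 h1.fl.s23 h2.fl.s23

theorem z416 (c : Ctx M F g0 g1 g2 g3 g4) : (∃ s, IsE M s g0 g1 g2 g4 g3) → (∃ s, IsE M s g0 g3 g2 g4 g1) → (∃ s, IsE M s g1 g3 g2 g4 g0) → False :=
  fun ⟨_, h0⟩ ⟨_, h1⟩ ⟨_, h2⟩ => d2 c.s12.s01.s34.s23.s12 h0.fl h1.fl h2.fl

theorem z16672 (c : Ctx M F g0 g1 g2 g3 g4) : (∃ s, IsH M s g2 g3 g0 g1 g4) → (∃ s, IsE M s g0 g3 g2 g4 g1) → (∃ s, IsE M s g1 g3 g2 g4 g0) → False :=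
  fun ⟨_, h0⟩ ⟨_, h1⟩ ⟨_, h2⟩ => f3 c.s12.s01.s23.s12.s34.s23 h0.s34.s23 h1.fl.s23 h2.fl.s23

theorem z33056 (c : Ctx M F g0 g1 g2 g3 g4) : (∃ s, IsH M s g0 g1 g2 g3 g4) → (∃ s, IsE M s g0 g3 g2 g4 g1) → (∃ s, IsE M s g1 g3 g2 g4 g0) → False :=
  fun ⟨_, h0⟩ ⟨_, h1⟩ ⟨_, h2⟩ => f5 c.s23 h0.s23 h1 h2

theorem z131360 (c : Ctx M F g0 g1 g2 g3 g4) : (∃ s, IsH M s g3 g4 g0 g1 g2) → (∃ s, IsE M s g0 g3 g2 g4 g1) → (∃ s, IsE M s g1 g3 g2 g4 g0) → False :=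
  fun ⟨_, h0⟩ ⟨_, h1⟩ ⟨_, h2⟩ => f3 c.s34.s23.s12.s01.s34.s23.s12.s34.s23 h0.s01.s34.s23 h1.fl.s01.s23 h2.fl.s01.s23

theorem z524448 (c : Ctx M F g0 g1 g2 g3 g4) : (∃ s, IsH M s g1 g4 g0 g2 g3) → (∃ s, IsE M s g0 g1 g2 g4 g3) → (∃ s, IsE M s g1 g3 g2 g4 g0) → False :=
  fun ⟨_, h0⟩ ⟨_, h1⟩ ⟨_, h2⟩ => f3 c.s34.s23.s12.s01.s12.s23 h0.s01.s23 h1.fl.s01.s23 h2.fl.s01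

theorem z1064992 (c : Ctx M F g0 g1 g2 g3 g4) : (∃ s, IsH M s g2 g3 g0 g1 g4) → (∃ s, IsE M s g0 g2 g1 g3 g4) → (∃ s, IsE M s g1 g3 g2 g4 g0) → False :=
  fun ⟨_, h0⟩ ⟨_, h1⟩ ⟨_, h2⟩ => f3 c.s23.s12.s01.s23.s12.s23 h0.s01.s23 h1.fl.s01.s23 h2.s01

theorem z8388768 (c : Ctx M F g0 g1 g2 g3 g4) : (∃ s, IsH M s g1 g2 g0 g3 g4) → (∃ s, IsE M s g0 g1 g2 g4 g3) → (∃ s, IsE M s g1 g3 g2 g4 g0) → False :=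
  fun ⟨_, h0⟩ ⟨_, h1⟩ ⟨_, h2⟩ => f3 c.s12.s01.s12.s34.s23 h0.s01.s34.s23 h1.fl.s23 h2.fl

theorem z9437216 (c : Ctx M F g0 g1 g2 g3 g4) : (∃ s, IsH M s g1 g2 g0 g3 g4) → (∃ s, IsE M s g0 g2 g1 g3 g4) → (∃ s, IsE M s g1 g3 g2 g4 g0) → False :=
  fun ⟨_, h0⟩ ⟨_, h1⟩ ⟨_, h2⟩ => f3 c.s01.s12.s23 h0.s23 h1.fl.s23 h2

theorem z16777376 (c : Ctx M F g0 g1 g2 g3 g4) : (∃ s, IsH M s g0 g3 g1 g2 g4) → (∃ s, IsE M s g0 g1 g2 g4 g3) → (∃ s, IsE M s g1 g3 g2 g4 g0) → False :=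
  fun ⟨_, h0⟩ ⟨_, h1⟩ ⟨_, h2⟩ => f5 c.s23.s12 h0 h1 h2.s01

theorem z16992 (c : Ctx M F g0 g1 g2 g3 g4) : (∃ s, IsH M s g2 g4 g0 g1 g3) → (∃ s, IsE M s g1 g3 g2 g4 g0) → (∃ s, IsH M s g2 g3 g0 g1 g4) → (∃ s, IsE M s g0 g1 g2 g3 g4) → False :=
  fun ⟨_, h0⟩ ⟨_, h1⟩ ⟨_, h2⟩ ⟨_, h3⟩ => hh c.s12.s01.s34.s23.s12.s23.s34 h0.s23.s34 h1.fl h2.s34.s23.s34 h3.fl.s23

theorem z196704 (c : Ctx M F g0 g1 g2 g3 g4) : (∃ s, IsH M s g2 g4 g0 g1 g3) → (∃ s, IsE M s g1 g3 g2 g4 g0) → (∃ s, IsH M s g3 g4 g0 g1 g2) → (∃ s, IsE M s g0 g1 g3 g4 g2) → False :=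
  fun ⟨_, h0⟩ ⟨_, h1⟩ ⟨_, h2⟩ ⟨_, h3⟩ => hh c.s34.s23.s12.s01.s23.s12.s23.s34 h0.s01.s23.s34 h1.fl.s01 h2.s01.s34.s23.s34 h3.fl.s01.s23

theorem z532576 (c : Ctx M F g0 g1 g2 g3 g4) : (∃ s, IsH M s g2 g4 g0 g1 g3) → (∃ s, IsE M s g1 g3 g2 g4 g0) → (∃ s, IsH M s g1 g4 g0 g2 g3) → (∃ s, IsE M s g0 g3 g1 g4 g2) → False :=
  fun ⟨_, h0⟩ ⟨_, h1⟩ ⟨_, h2⟩ ⟨_, h3⟩ => hh c.s34.s23.s12.s01.s23.s12.s34.s23.s34 h0.s01.s34.s23.s34 h1.fl.s01.s23 h2.s01.s23.s34 h3.fl.s01.s23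

theorem z1050144 (c : Ctx M F g0 g1 g2 g3 g4) : (∃ s, IsE M s g0 g2 g1 g3 g4) → (∃ s, IsE M s g1 g3 g2 g4 g0) → (∃ s, IsE M s g0 g1 g2 g3 g4) → (∃ s, IsE M s g1 g4 g2 g3 g0) → False :=
  fun ⟨_, h0⟩ ⟨_, h1⟩ ⟨_, h2⟩ ⟨_, h3⟩ => f10 c.s23.s12.s01.s12.s23 h0.fl.s01.s23 h1.s01 h2.fl.s01.s23 h3.fl.s01

theorem z1054752 (c : Ctx M F g0 g1 g2 g3 g4) : (∃ s, IsE M s g0 g3 g1 g2 g4) → (∃ s, IsE M s g1 g2 g3 g4 g0) → (∃ s, IsE M s g0 g2 g1 g3 g4) → (∃ s, IsE M s g1 g3 g2 g4 g0) → False :=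
  fun ⟨_, h0⟩ ⟨_, h1⟩ ⟨_, h2⟩ ⟨_, h3⟩ => f10 c.s01.s12.s23 h0.fl.s23 h1 h2.fl.s23 h3

theorem z2099488 (c : Ctx M F g0 g1 g2 g3 g4) : (∃ s, IsE M s g0 g3 g2 g4 g1) → (∃ s, IsE M s g1 g3 g2 g4 g0) → (∃ s, IsE M s g0 g2 g3 g4 g1) → (∃ s, IsE M s g1 g2 g3 g4 g0) → False :=
  fun ⟨_, h0⟩ ⟨_, h1⟩ ⟨_, h2⟩ ⟨_, h3⟩ => f10 c.s34.s23.s12.s01.s23.s12.s34.s23 h0.fl.s01.s23 h1.fl.s01.s23 h2.fl.s01.s23 h3.fl.s01.s23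

theorem z2359392 (c : Ctx M F g0 g1 g2 g3 g4) : (∃ s, IsH M s g0 g2 g1 g3 g4) → (∃ s, IsE M s g0 g2 g3 g4 g1) → (∃ s, IsH M s g2 g4 g0 g1 g3) → (∃ s, IsE M s g1 g3 g2 g4 g0) → False :=
  fun ⟨_, h0⟩ ⟨_, h1⟩ ⟨_, h2⟩ ⟨_, h3⟩ => hh c.s12.s01.s23.s34 h0.s01.s23.s34 h1.s01 h2.s34 h3.fl.s23

theorem z4195488 (c : Ctx M F g0 g1 g2 g3 g4) : (∃ s, IsE M s g0 g2 g1 g4 g3) → (∃ s, IsE M s g1 g4 g2 g3 g0) → (∃ s, IsE M s g0 g1 g2 g4 g3) → (∃ s, IsE M s g1 g3 g2 g4 g0) → False :=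
  fun ⟨_, h0⟩ ⟨_, h1⟩ ⟨_, h2⟩ ⟨_, h3⟩ => f10 c.s34.s23.s12.s01.s12.s23 h0.fl.s01.s23 h1.s01 h2.fl.s01.s23 h3.fl.s01

theorem z4456544 (c : Ctx M F g0 g1 g2 g3 g4) : (∃ s, IsH M s g0 g2 g1 g3 g4) → (∃ s, IsE M s g0 g2 g1 g4 g3) → (∃ s, IsH M s g2 g4 g0 g1 g3) → (∃ s, IsE M s g1 g3 g2 g4 g0) → False :=
  fun ⟨_, h0⟩ ⟨_, h1⟩ ⟨_, h2⟩ ⟨_, h3⟩ => hh c.s12.s01.s34 h0.s01.s34 h1.s01 h2 h3.fl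

theorem z8392800 (c : Ctx M F g0 g1 g2 g3 g4) : (∃ s, IsH M s g2 g4 g0 g1 g3) → (∃ s, IsE M s g1 g3 g2 g4 g0) → (∃ s, IsH M s g1 g2 g0 g3 g4) → (∃ s, IsE M s g0 g3 g1 g2 g4) → False :=
  fun ⟨_, h0⟩ ⟨_, h1⟩ ⟨_, h2⟩ ⟨_, h3⟩ => hh c.s12.s01.s34.s23.s12.s34.s23.s34 h0.s34.s23.s34 h1.fl.s23 h2.s01.s34.s23.s34 h3.fl.s01.s23

theorem z1059104 (c : Ctx M F g0 g1 g2 g3 g4) : (∃ s, IsE M s g0 g2 g1 g3 g4) → (∃ s, IsE M s g1 g3 g2 g4 g0) → (∃ s, IsE M s g0 g3 g2 g4 g1) → (∃ s, IsE M s g0 g3 g1 g4 g2) → (∃ s, IsE M s g1 g2 g3 g4 g0) → False :=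
  fun ⟨_, h0⟩ ⟨_, h1⟩ ⟨_, h2⟩ ⟨_, h3⟩ ⟨_, h4⟩ => f14 c.s01.s23.s12.s23.s34 h0.fl.s23 h1 h2.s01 h3.fl.s23 h4

theorem z1115296 (c : Ctx M F g0 g1 g2 g3 g4) : (∃ s, IsE M s g0 g2 g1 g3 g4) → (∃ s, IsE M s g1 g3 g2 g4 g0) → (∃ s, IsE M s g0 g1 g2 g4 g3) → (∃ s, IsE M s g0 g1 g3 g4 g2) → (∃ s, IsE M s g1 g4 g2 g3 g0) → False :=
  fun ⟨_, h0⟩ ⟨_, h1⟩ ⟨_, h2⟩ ⟨_, h3⟩ ⟨_, h4⟩ => f14 c.s23.s12.s01.s12.s23.s34 h0.fl.s01.s23 h1.s01 h2.s01 h3.fl.s23 h4.fl.s01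

theorem z3146912 (c : Ctx M F g0 g1 g2 g3 g4) : (∃ s, IsE M s g0 g1 g2 g4 g3) → (∃ s, IsE M s g1 g3 g2 g4 g0) → (∃ s, IsE M s g0 g2 g1 g3 g4) → (∃ s, IsE M s g0 g2 g3 g4 g1) → (∃ s, IsE M s g1 g4 g2 g3 g0) → False :=
  fun ⟨_, h0⟩ ⟨_, h1⟩ ⟨_, h2⟩ ⟨_, h3⟩ ⟨_, h4⟩ => f14 c.s34.s23.s12.s01.s23.s12.s23.s34 h0.fl.s01.s23 h1.fl.s01 h2.s01 h3.fl.s01.s23 h4.s01

theorem z3149984 (c : Ctx M F g0 g1 g2 g3 g4) : (∃ s, IsE M s g0 g2 g3 g4 g1) → (∃ s, IsE M s g0 g2 g1 g3 g4) → (∃ s, IsE M s g1 g3 g2 g4 g0) → (∃ s, IsE M s g0 g1 g2 g4 g3) → (∃ s, IsE M s g0 g3 g1 g2 g4) → False :=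
  fun ⟨_, h0⟩ ⟨_, h1⟩ ⟨_, h2⟩ ⟨_, h3⟩ ⟨_, h4⟩ => f14 c.s12.s23 h0 h1.s23 h2.fl.s23 h3 h4.s23

theorem z3215392 (c : Ctx M F g0 g1 g2 g3 g4) : (∃ s, IsE M s g1 g3 g2 g4 g0) → (∃ s, IsE M s g0 g2 g1 g3 g4) → (∃ s, IsE M s g0 g2 g3 g4 g1) → (∃ s, IsE M s g0 g1 g3 g4 g2) → (∃ s, IsE M s g0 g3 g1 g2 g4) → False :=
  fun ⟨_, h0⟩ ⟨_, h1⟩ ⟨_, h2⟩ ⟨_, h3⟩ ⟨_, h4⟩ => f14 c.s01.s23.s12.s23 h0 h1.fl.s23 h2.fl.s23 h3.s01 h4.fl.s23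

theorem z5243680 (c : Ctx M F g0 g1 g2 g3 g4) : (∃ s, IsE M s g0 g2 g1 g4 g3) → (∃ s, IsE M s g0 g2 g1 g3 g4) → (∃ s, IsE M s g1 g3 g2 g4 g0) → (∃ s, IsE M s g0 g3 g2 g4 g1) → (∃ s, IsE M s g0 g1 g2 g3 g4) → False :=
  fun ⟨_, h0⟩ ⟨_, h1⟩ ⟨_, h2⟩ ⟨_, h3⟩ ⟨_, h4⟩ => f14 c.s12 h0 h1 h2.fl h3 h4

theorem z5245216 (c : Ctx M F g0 g1 g2 g3 g4) : (∃ s, IsE M s g0 g3 g2 g4 g1) → (∃ s, IsE M s g1 g3 g2 g4 g0) → (∃ s, IsE M s g0 g2 g1 g3 g4) → (∃ s, IsE M s g0 g2 g1 g4 g3) → (∃ s, IsE M s g1 g2 g3 g4 g0) → False :=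
  fun ⟨_, h0⟩ ⟨_, h1⟩ ⟨_, h2⟩ ⟨_, h3⟩ ⟨_, h4⟩ => f14 c.s34.s23.s12.s01.s23.s12.s34.s23.s34 h0.fl.s01.s23 h1.fl.s01.s23 h2.s01.s23 h3.fl.s01.s23 h4.fl.s01.s23

theorem z5251616 (c : Ctx M F g0 g1 g2 g3 g4) : (∃ s, IsE M s g1 g3 g2 g4 g0) → (∃ s, IsE M s g0 g2 g1 g3 g4) → (∃ s, IsE M s g0 g2 g1 g4 g3) → (∃ s, IsE M s g0 g3 g1 g4 g2) → (∃ s, IsE M s g0 g1 g2 g3 g4) → False :=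
  fun ⟨_, h0⟩ ⟨_, h1⟩ ⟨_, h2⟩ ⟨_, h3⟩ ⟨_, h4⟩ => f14 c.s23.s12.s01.s12.s23 h0.s01 h1.fl.s01.s23 h2.fl.s23 h3.s01 h4.fl.s01.s23

theorem z6293024 (c : Ctx M F g0 g1 g2 g3 g4) : (∃ s, IsE M s g0 g1 g2 g3 g4) → (∃ s, IsE M s g1 g4 g2 g3 g0) → (∃ s, IsE M s g0 g2 g1 g4 g3) → (∃ s, IsE M s g0 g2 g3 g4 g1) → (∃ s, IsE M s g1 g3 g2 g4 g0) → False :=
  fun ⟨_, h0⟩ ⟨_, h1⟩ ⟨_, h2⟩ ⟨_, h3⟩ ⟨_, h4⟩ => f14 c.s23.s12.s01.s23.s12.s23.s34 h0.fl.s01.s23 h1.fl.s01 h2.s01 h3.fl.s23 h4.s01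

theorem z6297632 (c : Ctx M F g0 g1 g2 g3 g4) : (∃ s, IsE M s g0 g3 g1 g2 g4) → (∃ s, IsE M s g1 g2 g3 g4 g0) → (∃ s, IsE M s g0 g2 g3 g4 g1) → (∃ s, IsE M s g0 g2 g1 g4 g3) → (∃ s, IsE M s g1 g3 g2 g4 g0) → False :=
  fun ⟨_, h0⟩ ⟨_, h1⟩ ⟨_, h2⟩ ⟨_, h3⟩ ⟨_, h4⟩ => f14 c.s01.s12.s23.s34 h0.fl.s23 h1 h2.s01 h3.fl.s23 h4

theorem z80 (c : Ctx M F g0 g1 g2 g3 g4) : (∃ s, IsH M s g1 g3 g0 g2 g4) → (∃ s, IsH M s g2 g4 g0 g1 g3) → False :=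
  fun ⟨_, h0⟩ ⟨_, h1⟩ => f1 c.s01.s23.s12.s23.s34 h0.s23.s34 h1.s23.s34

theorem z262160 (c : Ctx M F g0 g1 g2 g3 g4) : (∃ s, IsH M s g0 g2 g1 g3 g4) → (∃ s, IsH M s g1 g3 g0 g2 g4) → False :=
  fun ⟨_, h0⟩ ⟨_, h1⟩ => f1 c.s12 h0 h1

theorem z400 (c : Ctx M F g0 g1 g2 g3 g4) : (∃ s, IsH M s g1 g3 g0 g2 g4) → (∃ s, IsE M s g0 g1 g2 g4 g3) → (∃ s, IsE M s g0 g3 g2 g4 g1) → False :=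
  fun ⟨_, h0⟩ ⟨_, h1⟩ ⟨_, h2⟩ => f5 c.s01.s23.s12 h0 h1.s01 h2.s01

theorem z1552 (c : Ctx M F g0 g1 g2 g3 g4) : (∃ s, IsH M s g1 g3 g0 g2 g4) → (∃ s, IsE M s g0 g1 g2 g3 g4) → (∃ s, IsE M s g1 g4 g2 g3 g0) → False :=
  fun ⟨_, h0⟩ ⟨_, h1⟩ ⟨_, h2⟩ => f3 c.s23.s12.s01.s12.s23 h0.s01.s23 h1.fl.s01.s23 h2.fl.s01

theorem z6160 (c : Ctx M F g0 g1 g2 g3 g4) : (∃ s, IsH M s g1 g3 g0 g2 g4) → (∃ s, IsE M s g0 g3 g1 g2 g4) → (∃ s, IsE M s g1 g2 g3 g4 g0) → False :=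
  fun ⟨_, h0⟩ ⟨_, h1⟩ ⟨_, h2⟩ => f3 c.s01.s23.s12.s23 h0.s23 h1.fl.s23 h2

theorem z9232 (c : Ctx M F g0 g1 g2 g3 g4) : (∃ s, IsH M s g1 g3 g0 g2 g4) → (∃ s, IsE M s g0 g3 g1 g4 g2) → (∃ s, IsE M s g1 g4 g2 g3 g0) → False :=
  fun ⟨_, h0⟩ ⟨_, h1⟩ ⟨_, h2⟩ => f3 c.s01.s23.s12.s34.s23 h0.s34.s23 h1.fl.s23 h2.s23

theorem z12304 (c : Ctx M F g0 g1 g2 g3 g4) : (∃ s, IsH M s g1 g3 g0 g2 g4) → (∃ s, IsE M s g0 g3 g1 g2 g4) → (∃ s, IsE M s g0 g3 g1 g4 g2) → False :=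
  fun ⟨_, h0⟩ ⟨_, h1⟩ ⟨_, h2⟩ => f3 c.s23.s12.s01.s12 h0.s01 h1.s01 h2.s01

theorem z66064 (c : Ctx M F g0 g1 g2 g3 g4) : (∃ s, IsH M s g1 g3 g0 g2 g4) → (∃ s, IsE M s g0 g1 g2 g3 g4) → (∃ s, IsE M s g0 g1 g3 g4 g2) → False :=
  fun ⟨_, h0⟩ ⟨_, h1⟩ ⟨_, h2⟩ => f3 c.s01.s23.s12 h0 h1.s01.s23 h2.s01

theorem z67600 (c : Ctx M F g0 g1 g2 g3 g4) : (∃ s, IsH M s g1 g3 g0 g2 g4) → (∃ s, IsE M s g0 g1 g3 g4 g2) → (∃ s, IsE M s g1 g2 g3 g4 g0) → False :=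
  fun ⟨_, h0⟩ ⟨_, h1⟩ ⟨_, h2⟩ => f3 c.s23.s12.s01.s12.s34.s23 h0.s01.s34.s23 h1.fl.s23 h2.fl

theorem z1048624 (c : Ctx M F g0 g1 g2 g3 g4) : (∃ s, IsH M s g1 g3 g0 g2 g4) → (∃ s, IsE M s g0 g2 g1 g3 g4) → (∃ s, IsE M s g1 g3 g2 g4 g0) → False :=
  fun ⟨_, h0⟩ ⟨_, h1⟩ ⟨_, h2⟩ => d1 c.s01.s23.s12.s23 h0.s23 h1.fl.s23 h2

theorem z6291472 (c : Ctx M F g0 g1 g2 g3 g4) : (∃ s, IsH M s g1 g3 g0 g2 g4) → (∃ s, IsE M s g0 g2 g1 g4 g3) → (∃ s, IsE M s g0 g2 g3 g4 g1) → False :=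
  fun ⟨_, h0⟩ ⟨_, h1⟩ ⟨_, h2⟩ => f5 c.s01.s23.s12.s34.s23 h0.s34.s23 h1.fl h2.fl

theorem z33328 (c : Ctx M F g0 g1 g2 g3 g4) : (∃ s, IsH M s g0 g1 g2 g3 g4) → (∃ s, IsE M s g0 g1 g2 g3 g4) → (∃ s, IsH M s g1 g3 g0 g2 g4) → (∃ s, IsE M s g1 g3 g2 g4 g0) → False :=
  fun ⟨_, h0⟩ ⟨_, h1⟩ ⟨_, h2⟩ ⟨_, h3⟩ => hh c.s01 h0.s01 h1.s01 h2 h3

theorem z1081488 (c : Ctx M F g0 g1 g2 g3 g4) : (∃ s, IsH M s g1 g3 g0 g2 g4) → (∃ s, IsE M s g0 g2 g1 g3 g4) → (∃ s, IsH M s g0 g1 g2 g3 g4) → (∃ s, IsE M s g0 g1 g2 g4 g3) → False :=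
  fun ⟨_, h0⟩ ⟨_, h1⟩ ⟨_, h2⟩ ⟨_, h3⟩ => hh c.s01.s23.s12.s23 h0.s23 h1.fl.s23 h2.s01.s23 h3.s01

theorem z1181712 (c : Ctx M F g0 g1 g2 g3 g4) : (∃ s, IsH M s g3 g4 g0 g1 g2) → (∃ s, IsE M s g1 g2 g3 g4 g0) → (∃ s, IsH M s g1 g3 g0 g2 g4) → (∃ s, IsE M s g0 g2 g1 g3 g4) → False :=
  fun ⟨_, h0⟩ ⟨_, h1⟩ ⟨_, h2⟩ ⟨_, h3⟩ => hh c.s23.s12.s01.s34.s23.s12.s34.s23.s34 h0.s34.s23.s34 h1.fl.s23 h2.s01.s34.s23.s34 h3.fl.s01.s23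

theorem z1245200 (c : Ctx M F g0 g1 g2 g3 g4) : (∃ s, IsH M s g3 g4 g0 g1 g2) → (∃ s, IsE M s g0 g1 g3 g4 g2) → (∃ s, IsH M s g1 g3 g0 g2 g4) → (∃ s, IsE M s g0 g2 g1 g3 g4) → False :=
  fun ⟨_, h0⟩ ⟨_, h1⟩ ⟨_, h2⟩ ⟨_, h3⟩ => hh c.s23.s12.s01.s34.s23.s12 h0 h1.fl h2.s01.s34.s23 h3.fl.s01

theorem z1573904 (c : Ctx M F g0 g1 g2 g3 g4) : (∃ s, IsH M s g1 g4 g0 g2 g3) → (∃ s, IsE M s g1 g4 g2 g3 g0) → (∃ s, IsH M s g1 g3 g0 g2 g4) → (∃ s, IsE M s g0 g2 g1 g3 g4) → False :=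
  fun ⟨_, h0⟩ ⟨_, h1⟩ ⟨_, h2⟩ ⟨_, h3⟩ => hh c.s01.s34.s23.s12.s23.s34 h0.s23.s34 h1 h2.s34.s23.s34 h3.fl.s23

theorem z1581072 (c : Ctx M F g0 g1 g2 g3 g4) : (∃ s, IsH M s g1 g4 g0 g2 g3) → (∃ s, IsE M s g0 g3 g1 g4 g2) → (∃ s, IsH M s g1 g3 g0 g2 g4) → (∃ s, IsE M s g0 g2 g1 g3 g4) → False :=
  fun ⟨_, h0⟩ ⟨_, h1⟩ ⟨_, h2⟩ ⟨_, h3⟩ => hh c.s01.s34.s23.s12.s34 h0.s34 h1.fl h2.s34.s23 h3.fl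

theorem z4718640 (c : Ctx M F g0 g1 g2 g3 g4) : (∃ s, IsH M s g1 g3 g0 g2 g4) → (∃ s, IsE M s g1 g3 g2 g4 g0) → (∃ s, IsH M s g1 g4 g0 g2 g3) → (∃ s, IsE M s g0 g2 g1 g4 g3) → False :=
  fun ⟨_, h0⟩ ⟨_, h1⟩ ⟨_, h2⟩ ⟨_, h3⟩ => hh c.s01.s23.s12.s23.s34 h0.s23.s34 h1 h2.s34.s23.s34 h3.fl.s23

theorem z16781360 (c : Ctx M F g0 g1 g2 g3 g4) : (∃ s, IsH M s g0 g3 g1 g2 g4) → (∃ s, IsE M s g0 g3 g1 g2 g4) → (∃ s, IsH M s g1 g3 g0 g2 g4) → (∃ s, IsE M s g1 g3 g2 g4 g0) → False :=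
  fun ⟨_, h0⟩ ⟨_, h1⟩ ⟨_, h2⟩ ⟨_, h3⟩ => hh c.s23.s12.s01.s23 h0.s01.s23 h1.s01.s23 h2.s01 h3.s01

theorem z17826064 (c : Ctx M F g0 g1 g2 g3 g4) : (∃ s, IsH M s g1 g3 g0 g2 g4) → (∃ s, IsE M s g0 g2 g1 g3 g4) → (∃ s, IsH M s g0 g3 g1 g2 g4) → (∃ s, IsE M s g0 g3 g2 g4 g1) → False :=
  fun ⟨_, h0⟩ ⟨_, h1⟩ ⟨_, h2⟩ ⟨_, h3⟩ => hh c.s23.s12.s01.s12.s23 h0.s01.s23 h1.fl.s01.s23 h2.s01 h3.s01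

theorem z2120 (c : Ctx M F g0 g1 g2 g3 g4) : (∃ s, IsH M s g2 g4 g0 g1 g3) → (∃ s, IsE M s g0 g4 g1 g2 g3) → (∃ s, IsE M s g1 g2 g3 g4 g0) → False :=
  fun ⟨_, h0⟩ ⟨_, h1⟩ ⟨_, h2⟩ => f3 c.s12.s01.s34.s23.s12.s23 h0.s23 h1.fl.s01.s23 h2.s01.s23

theorem z6152 (c : Ctx M F g0 g1 g2 g3 g4) : (∃ s, IsE M s g0 g3 g1 g2 g4) → (∃ s, IsE M s g0 g4 g1 g2 g3) → (∃ s, IsE M s g1 g2 g3 g4 g0) → False :=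
  fun ⟨_, h0⟩ ⟨_, h1⟩ ⟨_, h2⟩ => d2 c.s01.s12 h0.fl h1.fl h2

theorem z36872 (c : Ctx M F g0 g1 g2 g3 g4) : (∃ s, IsH M s g0 g1 g2 g3 g4) → (∃ s, IsE M s g0 g3 g1 g2 g4) → (∃ s, IsE M s g0 g4 g1 g2 g3) → False :=
  fun ⟨_, h0⟩ ⟨_, h1⟩ ⟨_, h2⟩ => f3 c.s01 h0.s01 h1.fl h2.fl

theorem z135176 (c : Ctx M F g0 g1 g2 g3 g4) : (∃ s, IsH M s g3 g4 g0 g1 g2) → (∃ s, IsE M s g0 g3 g1 g2 g4) → (∃ s, IsE M s g0 g4 g1 g2 g3) → False :=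
  fun ⟨_, h0⟩ ⟨_, h1⟩ ⟨_, h2⟩ => f5 c.s23.s12.s01.s34.s23.s12 h0 h1.s01 h2.s01

theorem z266248 (c : Ctx M F g0 g1 g2 g3 g4) : (∃ s, IsH M s g0 g2 g1 g3 g4) → (∃ s, IsE M s g0 g3 g1 g2 g4) → (∃ s, IsE M s g0 g4 g1 g2 g3) → False :=
  fun ⟨_, h0⟩ ⟨_, h1⟩ ⟨_, h2⟩ => f3 c.s12.s01 h0.s01 h1.fl.s01 h2.fl.s01

theorem z526344 (c : Ctx M F g0 g1 g2 g3 g4) : (∃ s, IsH M s g1 g4 g0 g2 g3) → (∃ s, IsE M s g0 g4 g1 g2 g3) → (∃ s, IsE M s g1 g2 g3 g4 g0) → False :=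
  fun ⟨_, h0⟩ ⟨_, h1⟩ ⟨_, h2⟩ => f3 c.s01.s34.s23.s12.s23 h0.s23 h1.fl.s23 h2.s23

theorem z8390664 (c : Ctx M F g0 g1 g2 g3 g4) : (∃ s, IsH M s g1 g2 g0 g3 g4) → (∃ s, IsE M s g0 g4 g1 g2 g3) → (∃ s, IsE M s g1 g2 g3 g4 g0) → False :=
  fun ⟨_, h0⟩ ⟨_, h1⟩ ⟨_, h2⟩ => d1 c.s01.s12.s34.s23 h0.s34.s23 h1.fl.s23 h2.s23

theorem z8392712 (c : Ctx M F g0 g1 g2 g3 g4) : (∃ s, IsH M s g1 g2 g0 g3 g4) → (∃ s, IsE M s g0 g3 g1 g2 g4) → (∃ s, IsE M s g0 g4 g1 g2 g3) → False :=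
  fun ⟨_, h0⟩ ⟨_, h1⟩ ⟨_, h2⟩ => d1 c.s01.s12 h0 h1.fl h2.fl

theorem z16779272 (c : Ctx M F g0 g1 g2 g3 g4) : (∃ s, IsH M s g0 g3 g1 g2 g4) → (∃ s, IsE M s g0 g4 g1 g2 g3) → (∃ s, IsE M s g1 g2 g3 g4 g0) → False :=
  fun ⟨_, h0⟩ ⟨_, h1⟩ ⟨_, h2⟩ => f5 c.s23.s12.s34.s23 h0.s34.s23 h1 h2.fl

theorem z2216 (c : Ctx M F g0 g1 g2 g3 g4) : (∃ s, IsE M s g0 g4 g1 g2 g3) → (∃ s, IsE M s g1 g2 g3 g4 g0) → (∃ s, IsE M s g0 g1 g2 g4 g3) → (∃ s, IsE M s g1 g3 g2 g4 g0) → False :=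
  fun ⟨_, h0⟩ ⟨_, h1⟩ ⟨_, h2⟩ ⟨_, h3⟩ => f10 c.s12.s01.s12.s34.s23 h0.fl.s01.s23 h1.s01.s23 h2.fl.s23 h3.fl

theorem z4744 (c : Ctx M F g0 g1 g2 g3 g4) : (∃ s, IsE M s g0 g1 g2 g3 g4) → (∃ s, IsE M s g0 g1 g2 g4 g3) → (∃ s, IsE M s g0 g3 g1 g2 g4) → (∃ s, IsE M s g0 g4 g1 g2 g3) → False :=
  fun ⟨_, h0⟩ ⟨_, h1⟩ ⟨_, h2⟩ ⟨_, h3⟩ => f10 c.s01 h0.s01 h1.s01 h2.fl h3.fl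

theorem z4197384 (c : Ctx M F g0 g1 g2 g3 g4) : (∃ s, IsE M s g0 g4 g1 g2 g3) → (∃ s, IsE M s g1 g2 g3 g4 g0) → (∃ s, IsE M s g0 g2 g1 g4 g3) → (∃ s, IsE M s g1 g4 g2 g3 g0) → False :=
  fun ⟨_, h0⟩ ⟨_, h1⟩ ⟨_, h2⟩ ⟨_, h3⟩ => f10 c.s01.s12.s34.s23 h0.fl.s23 h1.s23 h2.fl.s23 h3

theorem z5246984 (c : Ctx M F g0 g1 g2 g3 g4) : (∃ s, IsE M s g0 g2 g1 g3 g4) → (∃ s, IsE M s g0 g2 g1 g4 g3) → (∃ s, IsE M s g0 g3 g1 g2 g4) → (∃ s, IsE M s g0 g4 g1 g2 g3) → False :=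
  fun ⟨_, h0⟩ ⟨_, h1⟩ ⟨_, h2⟩ ⟨_, h3⟩ => f10 c.s12.s01 h0.s01 h1.s01 h2.fl.s01 h3.fl.s01

theorem z8388936 (c : Ctx M F g0 g1 g2 g3 g4) : (∃ s, IsH M s g1 g2 g0 g3 g4) → (∃ s, IsE M s g0 g4 g1 g2 g3) → (∃ s, IsH M s g2 g4 g0 g1 g3) → (∃ s, IsE M s g0 g3 g2 g4 g1) → False :=
  fun ⟨_, h0⟩ ⟨_, h1⟩ ⟨_, h2⟩ ⟨_, h3⟩ => hh c.s12.s01.s12.s34 h0.s01.s34 h1.fl.s01 h2.s23 h3.fl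

theorem z8405512 (c : Ctx M F g0 g1 g2 g3 g4) : (∃ s, IsH M s g2 g3 g0 g1 g4) → (∃ s, IsE M s g0 g1 g2 g3 g4) → (∃ s, IsH M s g1 g2 g0 g3 g4) → (∃ s, IsE M s g0 g4 g1 g2 g3) → False :=
  fun ⟨_, h0⟩ ⟨_, h1⟩ ⟨_, h2⟩ ⟨_, h3⟩ => hh c.s12.s01.s23.s12 h0 h1.fl h2.s01.s23 h3.fl.s01

theorem z8406024 (c : Ctx M F g0 g1 g2 g3 g4) : (∃ s, IsH M s g2 g3 g0 g1 g4) → (∃ s, IsE M s g1 g4 g2 g3 g0) → (∃ s, IsH M s g1 g2 g0 g3 g4) → (∃ s, IsE M s g0 g4 g1 g2 g3) → False :=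
  fun ⟨_, h0⟩ ⟨_, h1⟩ ⟨_, h2⟩ ⟨_, h3⟩ => hh c.s12.s01.s23.s12.s34.s23.s34 h0.s34.s23.s34 h1.fl.s23 h2.s01.s23.s34 h3.fl.s01.s23

theorem z8486920 (c : Ctx M F g0 g1 g2 g3 g4) : (∃ s, IsH M s g1 g2 g0 g3 g4) → (∃ s, IsE M s g0 g4 g1 g2 g3) → (∃ s, IsH M s g0 g1 g2 g3 g4) → (∃ s, IsE M s g0 g1 g3 g4 g2) → False :=
  fun ⟨_, h0⟩ ⟨_, h1⟩ ⟨_, h2⟩ ⟨_, h3⟩ => hh c.s01.s12.s34.s23 h0.s34.s23 h1.fl.s23 h2.s01.s34 h3.s01.s23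

theorem z8921096 (c : Ctx M F g0 g1 g2 g3 g4) : (∃ s, IsH M s g1 g2 g0 g3 g4) → (∃ s, IsE M s g0 g4 g1 g2 g3) → (∃ s, IsH M s g1 g4 g0 g2 g3) → (∃ s, IsE M s g0 g3 g1 g4 g2) → False :=
  fun ⟨_, h0⟩ ⟨_, h1⟩ ⟨_, h2⟩ ⟨_, h3⟩ => hh c.s01.s12.s34 h0.s34 h1.fl h2.s23 h3.fl

theorem z9437208 (c : Ctx M F g0 g1 g2 g3 g4) : (∃ s, IsH M s g1 g3 g0 g2 g4) → (∃ s, IsE M s g0 g2 g1 g3 g4) → (∃ s, IsH M s g1 g2 g0 g3 g4) → (∃ s, IsE M s g0 g4 g1 g2 g3) → False :=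
  fun ⟨_, h0⟩ ⟨_, h1⟩ ⟨_, h2⟩ ⟨_, h3⟩ => hh c.s01.s23.s12 h0 h1.fl h2.s23 h3.fl

theorem z10747912 (c : Ctx M F g0 g1 g2 g3 g4) : (∃ s, IsH M s g1 g2 g0 g3 g4) → (∃ s, IsE M s g0 g4 g1 g2 g3) → (∃ s, IsH M s g0 g2 g1 g3 g4) → (∃ s, IsE M s g0 g2 g3 g4 g1) → False :=
  fun ⟨_, h0⟩ ⟨_, h1⟩ ⟨_, h2⟩ ⟨_, h3⟩ => hh c.s12.s01.s12.s34.s23 h0.s01.s34.s23 h1.fl.s01.s23 h2.s01.s34 h3.s01.s23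

theorem z1928 (c : Ctx M F g0 g1 g2 g3 g4) : (∃ s, IsE M s g0 g3 g2 g4 g1) → (∃ s, IsE M s g0 g1 g2 g4 g3) → (∃ s, IsE M s g0 g1 g2 g3 g4) → (∃ s, IsE M s g1 g4 g2 g3 g0) → (∃ s, IsE M s g0 g4 g1 g2 g3) → False :=
  fun ⟨_, h0⟩ ⟨_, h1⟩ ⟨_, h2⟩ ⟨_, h3⟩ ⟨_, h4⟩ => f14 c.s34.s23.s12.s01.s23.s12 h0.fl.s01 h1.fl.s01 h2.fl h3.s01 h4.s01.s23

theorem z4904 (c : Ctx M F g0 g1 g2 g3 g4) : (∃ s, IsE M s g0 g4 g1 g2 g3) → (∃ s, IsE M s g0 g3 g1 g2 g4) → (∃ s, IsE M s g0 g3 g2 g4 g1) → (∃ s, IsE M s g1 g3 g2 g4 g0) → (∃ s, IsE M s g0 g1 g2 g3 g4) → False :=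
  fun ⟨_, h0⟩ ⟨_, h1⟩ ⟨_, h2⟩ ⟨_, h3⟩ ⟨_, h4⟩ => f14 c.s01.s12 h0.fl h1.fl h2.fl h3 h4.s01

theorem z9096 (c : Ctx M F g0 g1 g2 g3 g4) : (∃ s, IsE M s g0 g1 g2 g3 g4) → (∃ s, IsE M s g0 g1 g2 g4 g3) → (∃ s, IsE M s g0 g3 g2 g4 g1) → (∃ s, IsE M s g0 g3 g1 g4 g2) → (∃ s, IsE M s g0 g4 g1 g2 g3) → False :=
  fun ⟨_, h0⟩ ⟨_, h1⟩ ⟨_, h2⟩ ⟨_, h3⟩ ⟨_, h4⟩ => f14 c.s01.s34 h0.s01 h1.s01 h2 h3.fl h4.fl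

theorem z68136 (c : Ctx M F g0 g1 g2 g3 g4) : (∃ s, IsE M s g0 g4 g1 g2 g3) → (∃ s, IsE M s g1 g2 g3 g4 g0) → (∃ s, IsE M s g0 g1 g3 g4 g2) → (∃ s, IsE M s g0 g1 g2 g3 g4) → (∃ s, IsE M s g1 g3 g2 g4 g0) → False :=
  fun ⟨_, h0⟩ ⟨_, h1⟩ ⟨_, h2⟩ ⟨_, h3⟩ ⟨_, h4⟩ => f14 c.s12.s01.s12.s34.s23.s34 h0.fl.s01.s23 h1.s01.s23 h2.s01.s23 h3.fl.s23 h4.fl

theorem z76296 (c : Ctx M F g0 g1 g2 g3 g4) : (∃ s, IsE M s g0 g1 g2 g3 g4) → (∃ s, IsE M s g0 g1 g3 g4 g2) → (∃ s, IsE M s g1 g2 g3 g4 g0) → (∃ s, IsE M s g0 g4 g1 g2 g3) → (∃ s, IsE M s g0 g3 g1 g4 g2) → False :=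
  fun ⟨_, h0⟩ ⟨_, h1⟩ ⟨_, h2⟩ ⟨_, h3⟩ ⟨_, h4⟩ => f14 c.s23.s34 h0.s23 h1 h2 h3 h4

theorem z78856 (c : Ctx M F g0 g1 g2 g3 g4) : (∃ s, IsE M s g1 g4 g2 g3 g0) → (∃ s, IsE M s g0 g3 g1 g4 g2) → (∃ s, IsE M s g0 g3 g1 g2 g4) → (∃ s, IsE M s g0 g4 g1 g2 g3) → (∃ s, IsE M s g0 g1 g3 g4 g2) → False :=
  fun ⟨_, h0⟩ ⟨_, h1⟩ ⟨_, h2⟩ ⟨_, h3⟩ ⟨_, h4⟩ => f14 c.s34.s23.s12.s01.s12.s34.s23 h0.s01.s23 h1.fl.s01.s23 h2.fl.s23 h3.s01 h4.fl.s01.s23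

theorem z3148040 (c : Ctx M F g0 g1 g2 g3 g4) : (∃ s, IsE M s g0 g2 g1 g3 g4) → (∃ s, IsE M s g0 g2 g3 g4 g1) → (∃ s, IsE M s g1 g2 g3 g4 g0) → (∃ s, IsE M s g0 g4 g1 g2 g3) → (∃ s, IsE M s g0 g3 g2 g4 g1) → False :=
  fun ⟨_, h0⟩ ⟨_, h1⟩ ⟨_, h2⟩ ⟨_, h3⟩ ⟨_, h4⟩ => f14 c.s12.s23.s34 h0.s23 h1 h2.s01 h3.s23 h4

theorem z5251336 (c : Ctx M F g0 g1 g2 g3 g4) : (∃ s, IsE M s g0 g2 g1 g3 g4) → (∃ s, IsE M s g0 g2 g1 g4 g3) → (∃ s, IsE M s g0 g3 g1 g4 g2) → (∃ s, IsE M s g0 g3 g2 g4 g1) → (∃ s, IsE M s g0 g4 g1 g2 g3) → False :=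
  fun ⟨_, h0⟩ ⟨_, h1⟩ ⟨_, h2⟩ ⟨_, h3⟩ ⟨_, h4⟩ => f14 c.s12.s01.s34 h0.s01 h1.s01 h2 h3.fl h4.fl.s01

theorem z6358024 (c : Ctx M F g0 g1 g2 g3 g4) : (∃ s, IsE M s g1 g4 g2 g3 g0) → (∃ s, IsE M s g0 g2 g1 g4 g3) → (∃ s, IsE M s g0 g2 g3 g4 g1) → (∃ s, IsE M s g0 g1 g3 g4 g2) → (∃ s, IsE M s g0 g4 g1 g2 g3) → False :=
  fun ⟨_, h0⟩ ⟨_, h1⟩ ⟨_, h2⟩ ⟨_, h3⟩ ⟨_, h4⟩ => f14 c.s01.s34.s23.s12.s23 h0 h1.fl.s23 h2.fl.s01.s23 h3.s01.s23 h4.fl.s23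

theorem z28 (c : Ctx M F g0 g1 g2 g3 g4) : (∃ s, IsH M s g1 g3 g0 g2 g4) → (∃ s, IsE M s g0 g4 g1 g2 g3) → (∃ s, IsE M s g0 g4 g2 g3 g1) → False :=
  fun ⟨_, h0⟩ ⟨_, h1⟩ ⟨_, h2⟩ => f5 c.s01.s23.s12.s23 h0.s23 h1.fl h2.fl.s01

theorem z76 (c : Ctx M F g0 g1 g2 g3 g4) : (∃ s, IsH M s g2 g4 g0 g1 g3) → (∃ s, IsE M s g0 g4 g1 g2 g3) → (∃ s, IsE M s g0 g4 g2 g3 g1) → False :=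
  fun ⟨_, h0⟩ ⟨_, h1⟩ ⟨_, h2⟩ => f3 c.s34.s23.s12.s01.s23.s12 h0.s01 h1.s01.s23 h2.s01

theorem z1092 (c : Ctx M F g0 g1 g2 g3 g4) : (∃ s, IsH M s g2 g4 g0 g1 g3) → (∃ s, IsE M s g0 g4 g2 g3 g1) → (∃ s, IsE M s g1 g4 g2 g3 g0) → False :=
  fun ⟨_, h0⟩ ⟨_, h1⟩ ⟨_, h2⟩ => f3 c.s12.s01.s34.s23.s12.s34.s23 h0.s34.s23 h1.fl.s23 h2.fl.s23

theorem z1540 (c : Ctx M F g0 g1 g2 g3 g4) : (∃ s, IsE M s g0 g1 g2 g3 g4) → (∃ s, IsE M s g0 g4 g2 g3 g1) → (∃ s, IsE M s g1 g4 g2 g3 g0) → False :=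
  fun ⟨_, h0⟩ ⟨_, h1⟩ ⟨_, h2⟩ => d2 c.s12.s01.s23.s12 h0.fl h1.fl h2.fl

theorem z16900 (c : Ctx M F g0 g1 g2 g3 g4) : (∃ s, IsH M s g2 g3 g0 g1 g4) → (∃ s, IsE M s g0 g1 g2 g3 g4) → (∃ s, IsE M s g0 g4 g2 g3 g1) → False :=
  fun ⟨_, h0⟩ ⟨_, h1⟩ ⟨_, h2⟩ => d1 c.s12.s01.s23.s12 h0 h1.fl h2.fl

theorem z17412 (c : Ctx M F g0 g1 g2 g3 g4) : (∃ s, IsH M s g2 g3 g0 g1 g4) → (∃ s, IsE M s g0 g4 g2 g3 g1) → (∃ s, IsE M s g1 g4 g2 g3 g0) → False :=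
  fun ⟨_, h0⟩ ⟨_, h1⟩ ⟨_, h2⟩ => d1 c.s12.s01.s23.s12.s34.s23 h0.s34.s23 h1.fl.s23 h2.fl.s23

theorem z33796 (c : Ctx M F g0 g1 g2 g3 g4) : (∃ s, IsH M s g0 g1 g2 g3 g4) → (∃ s, IsE M s g0 g4 g2 g3 g1) → (∃ s, IsE M s g1 g4 g2 g3 g0) → False :=
  fun ⟨_, h0⟩ ⟨_, h1⟩ ⟨_, h2⟩ => f5 c.s34.s23 h0.s34.s23 h1 h2

theorem z132100 (c : Ctx M F g0 g1 g2 g3 g4) : (∃ s, IsH M s g3 g4 g0 g1 g2) → (∃ s, IsE M s g0 g4 g2 g3 g1) → (∃ s, IsE M s g1 g4 g2 g3 g0) → False :=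
  fun ⟨_, h0⟩ ⟨_, h1⟩ ⟨_, h2⟩ => f3 c.s23.s12.s01.s34.s23.s12.s34.s23 h0.s34.s23 h1.fl.s01.s23 h2.fl.s01.s23

theorem z262156 (c : Ctx M F g0 g1 g2 g3 g4) : (∃ s, IsH M s g0 g2 g1 g3 g4) → (∃ s, IsE M s g0 g4 g1 g2 g3) → (∃ s, IsE M s g0 g4 g2 g3 g1) → False :=
  fun ⟨_, h0⟩ ⟨_, h1⟩ ⟨_, h2⟩ => f3 c.s12.s34.s23 h0.s34.s23 h1.s23 h2

theorem z262660 (c : Ctx M F g0 g1 g2 g3 g4) : (∃ s, IsH M s g0 g2 g1 g3 g4) → (∃ s, IsE M s g0 g1 g2 g3 g4) → (∃ s, IsE M s g0 g4 g2 g3 g1) → False :=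
  fun ⟨_, h0⟩ ⟨_, h1⟩ ⟨_, h2⟩ => f3 c.s12.s01.s23 h0.s01.s23 h1.fl h2.fl

theorem z524804 (c : Ctx M F g0 g1 g2 g3 g4) : (∃ s, IsH M s g1 g4 g0 g2 g3) → (∃ s, IsE M s g0 g1 g2 g3 g4) → (∃ s, IsE M s g0 g4 g2 g3 g1) → False :=
  fun ⟨_, h0⟩ ⟨_, h1⟩ ⟨_, h2⟩ => f5 c.s01.s34.s23.s12 h0 h1.s01 h2.s01

theorem z16777732 (c : Ctx M F g0 g1 g2 g3 g4) : (∃ s, IsH M s g0 g3 g1 g2 g4) → (∃ s, IsE M s g0 g1 g2 g3 g4) → (∃ s, IsE M s g0 g4 g2 g3 g1) → False :=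
  fun ⟨_, h0⟩ ⟨_, h1⟩ ⟨_, h2⟩ => f3 c.s23.s12.s01.s23 h0.s01.s23 h1.fl.s01 h2.fl.s01

theorem z1316 (c : Ctx M F g0 g1 g2 g3 g4) : (∃ s, IsE M s g0 g4 g2 g3 g1) → (∃ s, IsE M s g1 g4 g2 g3 g0) → (∃ s, IsE M s g0 g3 g2 g4 g1) → (∃ s, IsE M s g1 g3 g2 g4 g0) → False :=
  fun ⟨_, h0⟩ ⟨_, h1⟩ ⟨_, h2⟩ ⟨_, h3⟩ => f10 c.s12.s01.s23.s12.s34.s23 h0.fl.s23 h1.fl.s23 h2.fl.s23 h3.fl.s23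

theorem z4868 (c : Ctx M F g0 g1 g2 g3 g4) : (∃ s, IsE M s g0 g3 g1 g2 g4) → (∃ s, IsE M s g0 g3 g2 g4 g1) → (∃ s, IsE M s g0 g1 g2 g3 g4) → (∃ s, IsE M s g0 g4 g2 g3 g1) → False :=
  fun ⟨_, h0⟩ ⟨_, h1⟩ ⟨_, h2⟩ ⟨_, h3⟩ => f10 c.s23.s12.s01.s23 h0.s01.s23 h1.s01 h2.fl.s01 h3.fl.s01

theorem z16436 (c : Ctx M F g0 g1 g2 g3 g4) : (∃ s, IsH M s g1 g3 g0 g2 g4) → (∃ s, IsE M s g1 g3 g2 g4 g0) → (∃ s, IsH M s g2 g3 g0 g1 g4) → (∃ s, IsE M s g0 g4 g2 g3 g1) → False :=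
  fun ⟨_, h0⟩ ⟨_, h1⟩ ⟨_, h2⟩ ⟨_, h3⟩ => hh c.s23.s12.s01.s12.s34.s23.s34 h0.s01.s34.s23.s34 h1.s01.s23 h2.s01.s23.s34 h3.fl.s01.s23

theorem z16580 (c : Ctx M F g0 g1 g2 g3 g4) : (∃ s, IsH M s g2 g3 g0 g1 g4) → (∃ s, IsE M s g0 g4 g2 g3 g1) → (∃ s, IsH M s g2 g4 g0 g1 g3) → (∃ s, IsE M s g0 g1 g2 g4 g3) → False :=
  fun ⟨_, h0⟩ ⟨_, h1⟩ ⟨_, h2⟩ ⟨_, h3⟩ => hh c.s12.s01.s23.s12.s34 h0.s34 h1.fl h2.s34.s23 h3.fl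

theorem z212996 (c : Ctx M F g0 g1 g2 g3 g4) : (∃ s, IsH M s g2 g3 g0 g1 g4) → (∃ s, IsE M s g0 g4 g2 g3 g1) → (∃ s, IsH M s g3 g4 g0 g1 g2) → (∃ s, IsE M s g0 g1 g3 g4 g2) → False :=
  fun ⟨_, h0⟩ ⟨_, h1⟩ ⟨_, h2⟩ ⟨_, h3⟩ => hh c.s23.s12.s01.s23.s12.s34 h0.s01.s34 h1.fl.s01 h2.s34.s23 h3.fl

theorem z1064980 (c : Ctx M F g0 g1 g2 g3 g4) : (∃ s, IsH M s g1 g3 g0 g2 g4) → (∃ s, IsE M s g0 g2 g1 g3 g4) → (∃ s, IsH M s g2 g3 g0 g1 g4) → (∃ s, IsE M s g0 g4 g2 g3 g1) → False :=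
  fun ⟨_, h0⟩ ⟨_, h1⟩ ⟨_, h2⟩ ⟨_, h3⟩ => hh c.s23.s12.s01.s12 h0.s01 h1.fl.s01 h2.s01.s23 h3.fl.s01

theorem z2100228 (c : Ctx M F g0 g1 g2 g3 g4) : (∃ s, IsE M s g0 g4 g2 g3 g1) → (∃ s, IsE M s g1 g4 g2 g3 g0) → (∃ s, IsE M s g0 g2 g3 g4 g1) → (∃ s, IsE M s g1 g2 g3 g4 g0) → False :=
  fun ⟨_, h0⟩ ⟨_, h1⟩ ⟨_, h2⟩ ⟨_, h3⟩ => f10 c.s23.s12.s01.s23.s12.s34.s23 h0.fl.s01.s23 h1.fl.s01.s23 h2.fl.s23 h3.fl.s23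

theorem z3146244 (c : Ctx M F g0 g1 g2 g3 g4) : (∃ s, IsE M s g0 g2 g1 g3 g4) → (∃ s, IsE M s g0 g2 g3 g4 g1) → (∃ s, IsE M s g0 g1 g2 g3 g4) → (∃ s, IsE M s g0 g4 g2 g3 g1) → False :=
  fun ⟨_, h0⟩ ⟨_, h1⟩ ⟨_, h2⟩ ⟨_, h3⟩ => f10 c.s12.s01.s23 h0.s01.s23 h1.s01 h2.fl h3.fl

theorem z4472836 (c : Ctx M F g0 g1 g2 g3 g4) : (∃ s, IsH M s g2 g3 g0 g1 g4) → (∃ s, IsE M s g0 g4 g2 g3 g1) → (∃ s, IsH M s g0 g2 g1 g3 g4) → (∃ s, IsE M s g0 g2 g1 g4 g3) → False :=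
  fun ⟨_, h0⟩ ⟨_, h1⟩ ⟨_, h2⟩ ⟨_, h3⟩ => hh c.s12.s01.s23.s12.s34.s23 h0.s34.s23 h1.fl.s23 h2.s01.s23.s34 h3.s01.s23

theorem z8407044 (c : Ctx M F g0 g1 g2 g3 g4) : (∃ s, IsH M s g1 g2 g0 g3 g4) → (∃ s, IsE M s g1 g2 g3 g4 g0) → (∃ s, IsH M s g2 g3 g0 g1 g4) → (∃ s, IsE M s g0 g4 g2 g3 g1) → False :=
  fun ⟨_, h0⟩ ⟨_, h1⟩ ⟨_, h2⟩ ⟨_, h3⟩ => hh c.s12.s01.s12.s34.s23.s34 h0.s01.s34.s23.s34 h1.s01.s23 h2.s23.s34 h3.fl.s23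

theorem z8409092 (c : Ctx M F g0 g1 g2 g3 g4) : (∃ s, IsH M s g1 g2 g0 g3 g4) → (∃ s, IsE M s g0 g3 g1 g2 g4) → (∃ s, IsH M s g2 g3 g0 g1 g4) → (∃ s, IsE M s g0 g4 g2 g3 g1) → False :=
  fun ⟨_, h0⟩ ⟨_, h1⟩ ⟨_, h2⟩ ⟨_, h3⟩ => hh c.s12.s01.s12 h0.s01 h1.fl.s01 h2.s23 h3.fl

theorem z16801796 (c : Ctx M F g0 g1 g2 g3 g4) : (∃ s, IsH M s g2 g3 g0 g1 g4) → (∃ s, IsE M s g0 g4 g2 g3 g1) → (∃ s, IsH M s g0 g3 g1 g2 g4) → (∃ s, IsE M s g0 g3 g1 g4 g2) → False :=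
  fun ⟨_, h0⟩ ⟨_, h1⟩ ⟨_, h2⟩ ⟨_, h3⟩ => hh c.s23.s12.s01.s23.s12.s34.s23 h0.s01.s34.s23 h1.fl.s01.s23 h2.s01.s23.s34 h3.s01.s23

theorem z4772 (c : Ctx M F g0 g1 g2 g3 g4) : (∃ s, IsE M s g0 g4 g2 g3 g1) → (∃ s, IsE M s g0 g1 g2 g3 g4) → (∃ s, IsE M s g0 g1 g2 g4 g3) → (∃ s, IsE M s g1 g3 g2 g4 g0) → (∃ s, IsE M s g0 g3 g1 g2 g4) → False :=
  fun ⟨_, h0⟩ ⟨_, h1⟩ ⟨_, h2⟩ ⟨_, h3⟩ ⟨_, h4⟩ => f14 c.s23.s12.s01.s23.s12 h0.fl.s01 h1.fl.s01 h2.fl h3.s01 h4.s01.s23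

theorem z13348 (c : Ctx M F g0 g1 g2 g3 g4) : (∃ s, IsE M s g0 g4 g2 g3 g1) → (∃ s, IsE M s g1 g4 g2 g3 g0) → (∃ s, IsE M s g0 g3 g1 g4 g2) → (∃ s, IsE M s g0 g3 g1 g2 g4) → (∃ s, IsE M s g1 g3 g2 g4 g0) → False :=
  fun ⟨_, h0⟩ ⟨_, h1⟩ ⟨_, h2⟩ ⟨_, h3⟩ ⟨_, h4⟩ => f14 c.s12.s01.s23.s12.s34.s23.s34 h0.fl.s23 h1.fl.s23 h2.s01.s23 h3.fl.s01.s23 h4.fl.s23

theorem z70020 (c : Ctx M F g0 g1 g2 g3 g4) : (∃ s, IsE M s g0 g3 g1 g2 g4) → (∃ s, IsE M s g0 g3 g2 g4 g1) → (∃ s, IsE M s g0 g1 g2 g4 g3) → (∃ s, IsE M s g0 g1 g3 g4 g2) → (∃ s, IsE M s g0 g4 g2 g3 g1) → False :=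
  fun ⟨_, h0⟩ ⟨_, h1⟩ ⟨_, h2⟩ ⟨_, h3⟩ ⟨_, h4⟩ => f14 c.s23.s12.s01.s23.s34 h0.s01.s23 h1.s01 h2 h3.fl h4.fl.s01

theorem z76292 (c : Ctx M F g0 g1 g2 g3 g4) : (∃ s, IsE M s g1 g2 g3 g4 g0) → (∃ s, IsE M s g0 g1 g3 g4 g2) → (∃ s, IsE M s g0 g1 g2 g3 g4) → (∃ s, IsE M s g0 g4 g2 g3 g1) → (∃ s, IsE M s g0 g3 g1 g4 g2) → False :=
  fun ⟨_, h0⟩ ⟨_, h1⟩ ⟨_, h2⟩ ⟨_, h3⟩ ⟨_, h4⟩ => f14 c.s34.s23.s12.s01.s34.s23.s12.s23 h0.fl.s01 h1.fl.s01.s23 h2.fl.s01.s23 h3.s01.s23 h4.fl.s01.s23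

theorem z78852 (c : Ctx M F g0 g1 g2 g3 g4) : (∃ s, IsE M s g0 g3 g1 g2 g4) → (∃ s, IsE M s g0 g3 g1 g4 g2) → (∃ s, IsE M s g1 g4 g2 g3 g0) → (∃ s, IsE M s g0 g4 g2 g3 g1) → (∃ s, IsE M s g0 g1 g3 g4 g2) → False :=
  fun ⟨_, h0⟩ ⟨_, h1⟩ ⟨_, h2⟩ ⟨_, h3⟩ ⟨_, h4⟩ => f14 c.s23.s12.s34 h0 h1 h2.fl.s01 h3.s23 h4

theorem z3211396 (c : Ctx M F g0 g1 g2 g3 g4) : (∃ s, IsE M s g0 g2 g1 g3 g4) → (∃ s, IsE M s g0 g2 g3 g4 g1) → (∃ s, IsE M s g0 g1 g3 g4 g2) → (∃ s, IsE M s g0 g1 g2 g4 g3) → (∃ s, IsE M s g0 g4 g2 g3 g1) → False :=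
  fun ⟨_, h0⟩ ⟨_, h1⟩ ⟨_, h2⟩ ⟨_, h3⟩ ⟨_, h4⟩ => f14 c.s12.s01.s23.s34 h0.s01.s23 h1.s01 h2 h3.fl h4.fl

theorem z5244036 (c : Ctx M F g0 g1 g2 g3 g4) : (∃ s, IsE M s g0 g2 g1 g3 g4) → (∃ s, IsE M s g0 g2 g1 g4 g3) → (∃ s, IsE M s g1 g4 g2 g3 g0) → (∃ s, IsE M s g0 g4 g2 g3 g1) → (∃ s, IsE M s g0 g1 g2 g4 g3) → False :=
  fun ⟨_, h0⟩ ⟨_, h1⟩ ⟨_, h2⟩ ⟨_, h3⟩ ⟨_, h4⟩ => f14 c.s12.s34 h0 h1 h2.fl h3 h4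

theorem z6301700 (c : Ctx M F g0 g1 g2 g3 g4) : (∃ s, IsE M s g1 g2 g3 g4 g0) → (∃ s, IsE M s g0 g2 g3 g4 g1) → (∃ s, IsE M s g0 g2 g1 g4 g3) → (∃ s, IsE M s g0 g3 g1 g4 g2) → (∃ s, IsE M s g0 g4 g2 g3 g1) → False :=
  fun ⟨_, h0⟩ ⟨_, h1⟩ ⟨_, h2⟩ ⟨_, h3⟩ ⟨_, h4⟩ => f14 c.s23.s12.s01.s34.s23.s12.s34.s23 h0.fl.s23 h1.fl.s23 h2.fl.s01.s23 h3.s01.s23 h4.fl.s01.s23

theorem z18 (c : Ctx M F g0 g1 g2 g3 g4) : (∃ s, IsH M s g0 g4 g1 g2 g3) → (∃ s, IsH M s g1 g3 g0 g2 g4) → False :=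
  fun ⟨_, h0⟩ ⟨_, h1⟩ => f1 c.s34.s23.s12.s34 h0.s34 h1.s34

theorem z16386 (c : Ctx M F g0 g1 g2 g3 g4) : (∃ s, IsH M s g0 g4 g1 g2 g3) → (∃ s, IsH M s g2 g3 g0 g1 g4) → False :=
  fun ⟨_, h0⟩ ⟨_, h1⟩ => f1 c.s34.s23.s12.s23.s34 h0.s23.s34 h1.s34

theorem z8388610 (c : Ctx M F g0 g1 g2 g3 g4) : (∃ s, IsH M s g0 g4 g1 g2 g3) → (∃ s, IsH M s g1 g2 g0 g3 g4) → False :=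
  fun ⟨_, h0⟩ ⟨_, h1⟩ => f1 c.s34.s23.s12 h0 h1.s34

theorem z14 (c : Ctx M F g0 g1 g2 g3 g4) : (∃ s, IsH M s g0 g4 g1 g2 g3) → (∃ s, IsE M s g0 g4 g1 g2 g3) → (∃ s, IsE M s g0 g4 g2 g3 g1) → False :=
  fun ⟨_, h0⟩ ⟨_, h1⟩ ⟨_, h2⟩ => d1 c.s34.s23.s12.s23 h0.s23 h1.s23 h2

theorem z386 (c : Ctx M F g0 g1 g2 g3 g4) : (∃ s, IsH M s g0 g4 g1 g2 g3) → (∃ s, IsE M s g0 g1 g2 g4 g3) → (∃ s, IsE M s g0 g3 g2 g4 g1) → False :=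
  fun ⟨_, h0⟩ ⟨_, h1⟩ ⟨_, h2⟩ => f3 c.s34.s23.s12.s01.s23 h0.s01.s23 h1.fl.s01 h2.fl.s01

theorem z1538 (c : Ctx M F g0 g1 g2 g3 g4) : (∃ s, IsH M s g0 g4 g1 g2 g3) → (∃ s, IsE M s g0 g1 g2 g3 g4) → (∃ s, IsE M s g1 g4 g2 g3 g0) → False :=
  fun ⟨_, h0⟩ ⟨_, h1⟩ ⟨_, h2⟩ => f5 c.s34.s23.s12 h0 h1 h2.s01

theorem z6146 (c : Ctx M F g0 g1 g2 g3 g4) : (∃ s, IsH M s g0 g4 g1 g2 g3) → (∃ s, IsE M s g0 g3 g1 g2 g4) → (∃ s, IsE M s g1 g2 g3 g4 g0) → False :=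
  fun ⟨_, h0⟩ ⟨_, h1⟩ ⟨_, h2⟩ => f5 c.s34.s23.s12.s34.s23 h0.s34.s23 h1 h2.fl.s01

theorem z8450 (c : Ctx M F g0 g1 g2 g3 g4) : (∃ s, IsH M s g0 g4 g1 g2 g3) → (∃ s, IsE M s g0 g3 g1 g4 g2) → (∃ s, IsE M s g0 g3 g2 g4 g1) → False :=
  fun ⟨_, h0⟩ ⟨_, h1⟩ ⟨_, h2⟩ => f3 c.s34.s23.s12.s34.s23 h0.s34.s23 h1.s23 h2.s23

theorem z65666 (c : Ctx M F g0 g1 g2 g3 g4) : (∃ s, IsH M s g0 g4 g1 g2 g3) → (∃ s, IsE M s g0 g1 g2 g4 g3) → (∃ s, IsE M s g0 g1 g3 g4 g2) → False :=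
  fun ⟨_, h0⟩ ⟨_, h1⟩ ⟨_, h2⟩ => f3 c.s34.s23.s12 h0 h1.s23 h2.s23

theorem z1048610 (c : Ctx M F g0 g1 g2 g3 g4) : (∃ s, IsH M s g0 g4 g1 g2 g3) → (∃ s, IsE M s g0 g2 g1 g3 g4) → (∃ s, IsE M s g1 g3 g2 g4 g0) → False :=
  fun ⟨_, h0⟩ ⟨_, h1⟩ ⟨_, h2⟩ => f5 c.s34.s23.s12.s23 h0.s23 h1 h2.fl.s01

theorem z2162690 (c : Ctx M F g0 g1 g2 g3 g4) : (∃ s, IsH M s g0 g4 g1 g2 g3) → (∃ s, IsE M s g0 g1 g3 g4 g2) → (∃ s, IsE M s g0 g2 g3 g4 g1) → False :=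
  fun ⟨_, h0⟩ ⟨_, h1⟩ ⟨_, h2⟩ => f3 c.s34.s23.s12.s01.s34.s23 h0.s01.s34.s23 h1.fl.s01 h2.fl.s01

theorem z4202498 (c : Ctx M F g0 g1 g2 g3 g4) : (∃ s, IsH M s g0 g4 g1 g2 g3) → (∃ s, IsE M s g0 g2 g1 g4 g3) → (∃ s, IsE M s g0 g3 g1 g4 g2) → False :=
  fun ⟨_, h0⟩ ⟨_, h1⟩ ⟨_, h2⟩ => f3 c.s34.s23.s12.s01 h0.s01 h1.fl.s01 h2.fl.s01

theorem z6291458 (c : Ctx M F g0 g1 g2 g3 g4) : (∃ s, IsH M s g0 g4 g1 g2 g3) → (∃ s, IsE M s g0 g2 g1 g4 g3) → (∃ s, IsE M s g0 g2 g3 g4 g1) → False :=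
  fun ⟨_, h0⟩ ⟨_, h1⟩ ⟨_, h2⟩ => f3 c.s34.s23.s12.s23 h0.s23 h1.s23 h2.s23

theorem z102 (c : Ctx M F g0 g1 g2 g3 g4) : (∃ s, IsH M s g0 g4 g1 g2 g3) → (∃ s, IsE M s g0 g4 g2 g3 g1) → (∃ s, IsH M s g2 g4 g0 g1 g3) → (∃ s, IsE M s g1 g3 g2 g4 g0) → False :=
  fun ⟨_, h0⟩ ⟨_, h1⟩ ⟨_, h2⟩ ⟨_, h3⟩ => hh c.s34.s23.s12.s01.s34.s23.s34 h0.s01.s34.s23.s34 h1.s01.s23 h2.s01.s34 h3.fl.s01.s23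

theorem z106 (c : Ctx M F g0 g1 g2 g3 g4) : (∃ s, IsH M s g0 g4 g1 g2 g3) → (∃ s, IsE M s g0 g4 g1 g2 g3) → (∃ s, IsH M s g2 g4 g0 g1 g3) → (∃ s, IsE M s g1 g3 g2 g4 g0) → False :=
  fun ⟨_, h0⟩ ⟨_, h1⟩ ⟨_, h2⟩ ⟨_, h3⟩ => hh c.s34.s23.s12.s01 h0.s01 h1.s01 h2.s01 h3.fl.s01

theorem z32902 (c : Ctx M F g0 g1 g2 g3 g4) : (∃ s, IsH M s g0 g1 g2 g3 g4) → (∃ s, IsE M s g0 g1 g2 g4 g3) → (∃ s, IsH M s g0 g4 g1 g2 g3) → (∃ s, IsE M s g0 g4 g2 g3 g1) → False :=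
  fun ⟨_, h0⟩ ⟨_, h1⟩ ⟨_, h2⟩ ⟨_, h3⟩ => hh c.s34 h0.s34 h1 h2 h3

theorem z33290 (c : Ctx M F g0 g1 g2 g3 g4) : (∃ s, IsH M s g0 g4 g1 g2 g3) → (∃ s, IsE M s g0 g4 g1 g2 g3) → (∃ s, IsH M s g0 g1 g2 g3 g4) → (∃ s, IsE M s g0 g1 g2 g3 g4) → False :=
  fun ⟨_, h0⟩ ⟨_, h1⟩ ⟨_, h2⟩ ⟨_, h3⟩ => hh c.s34.s23.s12.s23 h0.s23 h1.s23 h2.s34.s23 h3

theorem z196618 (c : Ctx M F g0 g1 g2 g3 g4) : (∃ s, IsH M s g3 g4 g0 g1 g2) → (∃ s, IsE M s g0 g1 g3 g4 g2) → (∃ s, IsH M s g0 g4 g1 g2 g3) → (∃ s, IsE M s g0 g4 g1 g2 g3) → False :=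
  fun ⟨_, h0⟩ ⟨_, h1⟩ ⟨_, h2⟩ ⟨_, h3⟩ => hh c.s34.s23.s12.s01.s34.s23.s12.s23 h0.s01.s23 h1.fl.s01.s23 h2.s01.s34.s23 h3.s01

theorem z532486 (c : Ctx M F g0 g1 g2 g3 g4) : (∃ s, IsH M s g1 g4 g0 g2 g3) → (∃ s, IsE M s g0 g3 g1 g4 g2) → (∃ s, IsH M s g0 g4 g1 g2 g3) → (∃ s, IsE M s g0 g4 g2 g3 g1) → False :=
  fun ⟨_, h0⟩ ⟨_, h1⟩ ⟨_, h2⟩ ⟨_, h3⟩ => hh c.s34.s23.s12.s01.s12.s34.s23 h0.s01.s34.s23 h1.fl.s01.s23 h2.s01.s34 h3.s01.s23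

theorem z7 (c : Ctx M F g0 g1 g2 g3 g4) : (∃ s, IsH M s g0 g4 g1 g2 g3) → (∃ s, IsE M s g0 g4 g1 g3 g2) → (∃ s, IsE M s g0 g4 g2 g3 g1) → False :=
  fun ⟨_, h0⟩ ⟨_, h1⟩ ⟨_, h2⟩ => d1 c.s34.s23.s12.s34.s23 h0.s34.s23 h1.s23 h2.s23

theorem z11 (c : Ctx M F g0 g1 g2 g3 g4) : (∃ s, IsH M s g0 g4 g1 g2 g3) → (∃ s, IsE M s g0 g4 g1 g2 g3) → (∃ s, IsE M s g0 g4 g1 g3 g2) → False :=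
  fun ⟨_, h0⟩ ⟨_, h1⟩ ⟨_, h2⟩ => d1 c.s34.s23.s12 h0 h1 h2

theorem z13 (c : Ctx M F g0 g1 g2 g3 g4) : (∃ s, IsE M s g0 g4 g1 g2 g3) → (∃ s, IsE M s g0 g4 g1 g3 g2) → (∃ s, IsE M s g0 g4 g2 g3 g1) → False :=
  fun ⟨_, h0⟩ ⟨_, h1⟩ ⟨_, h2⟩ => d2 c.s34.s23.s12 h0 h1 h2

theorem z49 (c : Ctx M F g0 g1 g2 g3 g4) : (∃ s, IsH M s g1 g3 g0 g2 g4) → (∃ s, IsE M s g0 g4 g1 g3 g2) → (∃ s, IsE M s g1 g3 g2 g4 g0) → False :=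
  fun ⟨_, h0⟩ ⟨_, h1⟩ ⟨_, h2⟩ => d1 c.s01.s23.s12.s34.s23 h0.s34.s23 h1.fl.s23 h2.s23

theorem z16393 (c : Ctx M F g0 g1 g2 g3 g4) : (∃ s, IsH M s g2 g3 g0 g1 g4) → (∃ s, IsE M s g0 g4 g1 g2 g3) → (∃ s, IsE M s g0 g4 g1 g3 g2) → False :=
  fun ⟨_, h0⟩ ⟨_, h1⟩ ⟨_, h2⟩ => f5 c.s12.s01.s23.s12.s23 h0.s23 h1.fl.s01 h2.fl.s01

theorem z32777 (c : Ctx M F g0 g1 g2 g3 g4) : (∃ s, IsH M s g0 g1 g2 g3 g4) → (∃ s, IsE M s g0 g4 g1 g2 g3) → (∃ s, IsE M s g0 g4 g1 g3 g2) → False :=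
  fun ⟨_, h0⟩ ⟨_, h1⟩ ⟨_, h2⟩ => f3 c.s34.s23 h0.s34.s23 h1 h2

theorem z131077 (c : Ctx M F g0 g1 g2 g3 g4) : (∃ s, IsH M s g3 g4 g0 g1 g2) → (∃ s, IsE M s g0 g4 g1 g3 g2) → (∃ s, IsE M s g0 g4 g2 g3 g1) → False :=
  fun ⟨_, h0⟩ ⟨_, h1⟩ ⟨_, h2⟩ => f3 c.s34.s23.s12.s01.s34.s23.s12 h0.s01 h1.s01.s23 h2.s01.s23

theorem z131105 (c : Ctx M F g0 g1 g2 g3 g4) : (∃ s, IsH M s g3 g4 g0 g1 g2) → (∃ s, IsE M s g0 g4 g1 g3 g2) → (∃ s, IsE M s g1 g3 g2 g4 g0) → False :=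
  fun ⟨_, h0⟩ ⟨_, h1⟩ ⟨_, h2⟩ => f3 c.s23.s12.s01.s34.s23.s12.s23 h0.s23 h1.fl.s01.s23 h2.s01.s23

theorem z262177 (c : Ctx M F g0 g1 g2 g3 g4) : (∃ s, IsH M s g0 g2 g1 g3 g4) → (∃ s, IsE M s g0 g4 g1 g3 g2) → (∃ s, IsE M s g1 g3 g2 g4 g0) → False :=
  fun ⟨_, h0⟩ ⟨_, h1⟩ ⟨_, h2⟩ => f5 c.s12.s34.s23 h0.s34.s23 h1 h2.fl

theorem z524297 (c : Ctx M F g0 g1 g2 g3 g4) : (∃ s, IsH M s g1 g4 g0 g2 g3) → (∃ s, IsE M s g0 g4 g1 g2 g3) → (∃ s, IsE M s g0 g4 g1 g3 g2) → False :=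
  fun ⟨_, h0⟩ ⟨_, h1⟩ ⟨_, h2⟩ => f3 c.s34.s23.s12.s01.s12 h0.s01 h1.s01 h2.s01

theorem z524321 (c : Ctx M F g0 g1 g2 g3 g4) : (∃ s, IsH M s g1 g4 g0 g2 g3) → (∃ s, IsE M s g0 g4 g1 g3 g2) → (∃ s, IsE M s g1 g3 g2 g4 g0) → False :=
  fun ⟨_, h0⟩ ⟨_, h1⟩ ⟨_, h2⟩ => f3 c.s01.s34.s23.s12.s34.s23 h0.s34.s23 h1.fl.s23 h2.s23

theorem z1048593 (c : Ctx M F g0 g1 g2 g3 g4) : (∃ s, IsH M s g1 g3 g0 g2 g4) → (∃ s, IsE M s g0 g2 g1 g3 g4) → (∃ s, IsE M s g0 g4 g1 g3 g2) → False :=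
  fun ⟨_, h0⟩ ⟨_, h1⟩ ⟨_, h2⟩ => d1 c.s01.s23.s12 h0 h1.fl h2.fl

theorem z1048609 (c : Ctx M F g0 g1 g2 g3 g4) : (∃ s, IsE M s g0 g2 g1 g3 g4) → (∃ s, IsE M s g0 g4 g1 g3 g2) → (∃ s, IsE M s g1 g3 g2 g4 g0) → False :=
  fun ⟨_, h0⟩ ⟨_, h1⟩ ⟨_, h2⟩ => d2 c.s01.s23.s12 h0.fl h1.fl h2

theorem z1048641 (c : Ctx M F g0 g1 g2 g3 g4) : (∃ s, IsH M s g2 g4 g0 g1 g3) → (∃ s, IsE M s g0 g2 g1 g3 g4) → (∃ s, IsE M s g0 g4 g1 g3 g2) → False :=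
  fun ⟨_, h0⟩ ⟨_, h1⟩ ⟨_, h2⟩ => f5 c.s12.s01.s34.s23.s12 h0 h1.s01 h2.s01

theorem z1081345 (c : Ctx M F g0 g1 g2 g3 g4) : (∃ s, IsH M s g0 g1 g2 g3 g4) → (∃ s, IsE M s g0 g2 g1 g3 g4) → (∃ s, IsE M s g0 g4 g1 g3 g2) → False :=
  fun ⟨_, h0⟩ ⟨_, h1⟩ ⟨_, h2⟩ => f3 c.s01.s23 h0.s01.s23 h1.fl h2.fl

theorem z8388613 (c : Ctx M F g0 g1 g2 g3 g4) : (∃ s, IsH M s g1 g2 g0 g3 g4) → (∃ s, IsE M s g0 g4 g1 g3 g2) → (∃ s, IsE M s g0 g4 g2 g3 g1) → False :=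
  fun ⟨_, h0⟩ ⟨_, h1⟩ ⟨_, h2⟩ => f5 c.s01.s12.s23 h0.s23 h1.fl h2.fl

theorem z16777221 (c : Ctx M F g0 g1 g2 g3 g4) : (∃ s, IsH M s g0 g3 g1 g2 g4) → (∃ s, IsE M s g0 g4 g1 g3 g2) → (∃ s, IsE M s g0 g4 g2 g3 g1) → False :=
  fun ⟨_, h0⟩ ⟨_, h1⟩ ⟨_, h2⟩ => f3 c.s23.s12.s34.s23 h0.s34.s23 h1.s23 h2.s23

theorem z17825793 (c : Ctx M F g0 g1 g2 g3 g4) : (∃ s, IsH M s g0 g3 g1 g2 g4) → (∃ s, IsE M s g0 g2 g1 g3 g4) → (∃ s, IsE M s g0 g4 g1 g3 g2) → False :=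
  fun ⟨_, h0⟩ ⟨_, h1⟩ ⟨_, h2⟩ => f3 c.s23.s12.s01 h0.s01 h1.fl.s01 h2.fl.s01

theorem z195 (c : Ctx M F g0 g1 g2 g3 g4) : (∃ s, IsH M s g2 g4 g0 g1 g3) → (∃ s, IsE M s g0 g1 g2 g4 g3) → (∃ s, IsH M s g0 g4 g1 g2 g3) → (∃ s, IsE M s g0 g4 g1 g3 g2) → False :=
  fun ⟨_, h0⟩ ⟨_, h1⟩ ⟨_, h2⟩ ⟨_, h3⟩ => hh c.s34.s23.s12.s01.s23.s12.s23 h0.s01.s23 h1.fl.s01.s23 h2.s01.s23 h3.s01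

theorem z323 (c : Ctx M F g0 g1 g2 g3 g4) : (∃ s, IsH M s g2 g4 g0 g1 g3) → (∃ s, IsE M s g0 g3 g2 g4 g1) → (∃ s, IsH M s g0 g4 g1 g2 g3) → (∃ s, IsE M s g0 g4 g1 g3 g2) → False :=
  fun ⟨_, h0⟩ ⟨_, h1⟩ ⟨_, h2⟩ ⟨_, h3⟩ => hh c.s34.s23.s12.s01.s23.s12.s34.s23 h0.s01.s34.s23 h1.fl.s01.s23 h2.s01.s23.s34 h3.s01.s23

theorem z8453 (c : Ctx M F g0 g1 g2 g3 g4) : (∃ s, IsE M s g0 g3 g1 g4 g2) → (∃ s, IsE M s g0 g3 g2 g4 g1) → (∃ s, IsE M s g0 g4 g1 g3 g2) → (∃ s, IsE M s g0 g4 g2 g3 g1) → False :=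
  fun ⟨_, h0⟩ ⟨_, h1⟩ ⟨_, h2⟩ ⟨_, h3⟩ => f10 c.s23.s12.s34.s23 h0.s23 h1.s23 h2.s23 h3.s23

theorem z9249 (c : Ctx M F g0 g1 g2 g3 g4) : (∃ s, IsE M s g0 g4 g1 g3 g2) → (∃ s, IsE M s g1 g3 g2 g4 g0) → (∃ s, IsE M s g0 g3 g1 g4 g2) → (∃ s, IsE M s g1 g4 g2 g3 g0) → False :=
  fun ⟨_, h0⟩ ⟨_, h1⟩ ⟨_, h2⟩ ⟨_, h3⟩ => f10 c.s01.s23.s12.s34.s23 h0.fl.s23 h1.s23 h2.fl.s23 h3.s23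

theorem z32913 (c : Ctx M F g0 g1 g2 g3 g4) : (∃ s, IsH M s g1 g3 g0 g2 g4) → (∃ s, IsE M s g0 g4 g1 g3 g2) → (∃ s, IsH M s g0 g1 g2 g3 g4) → (∃ s, IsE M s g0 g1 g2 g4 g3) → False :=
  fun ⟨_, h0⟩ ⟨_, h1⟩ ⟨_, h2⟩ ⟨_, h3⟩ => hh c.s01.s23.s12.s34.s23 h0.s34.s23 h1.fl.s23 h2.s01.s23.s34 h3.s01.s23

theorem z67617 (c : Ctx M F g0 g1 g2 g3 g4) : (∃ s, IsE M s g0 g4 g1 g3 g2) → (∃ s, IsE M s g1 g3 g2 g4 g0) → (∃ s, IsE M s g0 g1 g3 g4 g2) → (∃ s, IsE M s g1 g2 g3 g4 g0) → False :=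
  fun ⟨_, h0⟩ ⟨_, h1⟩ ⟨_, h2⟩ ⟨_, h3⟩ => f10 c.s23.s12.s01.s12.s34.s23 h0.fl.s01.s23 h1.s01.s23 h2.fl.s23 h3.fl

theorem z133123 (c : Ctx M F g0 g1 g2 g3 g4) : (∃ s, IsH M s g0 g4 g1 g2 g3) → (∃ s, IsE M s g0 g4 g1 g3 g2) → (∃ s, IsH M s g3 g4 g0 g1 g2) → (∃ s, IsE M s g1 g2 g3 g4 g0) → False :=
  fun ⟨_, h0⟩ ⟨_, h1⟩ ⟨_, h2⟩ ⟨_, h3⟩ => hh c.s34.s23.s12.s01.s34 h0.s01.s34 h1.s01 h2.s01 h3.fl.s01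

theorem z525315 (c : Ctx M F g0 g1 g2 g3 g4) : (∃ s, IsH M s g0 g4 g1 g2 g3) → (∃ s, IsE M s g0 g4 g1 g3 g2) → (∃ s, IsH M s g1 g4 g0 g2 g3) → (∃ s, IsE M s g1 g4 g2 g3 g0) → False :=
  fun ⟨_, h0⟩ ⟨_, h1⟩ ⟨_, h2⟩ ⟨_, h3⟩ => hh c.s34.s23.s12.s01.s34.s23 h0.s01.s34.s23 h1.s01.s23 h2.s01.s34 h3.s01.s23

theorem z1321 (c : Ctx M F g0 g1 g2 g3 g4) : (∃ s, IsE M s g0 g3 g2 g4 g1) → (∃ s, IsE M s g1 g3 g2 g4 g0) → (∃ s, IsE M s g0 g4 g1 g3 g2) → (∃ s, IsE M s g0 g4 g1 g2 g3) → (∃ s, IsE M s g1 g4 g2 g3 g0) → False :=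
  fun ⟨_, h0⟩ ⟨_, h1⟩ ⟨_, h2⟩ ⟨_, h3⟩ ⟨_, h4⟩ => f14 c.s12.s01.s34.s23.s12.s34.s23.s34 h0.fl.s23 h1.fl.s23 h2.s01.s23 h3.fl.s01.s23 h4.fl.s23

theorem hAI (c : Ctx M F g0 g1 g2 g3 g4) : AI (fun i => ∃ s, TT M g0 g1 g2 g3 g4 s i) L0 :=
  ⟨trivial,
   ⟨z25165824 c, trivial⟩,
   trivial,
   trivial,
   ⟨z7340032 c, z13631488 c, z19922944 c, trivial⟩,
   ⟨z17301504 c, z3670016 c, trivial⟩,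
   ⟨z786432 c, z3407872 c, z5505024 c, z6553600 c, trivial⟩,
   ⟨z393216 c, z8519680 c, z5373952 c, trivial⟩,
   ⟨z2293760 c, z10551296 c, z18939904 c, trivial⟩,
   ⟨z163840 c, z5275648 c, z1409024 c, z4554752 c, trivial⟩,
   ⟨z49152 c, z540672 c, z3162112 c, trivial⟩,
   ⟨z4218880 c, z4235264 c, z4726784 c, z18096128 c, z19144704 c, trivial⟩,
   ⟨z45056 c, z16789504 c, z8491008 c, z10752000 c, z13111296 c, z16977920 c, z19009536 c, z21237760 c, trivial⟩,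
   ⟨z22528 c, z198656 c, z329728 c, z591872 c, z2115584 c, z2131968 c, z2164736 c, z2230272 c, z8394752 c, z8923136 c, z9701376 c, z12847104 c, z16918528 c, trivial⟩,
   ⟨z140288 c, z271360 c, z533504 c, z4203520 c, z4719616 c, z12583936 c, z20972544 c, z76800 c, z214016 c, z623616 c, z1328128 c, z2376704 c, z8918016 c, z16798720 c, trivial⟩,
   ⟨z17920 c, z98816 c, z8390144 c, z16843264 c, z7680 c, z78336 c, z150016 c, z565760 c, z2245120 c, z2392576 c, z4473344 c, z4751872 c, z8423936 c, z16802304 c, z2112000 c, z2168320 c, z4209152 c, z4265472 c, trivial⟩,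
   ⟨z12544 c, z20736 c, z139520 c, z266496 c, z528640 c, z8397056 c, z16781568 c, z16785664 c, z2171136 c, z3150080 c, z16794880 c, z16810752 c, z16875776 c, z16910592 c, z21233920 c, z12032 c, z72960 c, z1120512 c, z5316864 c, z6357760 c, z6358272 c, trivial⟩,
   ⟨z33408 c, z66176 c, z82048 c, z98432 c, z131712 c, z262528 c, z262784 c, z589952 c, z8389248 c, z558208 c, z2392192 c, z4268160 c, z5243520 c, z6291840 c, z8423552 c, z16814208 c, z16818304 c, z11904 c, z72832 c, z1050496 c, z1055104 c, z1058432 c, z2106240 c, z2106752 c, z3219584 c, z4262272 c, z4264320 c, z6301824 c, z6303872 c, trivial⟩,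
   ⟨z32832 c, z16777280 c, z448 c, z12352 c, z66112 c, z2099264 c, z4195392 c, z6291520 c, z17216 c, z17600 c, z133312 c, z196928 c, z525632 c, z532672 c, z1310912 c, z1311040 c, z2228416 c, z4718912 c, z8390976 c, z8392896 c, trivial⟩,
   ⟨z224 c, z352 c, z416 c, z16672 c, z33056 c, z131360 c, z524448 c, z1064992 c, z8388768 c, z9437216 c, z16777376 c, z16992 c, z196704 c, z532576 c, z1050144 c, z1054752 c, z2099488 c, z2359392 c, z4195488 c, z4456544 c, z8392800 c, z1059104 c, z1115296 c, z3146912 c, z3149984 c, z3215392 c, z5243680 c, z5245216 c, z5251616 c, z6293024 c, z6297632 c, trivial⟩,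
   ⟨z80 c, z262160 c, z400 c, z1552 c, z6160 c, z9232 c, z12304 c, z66064 c, z67600 c, z1048624 c, z6291472 c, z33328 c, z1081488 c, z1181712 c, z1245200 c, z1573904 c, z1581072 c, z4718640 c, z16781360 c, z17826064 c, trivial⟩,
   ⟨z2120 c, z6152 c, z36872 c, z135176 c, z266248 c, z526344 c, z8390664 c, z8392712 c, z16779272 c, z2216 c, z4744 c, z4197384 c, z5246984 c, z8388936 c, z8405512 c, z8406024 c, z8486920 c, z8921096 c, z9437208 c, z10747912 c, z1928 c, z4904 c, z9096 c, z68136 c, z76296 c, z78856 c, z3148040 c, z5251336 c, z6358024 c, trivial⟩,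
   ⟨z28 c, z76 c, z1092 c, z1540 c, z16900 c, z17412 c, z33796 c, z132100 c, z262156 c, z262660 c, z524804 c, z16777732 c, z1316 c, z4868 c, z16436 c, z16580 c, z212996 c, z1064980 c, z2100228 c, z3146244 c, z4472836 c, z8407044 c, z8409092 c, z16801796 c, z4772 c, z13348 c, z70020 c, z76292 c, z78852 c, z3211396 c, z5244036 c, z6301700 c, trivial⟩,
   ⟨z18 c, z16386 c, z8388610 c, z14 c, z386 c, z1538 c, z6146 c, z8450 c, z65666 c, z1048610 c, z2162690 c, z4202498 c, z6291458 c, z102 c, z106 c, z32902 c, z33290 c, z196618 c, z532486 c, trivial⟩,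
   ⟨z7 c, z11 c, z13 c, z49 c, z16393 c, z32777 c, z131077 c, z131105 c, z262177 c, z524297 c, z524321 c, z1048593 c, z1048609 c, z1048641 c, z1081345 c, z8388613 c, z16777221 c, z17825793 c, z195 c, z323 c, z8453 c, z9249 c, z32913 c, z67617 c, z133123 c, z525315 c, z1321 c, trivial⟩, trivial⟩

theorem hTT (c : Ctx M F g0 g1 g2 g3 g4) : ∀ i s t, TT M g0 g1 g2 g3 g4 s i → TT M g0 g1 g2 g3 g4 t i → s = t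
  | 0, _, _ => uE c.s34.s23.s12.s34
  | 1, _, _ => uH c.s34.s23.s12
  | 2, _, _ => uE c.s34.s23.s12.s23.s34
  | 3, _, _ => uE c.s34.s23.s12
  | 4, _, _ => uH c.s01.s23.s12
  | 5, _, _ => uE c.s01.s23.s12.s23.s34
  | 6, _, _ => uH c.s12.s01.s34.s23.s12
  | 7, _, _ => uE c.s34
  | 8, _, _ => uE c.s23.s12.s23.s34
  | 9, _, _ => uE c
  | 10, _, _ => uE c.s01.s34.s23.s12.s23.s34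
  | 11, _, _ => uE c.s01.s12.s23.s34
  | 12, _, _ => uE c.s23.s12
  | 13, _, _ => uE c.s23.s12.s34
  | 14, _, _ => uH c.s12.s01.s23.s12
  | 15, _, _ => uH c
  | 16, _, _ => uE c.s23.s34
  | 17, _, _ => uH c.s23.s12.s01.s34.s23.s12
  | 18, _, _ => uH c.s12
  | 19, _, _ => uH c.s01.s34.s23.s12
  | 20, _, _ => uE c.s12
  | 21, _, _ => uE c.s12.s23.s34
  | 22, _, _ => uE c.s12.s34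
  | 23, _, _ => uH c.s01.s12
  | 24, _, _ => uH c.s23.s12
  | _ + 25, _, _ => fun h => h.elim

theorem count8 (c : Ctx M F g0 g1 g2 g3 g4) : ∃ S : Finset ℤ, S.card ≤ 8 ∧ ∀ s,
    (MS M s g0 g1 g2 g3 g4 → s ∈ S) ∧
    (MS M s g0 g2 g1 g3 g4 → s ∈ S) ∧
    (MS M s g0 g3 g1 g2 g4 → s ∈ S) ∧
    (MS M s g0 g4 g1 g2 g3 → s ∈ S) ∧
    (MS M s g1 g2 g0 g3 g4 → s ∈ S) ∧
    (MS M s g1 g3 g0 g2 g4 → s ∈ S) ∧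
    (MS M s g1 g4 g0 g2 g3 → s ∈ S) ∧
    (MS M s g2 g3 g0 g1 g4 → s ∈ S) ∧
    (MS M s g2 g4 g0 g1 g3 → s ∈ S) ∧
    (MS M s g3 g4 g0 g1 g2 → s ∈ S) := by
  obtain ⟨S, h1, h2⟩ := ex_finset (TT M g0 g1 g2 g3 g4) (hTT c) L1
  have h3 := rd_sound L1 (L01 ▸ (hAI c).spec) rdL
  have h4 : ∀ i < 25, ∀ s, TT M g0 g1 g2 g3 g4 s i → s ∈ S := by
    intro i hi s hs
    have : ∀ i < 25, ∃ e ∈ L1, e.2.1 = i := by decide +kernel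
    obtain ⟨e, he, rfl⟩ := this i hi
    exact h2 e he s hs
  refine ⟨S, h1.trans h3.1, fun s => ⟨fun h => ?_, fun h => ?_, fun h => ?_, fun h => ?_, fun h => ?_, fun h => ?_, fun h => ?_, fun h => ?_, fun h => ?_, fun h => ?_⟩⟩
  · rcases h.type with h | h | h | h
    · exact h4 15 (by omega) s h
    · exact h4 9 (by omega) s h
    · exact h4 7 (by omega) s h
    · exact h4 16 (by omega) s h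
  · rcases h.type with h | h | h | h
    · exact h4 18 (by omega) s h
    · exact h4 20 (by omega) s h
    · exact h4 22 (by omega) s h
    · exact h4 21 (by omega) s h
  · rcases h.type with h | h | h | h
    · exact h4 24 (by omega) s h
    · exact h4 12 (by omega) s h
    · exact h4 13 (by omega) s h
    · exact h4 8 (by omega) s h
  · rcases h.type with h | h | h | h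
    · exact h4 1 (by omega) s h
    · exact h4 3 (by omega) s h
    · exact h4 0 (by omega) s h
    · exact h4 2 (by omega) s h
  · rcases h.type with h | h | h | h
    · exact h4 23 (by omega) s h
    · exact h4 12 (by omega) s h.fl
    · exact h4 3 (by omega) s h.fl
    · exact h4 11 (by omega) s h
  · rcases h.type with h | h | h | h
    · exact h4 4 (by omega) s h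
    · exact h4 20 (by omega) s h.fl
    · exact h4 0 (by omega) s h.fl
    · exact h4 5 (by omega) s h
  · rcases h.type with h | h | h | h
    · exact h4 19 (by omega) s h
    · exact h4 22 (by omega) s h.fl
    · exact h4 13 (by omega) s h.fl
    · exact h4 10 (by omega) s h
  · rcases h.type with h | h | h | h
    · exact h4 14 (by omega) s h
    · exact h4 9 (by omega) s h.fl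
    · exact h4 2 (by omega) s h.fl
    · exact h4 10 (by omega) s h.fl
  · rcases h.type with h | h | h | h
    · exact h4 6 (by omega) s h
    · exact h4 7 (by omega) s h.fl
    · exact h4 8 (by omega) s h.fl
    · exact h4 5 (by omega) s h.fl
  · rcases h.type with h | h | h | h
    · exact h4 17 (by omega) s h
    · exact h4 16 (by omega) s h.fl
    · exact h4 21 (by omega) s h.fl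
    · exact h4 11 (by omega) s h.fl

end Pool.Agent.Lib.MP_1dd8f3_al
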