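import Pool.Agent.Lib.MP_1dd8f3_al.Mid2

namespace Pool.Agent.Lib.MP_1dd8f3_al

theorem RG.s23 {s a b c p q r p' q' r' : ℤ} (h : RG s a b c p q r p' q' r') :
    RG s b a c q p r q' p' r' := by
  unfold RG R0 O2 at *
  obtain ⟨⟨a1, a2, a3, a4⟩, ⟨b1, b2, b3, b4⟩, c, d, e1, e2, e3⟩ := h
  exact ⟨⟨a2, a1, a3, by rw [a4]; ring⟩, ⟨b2, b1, b3, by rw [b4]; ring⟩,
    ⟨c.1.symm, c.2.2, c.2.1⟩, ⟨d.1.symm, d.2.2, d.2.1⟩, e2, e1, e3⟩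

theorem RG.s34 {s a b c p q r p' q' r' : ℤ} (h : RG s a b c p q r p' q' r') :
    RG s a c b p r q p' r' q' := by
  unfold RG R0 O2 at *
  obtain ⟨⟨a1, a2, a3, a4⟩, ⟨b1, b2, b3, b4⟩, c, d, e1, e2, e3⟩ := h
  exact ⟨⟨a1, a3, a2, by rw [a4]; ring⟩, ⟨b1, b3, b2, by rw [b4]; ring⟩,
    ⟨c.2.1, c.1, c.2.2.symm⟩, ⟨d.2.1, d.1, d.2.2.symm⟩, e1, e3, e2⟩

variable {M : ℤ → Prop} {F g0 g1 g2 g3 g4 : ℤ}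

theorem f1 (c : Ctx M F g0 g1 g2 g3 g4) {s0 s1 : ℤ}
    (h0 : IsH M s0 g0 g1 g2 g3 g4)
    (h1 : IsH M s1 g2 g3 g0 g1 g4) : False := by
  obtain ⟨v00, v01, r0_01⟩ := exA c h0.ms.2.1 h0.ms.1
  obtain ⟨v12, v13, r1_23⟩ := exA c.s12.s01.s23.s12 h1.ms.2.1 h1.ms.1
  obtain ⟨v02, v03, v04, _, _, _, rg0⟩ := exG c h0.2.1 h0.2.2
  obtain ⟨v10, v11, v14, _, _, _, rg1⟩ := exG c.s12.s01.s23.s12 h1.2.1 h1.2.2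
  rcases lt_or_ge v10 v00 with c0 | c0
  · rcases lt_or_ge v11 v01 with c1 | c1
    · rcases lt_or_ge v02 v12 with c2 | c2
      · rcases lt_or_ge v03 v13 with c3 | c3
        · obtain ⟨_, _, _, _, _, n0⟩ := exN c.s01 r0_01.s01 h0.s01.ms.2.1
          obtain ⟨_, _, _, _, _, n1⟩ := exN c.s23.s12.s01.s23.s12 r1_23.s01 h1.s01.ms.2.1
          exact r_f1_d c r0_01 h0.ms.2.1 rg0 r1_23 h1.ms.2.1 rg1 n0 n1 c0 c1 c2 c3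
        · obtain ⟨_, _, _, _, _, n0⟩ := exN c.s01 r0_01.s01 h0.s01.ms.2.1
          obtain ⟨_, _, _, _, _, n1⟩ := exN c.s23.s12.s01.s23.s12 r1_23.s01 h1.s01.ms.2.1
          exact r_f1_c c r0_01 h0.ms.2.1 rg0 r1_23 h1.ms.2.1 rg1 n0 n1 c0 c1 c2 c3
      · rcases lt_or_ge v03 v13 with c3 | c3
        · obtain ⟨_, _, _, _, _, n0⟩ := exN c.s01.s23 r0_01.s01 h0.s01.s23.ms.2.1
          obtain ⟨_, _, _, _, _, n1⟩ := exN c.s12.s01.s23.s12 r1_23 h1.ms.2.1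
          exact r_f1_c c.s23 r0_01 h0.s23.ms.2.1 rg0.s23 r1_23.s01 h1.s01.ms.2.1 rg1 n0 n1 c0 c1 c3 c2
        · exact r_f1_a c r0_01 h0.ms.2.1 rg0 r1_23 h1.ms.2.1 rg1 c2 c3
    · rcases lt_or_ge v02 v12 with c2 | c2
      · rcases lt_or_ge v03 v13 with c3 | c3
        · obtain ⟨_, _, _, _, _, n0⟩ := exN c.s23.s12.s01.s23.s12 r1_23.s01 h1.s01.ms.2.1
          obtain ⟨_, _, _, _, _, n1⟩ := exN c.s01 r0_01.s01 h0.s01.ms.2.1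
          exact r_f1_c c.s12.s01.s23.s12 r1_23 h1.ms.2.1 rg1 r0_01 h0.ms.2.1 rg0 n0 n1 c2 c3 c0 c1
        · obtain ⟨_, _, _, _, _, n0⟩ := exN c r0_01 h0.ms.2.1
          obtain ⟨_, _, _, _, _, n1⟩ := exN c.s12.s01.s23.s12 r1_23 h1.ms.2.1
          exact r_f1_b c r0_01 h0.ms.2.1 rg0 r1_23 h1.ms.2.1 rg1 n0 n1 c0 c1 c2 c3
      · rcases lt_or_ge v03 v13 with c3 | c3
        · obtain ⟨_, _, _, _, _, n0⟩ := exN c.s23 r0_01 h0.s23.ms.2.1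
          obtain ⟨_, _, _, _, _, n1⟩ := exN c.s23.s12.s01.s23.s12 r1_23.s01 h1.s01.ms.2.1
          exact r_f1_b c.s23 r0_01 h0.s23.ms.2.1 rg0.s23 r1_23.s01 h1.s01.ms.2.1 rg1 n0 n1 c0 c1 c3 c2
        · exact r_f1_a c r0_01 h0.ms.2.1 rg0 r1_23 h1.ms.2.1 rg1 c2 c3
  · rcases lt_or_ge v11 v01 with c1 | c1
    · rcases lt_or_ge v02 v12 with c2 | c2
      · rcases lt_or_ge v03 v13 with c3 | c3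
        · obtain ⟨_, _, _, _, _, n0⟩ := exN c.s23.s12.s01.s23.s12.s23 r1_23.s01 h1.s01.s23.ms.2.1
          obtain ⟨_, _, _, _, _, n1⟩ := exN c r0_01 h0.ms.2.1
          exact r_f1_c c.s12.s01.s23.s12.s23 r1_23 h1.s23.ms.2.1 rg1.s23 r0_01.s01 h0.s01.ms.2.1 rg0 n0 n1 c2 c3 c1 c0
        · obtain ⟨_, _, _, _, _, n0⟩ := exN c.s01 r0_01.s01 h0.s01.ms.2.1
          obtain ⟨_, _, _, _, _, n1⟩ := exN c.s12.s01.s23.s12.s23 r1_23 h1.s23.ms.2.1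
          exact r_f1_b c.s01 r0_01.s01 h0.s01.ms.2.1 rg0 r1_23 h1.s23.ms.2.1 rg1.s23 n0 n1 c1 c0 c2 c3
      · rcases lt_or_ge v03 v13 with c3 | c3
        · obtain ⟨_, _, _, _, _, n0⟩ := exN c.s01.s23 r0_01.s01 h0.s01.s23.ms.2.1
          obtain ⟨_, _, _, _, _, n1⟩ := exN c.s23.s12.s01.s23.s12.s23 r1_23.s01 h1.s01.s23.ms.2.1
          exact r_f1_b c.s01.s23 r0_01.s01 h0.s01.s23.ms.2.1 rg0.s23 r1_23.s01 h1.s01.s23.ms.2.1 rg1.s23 n0 n1 c1 c0 c3 c2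
        · exact r_f1_a c r0_01 h0.ms.2.1 rg0 r1_23 h1.ms.2.1 rg1 c2 c3
    · exact r_f1_a c.s12.s01.s23.s12 r1_23 h1.ms.2.1 rg1 r0_01 h0.ms.2.1 rg0 c0 c1

theorem f3 (c : Ctx M F g0 g1 g2 g3 g4) {s0 s1 s2 : ℤ}
    (h0 : IsH M s0 g0 g1 g2 g3 g4)
    (h1 : IsE M s1 g0 g2 g1 g3 g4)
    (h2 : IsE M s2 g0 g2 g1 g4 g3) : False := by
  obtain ⟨v00, v01, r0_01⟩ := exA c h0.ms.2.1 h0.ms.1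
  obtain ⟨_, _, _, _, ⟨r1_02, -⟩, ⟨r2_02, -⟩, j02⟩ := ST c.s12 h1.ms h2.ms.s34 (neEE h1 h2)
  obtain ⟨v11, v13, r1_13⟩ := exA c.s01.s23.s12 h1.fl.ms.2.1 h1.fl.ms.1
  obtain ⟨v21, v24, r2_14⟩ := exA c.s01.s34.s23.s12 h2.fl.ms.2.1 h2.fl.ms.1
  obtain ⟨v02, v03, v04, _, _, _, rg0⟩ := exG c h0.2.1 h0.2.2
  rcases j02 with j02 | j02
  · obtain ⟨_, _, _, _, _, n0⟩ := exN c r0_01 h0.ms.2.1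
    exact r_f3 c r0_01 h0.ms.2.1 rg0 r1_02 h1.ms.2.1 r1_13 h1.2.2.2 r2_02 h2.ms.s34.2.1 r2_14 h2.2.2.2 j02 n0
  · obtain ⟨_, _, _, _, _, n0⟩ := exN c.s34 r0_01 h0.s34.ms.2.1
    exact r_f3 c.s34 r0_01 h0.s34.ms.2.1 rg0.s34 r2_02 h2.ms.2.1 r2_14 h2.2.2.2 r1_02 h1.ms.s34.2.1 r1_13 h1.2.2.2 j02.s34 n0

theorem f5 (c : Ctx M F g0 g1 g2 g3 g4) {s0 s1 s2 : ℤ}
    (h0 : IsH M s0 g0 g1 g2 g3 g4)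
    (h1 : IsE M s1 g0 g2 g3 g4 g1)
    (h2 : IsE M s2 g1 g2 g3 g4 g0) : False := by
  obtain ⟨v00, v01, r0_01⟩ := exA c h0.ms.2.1 h0.ms.1
  obtain ⟨v10, v12, r1_02⟩ := exA c.s12 h1.ms.s34.s23.2.1 h1.ms.s34.s23.1
  obtain ⟨_, _, _, _, ⟨r1_34, -⟩, ⟨r2_34, -⟩, j34⟩ := ST c.s23.s12.s01.s34.s23.s12 h1.fl.ms.s34 h2.fl.ms.s34.s23 (neEE h1.fl.s23 h2.fl.s23)
  obtain ⟨v21, v22, r2_12⟩ := exA c.s01.s12 h2.ms.s34.s23.2.1 h2.ms.s34.s23.1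
  obtain ⟨v02, v03, v04, _, _, _, rg0⟩ := exG c h0.2.1 h0.2.2
  rcases j34 with j34 | j34
  · obtain ⟨_, _, _, _, _, n0⟩ := exN c r0_01 h0.ms.2.1
    exact r_f5 c r0_01 h0.ms.2.1 rg0 r1_02 h1.ms.s34.s23.2.1 r1_34 h1.2.2.2 r2_12 h2.ms.s34.s23.2.1 r2_34 h2.2.2.2 j34 n0
  · obtain ⟨_, _, _, _, _, n0⟩ := exN c.s34 r0_01 h0.s34.ms.2.1
    exact r_f5 c.s34 r0_01 h0.s34.ms.2.1 rg0.s34 r1_02 h1.ms.s34.s23.s34.2.1 r1_34.s01 h1.s23.2.2.2 r2_12 h2.ms.s34.s23.s34.2.1 r2_34.s01 h2.s23.2.2.2 j34.s01 n0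

theorem f10 (c : Ctx M F g0 g1 g2 g3 g4) {s0 s1 s2 s3 : ℤ}
    (h0 : IsE M s0 g0 g1 g2 g3 g4)
    (h1 : IsE M s1 g0 g1 g2 g4 g3)
    (h2 : IsE M s2 g0 g2 g1 g3 g4)
    (h3 : IsE M s3 g0 g2 g1 g4 g3) : False := by
  obtain ⟨_, _, _, _, ⟨r0_01, -⟩, ⟨r1_01, -⟩, j01⟩ := ST c h0.ms h1.ms.s34 (neEE h0 h1)
  obtain ⟨v02, v03, r0_23⟩ := exA c.s12.s01.s23.s12 h0.fl.ms.2.1 h0.fl.ms.1
  obtain ⟨v12, v14, r1_24⟩ := exA c.s12.s01.s34.s23.s12 h1.fl.ms.2.1 h1.fl.ms.1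
  obtain ⟨_, _, _, _, ⟨r2_02, -⟩, ⟨r3_02, -⟩, j02⟩ := ST c.s12 h2.ms h3.ms.s34 (neEE h2 h3)
  obtain ⟨v21, v23, r2_13⟩ := exA c.s01.s23.s12 h2.fl.ms.2.1 h2.fl.ms.1
  obtain ⟨v31, v34, r3_14⟩ := exA c.s01.s34.s23.s12 h3.fl.ms.2.1 h3.fl.ms.1
  rcases j01 with j01 | j01
  · rcases j02 with j02 | j02
    · exact r_f10_23 c r0_01 h0.ms.2.1 r0_23 h0.2.2.2 r1_01 h1.ms.s34.2.1 r1_24 h1.2.2.2 r2_02 h2.ms.2.1 r2_13 h2.2.2.2 r3_02 h3.ms.s34.2.1 r3_14 h3.2.2.2 j01 j02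
    · exact r_f10_32 c r0_01 h0.ms.2.1 r0_23 h0.2.2.2 r1_01 h1.ms.s34.2.1 r1_24 h1.2.2.2 r2_02 h2.ms.2.1 r2_13 h2.2.2.2 r3_02 h3.ms.s34.2.1 r3_14 h3.2.2.2 j01 j02
  · rcases j02 with j02 | j02
    · exact r_f10_32 c.s34 r1_01 h1.ms.2.1 r1_24 h1.2.2.2 r0_01 h0.ms.s34.2.1 r0_23 h0.2.2.2 r3_02 h3.ms.2.1 r3_14 h3.2.2.2 r2_02 h2.ms.s34.2.1 r2_13 h2.2.2.2 j01.s34 j02.s34
    · exact r_f10_23 c.s34 r1_01 h1.ms.2.1 r1_24 h1.2.2.2 r0_01 h0.ms.s34.2.1 r0_23 h0.2.2.2 r3_02 h3.ms.2.1 r3_14 h3.2.2.2 r2_02 h2.ms.s34.2.1 r2_13 h2.2.2.2 j01.s34 j02.s34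

theorem f14 (c : Ctx M F g0 g1 g2 g3 g4) {s0 s1 s2 s3 s4 : ℤ}
    (h0 : IsE M s0 g0 g1 g2 g4 g3)
    (h1 : IsE M s1 g0 g1 g2 g3 g4)
    (h2 : IsE M s2 g1 g4 g2 g3 g0)
    (h3 : IsE M s3 g0 g3 g1 g4 g2)
    (h4 : IsE M s4 g0 g2 g1 g3 g4) : False := by
  obtain ⟨_, _, _, _, ⟨r0_01, -⟩, ⟨r1_01, -⟩, j01⟩ := ST c h0.ms.s34 h1.ms (neEE h0 h1)
  obtain ⟨v02, v04, r0_24⟩ := exA c.s12.s01.s34.s23.s12 h0.fl.ms.2.1 h0.fl.ms.1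
  obtain ⟨_, _, _, _, ⟨r1_23, -⟩, ⟨r2_23, -⟩, j23⟩ := ST c.s12.s01.s23.s12 h1.fl.ms h2.fl.ms.s34.s23 (neEE h1.fl.s23 h2.fl)
  obtain ⟨_, _, _, _, ⟨r2_14, -⟩, ⟨r3_14, -⟩, j14⟩ := ST c.s01.s34.s23.s12 h2.ms.s34.s23 h3.fl.ms.s34 (neEE h2.s23 h3.fl.s23)
  obtain ⟨v30, v33, r3_03⟩ := exA c.s23.s12 h3.ms.s34.2.1 h3.ms.s34.1
  obtain ⟨v40, v42, r4_02⟩ := exA c.s12 h4.ms.2.1 h4.ms.1
  obtain ⟨v41, v43, r4_13⟩ := exA c.s01.s23.s12 h4.fl.ms.2.1 h4.fl.ms.1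
  rcases j01 with j01 | j01
  · rcases j23 with j23 | j23
    · rcases j14 with j14 | j14
      · exact r_f14_000 c r0_01 h0.ms.s34.2.1 r0_24 h0.2.2.2 r1_01 h1.ms.2.1 r1_23 h1.2.2.2 r2_14 h2.ms.s34.s23.2.1 r2_23 h2.2.2.2 r3_03 h3.ms.s34.2.1 r3_14 h3.2.2.2 r4_02 h4.ms.2.1 r4_13 h4.2.2.2 j01 j23 j14
      · exact r_f14_001 c r0_01 h0.ms.s34.2.1 r0_24 h0.2.2.2 r1_01 h1.ms.2.1 r1_23 h1.2.2.2 r2_14 h2.ms.s34.s23.2.1 r2_23 h2.2.2.2 r3_03 h3.ms.s34.2.1 r3_14 h3.2.2.2 r4_02 h4.ms.2.1 r4_13 h4.2.2.2 j01 j23 j14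
    · rcases j14 with j14 | j14
      · exact r_f14_010 c r0_01 h0.ms.s34.2.1 r0_24 h0.2.2.2 r1_01 h1.ms.2.1 r1_23 h1.2.2.2 r2_14 h2.ms.s34.s23.2.1 r2_23 h2.2.2.2 r3_03 h3.ms.s34.2.1 r3_14 h3.2.2.2 r4_02 h4.ms.2.1 r4_13 h4.2.2.2 j01 j23 j14
      · exact r_f14_011 c r0_01 h0.ms.s34.2.1 r0_24 h0.2.2.2 r1_01 h1.ms.2.1 r1_23 h1.2.2.2 r2_14 h2.ms.s34.s23.2.1 r2_23 h2.2.2.2 r3_03 h3.ms.s34.2.1 r3_14 h3.2.2.2 r4_02 h4.ms.2.1 r4_13 h4.2.2.2 j01 j23 j14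
  · rcases j23 with j23 | j23
    · rcases j14 with j14 | j14
      · exact r_f14_100 c r0_01 h0.ms.s34.2.1 r0_24 h0.2.2.2 r1_01 h1.ms.2.1 r1_23 h1.2.2.2 r2_14 h2.ms.s34.s23.2.1 r2_23 h2.2.2.2 r3_03 h3.ms.s34.2.1 r3_14 h3.2.2.2 r4_02 h4.ms.2.1 r4_13 h4.2.2.2 j01 j23 j14
      · exact r_f14_101 c r0_01 h0.ms.s34.2.1 r0_24 h0.2.2.2 r1_01 h1.ms.2.1 r1_23 h1.2.2.2 r2_14 h2.ms.s34.s23.2.1 r2_23 h2.2.2.2 r3_03 h3.ms.s34.2.1 r3_14 h3.2.2.2 r4_02 h4.ms.2.1 r4_13 h4.2.2.2 j01 j23 j14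
    · rcases j14 with j14 | j14
      · exact r_f14_110 c r0_01 h0.ms.s34.2.1 r0_24 h0.2.2.2 r1_01 h1.ms.2.1 r1_23 h1.2.2.2 r2_14 h2.ms.s34.s23.2.1 r2_23 h2.2.2.2 r3_03 h3.ms.s34.2.1 r3_14 h3.2.2.2 r4_02 h4.ms.2.1 r4_13 h4.2.2.2 j01 j23 j14
      · exact r_f14_111 c r0_01 h0.ms.s34.2.1 r0_24 h0.2.2.2 r1_01 h1.ms.2.1 r1_23 h1.2.2.2 r2_14 h2.ms.s34.s23.2.1 r2_23 h2.2.2.2 r3_03 h3.ms.s34.2.1 r3_14 h3.2.2.2 r4_02 h4.ms.2.1 r4_13 h4.2.2.2 j01 j23 j14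

theorem hh (c : Ctx M F g0 g1 g2 g3 g4) {s0 s1 s2 s3 : ℤ}
    (h0 : IsH M s0 g0 g1 g2 g3 g4)
    (h1 : IsE M s1 g0 g1 g2 g3 g4)
    (h2 : IsH M s2 g0 g3 g1 g2 g4)
    (h3 : IsE M s3 g0 g3 g2 g4 g1) : False := by
  obtain ⟨_, _, _, _, ⟨r0_01, -⟩, ⟨r1_01, -⟩, j01⟩ := ST c h0.ms h1.ms (neHE h0 h1)
  obtain ⟨v12, v13, r1_23⟩ := exA c.s12.s01.s23.s12 h1.fl.ms.2.1 h1.fl.ms.1
  obtain ⟨_, _, _, _, ⟨r2_03, -⟩, ⟨r3_03, -⟩, j03⟩ := ST c.s23.s12 h2.ms h3.ms.s34.s23 (neHE h2.s23.s34 h3)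
  obtain ⟨v32, v34, r3_24⟩ := exA c.s12.s01.s34.s23.s12 h3.fl.ms.s34.2.1 h3.fl.ms.s34.1
  obtain ⟨v02, v03, v04, _, _, _, rg0⟩ := exG c h0.2.1 h0.2.2
  obtain ⟨v21, v22, v24, _, _, _, rg2⟩ := exG c.s23.s12 h2.2.1 h2.2.2
  rcases j01 with j01 | j01
  · rcases j03 with j03 | j03
    · exact r_hh_00 c r0_01 h0.ms.2.1 rg0 r1_01 h1.ms.2.1 r1_23 h1.2.2.2 r2_03 h2.ms.2.1 rg2 r3_03 h3.ms.s34.s23.2.1 r3_24 h3.2.2.2 j01 j03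
    · exact r_hh_01 c r0_01 h0.ms.2.1 rg0 r1_01 h1.ms.2.1 r1_23 h1.2.2.2 r2_03 h2.ms.2.1 rg2 r3_03 h3.ms.s34.s23.2.1 r3_24 h3.2.2.2 j01 j03
  · rcases j03 with j03 | j03
    · exact r_hh_10 c r0_01 h0.ms.2.1 rg0 r1_01 h1.ms.2.1 r1_23 h1.2.2.2 r2_03 h2.ms.2.1 rg2 r3_03 h3.ms.s34.s23.2.1 r3_24 h3.2.2.2 j01 j03
    · exact r_hh_11 c r0_01 h0.ms.2.1 rg0 r1_01 h1.ms.2.1 r1_23 h1.2.2.2 r2_03 h2.ms.2.1 rg2 r3_03 h3.ms.s34.s23.2.1 r3_24 h3.2.2.2 j01 j03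

end Pool.Agent.Lib.MP_1dd8f3_al
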