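import Mathlib.Algebra.BigOperators.Ring.Finset
import Mathlib.Data.Nat.Bitwise
import Mathlib.Tactic.Ring
import Mathlib.Tactic.Linarith
import Mathlib.Tactic.LinearCombination
import Pool.Agent.Lib.MP_1dd8f3_al.Chk

namespace Pool.Agent.Lib.MP_1dd8f3_al

theorem frc_eq {α : Type} (x : ℕ) (f : ℕ → α) : frc x f = f x := by
  cases x <;> rfl

def dg (D k : ℕ) : ℕ := D / 4294967296 ^ k % 4294967296

def Bd (D w : ℕ) : Prop := ∀ k, dg D k ≤ w

def ev (K : ℕ) (x : ℕ → ℤ) (D : ℕ) : ℤ :=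
  ∑ k ∈ Finset.range K, ((dg D k : ℤ) - dg D (K + k)) * x k + dg D (2 * K)

theorem dg_zero (k : ℕ) : dg 0 k = 0 := by simp [dg]

theorem dg_succ (D k : ℕ) : dg D (k + 1) = dg (D / 4294967296) k := by
  unfold dg
  rw [Nat.div_div_eq_div_mul, pow_succ']

theorem dg_add (k : ℕ) : ∀ a b : ℕ, (∀ j, dg a j + dg b j < 4294967296) →
    dg (a + b) k = dg a k + dg b k := by
  induction k with
  | zero =>
    intro a b h
    have h0 := h 0
    simp only [dg, pow_zero, Nat.div_one] at h0 ⊢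
    omega
  | succ k ih =>
    intro a b h
    have h0 := h 0
    simp only [dg, pow_zero, Nat.div_one] at h0
    rw [dg_succ, dg_succ, dg_succ]
    have e : (a + b) / 4294967296 = a / 4294967296 + b / 4294967296 := by omega
    rw [e]
    apply ih
    intro j
    rw [← dg_succ, ← dg_succ]
    exact h _

theorem Bd.zero (w : ℕ) : Bd 0 w := fun k => by simp [dg_zero]

theorem Bd.mono {a v w : ℕ} (h : Bd a v) (hw : v ≤ w) : Bd a w := fun k => (h k).trans hw

theorem dg_add' {a b v w : ℕ} (ha : Bd a v) (hb : Bd b w) (h : v + w < 4294967296) (k : ℕ) :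
    dg (a + b) k = dg a k + dg b k :=
  dg_add k a b fun j => by have := ha j; have := hb j; omega

theorem Bd.add {a b v w : ℕ} (ha : Bd a v) (hb : Bd b w) (h : v + w < 4294967296) :
    Bd (a + b) (v + w) := fun k => by
  rw [dg_add' ha hb h]
  exact Nat.add_le_add (ha k) (hb k)

theorem ev_zero (K : ℕ) (x : ℕ → ℤ) : ev K x 0 = 0 := by simp [ev, dg_zero]

theorem ev_add (K : ℕ) (x : ℕ → ℤ) {a b v w : ℕ} (ha : Bd a v) (hb : Bd b w)
    (h : v + w < 4294967296) : ev K x (a + b) = ev K x a + ev K x b := by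
  simp only [ev, dg_add' ha hb h]
  rw [add_add_add_comm, ← Finset.sum_add_distrib]
  push_cast
  congr 1
  apply Finset.sum_congr rfl
  intro k _
  ring

theorem mul_spec (K : ℕ) (x : ℕ → ℤ) {a v : ℕ} (ha : Bd a v) (m : ℕ) (h : m * v < 4294967296) :
    Bd (m * a) (m * v) ∧ ev K x (m * a) = m * ev K x a := by
  induction m with
  | zero => simp [Bd.zero, ev_zero]
  | succ m ih =>
    have h1 : m * v + v < 4294967296 := by rw [← Nat.succ_mul]; exact h
    obtain ⟨i1, i2⟩ := ih (by omega)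
    rw [Nat.succ_mul, Nat.succ_mul]
    refine ⟨i1.add ha h1, ?_⟩
    rw [ev_add K x i1 ha h1, i2]
    push_cast
    ring

theorem dg_pow (j : ℕ) : ∀ k : ℕ, dg (4294967296 ^ j) k = if k = j then 1 else 0 := by
  induction j with
  | zero =>
    intro k
    cases k with
    | zero => simp [dg]
    | succ k => rw [dg_succ]; simp [dg_zero]
  | succ j ih =>
    intro k
    cases k with
    | zero => simp [dg, pow_succ]
    | succ k =>
      rw [dg_succ, pow_succ, Nat.mul_div_cancel _ (by norm_num), ih]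
      simp

theorem Bd.pow (j : ℕ) : Bd (4294967296 ^ j) 1 := fun k => by
  rw [dg_pow]; split <;> omega

theorem shl_one (j : ℕ) : Nat.shiftLeft 1 (Nat.mul 32 j) = 4294967296 ^ j := by
  change 1 <<< (32 * j) = _
  rw [Nat.shiftLeft_eq, one_mul, pow_mul]
  norm_num

theorem shr_eq (a j : ℕ) : Nat.shiftRight a (Nat.mul 32 j) = a / 4294967296 ^ j := by
  change a >>> (32 * j) = _
  rw [Nat.shiftRight_eq_div_pow, pow_mul]
  norm_num

theorem mul64 (K : ℕ) : Nat.mul 64 K = Nat.mul 32 (2 * K) := by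
  change 64 * K = 32 * (2 * K)
  ring

theorem dg_mod (a K k : ℕ) (h : k < K) : dg (a % 4294967296 ^ K) k = dg a k := by
  unfold dg
  obtain ⟨d, rfl⟩ : ∃ d, K = k + (d + 1) := ⟨K - k - 1, by omega⟩
  rw [pow_add, Nat.mod_mul_right_div_self, Nat.mod_mod_of_dvd]
  exact dvd_pow_self _ (by omega)

theorem dg_div (a K k : ℕ) : dg (a / 4294967296 ^ K) k = dg a (K + k) := by
  unfold dg
  rw [Nat.div_div_eq_div_mul, pow_add]

theorem fin_sound {K a : ℕ} (x : ℕ → ℤ) (h : fin K a = true) : 0 < ev K x a := by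
  unfold fin at h
  rw [frc_eq, Bool.and_eq_true, Nat.beq_eq, Nat.ble_eq, mul64, shl_one, shr_eq, shr_eq] at h
  obtain ⟨h1, h2⟩ := h
  have h3 : ∀ k ∈ Finset.range K, ((dg a k : ℤ) - dg a (K + k)) * x k = 0 := by
    intro k hk
    have hk := Finset.mem_range.mp hk
    have e : dg a k = dg a (K + k) := by
      rw [← dg_div, ← dg_mod a K k hk, ← dg_mod (a / _) K k hk]
      exact congrArg (fun t => dg t k) h1
    rw [e]; simp
  unfold ev
  rw [Finset.sum_eq_zero h3]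
  have : 1 ≤ dg a (2 * K) := h2
  omega

/-- value of a signed variable -/
def tv (x : ℕ → ℤ) (t : ℕ) : ℤ := if t % 2 = 0 then x (t / 2) else -x (t / 2)

def evF (x : ℕ → ℤ) : List ℕ → ℤ
  | [] => 0
  | t :: r => tv x t + evF x r

theorem ev_pow_lt (K : ℕ) (x : ℕ → ℤ) {j : ℕ} (h : j < K) : ev K x (4294967296 ^ j) = x j := by
  simp only [ev, dg_pow]
  rw [Finset.sum_eq_single j]
  · have : K ≠ 0 := by omega
    have : 2 * K ≠ j := by omega
    simp [*]
  · intro k hk hkj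
    have : K + k ≠ j := by omega
    simp [*]
  · intro hj
    exact absurd (Finset.mem_range.mpr h) hj

theorem ev_pow_neg (K : ℕ) (x : ℕ → ℤ) {j : ℕ} (h : j < K) :
    ev K x (4294967296 ^ (j + K)) = -x j := by
  simp only [ev, dg_pow]
  rw [Finset.sum_eq_single j]
  · have : K ≠ 0 := by omega
    have : K + j = j + K := by omega
    have : 2 * K ≠ j + K := by omega
    simp [*]
  · intro k hk hkj
    have hk := Finset.mem_range.mp hk
    have : K + k ≠ j + K := by omega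
    have : k ≠ j + K := by omega
    simp [*]
  · intro hj
    exact absurd (Finset.mem_range.mpr h) hj

theorem ev_pow_one (K : ℕ) (x : ℕ → ℤ) : ev K x (4294967296 ^ (2 * K)) = 1 := by
  simp only [ev, dg_pow]
  rw [Finset.sum_eq_zero]
  · simp
  · intro k hk
    have hk := Finset.mem_range.mp hk
    have : K + k ≠ 2 * K := by omega
    have : k ≠ 2 * K := by omega
    simp [*]

theorem cT_spec {K : ℕ} (hK : 0 < K) (x : ℕ → ℤ) (t : ℕ) :
    Bd (cT K t) 1 ∧ ev K x (cT K t) = tv (fun k => x (k % K)) t := by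
  unfold cT
  rw [shl_one]
  refine ⟨Bd.pow _, ?_⟩
  change ev K x (4294967296 ^ (t / 2 % K + K * (t % 2))) = _
  have hm := Nat.mod_lt (t / 2) hK
  unfold tv
  rcases Nat.mod_two_eq_zero_or_one t with h | h
  · rw [h, if_pos rfl, Nat.mul_zero, Nat.add_zero, ev_pow_lt K x hm]
  · rw [h, if_neg (by omega), Nat.mul_one, ev_pow_neg K x hm]

theorem xor1_div (l : ℕ) : Nat.xor l 1 / 2 = l / 2 := by
  change (l ^^^ 1) / 2 = _
  rw [Nat.xor_div_two]
  simp

theorem xor1_mod (l : ℕ) : Nat.xor l 1 % 2 = 1 - l % 2 := by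
  change (l ^^^ 1) % 2 = _
  rw [Nat.xor_mod_two_eq]
  omega

theorem tv_xor (x : ℕ → ℤ) (t : ℕ) : tv x (Nat.xor t 1) = -tv x t := by
  unfold tv
  rw [xor1_div, xor1_mod]
  rcases Nat.mod_two_eq_zero_or_one t with h | h <;> simp [h]

theorem tv_mod {K t : ℕ} (x : ℕ → ℤ) (h : t < 2 * K) : tv (fun k => x (k % K)) t = tv x t := by
  unfold tv
  have : t / 2 % K = t / 2 := Nat.mod_eq_of_lt (by omega)
  simp only [this]

theorem cF_spec {K : ℕ} (hK : 0 < K) (x : ℕ → ℤ) (f : List ℕ) (h1 : ∀ t ∈ f, t < 2 * K)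
    (h2 : f.length ≤ 255) : Bd (cF K f) f.length ∧ ev K x (cF K f) = evF x f ∧
      Bd (cN K f) f.length ∧ ev K x (cN K f) = -evF x f := by
  induction f with
  | nil => exact ⟨Bd.zero _, ev_zero _ _, Bd.zero _, ev_zero _ _⟩
  | cons t r ih =>
    simp only [List.length_cons] at h2 ⊢
    obtain ⟨a1, a2, a3, a4⟩ := ih (fun t ht => h1 t (List.mem_cons_of_mem _ ht)) (by omega)
    have ht := h1 t List.mem_cons_self
    obtain ⟨b1, b2⟩ := cT_spec hK x t
    obtain ⟨b3, b4⟩ := cT_spec hK x (Nat.xor t 1)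
    have hw : 1 + r.length < 4294967296 := by omega
    change Bd (cT K t + cF K r) _ ∧ ev K x (cT K t + cF K r) = _ ∧
      Bd (cT K (Nat.xor t 1) + cN K r) _ ∧ ev K x (cT K (Nat.xor t 1) + cN K r) = _
    rw [ev_add K x b1 a1 hw, ev_add K x b3 a3 hw, b2, b4, a2, a4, tv_xor, tv_mod x ht,
      Nat.add_comm r.length 1]
    refine ⟨b1.add a1 hw, rfl, b3.add a3 hw, ?_⟩
    simp only [evF]
    ring

theorem cS_spec {K : ℕ} (hK : 0 < K) (x : ℕ → ℤ) (f : List ℕ) (r : ℕ) (h1 : ∀ t ∈ f, t < 2 * K)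
    (h2 : f.length ≤ 255) (h3 : r ≤ 255) :
    Bd (cS K f r) 510 ∧ ev K x (cS K f r) = evF x f + r := by
  obtain ⟨a1, a2, -, -⟩ := cF_spec hK x f h1 h2
  have e : Nat.shiftLeft r (Nat.mul 64 K) = r * 4294967296 ^ (2 * K) := by
    rw [← shl_one, mul64]
    change r <<< _ = r * 1 <<< _
    rw [Nat.shiftLeft_eq, Nat.shiftLeft_eq, one_mul]
  obtain ⟨b1, b2⟩ := mul_spec K x (Bd.pow (2 * K)) r (by omega)
  change Bd (cF K f + _) _ ∧ ev K x (cF K f + _) = _
  rw [e]
  have hw : f.length + r * 1 < 4294967296 := by omega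
  rw [ev_add K x a1 b1 hw, a2, b2, ev_pow_one]
  exact ⟨(a1.add b1 hw).mono (by omega), by ring⟩

theorem cA_spec {K : ℕ} (hK : 0 < K) (x : ℕ → ℤ) (n : ℕ) (hn : n ≤ 15) : ∀ y : ℕ,
    Bd (cA K 0 n y) n ∧ Bd (cA K 1 n y) n ∧ ev K x (cA K 1 n y) = -ev K x (cA K 0 n y) := by
  induction n with
  | zero => intro y; exact ⟨Bd.zero _, Bd.zero _, by change ev K x 0 = -ev K x 0; simp [ev_zero]⟩
  | succ n ih =>
    intro y
    obtain ⟨a1, a2, a3⟩ := ih (by omega) (Nat.shiftRight y 8)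
    have e : ∀ s, cA K s (n + 1) y =
        cT K (Nat.xor (Nat.mod y 256) s) + cA K s n (Nat.shiftRight y 8) := fun s =>
      frc_eq y (fun x => Nat.add (cT K (Nat.xor (Nat.mod x 256) s)) (cA K s n (Nat.shiftRight x 8)))
    rw [e, e]
    obtain ⟨b1, b2⟩ := cT_spec hK x (Nat.xor (Nat.mod y 256) 0)
    obtain ⟨b3, b4⟩ := cT_spec hK x (Nat.xor (Nat.mod y 256) 1)
    have hw : 1 + n < 4294967296 := by omega
    rw [ev_add K x b1 a1 hw, ev_add K x b3 a2 hw, b2, b4, a3, tv_xor, Nat.add_comm n 1]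
    refine ⟨b1.add a1 hw, b3.add a2 hw, ?_⟩
    have : Nat.xor (Nat.mod y 256) 0 = Nat.mod y 256 := Nat.xor_zero _
    rw [this]
    ring

end Pool.Agent.Lib.MP_1dd8f3_al
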