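import Mathlib.Algebra.MvPolynomial.Eval
import Mathlib.Algebra.MvPolynomial.CommRing
import Mathlib.Algebra.Polynomial.AlgebraMap
import Mathlib.Algebra.Module.SpanRank
import Mathlib.RingTheory.Ideal.Maps

namespace Pool.Agent.Lib.MP_1dd8f3_al

open MvPolynomial

abbrev Mo := Fin 5 →₀ ℕ

def wt (g : Fin 5 → ℕ) (u : Mo) : ℕ := ∑ i, u i * g i

variable {g : Fin 5 → ℕ}

theorem wt_add (u v : Mo) : wt g (u + v) = wt g u + wt g v := by
  simp [wt, add_mul, Finset.sum_add_distrib]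

theorem wt_single (x : Fin 5) (c : ℕ) : wt g (Finsupp.single x c) = c * g x := by
  simp [wt, Finsupp.single_apply]

theorem wt_zero : wt g 0 = 0 := by simp [wt]

theorem ex_sub {u : Mo} {x : Fin 5} (h : 0 < u x) : ∃ u', u = u' + Finsupp.single x 1 := by
  refine ⟨u - Finsupp.single x 1, (tsub_add_cancel_of_le ?_).symm⟩
  rw [Finsupp.single_le_iff]
  exact h

theorem ex_pos {u : Mo} (h : u ≠ 0) : ∃ x, 0 < u x := by
  by_contra h1
  push Not at h1
  exact h (Finsupp.ext fun x => by simpa using h1 x)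

theorem wt_pos (hg : ∀ i, 0 < g i) {u : Mo} {x : Fin 5} (h : 0 < u x) : 0 < wt g u := by
  obtain ⟨u', rfl⟩ := ex_sub h
  have := hg x
  rw [wt_add, wt_single]
  omega

noncomputable abbrev phi (k : Type*) [Field k] (g : Fin 5 → ℕ) :
    MvPolynomial (Fin 5) k →ₐ[k] Polynomial k :=
  MvPolynomial.aeval fun i => (Polynomial.X : Polynomial k) ^ g i

variable {k : Type*} [Field k]

theorem phi_mon (u : Mo) (c : k) : phi k g (monomial u c) = Polynomial.monomial (wt g u) c := by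
  rw [aeval_monomial, Finsupp.prod_fintype _ _ (by simp), ← Polynomial.C_mul_X_pow_eq_monomial, wt,
    ← Finset.prod_pow_eq_pow_sum]
  simp only [← pow_mul, mul_comm]
  rfl

noncomputable def bi (k : Type*) [Field k] (u v : Mo) : MvPolynomial (Fin 5) k :=
  monomial u 1 - monomial v 1

theorem bi_mem {u v : Mo} (h : wt g u = wt g v) : bi k u v ∈ RingHom.ker (phi k g) := by
  rw [RingHom.mem_ker, bi, map_sub, phi_mon, phi_mon, h, sub_self]

theorem ker_le (J : Ideal (MvPolynomial (Fin 5) k)) (r : ℕ → Mo)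
    (h : ∀ u, bi k u (r (wt g u)) ∈ J) : RingHom.ker (phi k g) ≤ J := by
  let ψ : Polynomial k →ₗ[k] MvPolynomial (Fin 5) k := Polynomial.lsum fun n => monomial (r n)
  have h1 : ∀ p, p - ψ (phi k g p) ∈ J := by
    intro p
    induction p using MvPolynomial.induction_on' with
    | monomial u c =>
      have e : ψ (phi k g (monomial u c)) = monomial (r (wt g u)) c := by
        rw [phi_mon]
        exact Polynomial.sum_monomial_index c _ (map_zero _)
      have := J.mul_mem_left (C c) (h u)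
      rw [bi, mul_sub, C_mul_monomial, C_mul_monomial, mul_one] at this
      rwa [e]
    | add p q hp hq =>
      have := J.add_mem hp hq
      rw [map_add, map_add]
      convert this using 1
      ring
  intro p hp
  have := h1 p
  rwa [RingHom.mem_ker.mp hp, map_zero, sub_zero] at this

def Ed (g : Fin 5 → ℕ) (n : ℕ) (i j : Fin 5) : Prop := ∃ w : Mo, wt g w = n ∧ 0 < w i ∧ 0 < w j

def MSi (g : Fin 5 → ℕ) (n : ℕ) (a b : Fin 5) : Prop :=
  a ≠ b ∧ Ed g n a b ∧ (∀ x, x ≠ a → x ≠ b → ¬ Ed g n a x ∧ ¬ Ed g n b x) ∧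
    ∃ x y, x ≠ y ∧ x ≠ a ∧ x ≠ b ∧ y ≠ a ∧ y ≠ b ∧ Ed g n x y

def Big (u : Mo) : Prop := ∃ a b, a ≠ b ∧ 0 < u a ∧ 0 < u b

def Lk (g : Fin 5 → ℕ) (n : ℕ) : Fin 5 → Fin 5 → Prop := Relation.ReflTransGen (Ed g n)

def Cn0 (g : Fin 5 → ℕ) (u v : Mo) : Prop := ∃ i j, 0 < u i ∧ 0 < v j ∧ Lk g (wt g u) i j

theorem Lk.symm {n : ℕ} {i j : Fin 5} (h : Lk g n i j) : Lk g n j i := by
  induction h with
  | refl => exact Relation.ReflTransGen.refl
  | tail _ h ih =>
    obtain ⟨w, h1, h2, h3⟩ := h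
    exact Relation.ReflTransGen.head ⟨w, h1, h3, h2⟩ ih

theorem fifth : ∀ a b c d : Fin 5, a ≠ b → a ≠ c → a ≠ d → b ≠ c → b ≠ d → c ≠ d →
    ∃ e, ∀ i, i = a ∨ i = b ∨ i = c ∨ i = d ∨ i = e := by decide +kernel

theorem two_big {u v : Mo} (h : wt g u = wt g v) (hu : Big u) (hv : Big v) (hn : ¬ Cn0 g u v) :
    (∃ a b, MSi g (wt g u) a b) ∧ ∀ w, wt g w = wt g u → Big w → Cn0 g w u ∨ Cn0 g w v := by
  obtain ⟨a, b, ab, ua, ub⟩ := hu
  obtain ⟨c, d, cd, vc, vd⟩ := hv
  have n : ∀ i j, 0 < u i → 0 < v j → ¬ Lk g (wt g u) i j := fun i j h1 h2 h3 => hn ⟨i, j, h1, h2, h3⟩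
  have ne : ∀ i j, 0 < u i → 0 < v j → i ≠ j := fun i j h1 h2 h3 =>
    n i j h1 h2 (h3 ▸ Relation.ReflTransGen.refl)
  obtain ⟨e, he⟩ := fifth a b c d ab (ne _ _ ua vc) (ne _ _ ua vd) (ne _ _ ub vc) (ne _ _ ub vd) cd
  have s : ∀ {i j}, Ed g (wt g u) i j → Lk g (wt g u) i j := Relation.ReflTransGen.single
  have eab : Ed g (wt g u) a b := ⟨u, rfl, ua, ub⟩
  have ecd : Ed g (wt g u) c d := ⟨v, h.symm, vc, vd⟩
  constructor
  · by_cases hl : Lk g (wt g u) a e
    · refine ⟨c, d, cd, ecd, fun x h1 h2 => ?_, a, b, ab, ne _ _ ua vc, ne _ _ ua vd, ne _ _ ub vc,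
        ne _ _ ub vd, eab⟩
      have : Lk g (wt g u) a x := by
        rcases he x with rfl | rfl | rfl | rfl | rfl
        exacts [Relation.ReflTransGen.refl, s eab, absurd rfl h1, absurd rfl h2, hl]
      exact ⟨fun h3 => n _ _ ua vc (this.trans (s h3).symm),
        fun h3 => n _ _ ua vd (this.trans (s h3).symm)⟩
    · refine ⟨a, b, ab, eab, fun x h1 h2 => ?_, c, d, cd, (ne _ _ ua vc).symm, (ne _ _ ub vc).symm,
        (ne _ _ ua vd).symm, (ne _ _ ub vd).symm, ecd⟩
      have : ¬ Lk g (wt g u) a x := by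
        rcases he x with rfl | rfl | rfl | rfl | rfl
        exacts [absurd rfl h1, absurd rfl h2, n _ _ ua vc, n _ _ ua vd, hl]
      exact ⟨fun h3 => this (s h3), fun h3 => this ((s eab).trans (s h3))⟩
  · rintro w hw ⟨x, y, xy, wx, wy⟩
    have r : ∀ i, Lk g (wt g w) i i := fun i => Relation.ReflTransGen.refl
    rcases he x with rfl | rfl | rfl | rfl | rfl
    · exact Or.inl ⟨_, _, wx, ua, r _⟩
    · exact Or.inl ⟨_, _, wx, ub, r _⟩
    · exact Or.inr ⟨_, _, wx, vc, r _⟩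
    · exact Or.inr ⟨_, _, wx, vd, r _⟩
    · rcases he y with rfl | rfl | rfl | rfl | rfl
      · exact Or.inl ⟨_, _, wy, ua, r _⟩
      · exact Or.inl ⟨_, _, wy, ub, r _⟩
      · exact Or.inr ⟨_, _, wy, vc, r _⟩
      · exact Or.inr ⟨_, _, wy, vd, r _⟩
      · exact absurd rfl xy

theorem ex_root (g : Fin 5 → ℕ) : ∃ r : ℕ → Mo, ∀ u, wt g (r (wt g u)) = wt g u ∧
    (Big u → Big (r (wt g u))) := by
  have : ∀ n, ∃ r : Mo, ∀ u, wt g u = n → wt g r = n ∧ (Big u → Big r) := by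
    intro n
    by_cases h : ∃ u, wt g u = n ∧ Big u
    · obtain ⟨u, h1, h2⟩ := h
      exact ⟨u, fun _ _ => ⟨h1, fun _ => h2⟩⟩
    · by_cases h' : ∃ u, wt g u = n
      · obtain ⟨u, h1⟩ := h'
        exact ⟨u, fun v hv => ⟨h1, fun h2 => absurd ⟨v, hv, h2⟩ h⟩⟩
      · exact ⟨0, fun v hv => absurd ⟨v, hv⟩ h'⟩
  choose r hr using this
  exact ⟨r, fun u => hr _ u rfl⟩

def Iso (g : Fin 5 → ℕ) (r : ℕ → Mo) (x : Fin 5) (u : Mo) : Prop :=
  0 < u x ∧ (¬ ∃ w, wt g w = wt g u ∧ Big w ∧ 0 < w x) ∧ r (wt g u) x = 0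

theorem iso_single {r : ℕ → Mo} {x : Fin 5} {u : Mo} (h : Iso g r x u) :
    wt g u = u x * g x := by
  rw [← wt_single]
  congr 1
  ext y
  by_cases hy : x = y
  · subst hy; simp
  · rw [Finsupp.single_eq_of_ne (Ne.symm hy)]
    by_contra h1
    exact h.2.1 ⟨u, rfl, ⟨x, y, hy, h.1, Nat.pos_of_ne_zero h1⟩, h.1⟩

theorem iso_le (hg : ∀ i, 0 < g i) {r : ℕ → Mo} (hr : ∀ u, wt g (r (wt g u)) = wt g u) {x : Fin 5}
    {u v : Mo} (hu : Iso g r x u) (hv : Iso g r x v) : v x ≤ u x := by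
  by_contra h
  have h0 : r (wt g u) ≠ 0 := by
    intro h1
    have h2 := hr u
    have h3 := wt_pos hg hu.1
    rw [h1, wt_zero] at h2
    omega
  obtain ⟨y, hy⟩ := ex_pos h0
  have hxy : x ≠ y := by
    rintro rfl
    have := hu.2.2
    omega
  have hx : 0 < (r (wt g u) + Finsupp.single x (v x - u x) : Mo) x := by
    simp only [Finsupp.add_apply, Finsupp.single_eq_same]
    omega
  refine hv.2.1 ⟨r (wt g u) + Finsupp.single x (v x - u x), ?_, ⟨x, y, hxy, hx, ?_⟩, hx⟩
  · rw [wt_add, hr, wt_single, iso_single hu, iso_single hv, ← add_mul]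
    congr 1
    omega
  · simp only [Finsupp.add_apply]
    omega

theorem gen_bound (hg : ∀ i, 0 < g i) (S : Finset ℕ) (hS : ∀ n a b, MSi g n a b → n ∈ S) :
    (RingHom.ker (phi k g)).spanRank ≤ (5 + S.card : ℕ) := by
  classical
  obtain ⟨r, hr⟩ := ex_root g
  have h1 : ∀ n, ∃ v : Mo, wt g v = wt g (r n) ∧ ∀ u, wt g u = n → Big u → ¬ Cn0 g u (r n) →
      Cn0 g u v := by
    intro n
    by_cases h : ∃ v, wt g v = n ∧ Big v ∧ ¬ Cn0 g v (r n)
    · obtain ⟨v, rfl, h2, h3⟩ := h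
      refine ⟨v, (hr v).1.symm, fun u hu h4 h5 => ?_⟩
      exact ((two_big (hr v).1.symm h2 ((hr v).2 h2) h3).2 u hu h4).resolve_right h5
    · exact ⟨r n, rfl, fun u h2 h3 h4 => absurd ⟨u, h2, h3, h4⟩ h⟩
  choose alt alt1 alt2 using h1
  have h2 : ∀ x, ∃ p : Mo, ∀ u, Iso g r x u → 0 < p x ∧ wt g p = wt g u := by
    intro x
    by_cases h : ∃ u, Iso g r x u
    · obtain ⟨p, hp⟩ := h
      refine ⟨p, fun u hu => ⟨hp.1, ?_⟩⟩
      rw [iso_single hp, iso_single hu, le_antisymm (iso_le hg (fun u => (hr u).1) hp hu)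
        (iso_le hg (fun u => (hr u).1) hu hp)]
    · exact ⟨0, fun u hu => absurd ⟨u, hu⟩ h⟩
  choose pu hpu using h2
  let G : Finset (MvPolynomial (Fin 5) k) :=
    Finset.univ.image (fun x => bi k (pu x) (r (wt g (pu x)))) ∪ S.image fun n => bi k (alt n) (r n)
  let J : Ideal (MvPolynomial (Fin 5) k) := Ideal.span (G : Set _)
  have tr : ∀ {u v w : Mo}, bi k u v ∈ J → bi k v w ∈ J → bi k u w ∈ J := fun {u v w} h1 h2 => by
    have := J.add_mem h1 h2
    rwa [bi, bi, sub_add_sub_cancel] at this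
  have sy : ∀ {u v : Mo}, bi k u v ∈ J → bi k v u ∈ J := fun {u v} h1 => by
    have := J.neg_mem h1
    rwa [bi, neg_sub] at this
  have main : ∀ n (u : Mo), wt g u = n → bi k u (r n) ∈ J := by
    intro n
    induction n using Nat.strong_induction_on with
    | _ n ih =>
      have adj : ∀ u v : Mo, wt g u = n → wt g v = n → ∀ x, 0 < u x → 0 < v x → bi k u v ∈ J := by
        intro u v hu hv x ux vx
        obtain ⟨u, rfl⟩ := ex_sub ux
        obtain ⟨v, rfl⟩ := ex_sub vx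
        rw [wt_add, wt_single] at hu hv
        have := hg x
        have h3 := J.mul_mem_right (X x ^ 1)
          (tr (ih (wt g u) (by omega) u rfl) (sy (ih (wt g u) (by omega) v (by omega))))
        rwa [bi, sub_mul, ← monomial_add_single, ← monomial_add_single] at h3
      have lk : ∀ i j, Lk g n i j → ∀ u : Mo, wt g u = n → 0 < u i → ∀ v : Mo, wt g v = n →
          0 < v j → bi k u v ∈ J := by
        intro i j h u hu ui
        induction h with
        | refl => intro v hv vj; exact adj u v hu hv _ ui vj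
        | tail _ h ih =>
          intro v hv vj
          obtain ⟨w, w1, w2, w3⟩ := h
          exact tr (ih w w1 w2) (adj w v w1 hv _ w3 vj)
      have cn : ∀ u v : Mo, wt g u = n → wt g v = n → Cn0 g u v → bi k u v ∈ J := by
        rintro u v hu hv ⟨i, j, h1, h2, h3⟩
        exact lk i j (hu ▸ h3) u hu h1 v hv h2
      have big : ∀ u : Mo, wt g u = n → Big u → bi k u (r n) ∈ J := by
        intro u hu hb
        have hrn : wt g (r n) = n := by rw [← hu]; exact (hr u).1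
        by_cases hc : Cn0 g u (r n)
        · exact cn _ _ hu hrn hc
        · obtain ⟨a, b, hab⟩ := (two_big (hu.trans hrn.symm) hb (hu ▸ (hr u).2 hb) hc).1
          refine tr (cn _ _ hu ((alt1 n).trans hrn) (alt2 n u hu hb hc)) (Ideal.subset_span ?_)
          exact Finset.mem_union_right _ (Finset.mem_image_of_mem _ (hu ▸ hS _ a b hab))
      intro u hu
      have hrn : wt g (r n) = n := by rw [← hu]; exact (hr u).1
      by_cases h0 : u = 0
      · have : r n = 0 := by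
          by_contra h3
          obtain ⟨x, hx⟩ := ex_pos h3
          have := wt_pos hg hx
          rw [h0, wt_zero] at hu
          omega
        rw [h0, this, bi, sub_self]
        exact J.zero_mem
      · obtain ⟨x, hx⟩ := ex_pos h0
        by_cases h3 : ∃ w, wt g w = wt g u ∧ Big w ∧ 0 < w x
        · obtain ⟨w, w1, w2, w3⟩ := h3
          exact tr (adj u w hu (w1.trans hu) x hx w3) (big w (w1.trans hu) w2)
        · by_cases h4 : r n x = 0
          · obtain ⟨p1, p2⟩ := hpu x u ⟨hx, h3, hu ▸ h4⟩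
            refine tr (adj u _ hu (p2.trans hu) x hx p1) (Ideal.subset_span ?_)
            rw [← p2.trans hu]
            exact Finset.mem_union_left _ (Finset.mem_image_of_mem _ (Finset.mem_univ x))
          · exact adj u _ hu hrn x hx (Nat.pos_of_ne_zero h4)
  have e : RingHom.ker (phi k g) = J := by
    refine le_antisymm (ker_le J r fun u => main _ u rfl) (Ideal.span_le.mpr fun p hp => ?_)
    rcases Finset.mem_union.mp hp with hp | hp
    · obtain ⟨x, -, rfl⟩ := Finset.mem_image.mp hp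
      exact bi_mem (hr _).1.symm
    · obtain ⟨x, -, rfl⟩ := Finset.mem_image.mp hp
      exact bi_mem (alt1 x)
  rw [e]
  refine (Submodule.spanRank_span_le_card _).trans ?_
  rw [Finset.coe_sort_coe, Cardinal.mk_coe_finset, Nat.cast_le]
  refine (Finset.card_union_le _ _).trans (Nat.add_le_add ?_ Finset.card_image_le)
  exact Finset.card_image_le.trans (by simp)

end Pool.Agent.Lib.MP_1dd8f3_al
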