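import Mathlib.Algebra.MvPolynomial.Eval
import Mathlib.Algebra.MvPolynomial.CommRing
import Mathlib.Algebra.Polynomial.AlgebraMap
import Mathlib.Algebra.Module.SpanRank
import Mathlib.RingTheory.Ideal.Maps
import Mathlib.RingTheory.MvPolynomial.Basic
import Mathlib.LinearAlgebra.Dimension.Constructions

namespace Pool.Agent.Lib.MP_1dd8f3_al.Inf

open MvPolynomial

variable {e : ℕ}

def wt (g u : Fin e → ℕ) : ℕ := ∑ i, u i * g i

def MM (g : Fin e → ℕ) (s : ℤ) : Prop := ∃ u : Fin e → ℕ, (wt g u : ℤ) = s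

def Split (g : Fin e → ℕ) (s : ℕ) (A : Fin e → Prop) : Prop :=
  s ≠ 0 ∧ (∃ U, wt g U = s ∧ ∀ j, ¬ A j → U j = 0) ∧ (∃ V, wt g V = s ∧ ∀ j, A j → V j = 0) ∧
    ∀ w, wt g w = s → (∀ j, ¬ A j → w j = 0) ∨ ∀ j, A j → w j = 0

noncomputable abbrev phi (k : Type*) [Field k] (g : Fin e → ℕ) :
    MvPolynomial (Fin e) k →ₐ[k] Polynomial k :=
  MvPolynomial.aeval fun i => (Polynomial.X : Polynomial k) ^ g i

variable {k : Type*} [Field k] {g : Fin e → ℕ}

theorem phi_mon (u : Fin e →₀ ℕ) (c : k) :
    phi k g (monomial u c) = Polynomial.monomial (wt g u) c := by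
  rw [aeval_monomial, Finsupp.prod_fintype _ _ (by simp), ← Polynomial.C_mul_X_pow_eq_monomial, wt,
    ← Finset.prod_pow_eq_pow_sum]
  simp only [← pow_mul, mul_comm]
  rfl

open Classical in
noncomputable def fn (k : Type*) [Field k] (g : Fin e → ℕ) (s : ℕ) (A : Fin e → Prop) :
    MvPolynomial (Fin e) k →ₗ[k] k :=
  (basisMonomials (Fin e) k).constr k fun b => if wt g b = s ∧ ∀ j, ¬ A j → b j = 0 then 1 else 0

open Classical in
theorem fn_mon (s : ℕ) (A : Fin e → Prop) (b : Fin e →₀ ℕ) (c : k) :
    fn k g s A (monomial b c) = if wt g b = s ∧ ∀ j, ¬ A j → b j = 0 then c else 0 := by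
  have : monomial b c = c • basisMonomials (Fin e) k b := by
    rw [coe_basisMonomials, smul_monomial, smul_eq_mul, mul_one]
  rw [this, map_smul, fn, Module.Basis.constr_basis]
  split_ifs <;> simp

open Classical in
theorem fn_mul {s : ℕ} {A : Fin e → Prop} (h : Split g s A) {c : Fin e →₀ ℕ} (hc : c ≠ 0) (r : k)
    (p : MvPolynomial (Fin e) k) : fn k g s A (monomial c r * p) =
      if ∃ j, A j ∧ c j ≠ 0 then (phi k g (monomial c r * p)).coeff s else 0 := by
  induction p using MvPolynomial.induction_on' with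
  | monomial u x =>
    rw [monomial_mul, fn_mon, phi_mon, Polynomial.coeff_monomial]
    by_cases h1 : ∃ j, A j ∧ c j ≠ 0
    · rw [if_pos h1]
      by_cases h2 : wt g (c + u : Fin e →₀ ℕ) = s
      · rw [if_pos h2, if_pos]
        refine ⟨h2, (h.2.2.2 _ h2).resolve_right fun h3 => ?_⟩
        obtain ⟨j, h4, h5⟩ := h1
        have := h3 j h4
        rw [Finsupp.add_apply] at this
        omega
      · rw [if_neg h2, if_neg fun h3 => h2 h3.1]
    · rw [if_neg h1, if_neg]
      rintro ⟨-, h2⟩
      refine hc (Finsupp.ext fun j => ?_)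
      by_cases h3 : A j
      · by_contra h4
        exact h1 ⟨j, h3, h4⟩
      · have := h2 j h3
        rw [Finsupp.add_apply] at this
        change c j = 0
        omega
  | add p q hp hq =>
    rw [mul_add, map_add, map_add, hp, hq, Polynomial.coeff_add]
    split_ifs <;> simp

theorem fn_ker {s : ℕ} {A : Fin e → Prop} (h : Split g s A) (q : MvPolynomial (Fin e) k)
    {p : MvPolynomial (Fin e) k} (hp : p ∈ RingHom.ker (phi k g)) :
    fn k g s A (q * p) = coeff 0 q * fn k g s A p := by
  classical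
  induction q using MvPolynomial.induction_on' with
  | monomial c r =>
    by_cases hc : c = 0
    · subst hc
      rw [coeff_monomial, if_pos rfl, monomial_zero', C_mul', map_smul, smul_eq_mul]
    · rw [fn_mul h hc, coeff_monomial, if_neg hc, zero_mul, map_mul, RingHom.mem_ker.mp hp]
      simp
  | add a b ha hb => rw [add_mul, map_add, ha, hb, coeff_add, add_mul]

theorem lower {n : ℕ} (s : Fin n → ℕ) (A : Fin n → Fin e → Prop) (hs : Function.Injective s)
    (h : ∀ i, Split g (s i) (A i)) : (n : Cardinal) ≤ (RingHom.ker (phi k g)).spanRank := by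
  classical
  obtain ⟨S, hS, eq⟩ := Submodule.exists_span_set_card_eq_spanRank (RingHom.ker (phi k g))
  let L : MvPolynomial (Fin e) k →ₗ[k] (Fin n → k) := LinearMap.pi fun i => fn k g (s i) (A i)
  have h5 : ∀ p ∈ RingHom.ker (phi k g), L p ∈ Submodule.span k (L '' S) := by
    intro p hp
    rw [← eq] at hp
    induction hp using Submodule.span_induction with
    | mem x hx => exact Submodule.subset_span ⟨x, hx, rfl⟩
    | zero => rw [map_zero]; exact zero_mem _
    | add x y _ _ hx hy => rw [map_add]; exact add_mem hx hy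
    | smul q x hx ih =>
      have : L (q • x) = coeff 0 q • L x := by
        funext i
        exact fn_ker (h i) q (eq ▸ hx)
      rw [this]
      exact Submodule.smul_mem _ _ ih
  have h6 : Submodule.span k (L '' S) = ⊤ := by
    rw [eq_top_iff, ← (Pi.basisFun k (Fin n)).span_eq, Submodule.span_le]
    rintro _ ⟨i, rfl⟩
    obtain ⟨h0, ⟨U, hU, hU'⟩, ⟨V, hV, hV'⟩, -⟩ := h i
    let b : MvPolynomial (Fin e) k := monomial (Finsupp.equivFunOnFinite.symm U) 1 -
      monomial (Finsupp.equivFunOnFinite.symm V) 1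
    have hb : b ∈ RingHom.ker (phi k g) := by
      rw [RingHom.mem_ker, map_sub, phi_mon, phi_mon]
      simp [hU, hV]
    suffices e2 : Pi.basisFun k (Fin n) i = L b from e2 ▸ h5 _ hb
    funext j
    change _ = fn k g (s j) (A j) b
    rw [map_sub, fn_mon, fn_mon, Pi.basisFun_apply]
    simp only [Finsupp.coe_equivFunOnFinite_symm, hU, hV]
    by_cases hij : i = j
    · subst hij
      rw [if_pos ⟨rfl, hU'⟩, if_neg, Pi.single_eq_same, sub_zero]
      rintro ⟨-, h7⟩
      refine h0 (hV ▸ Finset.sum_eq_zero fun x _ => ?_)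
      by_cases h8 : A i x
      · rw [hV' x h8, zero_mul]
      · rw [h7 x h8, zero_mul]
    · rw [if_neg fun h7 => hij (hs h7.1), if_neg fun h7 => hij (hs h7.1),
        Pi.single_eq_of_ne (Ne.symm hij), sub_zero]
  have h7 := rank_span_le (R := k) (L '' S)
  rw [h6, rank_top, rank_fin_fun] at h7
  exact h7.trans (hS ▸ Cardinal.mk_image_le)

def Good (e n : ℕ) : Prop :=
  ∃ (g : Fin e → ℕ) (F : ℤ) (s : Fin n → ℕ) (A : Fin n → Fin e → Prop), StrictMono g ∧
    (∀ i u, u i = 0 → wt g u ≠ g i) ∧ ¬ MM g F ∧ (∀ x, ¬ MM g x → MM g (F - x)) ∧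
    Function.Injective s ∧ ∀ i, Split g (s i) (A i)

theorem wt_snoc (g : Fin e → ℕ) (c : ℕ) (u : Fin (e + 1) → ℕ) :
    wt (Fin.snoc (α := fun _ => ℕ) (fun i => 2 * g i) c) u =
      2 * wt g (fun i => u i.castSucc) + u (Fin.last e) * c := by
  simp only [wt, Fin.sum_univ_castSucc, Fin.snoc_castSucc, Fin.snoc_last, Finset.mul_sum]
  congr 1
  exact Finset.sum_congr rfl fun i _ => by ring

theorem wt_add (g u v : Fin e → ℕ) : wt g (u + v) = wt g u + wt g v := by
  simp [wt, add_mul, Finset.sum_add_distrib]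

theorem wt_smul (g u : Fin e → ℕ) (j : ℕ) : wt g (j • u) = j * wt g u := by
  simp [wt, Finset.mul_sum, mul_assoc]

theorem glue {e n : ℕ} (h : Good e n) : Good (e + 1) n := by
  obtain ⟨g, F, s, A, h1, h2, h3, h4, h5, h6⟩ := h
  obtain ⟨c, c1, c2, c3, c4⟩ : ∃ c : ℕ, c % 2 = 1 ∧ F < c ∧ (∀ i, 2 * g i < c) ∧ ∀ i, 2 * s i < c := by
    refine ⟨2 * (F.toNat + ∑ i, g i + ∑ i, s i) + 1, by omega, by omega, fun i => ?_, fun i => ?_⟩
    · have := Finset.single_le_sum (f := g) (fun _ _ => Nat.zero_le _) (Finset.mem_univ i)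
      omega
    · have := Finset.single_le_sum (f := s) (fun _ _ => Nat.zero_le _) (Finset.mem_univ i)
      omega
  obtain ⟨uc, huc⟩ : MM g c := by
    by_contra h
    obtain ⟨u, hu⟩ := h4 _ h
    omega
  have mk : ∀ (y : ℤ) (j : ℕ), MM g y →
      MM (Fin.snoc (α := fun _ => ℕ) (fun i => 2 * g i) c) (2 * y + j * c) := by
    rintro y j ⟨u, rfl⟩
    refine ⟨Fin.snoc (α := fun _ => ℕ) u j, ?_⟩
    rw [wt_snoc]
    simp
  have z : ∀ {a j b : ℕ}, a + j * c = b → b < c → j = 0 := by
    intro a j b e1 e2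
    by_contra h
    have := Nat.mul_le_mul_right c (Nat.pos_of_ne_zero h)
    omega
  refine ⟨Fin.snoc (α := fun _ => ℕ) (fun i => 2 * g i) c, 2 * F + c, fun i => 2 * s i,
    fun i => Fin.snoc (α := fun _ => Prop) (A i) False, ?_, ?_, ?_, ?_, ?_, ?_⟩
  · intro i j hij
    induction j using Fin.lastCases with
    | last =>
      induction i using Fin.lastCases with
      | last => exact absurd hij (lt_irrefl _)
      | cast i => simpa using c3 i
    | cast j =>
      induction i using Fin.lastCases with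
      | last => exact absurd hij (Fin.castSucc_lt_last j).not_gt
      | cast i => simpa using h1 (Fin.castSucc_lt_castSucc_iff.mp hij)
  · intro i u hu
    rw [wt_snoc]
    induction i using Fin.lastCases with
    | last =>
      rw [hu, Fin.snoc_last]
      omega
    | cast i =>
      rw [Fin.snoc_castSucc]
      intro h
      have := z h (c3 i)
      have h7 := h2 i (fun i => u i.castSucc) hu
      rw [this] at h
      omega
  · rintro ⟨u, hu⟩
    rw [wt_snoc] at hu
    obtain ⟨j, hj | hj⟩ := Nat.even_or_odd' (u (Fin.last e))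
    · rw [hj, mul_assoc] at hu
      omega
    · refine h3 ⟨(fun i => u i.castSucc) + j • uc, ?_⟩
      have e1 : wt g uc = c := by exact_mod_cast huc
      rw [hj, add_mul, mul_assoc] at hu
      rw [wt_add, wt_smul, e1]
      omega
  · intro x hx
    obtain ⟨y, hy | hy⟩ := Int.even_or_odd' x
    · have := mk _ 1 (h4 y fun h => hx (by simpa [hy] using mk y 0 h))
      convert this using 1
      omega
    · have := mk _ 0 (h4 ((x - c) / 2) fun h => hx (by convert mk _ 1 h using 1; omega))
      convert this using 1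
      omega
  · intro i j hij
    exact h5 (by simpa using hij)
  · intro i
    obtain ⟨h0, ⟨U, hU, hU'⟩, ⟨V, hV, hV'⟩, h7⟩ := h6 i
    refine ⟨Nat.mul_ne_zero (by omega) h0, ⟨Fin.snoc (α := fun _ => ℕ) U 0, by simp [wt_snoc, hU], fun j => ?_⟩,
      ⟨Fin.snoc (α := fun _ => ℕ) V 0, by simp [wt_snoc, hV], fun j => ?_⟩, fun w hw => ?_⟩
    · induction j using Fin.lastCases with
      | last => simp
      | cast j => simpa using hU' j
    · induction j using Fin.lastCases with
      | last => simp
      | cast j => simpa using hV' j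
    · rw [wt_snoc] at hw
      change _ = 2 * s i at hw
      have h8 := z hw (c4 i)
      rw [h8] at hw
      refine (h7 (fun i => w i.castSucc) (by omega)).imp (fun h j => ?_) fun h j => ?_
      · induction j using Fin.lastCases with
        | last => exact fun _ => h8
        | cast j => simpa using h j
      · induction j using Fin.lastCases with
        | last => exact fun _ => h8
        | cast j => simpa using h j

end Pool.Agent.Lib.MP_1dd8f3_al.Inf
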