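import Pool.Agent.Lib.MP_1dd8f3_al.Inf1
import Mathlib.Tactic.LinearCombination
import Mathlib.Tactic.Linarith
import Mathlib.Tactic.Positivity
import Mathlib.Tactic.FinCases

namespace Pool.Agent.Lib.MP_1dd8f3_al.Inf

def vl (m t u v w : ℤ) : ℤ :=
  t * (m ^ 3 + (m + 1) ^ 3) + u * m ^ 2 + v * (m * (m + 1)) + w * (m + 1) ^ 2

theorem lat {m t u v w t' u' v' w' : ℤ} (hm : 0 < m) (h : vl m t u v w = vl m t' u' v' w') :
    ∃ a b c : ℤ, t = t' - c ∧ u = u' + m * (a + c) + a ∧ v = v' + m * (b - a) + b ∧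
      w = w' + m * (c - b) + c := by
  unfold vl at h
  obtain ⟨c, rfl⟩ : ∃ c, t = t' - c := ⟨t' - t, by ring⟩
  obtain ⟨x, rfl⟩ : ∃ x, u = u' + m * c + x := ⟨u - u' - m * c, by ring⟩
  obtain ⟨y, rfl⟩ : ∃ y, v = v' + y := ⟨v - v', by ring⟩
  obtain ⟨z, rfl⟩ : ∃ z, w = w' + (m + 1) * c + z := ⟨w - w' - (m + 1) * c, by ring⟩
  have h1 : x * m ^ 2 + y * (m * (m + 1)) + z * (m + 1) ^ 2 = 0 := by linear_combination h
  obtain ⟨a, rfl⟩ : ∃ a, x = (m + 1) * a :=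
    ⟨-y * m - z * (m + 1) - x * (m - 1), by linear_combination h1⟩
  have h2 : a * m ^ 2 + y * m + z * (m + 1) = 0 :=
    mul_left_cancel₀ (a := m + 1) (by omega) (by linear_combination h1)
  obtain ⟨b, rfl⟩ : ∃ b, z = -m * b := ⟨a * m + y + z, by linear_combination h2⟩
  have h3 : y = b * (m + 1) - a * m :=
    mul_left_cancel₀ (a := m) (by omega) (by linear_combination h2)
  exact ⟨a, b, c, rfl, by ring, by rw [h3]; ring, by ring⟩

theorem lt_m {m x y : ℤ} (hm : 0 < m) (h : m * x < m * y) : x < y :=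
  lt_of_mul_lt_mul_left h hm.le

def Cb (m s : ℤ) : Prop :=
  ∃ t u v w, vl m t u v w = s ∧ 0 ≤ u ∧ u ≤ t ∧ 0 ≤ v ∧ v ≤ t ∧ 0 ≤ w ∧ w ≤ t

theorem not_F {m : ℤ} (hm : 0 < m) : ¬ Cb m (vl m (2 * m - 1) (2 * m) m m) := by
  rintro ⟨t, u, v, w, h, h1, h2, h3, h4, h5, h6⟩
  obtain ⟨a, b, c, rfl, rfl, rfl, rfl⟩ := lat hm h
  rcases le_or_gt 0 c with hc | hc
  · have e1 := lt_m (x := c - b) (y := 1) hm (by omega)
    have e2 := lt_m (x := b - a) (y := 1) hm (by omega)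
    have e3 := lt_m (x := a + c) (y := 0) hm (by omega)
    omega
  · have e1 := lt_m (x := -1) (y := c - b) hm (by omega)
    have e2 := lt_m (x := -1) (y := b - a) hm (by omega)
    have e3 := lt_m (x := -2) (y := a + c) hm (by omega)
    omega

theorem betti {m t u v w x : ℤ} (hm : 0 < m) (h0 : 0 ≤ x) (hx : x ≤ m)
    (h : vl m t u v w = vl m (m + 1) (m + 1) 0 x) (h1 : 0 ≤ u) (h2 : u ≤ t) (h3 : 0 ≤ v)
    (h4 : v ≤ t) (h5 : 0 ≤ w) (h6 : w ≤ t) : u = 0 ∨ u = t := by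
  obtain ⟨a, b, c, rfl, rfl, rfl, rfl⟩ := lat hm h
  rcases lt_trichotomy 0 c with hc | rfl | hc
  · have e1 := lt_m (x := c - b) (y := 1) hm (by omega)
    have e2 := lt_m (x := b - a) (y := 1) hm (by omega)
    have e3 := lt_m (x := a + c) (y := 0) hm (by omega)
    omega
  · have e1 : a + 0 < 1 := by
      by_contra h7
      have := lt_m (x := a + 0) (y := 0) hm (by omega)
      omega
    have e2 : -2 < a + 0 := by
      by_contra h7
      have := lt_m (x := -1) (y := a + 0) hm (by omega)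
      omega
    obtain rfl | rfl : a = 0 ∨ a = -1 := by omega
    · right; ring
    · left; ring
  · have e1 := lt_m (x := -1) (y := c - b) hm (by omega)
    have e2 := lt_m (x := 0) (y := b - a) hm (by omega)
    have e3 := lt_m (x := -1) (y := a + c) hm (by omega)
    omega

theorem tile {m : ℤ} (hm : 0 < m) (N : ℕ) : ∀ t u v w : ℤ, 0 ≤ u → 0 ≤ v → 0 ≤ w → u + v + w < N →
    ∃ t' u' v' w', vl m t' u' v' w' = vl m t u v w ∧ 0 ≤ u' ∧ 0 ≤ v' ∧ 0 ≤ w' ∧
      ((u' ≤ m ∧ v' ≤ m ∧ w' ≤ m) ∨ (u' < m ∧ v' < m ∧ m < w' ∧ w' ≤ 2 * m)) := by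
  induction N with
  | zero => intro t u v w h1 h2 h3 h4; omega
  | succ N ih =>
    intro t u v w h1 h2 h3 h4
    have st : ∀ t' u' v' w', vl m t' u' v' w' = vl m t u v w → 0 ≤ u' → 0 ≤ v' → 0 ≤ w' →
        u' + v' + w' < N → ∃ t' u' v' w', vl m t' u' v' w' = vl m t u v w ∧ 0 ≤ u' ∧ 0 ≤ v' ∧
        0 ≤ w' ∧ ((u' ≤ m ∧ v' ≤ m ∧ w' ≤ m) ∨ (u' < m ∧ v' < m ∧ m < w' ∧ w' ≤ 2 * m)) :=
      fun t' u' v' w' e a b c d => e ▸ ih t' u' v' w' a b c d
    by_cases c1 : m < u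
    · exact st t (u - (m + 1)) (v + m) w (by unfold vl; ring) (by omega) (by omega) h3 (by omega)
    by_cases c2 : m < v
    · exact st t u (v - (m + 1)) (w + m) (by unfold vl; ring) h1 (by omega) (by omega) (by omega)
    by_cases c3 : w ≤ m
    · exact ⟨t, u, v, w, rfl, h1, h2, h3, by omega⟩
    by_cases c4 : m ≤ u
    · exact st (t + 1) (u - m) v (w - (m + 1)) (by unfold vl; ring) (by omega) h2 (by omega)
        (by omega)
    by_cases c5 : m ≤ v
    · exact st (t + 1) (u + 1) (v - m) (w - (m + 1)) (by unfold vl; ring) (by omega) (by omega)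
        (by omega) (by omega)
    by_cases c6 : 2 * m < w
    · exact st (t + 1) (u + 1) (v + 1) (w - (2 * m + 1)) (by unfold vl; ring) (by omega) (by omega)
        (by omega) (by omega)
    exact ⟨t, u, v, w, rfl, h1, h2, h3, by omega⟩

theorem cb_sym {m : ℤ} (hm : 0 < m) (s : ℤ) (hs : ¬ Cb m s) :
    Cb m (vl m (2 * m - 1) (2 * m) m m - s) := by
  have p1 : 0 ≤ s + 2 * |s| * m := by nlinarith [abs_nonneg s, neg_abs_le s]
  have p2 : 0 ≤ -2 * s + 2 * |s| * (m + 1) := by nlinarith [abs_nonneg s, le_abs_self s]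
  have p3 : 0 ≤ s + 2 * |s| := by nlinarith [abs_nonneg s, neg_abs_le s]
  obtain ⟨t, u, v, w, e, h1, h2, h3, h4⟩ := tile hm
    ((s + 2 * |s| * m) + (-2 * s + 2 * |s| * (m + 1)) + (s + 2 * |s|) + 1).toNat (-(2 * |s|)) _ _ _
    p1 p2 p3 (by omega)
  obtain rfl : vl m t u v w = s := by rw [e]; unfold vl; ring
  have n1 : ¬ (u ≤ t ∧ v ≤ t ∧ w ≤ t) := fun h => hs ⟨t, u, v, w, rfl, by omega⟩
  have r3 : u < m → v < m → w ≤ 2 * m → t < w → t ≤ m + u → t ≤ m + v →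
      Cb m (vl m (2 * m - 1) (2 * m) m m - vl m t u v w) := fun _ _ _ _ _ _ =>
    ⟨2 * m - 1 - t, m - 1 - u, m - 1 - v, 2 * m - w, by unfold vl; ring, by omega⟩
  rcases h4 with h4 | h4
  · by_cases c1 : v ≤ u ∧ w ≤ u
    · exact ⟨2 * m - 1 - t, 2 * m - u, m - v, m - w, by unfold vl; ring, by omega⟩
    by_cases c2 : w ≤ v
    · exact ⟨2 * m - 1 - t, m - 1 - u, 2 * m - v, m - w, by unfold vl; ring, by omega⟩
    exact r3 (by omega) (by omega) (by omega) (by omega) (by omega) (by omega)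
  · have n2 : ¬ (v + (m + 1) ≤ t) := fun h =>
      hs ⟨t, u, v + (m + 1), w - m, by unfold vl; ring, by omega⟩
    have n3 : ¬ (u + (m + 1) ≤ t) := fun h =>
      hs ⟨t, u + (m + 1), v + 1, w - m, by unfold vl; ring, by omega⟩
    exact r3 (by omega) (by omega) (by omega) (by omega) (by omega) (by omega)

def cg (m : ℕ) : Fin 8 → ℕ :=
  ![m ^ 3 + (m + 1) ^ 3, m ^ 3 + (m + 1) ^ 3 + m ^ 2, m ^ 3 + (m + 1) ^ 3 + m * (m + 1),
    m ^ 3 + (m + 1) ^ 3 + (m + 1) ^ 2, m ^ 3 + (m + 1) ^ 3 + m ^ 2 + m * (m + 1),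
    m ^ 3 + (m + 1) ^ 3 + m ^ 2 + (m + 1) ^ 2, m ^ 3 + (m + 1) ^ 3 + m * (m + 1) + (m + 1) ^ 2,
    m ^ 3 + (m + 1) ^ 3 + m ^ 2 + m * (m + 1) + (m + 1) ^ 2]

theorem wt_cg (m : ℕ) (x : Fin 8 → ℕ) : (wt (cg m) x : ℤ) =
    vl m (x 0 + x 1 + x 2 + x 3 + x 4 + x 5 + x 6 + x 7) (x 1 + x 4 + x 5 + x 7)
      (x 2 + x 4 + x 6 + x 7) (x 3 + x 5 + x 6 + x 7) := by
  simp [wt, cg, vl, Fin.sum_univ_eight]
  ring

theorem ex_cg {t u v w : ℕ} (h1 : u ≤ t) (h2 : v ≤ t) (h3 : w ≤ t) : ∃ x : Fin 8 → ℕ,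
    x 0 + x 1 + x 2 + x 3 + x 4 + x 5 + x 6 + x 7 = t ∧ x 1 + x 4 + x 5 + x 7 = u ∧
      x 2 + x 4 + x 6 + x 7 = v ∧ x 3 + x 5 + x 6 + x 7 = w := by
  rcases le_total u v with a | a <;> rcases le_total v w with b | b <;> rcases le_total u w with c | c
  · exact ⟨![t - w, 0, 0, w - v, 0, 0, v - u, u], by simp; omega⟩
  · exact ⟨![t - w, 0, 0, w - v, 0, 0, v - u, u], by simp; omega⟩
  · exact ⟨![t - v, 0, v - w, 0, 0, 0, w - u, u], by simp; omega⟩
  · exact ⟨![t - v, 0, v - u, 0, u - w, 0, 0, w], by simp; omega⟩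
  · exact ⟨![t - w, 0, 0, w - u, 0, u - v, 0, v], by simp; omega⟩
  · exact ⟨![t - u, u - w, 0, 0, 0, w - v, 0, v], by simp; omega⟩
  · exact ⟨![t - u, u - v, 0, 0, v - w, 0, 0, w], by simp; omega⟩
  · exact ⟨![t - u, u - v, 0, 0, v - w, 0, 0, w], by simp; omega⟩

theorem mm_cg (m : ℕ) (s : ℤ) : MM (cg m) s ↔ Cb m s := by
  constructor
  · rintro ⟨x, rfl⟩
    exact ⟨_, _, _, _, (wt_cg m x).symm, by omega⟩
  · rintro ⟨t, u, v, w, rfl, h⟩
    lift t to ℕ using by omega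
    lift u to ℕ using by omega
    lift v to ℕ using by omega
    lift w to ℕ using by omega
    obtain ⟨x, rfl, rfl, rfl, h4⟩ := ex_cg (t := t) (u := u) (v := v) (w := w) (by omega) (by omega)
      (by omega)
    refine ⟨x, ?_⟩
    rw [wt_cg, ← h4]
    push_cast
    rfl

theorem cg_mono {m : ℕ} (hm : 2 ≤ m) : StrictMono (cg m) := by
  rw [Fin.strictMono_iff_lt_succ]
  intro i
  fin_cases i <;> simp [cg] <;> nlinarith

theorem cg_min {m : ℕ} (hm : 2 ≤ m) (i : Fin 8) (u : Fin 8 → ℕ) (hu : u i = 0) :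
    wt (cg m) u ≠ cg m i := by
  intro h
  have h0 : ∀ j, cg m 0 ≤ cg m j := fun j => (cg_mono hm).monotone (Fin.zero_le j)
  have h1 : cg m i < 2 * cg m 0 := by
    refine lt_of_le_of_lt ((cg_mono hm).monotone (Fin.le_last i)) ?_
    change m ^ 3 + (m + 1) ^ 3 + m ^ 2 + m * (m + 1) + (m + 1) ^ 2 < 2 * (m ^ 3 + (m + 1) ^ 3)
    nlinarith [pow_pos (show 0 < m by omega) 3]
  obtain ⟨j, hj⟩ : ∃ j, u j ≠ 0 := by
    by_contra h2
    push Not at h2
    have : wt (cg m) u = 0 := by simp [wt, h2]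
    have := h0 i
    omega
  have e1 : wt (cg m) u = wt (cg m) (u - Pi.single j 1) + cg m j := by
    have : u = u - Pi.single j 1 + Pi.single j 1 := by
      funext x
      by_cases hx : x = j
      · subst hx
        simp
        omega
      · simp [hx]
    conv_lhs => rw [this, wt_add]
    congr 1
    simp [wt, Pi.single_apply]
  by_cases h3 : wt (cg m) (u - Pi.single j 1) = 0
  · have : j = i := (cg_mono hm).injective (by omega)
    exact hj (this ▸ hu)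
  · obtain ⟨l, -, hl⟩ := Finset.exists_ne_zero_of_sum_ne_zero h3
    have h4 : (u - Pi.single j 1 : Fin 8 → ℕ) l * cg m l ≤ wt (cg m) (u - Pi.single j 1) :=
      Finset.single_le_sum (f := fun l => (u - Pi.single j 1 : Fin 8 → ℕ) l * cg m l)
        (fun _ _ => Nat.zero_le _) (Finset.mem_univ l)
    have h5 := Nat.le_mul_of_pos_left (cg m l) (Nat.pos_of_ne_zero (left_ne_zero_of_mul hl))
    have := h0 l
    have := h0 j
    omega

theorem good8 (n : ℕ) : Good 8 n := by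
  obtain ⟨m, hm, hn⟩ : ∃ m : ℕ, 2 ≤ m ∧ n ≤ m := ⟨n + 2, by omega, by omega⟩
  have h0 : (0 : ℤ) < m := by omega
  have e1 : ∀ x : ℕ, x ≤ m → (wt (cg m) ![0, m + 1 - x, 0, 0, 0, x, 0, 0] : ℤ) =
      vl m (m + 1) (m + 1) 0 x := by
    intro x hx
    rw [wt_cg]
    simp [Nat.cast_sub (show x ≤ m + 1 by omega)]
  have e2 : ∀ x : ℕ, x ≤ m → (wt (cg m) ![1, 0, m - x, 0, 0, 0, x, 0] : ℤ) =
      vl m (m + 1) (m + 1) 0 x := by
    intro x hx
    rw [wt_cg]
    simp [Nat.cast_sub hx, vl]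
    ring
  refine ⟨cg m, vl m (2 * m - 1) (2 * m) m m, fun i => wt (cg m) ![0, m + 1 - i, 0, 0, 0, i, 0, 0],
    fun _ j => j = 1 ∨ j = 4 ∨ j = 5 ∨ j = 7, cg_mono hm, cg_min hm,
    fun h => not_F h0 ((mm_cg _ _).mp h),
    fun x hx => (mm_cg _ _).mpr (cb_sym h0 x fun h => hx ((mm_cg _ _).mpr h)), ?_, fun i => ?_⟩
  · intro i j h
    have h1 := e1 i (by omega)
    have h2 := e1 j (by omega)
    simp only at h
    rw [h, h2] at h1
    unfold vl at h1
    have : (j : ℤ) = i := mul_right_cancel₀ (b := ((m : ℤ) + 1) ^ 2) (by positivity)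
      (by linear_combination h1)
    exact Fin.ext (by omega)
  · have hi : (i : ℕ) ≤ m := by omega
    refine ⟨fun h => ?_, ⟨_, rfl, fun j => ?_⟩, ⟨![1, 0, m - i, 0, 0, 0, i, 0], ?_, fun j => ?_⟩,
      fun w hw => ?_⟩
    · have h1 := e1 i hi
      simp only at h
      rw [h] at h1
      unfold vl at h1
      have : (0 : ℤ) < (m + 1) * (m ^ 3 + (m + 1) ^ 3) + (m + 1) * m ^ 2 + 0 * (m * (m + 1)) +
        (i : ℕ) * (m + 1) ^ 2 := by positivity
      omega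
    · fin_cases j <;> simp
    · exact_mod_cast (e2 i hi).trans (e1 i hi).symm
    · fin_cases j <;> simp
    · have h1 := e1 i hi
      simp only at hw
      rw [← hw, wt_cg] at h1
      rcases betti h0 (by omega) (by omega) h1 (by omega) (by omega) (by omega) (by omega)
        (by omega) (by omega) with h | h
      · right
        rintro j (rfl | rfl | rfl | rfl) <;> omega
      · left
        intro j
        fin_cases j <;> simp <;> omega

theorem good {e : ℕ} (he : 8 ≤ e) (n : ℕ) : Good e n := by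
  induction e, he using Nat.le_induction with
  | base => exact good8 n
  | succ e _ ih => exact glue ih

end Pool.Agent.Lib.MP_1dd8f3_al.Inf
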