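import Mathlib.Algebra.Group.Submonoid.Finsupp
import Mathlib.Algebra.BigOperators.Fin
import Pool.Agent.Lib.MP_1dd8f3_al.Count
import Pool.Agent.Lib.MP_1dd8f3_al.Gen

namespace Pool.Agent.Lib.MP_1dd8f3_al

variable {g : Fin 5 → ℕ}

theorem mem_cl {n : ℕ} : n ∈ AddSubmonoid.closure (Set.range g) ↔ ∃ u : Mo, wt g u = n := by
  rw [AddSubmonoid.mem_closure_range_iff_of_fintype]
  constructor
  · rintro ⟨a, rfl⟩
    exact ⟨Finsupp.equivFunOnFinite.symm a, by simp [wt]⟩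
  · rintro ⟨u, rfl⟩
    exact ⟨u, by simp [wt]⟩

def MM (g : Fin 5 → ℕ) (s : ℤ) : Prop := ∃ u : Mo, (wt g u : ℤ) = s

theorem mm_iff {s : ℤ} :
    s ∈ (Nat.cast '' (AddSubmonoid.closure (Set.range g) : Set ℕ) : Set ℤ) ↔ MM g s := by
  constructor
  · rintro ⟨n, hn, rfl⟩
    obtain ⟨u, rfl⟩ := mem_cl.mp hn
    exact ⟨u, rfl⟩
  · rintro ⟨u, rfl⟩
    exact ⟨_, mem_cl.mpr ⟨u, rfl⟩, rfl⟩

theorem wt_eq (u : Mo) :
    wt g u = u 0 * g 0 + u 1 * g 1 + u 2 * g 2 + u 3 * g 3 + u 4 * g 4 := by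
  simp [wt, Fin.sum_univ_five]

theorem ctx_of (hg : ∀ i, 0 < g i) {F : ℤ} (h1 : ¬ MM g F) (h2 : ∀ s, ¬ MM g s → MM g (F - s)) :
    Ctx (MM g) F (g 0) (g 1) (g 2) (g 3) (g 4) := by
  refine ⟨by exact_mod_cast hg 0, by exact_mod_cast hg 1, by exact_mod_cast hg 2,
    by exact_mod_cast hg 3, by exact_mod_cast hg 4, fun a b c d e ha hb hc hd he => ?_, ?_, h1, h2⟩
  · lift a to ℕ using ha
    lift b to ℕ using hb
    lift c to ℕ using hc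
    lift d to ℕ using hd
    lift e to ℕ using he
    refine ⟨Finsupp.equivFunOnFinite.symm ![a, b, c, d, e], ?_⟩
    rw [wt_eq]
    simp
  · rintro s ⟨u, rfl⟩
    refine ⟨u 0, u 1, u 2, u 3, u 4, by positivity, by positivity, by positivity, by positivity,
      by positivity, ?_⟩
    rw [wt_eq]
    push_cast
    rfl

theorem ed_iff {n : ℕ} {i j : Fin 5} (h : i ≠ j) : Ed g n i j ↔ MM g ((n : ℤ) - g i - g j) := by
  constructor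
  · rintro ⟨w, rfl, h1, h2⟩
    obtain ⟨w, rfl⟩ := ex_sub h1
    have h3 : 0 < w j := by simpa [Finsupp.single_eq_of_ne (Ne.symm h)] using h2
    obtain ⟨w, rfl⟩ := ex_sub h3
    refine ⟨w, ?_⟩
    rw [wt_add, wt_add, wt_single, wt_single]
    push_cast
    ring
  · rintro ⟨w, hw⟩
    refine ⟨w + Finsupp.single i 1 + Finsupp.single j 1, ?_, by simp, by simp⟩
    rw [wt_add, wt_add, wt_single, wt_single]
    omega

theorem msi_ms {n : ℕ} {a b : Fin 5} (x y z : Fin 5) (h : MSi g n a b)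
    (hc : (∀ i, i = a ∨ i = b ∨ i = x ∨ i = y ∨ i = z) ∧ x ≠ a ∧ x ≠ b ∧ y ≠ a ∧ y ≠ b ∧ z ≠ a ∧
      z ≠ b) : MS (MM g) n (g a) (g b) (g x) (g y) (g z) := by
  obtain ⟨h1, h2, h3, u, v, uv, ua, ub, va, vb, h4⟩ := h
  obtain ⟨hc, xa, xb, ya, yb, za, zb⟩ := hc
  have k : ∀ x, x ≠ a → x ≠ b → ¬ MM g ((n : ℤ) - g a - g x) ∧ ¬ MM g ((n : ℤ) - g b - g x) :=
    fun x xa xb => ⟨fun h => (h3 x xa xb).1 ((ed_iff xa.symm).mpr h),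
      fun h => (h3 x xa xb).2 ((ed_iff xb.symm).mpr h)⟩
  refine ⟨(ed_iff h1).mp h2, ⟨⟨(k x xa xb).1, (k y ya yb).1, (k z za zb).1⟩, (k x xa xb).2,
    (k y ya yb).2, (k z za zb).2⟩, ?_⟩
  have h5 := (ed_iff uv).mp h4
  rcases hc u with rfl | rfl | rfl | rfl | rfl
  · exact absurd rfl ua
  · exact absurd rfl ub
  · rcases hc v with rfl | rfl | rfl | rfl | rfl
    exacts [absurd rfl va, absurd rfl vb, absurd rfl uv, Or.inl h5, Or.inr (Or.inl h5)]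
  · rcases hc v with rfl | rfl | rfl | rfl | rfl
    exacts [absurd rfl va, absurd rfl vb, Or.inl (es h5), absurd rfl uv, Or.inr (Or.inr h5)]
  · rcases hc v with rfl | rfl | rfl | rfl | rfl
    exacts [absurd rfl va, absurd rfl vb, Or.inr (Or.inl (es h5)), Or.inr (Or.inr (es h5)),
      absurd rfl uv]

theorem pairs : ∀ a b : Fin 5, a ≠ b →
    (a = 0 ∧ b = 1) ∨ (a = 0 ∧ b = 2) ∨ (a = 0 ∧ b = 3) ∨ (a = 0 ∧ b = 4) ∨ (a = 1 ∧ b = 2) ∨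
    (a = 1 ∧ b = 3) ∨ (a = 1 ∧ b = 4) ∨ (a = 2 ∧ b = 3) ∨ (a = 2 ∧ b = 4) ∨ (a = 3 ∧ b = 4) ∨
    (b = 0 ∧ a = 1) ∨ (b = 0 ∧ a = 2) ∨ (b = 0 ∧ a = 3) ∨ (b = 0 ∧ a = 4) ∨ (b = 1 ∧ a = 2) ∨
    (b = 1 ∧ a = 3) ∨ (b = 1 ∧ a = 4) ∨ (b = 2 ∧ a = 3) ∨ (b = 2 ∧ a = 4) ∨ (b = 3 ∧ a = 4) := by
  decide +kernel

theorem upper (k : Type*) [Field k] (hg : ∀ i, 0 < g i) {F : ℤ} (h1 : ¬ MM g F)
    (h2 : ∀ s, ¬ MM g s → MM g (F - s)) : (RingHom.ker (phi k g)).spanRank ≤ 13 := by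
  obtain ⟨S, hS, h⟩ := count8 (ctx_of hg h1 h2)
  have h3 := gen_bound (k := k) hg (S.image Int.toNat) (fun n a b hab => by
    refine Finset.mem_image.mpr ⟨n, ?_, by simp⟩
    obtain ⟨e1, e2, e3, e4, e5, e6, e7, e8, e9, e10⟩ := h n
    rcases pairs a b hab.1 with ⟨rfl, rfl⟩ | ⟨rfl, rfl⟩ | ⟨rfl, rfl⟩ | ⟨rfl, rfl⟩ | ⟨rfl, rfl⟩ |
      ⟨rfl, rfl⟩ | ⟨rfl, rfl⟩ | ⟨rfl, rfl⟩ | ⟨rfl, rfl⟩ | ⟨rfl, rfl⟩ | ⟨rfl, rfl⟩ | ⟨rfl, rfl⟩ |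
      ⟨rfl, rfl⟩ | ⟨rfl, rfl⟩ | ⟨rfl, rfl⟩ | ⟨rfl, rfl⟩ | ⟨rfl, rfl⟩ | ⟨rfl, rfl⟩ | ⟨rfl, rfl⟩ |
      ⟨rfl, rfl⟩
    exacts [e1 (msi_ms _ _ _ hab (by decide)), e2 (msi_ms _ _ _ hab (by decide)),
      e3 (msi_ms _ _ _ hab (by decide)), e4 (msi_ms _ _ _ hab (by decide)),
      e5 (msi_ms _ _ _ hab (by decide)), e6 (msi_ms _ _ _ hab (by decide)),
      e7 (msi_ms _ _ _ hab (by decide)), e8 (msi_ms _ _ _ hab (by decide)),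
      e9 (msi_ms _ _ _ hab (by decide)), e10 (msi_ms _ _ _ hab (by decide)),
      e1 (msi_ms _ _ _ hab (by decide)).s01, e2 (msi_ms _ _ _ hab (by decide)).s01,
      e3 (msi_ms _ _ _ hab (by decide)).s01, e4 (msi_ms _ _ _ hab (by decide)).s01,
      e5 (msi_ms _ _ _ hab (by decide)).s01, e6 (msi_ms _ _ _ hab (by decide)).s01,
      e7 (msi_ms _ _ _ hab (by decide)).s01, e8 (msi_ms _ _ _ hab (by decide)).s01,
      e9 (msi_ms _ _ _ hab (by decide)).s01, e10 (msi_ms _ _ _ hab (by decide)).s01])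
  refine h3.trans ?_
  have : 5 + (S.image Int.toNat).card ≤ 13 := by
    have := Finset.card_image_le (s := S) (f := Int.toNat)
    omega
  exact_mod_cast this

end Pool.Agent.Lib.MP_1dd8f3_al
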