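import Mathlib.LinearAlgebra.Dimension.Constructions
import Pool.Agent.Lib.MP_1dd8f3_al.Upper

namespace Pool.Agent.Lib.MP_1dd8f3_al

open MvPolynomial

variable {k : Type*} [Field k]

theorem coeff_unique {g : Fin 5 → ℕ} {b : Mo} (hb : ∀ b', wt g b' = wt g b → b' = b)
    (p : MvPolynomial (Fin 5) k) : (phi k g p).coeff (wt g b) = coeff b p := by
  induction p using MvPolynomial.induction_on' with
  | monomial u c =>
    rw [phi_mon, Polynomial.coeff_monomial, coeff_monomial]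
    by_cases h : u = b
    · simp [h]
    · rw [if_neg h, if_neg fun h1 => h (hb u h1)]
  | add p q hp hq => rw [map_add, Polynomial.coeff_add, coeff_add, hp, hq]

theorem coeff_mul_ker {g : Fin 5 → ℕ} {u v : Mo} (h1 : ∀ w, wt g w = wt g u → w = u ∨ w = v)
    (h2 : ∀ x, u x = 0 ∨ v x = 0) (q : MvPolynomial (Fin 5) k) {p : MvPolynomial (Fin 5) k}
    (hp : p ∈ RingHom.ker (phi k g)) : coeff u (q * p) = coeff 0 q * coeff u p := by
  rw [coeff_mul, Finset.sum_eq_single (0, u)]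
  · rintro ⟨a, b⟩ hab hne
    have e : a + b = u := Finset.mem_antidiagonal.mp hab
    have ha : a ≠ 0 := by
      rintro rfl
      exact hne (by rw [← e, zero_add])
    obtain ⟨x, hx⟩ := ex_pos ha
    have : coeff b p = 0 := by
      rw [← coeff_unique (g := g) ?_ p, RingHom.mem_ker.mp hp, Polynomial.coeff_zero]
      intro b' hb'
      rcases h1 (a + b') (by rw [← e, wt_add, wt_add, hb']) with h | h
      · exact add_left_cancel (h.trans e.symm)
      · have := h2 x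
        rw [← e, ← h, Finsupp.add_apply, Finsupp.add_apply] at this
        omega
    rw [this, mul_zero]
  · intro h
    exact absurd (Finset.mem_antidiagonal.mpr (zero_add u)) h

theorem lower_gen {g : Fin 5 → ℕ} {n : ℕ} (U V : Fin n → Mo) (h0 : ∀ i, wt g (U i) = wt g (V i))
    (h1 : ∀ i w, wt g w = wt g (U i) → w = U i ∨ w = V i) (h2 : ∀ i x, U i x = 0 ∨ V i x = 0)
    (h3 : ∀ i j, V i ≠ U j) (h4 : ∀ i j, U i = U j → i = j) :
    (n : Cardinal) ≤ (RingHom.ker (phi k g)).spanRank := by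
  obtain ⟨s, hs, e⟩ := Submodule.exists_span_set_card_eq_spanRank (RingHom.ker (phi k g))
  let L : MvPolynomial (Fin 5) k →ₗ[k] (Fin n → k) := LinearMap.pi fun i => lcoeff k (U i)
  have h5 : ∀ p ∈ RingHom.ker (phi k g), L p ∈ Submodule.span k (L '' s) := by
    intro p hp
    rw [← e] at hp
    induction hp using Submodule.span_induction with
    | mem x hx => exact Submodule.subset_span ⟨x, hx, rfl⟩
    | zero => rw [map_zero]; exact zero_mem _
    | add x y _ _ hx hy => rw [map_add]; exact add_mem hx hy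
    | smul q x hx ih =>
      have : L (q • x) = coeff 0 q • L x := by
        funext i
        exact coeff_mul_ker (h1 i) (h2 i) q (e ▸ hx)
      rw [this]
      exact Submodule.smul_mem _ _ ih
  have h6 : Submodule.span k (L '' s) = ⊤ := by
    rw [eq_top_iff, ← (Pi.basisFun k (Fin n)).span_eq, Submodule.span_le]
    rintro _ ⟨i, rfl⟩
    suffices e2 : Pi.basisFun k (Fin n) i = L (bi k (U i) (V i)) from e2 ▸ h5 _ (bi_mem (h0 i))
    funext j
    change _ = coeff (U j) (bi k (U i) (V i))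
    rw [bi, coeff_sub, coeff_monomial, coeff_monomial, if_neg (h3 i j), Pi.basisFun_apply]
    by_cases h : i = j
    · simp [h]
    · rw [if_neg fun h7 => h (h4 i j h7), Pi.single_eq_of_ne (Ne.symm h), sub_zero]
  have h7 := rank_span_le (R := k) (L '' s)
  rw [h6, rank_top, rank_fin_fun] at h7
  exact h7.trans (hs ▸ Cardinal.mk_image_le)

def g0 : Fin 5 → ℕ := ![19, 21, 22, 26, 27]

def U0 : Fin 13 → Fin 5 → ℕ :=
  ![![0, 0, 1, 1, 0], ![0, 3, 0, 0, 0], ![0, 2, 1, 0, 0], ![0, 1, 2, 0, 0], ![0, 0, 3, 0, 0],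
    ![0, 2, 0, 1, 0], ![0, 0, 2, 0, 1], ![0, 1, 0, 2, 0], ![0, 0, 1, 0, 2], ![0, 0, 0, 3, 0],
    ![0, 0, 0, 2, 1], ![0, 0, 0, 1, 2], ![0, 0, 0, 0, 3]]

def V0 : Fin 13 → Fin 5 → ℕ :=
  ![![0, 1, 0, 0, 1], ![1, 0, 2, 0, 0], ![2, 0, 0, 1, 0], ![2, 0, 0, 0, 1], ![1, 1, 0, 1, 0],
    ![1, 0, 1, 0, 1], ![1, 0, 0, 2, 0], ![1, 0, 0, 0, 2], ![4, 0, 0, 0, 0], ![3, 1, 0, 0, 0],
    ![3, 0, 1, 0, 0], ![2, 2, 0, 0, 0], ![2, 1, 1, 0, 0]]

def w0 (u : Fin 5 → ℕ) : ℕ := u 0 * 19 + u 1 * 21 + u 2 * 22 + u 3 * 26 + u 4 * 27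

theorem wt0 (u : Mo) : wt g0 u = w0 u := wt_eq u

theorem fact0 : ∀ i, w0 (U0 i) ≤ 81 ∧ w0 (U0 i) = w0 (V0 i) ∧ (∀ x, U0 i x = 0 ∨ V0 i x = 0) ∧
    (∀ j, V0 i ≠ U0 j) ∧ (∀ j, U0 i = U0 j → i = j) := by
  decide +kernel

def q1 (i : Fin 13) (a b c d e : ℕ) : Prop :=
  a * 19 + b * 21 + c * 22 + d * 26 + e * 27 = w0 (U0 i) →
    ![a, b, c, d, e] = U0 i ∨ ![a, b, c, d, e] = V0 i

instance (i : Fin 13) (a b c d e : ℕ) : Decidable (q1 i a b c d e) := by
  unfold q1; infer_instance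

theorem fact1 : ∀ i, ∀ a < 5, ∀ b < 4, ∀ c < 4, ∀ d < 4, ∀ e < 4, q1 i a b c d e := by
  decide +kernel

theorem lower (k : Type*) [Field k] : 13 ≤ (RingHom.ker (phi k g0)).spanRank := by
  have := lower_gen (k := k) (g := g0) (fun i => Finsupp.equivFunOnFinite.symm (U0 i))
    (fun i => Finsupp.equivFunOnFinite.symm (V0 i))
    (fun i => by rw [wt0, wt0]; exact (fact0 i).2.1) (fun i w hw => ?_) (fun i => (fact0 i).2.2.1)
    (fun i j h => (fact0 i).2.2.2.1 j (Finsupp.equivFunOnFinite.symm.injective h))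
    (fun i j h => (fact0 i).2.2.2.2 j (Finsupp.equivFunOnFinite.symm.injective h))
  · exact_mod_cast this
  · rw [wt0, wt0] at hw
    change w0 w = w0 (U0 i) at hw
    have h1 := (fact0 i).1
    have e : (![w 0, w 1, w 2, w 3, w 4] : Fin 5 → ℕ) = w := by
      funext x
      fin_cases x <;> rfl
    have h2 : w0 w = w 0 * 19 + w 1 * 21 + w 2 * 22 + w 3 * 26 + w 4 * 27 := rfl
    have := fact1 i (w 0) (by omega) (w 1) (by omega) (w 2) (by omega) (w 3) (by omega)
      (w 4) (by omega) hw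
    rw [e] at this
    rcases this with h | h
    · exact Or.inl (by rw [← h]; simp)
    · exact Or.inr (by rw [← h]; simp)

def ok (n : ℕ) : Prop :=
  ∃ a < 6, ∃ b < 5, ∃ c < 5, ∃ d < 4, ∃ e < 4, a * 19 + b * 21 + c * 22 + d * 26 + e * 27 = n

instance (n : ℕ) : Decidable (ok n) := by unfold ok; infer_instance

theorem fact2 : ¬ ok 77 ∧ (∀ n < 78, ok n ∨ ok (77 - n)) ∧ ∀ n < 19, ok (78 + n) := by
  decide +kernel

theorem ok_mm {n : ℕ} (h : ok n) (j : ℕ) : MM g0 (n + j * 19 : ℕ) := by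
  obtain ⟨a, -, b, -, c, -, d, -, e, -, h⟩ := h
  refine ⟨Finsupp.equivFunOnFinite.symm ![a + j, b, c, d, e], ?_⟩
  have : w0 (Finsupp.equivFunOnFinite.symm ![a + j, b, c, d, e]) =
      (a + j) * 19 + b * 21 + c * 22 + d * 26 + e * 27 := by simp [w0]
  rw [wt0, this]
  omega

theorem mm_big {s : ℤ} (h : 77 < s) : MM g0 s := by
  have := ok_mm (fact2.2.2 ((s - 78).toNat % 19) (Nat.mod_lt _ (by omega))) ((s - 78).toNat / 19)
  convert this using 1
  omega

theorem mm_77 : ¬ MM g0 77 := by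
  rintro ⟨u, hu⟩
  rw [wt0] at hu
  have h2 : w0 u = u 0 * 19 + u 1 * 21 + u 2 * 22 + u 3 * 26 + u 4 * 27 := rfl
  exact fact2.1 ⟨u 0, by omega, u 1, by omega, u 2, by omega, u 3, by omega, u 4, by omega, by omega⟩

theorem mm_sym (s : ℤ) (h : ¬ MM g0 s) : MM g0 (77 - s) := by
  by_cases h1 : s < 0
  · exact mm_big (by omega)
  · have h2 : ¬ 77 < s := fun h2 => h (mm_big h2)
    rcases fact2.2.1 s.toNat (by omega) with h3 | h3
    · refine absurd ?_ h
      convert ok_mm h3 0 using 1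
      omega
    · convert ok_mm h3 0 using 1
      omega

theorem g0_min (i : Fin 5) : g0 i ∉ AddSubmonoid.closure (g0 '' {i}ᶜ) := by
  have h0 : ∀ j, 19 ≤ g0 j ∧ g0 j ≤ 27 ∧ ∀ i, g0 j = g0 i → j = i := by decide
  have : ∀ n ∈ AddSubmonoid.closure (g0 '' {i}ᶜ), n = 0 ∨ (19 ≤ n ∧ n ≠ g0 i) := by
    intro n hn
    induction hn using AddSubmonoid.closure_induction with
    | mem x hx =>
      obtain ⟨j, hj, rfl⟩ := hx
      exact Or.inr ⟨(h0 j).1, fun h => hj ((h0 j).2.2 i h)⟩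
    | zero => exact Or.inl rfl
    | add x y _ _ hx hy =>
      have := h0 i
      omega
  intro h
  have := this _ h
  have := h0 i
  omega

end Pool.Agent.Lib.MP_1dd8f3_al
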