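import Pool.Agent.Lib.MP_1dd8f3_al.Snd3

namespace Pool.Agent.Lib.MP_1dd8f3_al

def NR (M : ℤ → Prop) (t x y z : ℤ) : Prop := ¬ M (t - x) ∧ ¬ M (t - y) ∧ ¬ M (t - z)

def Sep (M : ℤ → Prop) (s a b x y z : ℤ) : Prop := NR M (s - a) x y z ∧ NR M (s - b) x y z

def R1 (s a p : ℤ) : Prop := 1 ≤ p ∧ s = p * a

def R2 (s a b p q : ℤ) : Prop := 1 ≤ p ∧ 1 ≤ q ∧ s = p * a + q * b

def R3 (s a b c p q r : ℤ) : Prop := 1 ≤ p ∧ 1 ≤ q ∧ 0 ≤ r ∧ s = p * a + q * b + r * c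

def R0 (s a b c p q r : ℤ) : Prop := 0 ≤ p ∧ 0 ≤ q ∧ 0 ≤ r ∧ s = p * a + q * b + r * c

def O2 (p q r : ℤ) : Prop := (1 ≤ p ∨ 1 ≤ q) ∧ (1 ≤ p ∨ 1 ≤ r) ∧ (1 ≤ q ∨ 1 ≤ r)

def RG (s a b c p q r p' q' r' : ℤ) : Prop :=
  R0 s a b c p q r ∧ R0 s a b c p' q' r' ∧ O2 p q r ∧ O2 p' q' r' ∧
    (1 ≤ p ∨ 1 ≤ p') ∧ (1 ≤ q ∨ 1 ≤ q') ∧ (1 ≤ r ∨ 1 ≤ r')

def NE2 (M : ℤ → Prop) (s x y z : ℤ) : Prop := ¬ M (s - x - z) ∧ ¬ M (s - y - z)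

def NE3 (M : ℤ → Prop) (s x y z : ℤ) : Prop := ¬ M (s - x - y) ∧ ¬ M (s - x - z) ∧ ¬ M (s - y - z)

def Adj (M : ℤ → Prop) (a b x y z p q p' q' : ℤ) : Prop :=
  p < p' ∧ q' < q ∧ NR M (p' * a + q * b - a - b) x y z

def Nb (M : ℤ → Prop) (a b x y z p q p' q' u v w : ℤ) : Prop :=
  Adj M a b x y z p' q' p q ∧ R0 (p' * a + q' * b) x y z u v w ∧ (1 ≤ u ∨ 1 ≤ v ∨ 1 ≤ w) ∧
    NR M (p' * a + q' * b - a) x y z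

def XL (M : ℤ → Prop) (s c d u v : ℤ) : Prop :=
  ¬ M (s - u * c - c - d) ∧ ¬ M (s - u * c - v * d - d)

def DD (M : ℤ → Prop) (s t : ℤ) : Prop := ¬ M (s - t) ∧ ¬ M (t - s)

end Pool.Agent.Lib.MP_1dd8f3_al
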