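import Mathlib.Data.Int.LeastGreatest
import Pool.Agent.Lib.MP_1dd8f3_al.Pred

namespace Pool.Agent.Lib.MP_1dd8f3_al

variable {M : ℤ → Prop} {F a b x y z s t : ℤ}

theorem mcg (h : M s) (e : t = s) : M t := e ▸ h

theorem Ctx.s01 (c : Ctx M F a b x y z) : Ctx M F b a x y z :=
  ⟨c.p1, c.p0, c.p2, c.p3, c.p4,
    fun p q u v w h1 h2 h3 h4 h5 => mcg (c.mem q p u v w h2 h1 h3 h4 h5) (by ring),
    fun s h => by
      obtain ⟨p, q, u, v, w, h1, h2, h3, h4, h5, e⟩ := c.rep s h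
      exact ⟨q, p, u, v, w, h2, h1, h3, h4, h5, by rw [e]; ring⟩, c.nF, c.sym⟩

theorem Ctx.s12 (c : Ctx M F a b x y z) : Ctx M F a x b y z :=
  ⟨c.p0, c.p2, c.p1, c.p3, c.p4,
    fun p q u v w h1 h2 h3 h4 h5 => mcg (c.mem p u q v w h1 h3 h2 h4 h5) (by ring),
    fun s h => by
      obtain ⟨p, q, u, v, w, h1, h2, h3, h4, h5, e⟩ := c.rep s h
      exact ⟨p, u, q, v, w, h1, h3, h2, h4, h5, by rw [e]; ring⟩, c.nF, c.sym⟩

theorem Ctx.s23 (c : Ctx M F a b x y z) : Ctx M F a b y x z :=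
  ⟨c.p0, c.p1, c.p3, c.p2, c.p4,
    fun p q u v w h1 h2 h3 h4 h5 => mcg (c.mem p q v u w h1 h2 h4 h3 h5) (by ring),
    fun s h => by
      obtain ⟨p, q, u, v, w, h1, h2, h3, h4, h5, e⟩ := c.rep s h
      exact ⟨p, q, v, u, w, h1, h2, h4, h3, h5, by rw [e]; ring⟩, c.nF, c.sym⟩

theorem Ctx.s34 (c : Ctx M F a b x y z) : Ctx M F a b x z y :=
  ⟨c.p0, c.p1, c.p2, c.p4, c.p3,
    fun p q u v w h1 h2 h3 h4 h5 => mcg (c.mem p q u w v h1 h2 h3 h5 h4) (by ring),
    fun s h => by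
      obtain ⟨p, q, u, v, w, h1, h2, h3, h4, h5, e⟩ := c.rep s h
      exact ⟨p, q, u, w, v, h1, h2, h3, h5, h4, by rw [e]; ring⟩, c.nF, c.sym⟩

theorem Ctx.up (c : Ctx M F a b x y z) (h : M s) (p q u v w : ℤ) (h1 : 0 ≤ p) (h2 : 0 ≤ q)
    (h3 : 0 ≤ u) (h4 : 0 ≤ v) (h5 : 0 ≤ w) (e : t = s + (p * a + q * b + u * x + v * y + w * z)) :
    M t := by
  obtain ⟨p', q', u', v', w', i1, i2, i3, i4, i5, rfl⟩ := c.rep s h
  exact mcg (c.mem (p + p') (q + q') (u + u') (v + v') (w + w') (by omega) (by omega) (by omega)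
    (by omega) (by omega)) (by rw [e]; ring)

theorem Ctx.big (c : Ctx M F a b x y z) (h : F < s) : M s := by
  by_contra h1
  exact c.neg (by omega) (c.sym s h1)

theorem es (h : M (s - x - y)) : M (s - y - x) := mcg h (by ring)

theorem nes (h : ¬ M (s - x - y)) : ¬ M (s - y - x) := fun h1 => h (es h1)

def In (M : ℤ → Prop) (s x y z : ℤ) : Prop := M (s - x) ∨ M (s - y) ∨ M (s - z)

def Mx (M : ℤ → Prop) (s x y z : ℤ) : Prop := M (s - x - y) ∨ M (s - x - z) ∨ M (s - y - z)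

def Hx (M : ℤ → Prop) (s x y z : ℤ) : Prop :=
  (M (s - x - y) ∧ M (s - x - z)) ∨ (M (s - y - x) ∧ M (s - y - z)) ∨
    (M (s - z - x) ∧ M (s - z - y))

/-- a corner of the staircase with positive coordinates -/
def Cn (M : ℤ → Prop) (a b x y z s p q : ℤ) : Prop :=
  R2 s a b p q ∧ Sep M s a b x y z ∧ In M s x y z

theorem NR.s23 (h : NR M t x y z) : NR M t y x z := ⟨h.2.1, h.1, h.2.2⟩
theorem NR.s34 (h : NR M t x y z) : NR M t x z y := ⟨h.1, h.2.2, h.2.1⟩
theorem Sep.s01 (h : Sep M s a b x y z) : Sep M s b a x y z := ⟨h.2, h.1⟩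
theorem Sep.s23 (h : Sep M s a b x y z) : Sep M s a b y x z := ⟨h.1.s23, h.2.s23⟩
theorem Sep.s34 (h : Sep M s a b x y z) : Sep M s a b x z y := ⟨h.1.s34, h.2.s34⟩
theorem In.s23 (h : In M t x y z) : In M t y x z := by unfold In at *; tauto
theorem In.s34 (h : In M t x y z) : In M t x z y := by unfold In at *; tauto
theorem Mx.s23 (h : Mx M t x y z) : Mx M t y x z :=
  h.elim (fun h => Or.inl (es h)) fun h => Or.inr h.symm
theorem Mx.s34 (h : Mx M t x y z) : Mx M t x z y :=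
  h.elim (fun h => Or.inr (Or.inl h)) fun h => h.elim Or.inl fun h => Or.inr (Or.inr (es h))
theorem Hx.s23 (h : Hx M t x y z) : Hx M t y x z := by unfold Hx at *; tauto
theorem Hx.s34 (h : Hx M t x y z) : Hx M t x z y := by unfold Hx at *; tauto
theorem NE3.s23 (h : NE3 M t x y z) : NE3 M t y x z := ⟨nes h.1, h.2.2, h.2.1⟩
theorem NE3.s34 (h : NE3 M t x y z) : NE3 M t x z y := ⟨h.2.1, h.1, nes h.2.2⟩
theorem NE2.s23 (h : NE2 M t x y z) : NE2 M t y x z := ⟨h.2, h.1⟩
theorem R2.s01 {p q : ℤ} (h : R2 s a b p q) : R2 s b a q p := ⟨h.2.1, h.1, by rw [h.2.2]; ring⟩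
theorem R3.s23 {p q r : ℤ} (h : R3 s x y z p q r) : R3 s y x z q p r :=
  ⟨h.2.1, h.1, h.2.2.1, by rw [h.2.2.2]; ring⟩
theorem Cn.s01 {p q : ℤ} (h : Cn M a b x y z s p q) : Cn M b a x y z s q p :=
  ⟨h.1.s01, h.2.1.s01, h.2.2⟩
theorem Cn.s23 {p q : ℤ} (h : Cn M a b x y z s p q) : Cn M a b y x z s p q :=
  ⟨h.1, h.2.1.s23, h.2.2.s23⟩
theorem Cn.s34 {p q : ℤ} (h : Cn M a b x y z s p q) : Cn M a b x z y s p q :=
  ⟨h.1, h.2.1.s34, h.2.2.s34⟩
theorem Adj.s01 {p q p' q' : ℤ} (h : Adj M a b x y z p q p' q') : Adj M b a x y z q' p' q p := by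
  refine ⟨h.2.1, h.1, ?_⟩
  have e : q * b + p' * a - b - a = p' * a + q * b - a - b := by ring
  rw [e]
  exact h.2.2
theorem Adj.s23 {p q p' q' : ℤ} (h : Adj M a b x y z p q p' q') : Adj M a b y x z p q p' q' :=
  ⟨h.1, h.2.1, h.2.2.s23⟩
theorem Adj.s34 {p q p' q' : ℤ} (h : Adj M a b x y z p q p' q') : Adj M a b x z y p q p' q' :=
  ⟨h.1, h.2.1, h.2.2.s34⟩

theorem not_In (h : ¬ In M s x y z) : NR M s x y z := by unfold In at h; unfold NR; tauto

theorem In.not (h : In M s x y z) (h1 : NR M s x y z) : False := by unfold In at h; unfold NR at h1; tauto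

theorem not_Mx (h : ¬ Mx M s x y z) : NE3 M s x y z := by unfold Mx at h; unfold NE3; tauto

theorem Hx.mx (h : Hx M s x y z) : Mx M s x y z := by
  rcases h with h | h | h
  exacts [Or.inl h.1, Or.inr (Or.inr h.2), Or.inr (Or.inl (es h.1))]

theorem In.up (c : Ctx M F a b x y z) (h : In M s x y z) (p q : ℤ) (h1 : 0 ≤ p) (h2 : 0 ≤ q)
    (e : t = s + (p * a + q * b)) : In M t x y z := by
  rcases h with h | h | h
  · exact Or.inl (c.up h p q 0 0 0 h1 h2 le_rfl le_rfl le_rfl (by rw [e]; ring))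
  · exact Or.inr (Or.inl (c.up h p q 0 0 0 h1 h2 le_rfl le_rfl le_rfl (by rw [e]; ring)))
  · exact Or.inr (Or.inr (c.up h p q 0 0 0 h1 h2 le_rfl le_rfl le_rfl (by rw [e]; ring)))

theorem Mx.inn (c : Ctx M F a b x y z) (h : Mx M s x y z) : In M s x y z := by
  rcases h with h | h | h
  · exact Or.inl (c.up h 0 0 0 1 0 le_rfl le_rfl le_rfl zero_le_one le_rfl (by ring))
  · exact Or.inl (c.up h 0 0 0 0 1 le_rfl le_rfl le_rfl le_rfl zero_le_one (by ring))
  · exact Or.inr (Or.inl (c.up h 0 0 0 0 1 le_rfl le_rfl le_rfl le_rfl zero_le_one (by ring)))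

/-- a factorisation through `x` of an element with no edge from `x` to `a`, `b` -/
theorem rep_x (c : Ctx M F a b x y z) (h1 : ¬ M (s - a - x)) (h2 : ¬ M (s - b - x))
    (h : M (s - x)) : ∃ u v w, 1 ≤ u ∧ R0 s x y z u v w := by
  obtain ⟨p, q, u, v, w, i1, i2, i3, i4, i5, e⟩ := c.rep _ h
  have hp : p = 0 := by
    by_contra hp
    exact h1 (mcg (c.mem (p - 1) q u v w (by omega) i2 i3 i4 i5) (by linear_combination e))
  have hq : q = 0 := by
    by_contra hq
    exact h2 (mcg (c.mem p (q - 1) u v w i1 (by omega) i3 i4 i5) (by linear_combination e))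
  subst hp hq
  exact ⟨u + 1, v, w, by omega, by omega, i4, i5, by linear_combination e⟩

theorem exR1 (c : Ctx M F a b x y z) (h1 : Sep M s a b x y z) (h2 : NE3 M s x y z)
    (h : M (s - x)) : ∃ u, R1 s x u := by
  obtain ⟨u, v, w, i1, i2, i3, i4, e⟩ := rep_x c h1.1.1 h1.2.1 h
  have hv : v = 0 := by
    by_contra hv
    exact h2.1 (mcg (c.mem 0 0 (u - 1) (v - 1) w le_rfl le_rfl (by omega) (by omega) i4)
      (by linear_combination e))
  have hw : w = 0 := by
    by_contra hw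
    exact h2.2.1 (mcg (c.mem 0 0 (u - 1) v (w - 1) le_rfl le_rfl (by omega) i3 (by omega))
      (by linear_combination e))
  subst hv hw
  exact ⟨u, i1, by linear_combination e⟩

theorem exA (c : Ctx M F a b x y z) (h1 : Sep M s a b x y z) (h : M (s - a - b)) :
    ∃ p q, R2 s a b p q := by
  obtain ⟨p, q, u, v, w, i1, i2, i3, i4, i5, e⟩ := c.rep _ h
  have hu : u = 0 := by
    by_contra hu
    exact h1.1.1 (mcg (c.mem p (q + 1) (u - 1) v w i1 (by omega) (by omega) i4 i5)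
      (by linear_combination e))
  have hv : v = 0 := by
    by_contra hv
    exact h1.1.2.1 (mcg (c.mem p (q + 1) u (v - 1) w i1 (by omega) i3 (by omega) i5)
      (by linear_combination e))
  have hw : w = 0 := by
    by_contra hw
    exact h1.1.2.2 (mcg (c.mem p (q + 1) u v (w - 1) i1 (by omega) i3 i4 (by omega))
      (by linear_combination e))
  subst hu hv hw
  exact ⟨p + 1, q + 1, by omega, by omega, by linear_combination e⟩

theorem ex_max (c : Ctx M F a b x y z) {g : ℤ} (hg : 0 < g) (h : M (s - 1 * g)) :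
    ∃ k, 1 ≤ k ∧ M (s - k * g) ∧ ¬ M (s - (k + 1) * g) := by
  obtain ⟨k, h1, h2⟩ := Int.exists_greatest_of_bdd (P := fun k => M (s - k * g))
    ⟨max s 0, fun k hk => by
      have := c.nonneg hk
      by_contra h3
      have h4 : max s 0 < k := not_le.mp h3
      have h5 : 0 < k := lt_of_le_of_lt (le_max_right _ _) h4
      have h6 : s < k := lt_of_le_of_lt (le_max_left _ _) h4
      nlinarith⟩ ⟨1, h⟩
  exact ⟨k, h2 1 h, h1, fun h3 => by have := h2 _ h3; omega⟩

theorem exR3 (c : Ctx M F a b x y z) (h1 : Sep M s a b x y z) (h : M (s - x - y)) :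
    ∃ u v w, R3 s x y z u v w ∧ XL M s x y u v := by
  obtain ⟨u, u1, u2, u3⟩ := ex_max c (s := s - y) c.p2 (mcg h (by ring))
  obtain ⟨v, v1, v2, v3⟩ := ex_max c (s := s - u * x) c.p3 (mcg u2 (by ring))
  obtain ⟨p, q, i, j, w, i1, i2, i3, i4, i5, e⟩ := c.rep _ v2
  have hp : p = 0 := by
    by_contra hp
    exact h1.1.1 (mcg (c.mem (p - 1) q (i + u - 1) (j + v) w (by omega) i2 (by omega) (by omega) i5)
      (by linear_combination e))
  have hq : q = 0 := by
    by_contra hq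
    exact h1.2.1 (mcg (c.mem p (q - 1) (i + u - 1) (j + v) w i1 (by omega) (by omega) (by omega) i5)
      (by linear_combination e))
  have hi : i = 0 := by
    by_contra hi
    exact u3 (mcg (c.mem p q (i - 1) (j + v - 1) w i1 i2 (by omega) (by omega) i5)
      (by linear_combination e))
  have hj : j = 0 := by
    by_contra hj
    exact v3 (mcg (c.mem p q i (j - 1) w i1 i2 i3 (by omega) i5) (by linear_combination e))
  subst hp hq hi hj
  exact ⟨u, v, w, ⟨u1, v1, i5, by linear_combination e⟩, fun h => u3 (mcg h (by ring)),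
    fun h => v3 (mcg h (by ring))⟩

theorem exR3' (c : Ctx M F a b x y z) (h1 : Sep M s a b x y z) (h : M (s - x - y)) :
    ∃ u v w, R3 s x y z u v w ∧ XL M s y x v u := by
  obtain ⟨u, v, w, h2, h3⟩ := exR3 c.s23 h1.s23 (es h)
  exact ⟨v, u, w, h2.s23, h3⟩

theorem exR2 (c : Ctx M F a b x y z) (h1 : Sep M s a b x y z) (h : M (s - x - y))
    (h2 : NE2 M s x y z) : ∃ u v, R2 s x y u v ∧ XL M s x y u v := by
  obtain ⟨u, v, w, ⟨i1, i2, i3, e⟩, h3⟩ := exR3 c h1 h
  have hw : w = 0 := by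
    by_contra hw
    exact h2.1 (mcg (c.mem 0 0 (u - 1) v (w - 1) le_rfl le_rfl (by omega) (by omega) (by omega))
      (by linear_combination e))
  subst hw
  exact ⟨u, v, ⟨i1, i2, by linear_combination e⟩, h3⟩

theorem exG (c : Ctx M F a b x y z) (h1 : Sep M s a b x y z) (h : Hx M s x y z) :
    ∃ u v w u' v' w', RG s x y z u v w u' v' w' := by
  rcases h with h | h | h
  · obtain ⟨u, v, w, ⟨i1, i2, i3, e⟩, -⟩ := exR3 c h1 h.1
    obtain ⟨u', w', v', ⟨j1, j2, j3, e'⟩, -⟩ := exR3 c.s34 h1.s34 h.2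
    exact ⟨u, v, w, u', v', w', ⟨by omega, by omega, i3, e⟩,
      ⟨by omega, j3, by omega, by linear_combination e'⟩, by unfold O2; omega, by unfold O2; omega,
      by omega, by omega, by omega⟩
  · obtain ⟨u, v, w, ⟨i1, i2, i3, e⟩, -⟩ := exR3 c h1 (es h.1)
    obtain ⟨v', w', u', ⟨j1, j2, j3, e'⟩, -⟩ := exR3 c.s23.s34 h1.s23.s34 h.2
    exact ⟨u, v, w, u', v', w', ⟨by omega, by omega, i3, e⟩,
      ⟨j3, by omega, by omega, by linear_combination e'⟩, by unfold O2; omega, by unfold O2; omega,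
      by omega, by omega, by omega⟩
  · obtain ⟨u, w, v, ⟨i1, i2, i3, e⟩, -⟩ := exR3 c.s34 h1.s34 (es h.1)
    obtain ⟨v', w', u', ⟨j1, j2, j3, e'⟩, -⟩ := exR3 c.s23.s34 h1.s23.s34 (es h.2)
    exact ⟨u, v, w, u', v', w', ⟨by omega, i3, by omega, by linear_combination e⟩,
      ⟨j3, by omega, by omega, by linear_combination e'⟩, by unfold O2; omega, by unfold O2; omega,
      by omega, by omega, by omega⟩

/-- the next corner to the left -/
theorem exL (c : Ctx M F a b x y z) {p q : ℤ} (h : NR M (p * a + q * b - a) x y z) :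
    ∃ p' q', Adj M a b x y z p' q' p q ∧ Sep M (p' * a + q' * b) a b x y z ∧
      In M (p' * a + q' * b) x y z := by
  have ha := c.p0
  have hb := c.p1
  have hx := c.p2
  have hy := c.p3
  have hz := c.p4
  obtain ⟨q', q1, q2⟩ := Int.exists_least_of_bdd (P := fun k => In M (p * a + k * b - a) x y z)
    ⟨q, fun k hk => by
      by_contra h3
      exact (hk.up c 0 (q - k) le_rfl (by omega) (by ring)).not h⟩
    ⟨|F + x + a - p * a| + 1, Or.inl (c.big (by
      have := le_abs_self (F + x + a - p * a)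
      have := abs_nonneg (F + x + a - p * a)
      nlinarith))⟩
  have hq : q < q' := by
    by_contra h3
    exact (q1.up c 0 (q - q') le_rfl (by omega) (by ring)).not h
  obtain ⟨p', p1, p2⟩ := Int.exists_least_of_bdd (P := fun k => In M (k * a + q' * b) x y z)
    ⟨-|q' * b|, fun k hk => by
      have h4 : 0 ≤ k * a + q' * b := by
        rcases hk with hk | hk | hk <;>
        · have := c.nonneg hk
          omega
      have := le_abs_self (q' * b)
      have := abs_nonneg (q' * b)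
      by_contra h3
      nlinarith⟩
    ⟨p - 1, q1.up c 0 0 le_rfl le_rfl (by ring)⟩
  have hp : p' ≤ p - 1 := p2 _ (q1.up c 0 0 le_rfl le_rfl (by ring))
  have n1 : NR M (p * a + q' * b - a - b) x y z := not_In fun h3 => by
    have := q2 (q' - 1) (h3.up c 0 0 le_rfl le_rfl (by ring))
    omega
  refine ⟨p', q', ⟨by omega, hq, n1⟩, ⟨not_In fun h3 => ?_, not_In fun h3 => ?_⟩, p1⟩
  · have := p2 (p' - 1) (h3.up c 0 0 le_rfl le_rfl (by ring))
    omega
  · exact (h3.up c (p - 1 - p') 0 (by omega) le_rfl (by ring)).not n1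

theorem exN (c : Ctx M F a b x y z) {p q : ℤ} (h1 : R2 s a b p q) (h : Sep M s a b x y z) :
    ∃ p' q' u v w, Nb M a b x y z p q p' q' u v w := by
  obtain ⟨-, -, rfl⟩ := h1
  obtain ⟨p', q', h2, h3, h4⟩ := exL c h.1
  rcases h4 with h4 | h4 | h4
  · obtain ⟨u, v, w, i1, i2⟩ := rep_x c h3.1.1 h3.2.1 h4
    exact ⟨p', q', u, v, w, h2, i2, Or.inl i1, h3.1⟩
  · obtain ⟨v, u, w, i1, i2, i3, i4, e⟩ := rep_x c.s23 h3.1.2.1 h3.2.2.1 h4
    exact ⟨p', q', u, v, w, h2, ⟨i3, i2, i4, by linear_combination e⟩, Or.inr (Or.inl i1), h3.1⟩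
  · obtain ⟨w, u, v, i1, i2, i3, i4, e⟩ := rep_x c.s34.s23 h3.1.2.2 h3.2.2.2 h4
    exact ⟨p', q', u, v, w, h2, ⟨i3, i4, i2, by linear_combination e⟩, Or.inr (Or.inr i1), h3.1⟩

theorem exD1 (c : Ctx M F a b x y z) {p q : ℤ} (hs : Sep M s a b x y z) (ht : Cn M a b x y z t p q)
    (hne : s ≠ t) : ¬ M (s - t) := by
  intro h
  obtain ⟨⟨t1, t2, e⟩, -, t3⟩ := ht
  obtain ⟨i, j, u, v, w, i1, i2, i3, i4, i5, e'⟩ := c.rep _ h
  have hu : u = 0 := by
    by_contra hu
    exact hs.1.1 (mcg (c.mem (i + p - 1) (j + q) (u - 1) v w (by omega) (by omega) (by omega) i4 i5)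
      (by linear_combination e + e'))
  have hv : v = 0 := by
    by_contra hv
    exact hs.1.2.1 (mcg (c.mem (i + p - 1) (j + q) u (v - 1) w (by omega) (by omega) i3 (by omega) i5)
      (by linear_combination e + e'))
  have hw : w = 0 := by
    by_contra hw
    exact hs.1.2.2 (mcg (c.mem (i + p - 1) (j + q) u v (w - 1) (by omega) (by omega) i3 i4 (by omega))
      (by linear_combination e + e'))
  subst hu hv hw
  have hi : i = 0 := by
    by_contra hi
    exact (t3.up c (i - 1) j (by omega) i2 (by linear_combination e')).not hs.1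
  have hj : j = 0 := by
    by_contra hj
    exact (t3.up c i (j - 1) i1 (by omega) (by linear_combination e')).not hs.2
  subst hi hj
  exact hne (by linear_combination e')

theorem exD (c : Ctx M F a b x y z) {p q p' q' : ℤ} (hs : Cn M a b x y z s p q)
    (ht : Cn M a b x y z t p' q') (hne : s ≠ t) : DD M s t :=
  ⟨exD1 c hs.2.1 ht hne, exD1 c ht.2.1 hs hne.symm⟩

end Pool.Agent.Lib.MP_1dd8f3_al
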