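import Pool.Agent.Lib.MP_1dd8f3_al.Stair

namespace Pool.Agent.Lib.MP_1dd8f3_al

variable {M : ℤ → Prop} {F a b x y z s t u p q p' q' : ℤ}

theorem cn_lt (c : Ctx M F a b x y z) (hs : Cn M a b x y z s p q) (ht : Cn M a b x y z t p' q')
    (h : p < p') : q' < q := by
  by_contra h1
  exact (hs.2.2.up c (p' - 1 - p) (q' - q) (by omega) (by omega)
    (by rw [hs.1.2.2, ht.1.2.2]; ring)).not ht.2.1.1

theorem cn_eq (c : Ctx M F a b x y z) (hs : Cn M a b x y z s p q) (ht : Cn M a b x y z t p q') :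
    q = q' := by
  rcases lt_trichotomy q q' with h | h | h
  · have := cn_lt c.s01 hs.s01 ht.s01 h
    omega
  · exact h
  · have := cn_lt c.s01 ht.s01 hs.s01 h
    omega

theorem cn_eq' (c : Ctx M F a b x y z) (hs : Cn M a b x y z s p q) (ht : Cn M a b x y z t p q') :
    s = t := by
  rw [hs.1.2.2, ht.1.2.2, cn_eq c hs ht]

theorem adj_le (c : Ctx M F a b x y z) {p1 q1 : ℤ} (hj : Adj M a b x y z p q p1 q1)
    (ht : Cn M a b x y z t p' q') (h : q' < q) : p1 ≤ p' := by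
  by_contra h1
  exact (ht.2.2.up c (p1 - 1 - p') (q - 1 - q') (by omega) (by omega)
    (by rw [ht.1.2.2]; ring)).not hj.2.2

theorem nextR (c : Ctx M F a b x y z) (hs : Cn M a b x y z s p q) (ht : Cn M a b x y z t p' q')
    (h : p < p') : ∃ s1 p1 q1, Cn M a b x y z s1 p1 q1 ∧ Adj M a b x y z p q p1 q1 ∧ p1 ≤ p' := by
  have h1 := hs.2.1.2
  rw [hs.s01.1.2.2] at h1
  obtain ⟨q1, p1, h2, h3, h4⟩ := exL c.s01 h1
  have h5 := adj_le c h2.s01 ht (cn_lt c hs ht h)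
  have h6 : q' ≤ q1 := by
    by_contra h6
    exact (h4.up c (p' - p1) (q' - 1 - q1) (by omega) (by omega)
      (by rw [ht.1.2.2]; ring)).not ht.2.1.2
  have := hs.1.1
  have := ht.1.2.1
  have := h2.2.1
  exact ⟨_, p1, q1, Cn.s01 ⟨⟨by omega, by omega, rfl⟩, h3, h4⟩, h2.s01, h5⟩

theorem W0 (c : Ctx M F a b x y z) {p0 : ℤ}
    (H : ∀ u v pu qu pv qv, Cn M a b x y z u pu qu → Cn M a b x y z v pv qv → p0 ≤ pu → pu < pv →
      pv ≤ p' → u ≠ v) (h0 : p0 ≤ p) (hs : Cn M a b x y z s p q) (ms : Mx M s x y z)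
    (ht : Cn M a b x y z t p' q') (mt : Mx M t x y z) (h : p < p') :
    ∃ s1 p1 q1, Cn M a b x y z s1 p1 q1 ∧ Adj M a b x y z p q p1 q1 ∧ p1 ≤ p' ∧ Mx M s1 x y z := by
  have k : ∀ {v pv qv}, Cn M a b x y z v pv qv → pv ≤ p' → ¬ Mx M v x y z → pv < p' := by
    intro v pv qv hv h1 h2
    rcases h1.lt_or_eq with h1 | rfl
    · exact h1
    · exact absurd (cn_eq' c hv ht ▸ mt) h2
  obtain ⟨s1, p1, q1, c1, j1, l1⟩ := nextR c hs ht h
  by_cases m1 : Mx M s1 x y z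
  · exact ⟨s1, p1, q1, c1, j1, l1, m1⟩
  exfalso
  obtain ⟨s2, p2, q2, c2, j2, l2⟩ := nextR c c1 ht (k c1 l1 m1)
  have a1 := j1.1
  have a2 := j2.1
  by_cases m2 : Mx M s2 x y z
  · exact lB1 c hs c1 c2 j1 j2 ms (not_Mx m1) m2 (H _ _ _ _ _ _ hs c2 h0 (by omega) l2)
  obtain ⟨s3, p3, q3, c3, j3, l3⟩ := nextR c c2 ht (k c2 l2 m2)
  have a3 := j3.1
  have d12 := H _ _ _ _ _ _ c1 c2 (by omega) a2 l2
  by_cases m3 : Mx M s3 x y z
  · exact lB2 c hs c1 c2 c3 j1 j2 j3 ms (not_Mx m1) (not_Mx m2) m3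
      (H _ _ _ _ _ _ hs c3 h0 (by omega) l3) d12
  · exact lB3 c hs c1 c2 c3 j1 j2 j3 ms (not_Mx m1) (not_Mx m2) (not_Mx m3) d12
      (H _ _ _ _ _ _ c1 c3 (by omega) (by omega) l3) (H _ _ _ _ _ _ c2 c3 (by omega) a3 l3)

theorem ST0 (c : Ctx M F a b x y z) (hs : Cn M a b x y z s p q) (ms : Mx M s x y z)
    (mt : Mx M t x y z) (hne : s ≠ t) (n : ℕ) : ∀ p' q', p' - p ≤ n → Cn M a b x y z t p' q' →
    p < p' → ∃ p1 q1, Cn M a b x y z t p1 q1 ∧ Adj M a b x y z p q p1 q1 := by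
  induction n with
  | zero => intro p' q' h1 _ h2; omega
  | succ n ih =>
    intro p' q' hn ht h
    by_cases H : ∀ u v pu qu pv qv, Cn M a b x y z u pu qu → Cn M a b x y z v pv qv → p ≤ pu →
        pu < pv → pv ≤ p' → u ≠ v
    · obtain ⟨s1, p1, q1, c1, j1, l1, m1⟩ := W0 c H le_rfl hs ms ht mt h
      rcases l1.lt_or_eq with l1' | rfl
      · obtain ⟨s2, p2, q2, c2, j2, l2, m2⟩ := W0 c H j1.1.le c1 m1 ht mt l1'
        have a1 := j1.1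
        have a2 := j2.1
        exact (lC c hs c1 c2 j1 j2 ms m1 m2 (H _ _ _ _ _ _ hs c1 le_rfl a1 l1)
          (H _ _ _ _ _ _ hs c2 le_rfl (by omega) l2) (H _ _ _ _ _ _ c1 c2 a1.le a2 l2)).elim
      · exact ⟨p1, q1, cn_eq' c c1 ht ▸ c1, j1⟩
    · push Not at H
      obtain ⟨u, v, pu, qu, pv, qv, cu, cv, h1, h2, h3, rfl⟩ := H
      have h4 := cn_lt c cu cv h2
      have h5 := hs.1.1
      have h6 := ht.1.2.1
      have ct : Cn M a b x y z t (p' - (pv - pu)) (q' + (qu - qv)) :=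
        ⟨⟨by omega, by omega, by linear_combination ht.1.2.2 + cu.1.2.2 - cv.1.2.2⟩, ht.2⟩
      refine ih _ _ (by omega) ct ?_
      rcases (show p ≤ p' - (pv - pu) by omega).lt_or_eq with h7 | h7
      · exact h7
      · exact absurd (cn_eq' c hs (h7 ▸ ct)) hne

/-- a mixed corner -/
def MS (M : ℤ → Prop) (s a b x y z : ℤ) : Prop :=
  M (s - a - b) ∧ Sep M s a b x y z ∧ Mx M s x y z

theorem MS.cn (c : Ctx M F a b x y z) (h : MS M s a b x y z) : ∃ p q, Cn M a b x y z s p q := by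
  obtain ⟨p, q, h1⟩ := exA c h.2.1 h.1
  exact ⟨p, q, h1, h.2.1, h.2.2.inn c⟩

theorem ST (c : Ctx M F a b x y z) (hs : MS M s a b x y z) (ht : MS M t a b x y z) (hne : s ≠ t) :
    ∃ p q p' q', Cn M a b x y z s p q ∧ Cn M a b x y z t p' q' ∧
      (Adj M a b x y z p q p' q' ∨ Adj M a b x y z p' q' p q) := by
  obtain ⟨p, q, cs⟩ := hs.cn c
  obtain ⟨p', q', ct⟩ := ht.cn c
  rcases lt_trichotomy p p' with h | rfl | h
  · obtain ⟨p1, q1, h1, h2⟩ := ST0 c cs hs.2.2 ht.2.2 hne (p' - p).toNat p' q' (by omega) ct h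
    exact ⟨_, _, _, _, cs, h1, Or.inl h2⟩
  · exact absurd (cn_eq' c cs ct) hne
  · obtain ⟨p1, q1, h1, h2⟩ := ST0 c ct ht.2.2 hs.2.2 hne.symm (p - p').toNat p q (by omega) cs h
    exact ⟨_, _, _, _, h1, ct, Or.inr h2⟩

theorem ST2' (c : Ctx M F a b x y z) {p'' q'' : ℤ} (cs : Cn M a b x y z s p q)
    (ct : Cn M a b x y z t p' q') (cu : Cn M a b x y z u p'' q'') (ms : Mx M s x y z)
    (mt : Mx M t x y z) (mu : Mx M u x y z) (h1 : s ≠ t) (h2 : s ≠ u) (h3 : t ≠ u) (l1 : p ≤ p')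
    (l2 : p ≤ p'') : False := by
  rcases l1.lt_or_eq with l1 | rfl
  · rcases l2.lt_or_eq with l2 | rfl
    · obtain ⟨p1, q1, c1, j1⟩ := ST0 c cs ms mt h1 (p' - p).toNat p' q' (by omega) ct l1
      obtain ⟨p2, q2, c2, j2⟩ := ST0 c cs ms mu h2 (p'' - p).toNat p'' q'' (by omega) cu l2
      have e : p1 = p2 := le_antisymm (adj_le c j1 c2 j2.2.1) (adj_le c j2 c1 j1.2.1)
      subst e
      exact h3 (cn_eq' c c1 c2)
    · exact h2 (cn_eq' c cs cu)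
  · exact h1 (cn_eq' c cs ct)

theorem ST2 (c : Ctx M F a b x y z) (hs : MS M s a b x y z) (ht : MS M t a b x y z)
    (hu : MS M u a b x y z) (h1 : s ≠ t) (h2 : s ≠ u) (h3 : t ≠ u) : False := by
  obtain ⟨p, q, cs⟩ := hs.cn c
  obtain ⟨p', q', ct⟩ := ht.cn c
  obtain ⟨p'', q'', cu⟩ := hu.cn c
  rcases le_total p p' with l1 | l1
  · rcases le_total p p'' with l2 | l2
    · exact ST2' c cs ct cu hs.2.2 ht.2.2 hu.2.2 h1 h2 h3 l1 l2
    · exact ST2' c cu cs ct hu.2.2 hs.2.2 ht.2.2 h2.symm h3.symm h1 l2 (l2.trans l1)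
  · rcases le_total p' p'' with l2 | l2
    · exact ST2' c ct cs cu ht.2.2 hs.2.2 hu.2.2 h1.symm h3 h2 l1 l2
    · exact ST2' c cu cs ct hu.2.2 hs.2.2 ht.2.2 h2.symm h3.symm h1 (l2.trans l1) l2

/-- the graph of `s` has exactly the two edges `ab` and `xy` -/
def IsE (M : ℤ → Prop) (s a b x y z : ℤ) : Prop :=
  M (s - a - b) ∧ Sep M s a b x y z ∧ M (s - x - y) ∧ NE2 M s x y z

/-- the graph of `s` has components `ab` and `xyz` -/
def IsH (M : ℤ → Prop) (s a b x y z : ℤ) : Prop :=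
  M (s - a - b) ∧ Sep M s a b x y z ∧ Hx M s x y z

theorem IsE.s01 (h : IsE M s a b x y z) : IsE M s b a x y z := ⟨es h.1, h.2.1.s01, h.2.2⟩
theorem IsE.s23 (h : IsE M s a b x y z) : IsE M s a b y x z :=
  ⟨h.1, h.2.1.s23, es h.2.2.1, h.2.2.2.s23⟩
theorem IsE.fl (h : IsE M s a b x y z) : IsE M s x y a b z :=
  ⟨h.2.2.1, ⟨⟨nes h.2.1.1.1, nes h.2.1.2.1, h.2.2.2.1⟩, nes h.2.1.1.2.1, nes h.2.1.2.2.1,
    h.2.2.2.2⟩, h.1, h.2.1.1.2.2, h.2.1.2.2.2⟩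
theorem IsE.ms (h : IsE M s a b x y z) : MS M s a b x y z := ⟨h.1, h.2.1, Or.inl h.2.2.1⟩
theorem IsH.s01 (h : IsH M s a b x y z) : IsH M s b a x y z := ⟨es h.1, h.2.1.s01, h.2.2⟩
theorem IsH.s23 (h : IsH M s a b x y z) : IsH M s a b y x z := ⟨h.1, h.2.1.s23, h.2.2.s23⟩
theorem IsH.s34 (h : IsH M s a b x y z) : IsH M s a b x z y := ⟨h.1, h.2.1.s34, h.2.2.s34⟩
theorem IsH.ms (h : IsH M s a b x y z) : MS M s a b x y z := ⟨h.1, h.2.1, h.2.2.mx⟩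
theorem MS.s01 (h : MS M s a b x y z) : MS M s b a x y z := ⟨es h.1, h.2.1.s01, h.2.2⟩
theorem MS.s23 (h : MS M s a b x y z) : MS M s a b y x z := ⟨h.1, h.2.1.s23, h.2.2.s23⟩
theorem MS.s34 (h : MS M s a b x y z) : MS M s a b x z y := ⟨h.1, h.2.1.s34, h.2.2.s34⟩

theorem neEE (h : IsE M s a b x y z) (h' : IsE M t a b x z y) : s ≠ t := by
  rintro rfl
  exact h'.2.2.2.1 h.2.2.1

theorem neHE (h : IsH M s a b x y z) (h' : IsE M t a b x y z) : s ≠ t := by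
  rintro rfl
  rcases h.2.2 with h1 | h1 | h1
  exacts [h'.2.2.2.1 h1.2, h'.2.2.2.2 h1.2, h'.2.2.2.1 (es h1.1)]

theorem uE (c : Ctx M F a b x y z) (h : IsE M s a b x y z) (h' : IsE M t a b x y z) : s = t := by
  by_contra hne
  obtain ⟨p, q, p', q', c1, c2, j | j⟩ := ST c h.ms h'.ms hne
  · exact k_A1 c c1 c2 j h.2.2.1 h.2.2.2 h'.2.2.1 h'.2.2.2 hne
  · exact k_A1 c c2 c1 j h'.2.2.1 h'.2.2.2 h.2.2.1 h.2.2.2 (Ne.symm hne)

theorem uH (c : Ctx M F a b x y z) (h : IsH M s a b x y z) (h' : IsH M t a b x y z) : s = t := by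
  by_contra hne
  obtain ⟨p, q, p', q', c1, c2, j | j⟩ := ST c h.ms h'.ms hne
  · exact lA2 c c1 c2 j h.2.2 h'.2.2 hne
  · exact lA2 c c2 c1 j h'.2.2 h.2.2 (Ne.symm hne)

theorem MS.type (h : MS M s a b x y z) : IsH M s a b x y z ∨ IsE M s a b x y z ∨
    IsE M s a b x z y ∨ IsE M s a b y z x := by
  obtain ⟨h1, h2, h3⟩ := h
  by_cases e1 : M (s - x - y) <;> by_cases e2 : M (s - x - z) <;> by_cases e3 : M (s - y - z)
  · exact Or.inl ⟨h1, h2, Or.inl ⟨e1, e2⟩⟩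
  · exact Or.inl ⟨h1, h2, Or.inl ⟨e1, e2⟩⟩
  · exact Or.inl ⟨h1, h2, Or.inr (Or.inl ⟨es e1, e3⟩)⟩
  · exact Or.inr (Or.inl ⟨h1, h2, e1, e2, e3⟩)
  · exact Or.inl ⟨h1, h2, Or.inr (Or.inr ⟨es e2, es e3⟩)⟩
  · exact Or.inr (Or.inr (Or.inl ⟨h1, h2.s34, e2, e1, nes e3⟩))
  · exact Or.inr (Or.inr (Or.inr ⟨h1, h2.s23.s34, e3, nes e1, nes e2⟩))
  · unfold Mx at h3
    tauto

theorem d1 (c : Ctx M F a b x y z) (h : IsH M s a b x y z) (h1 : IsE M t a b x y z)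
    (h2 : IsE M u a b x z y) : False :=
  ST2 c h.ms h1.ms h2.ms.s34 (neHE h h1) (neHE h.s34 h2) (neEE h1 h2)

theorem d2 (c : Ctx M F a b x y z) (h : IsE M s a b x y z) (h1 : IsE M t a b x z y)
    (h2 : IsE M u a b y z x) : False :=
  ST2 c h.ms h1.ms.s34 h2.ms.s34.s23 (neEE h h1) (neEE h.s23 h2) (neEE h1.s23 h2.s23)

end Pool.Agent.Lib.MP_1dd8f3_al
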