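import Pool.Agent.Lib.MP_1dd8f3_al.Cert0
import Pool.Agent.Lib.MP_1dd8f3_al.Cert1
import Pool.Agent.Lib.MP_1dd8f3_al.Cert2
import Pool.Agent.Lib.MP_1dd8f3_al.Cert3
import Pool.Agent.Lib.MP_1dd8f3_al.Cert4
import Pool.Agent.Lib.MP_1dd8f3_al.Cert5
import Pool.Agent.Lib.MP_1dd8f3_al.Cert6
import Pool.Agent.Lib.MP_1dd8f3_al.Cert7
import Pool.Agent.Lib.MP_1dd8f3_al.Pred

namespace Pool.Agent.Lib.MP_1dd8f3_al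

set_option linter.unusedVariables false

variable {M : ℤ → Prop} {F g0 g1 g2 g3 g4 : ℤ}

theorem r_A1 (c : Ctx M F g0 g1 g2 g3 g4) {sp p0 p1 p2 p3 sq q0 q1 q2 q3 : ℤ}
    (up : R2 sp g0 g1 p0 p1)
    (ep : Sep M sp g0 g1 g2 g3 g4)
    (bp : R2 sp g2 g3 p2 p3)
    (fp : NE2 M sp g2 g3 g4)
    (uq : R2 sq g0 g1 q0 q1)
    (eq : Sep M sq g0 g1 g2 g3 g4)
    (bq : R2 sq g2 g3 q2 q3)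
    (fq : NE2 M sq g2 g3 g4)
    (j01 : Adj M g0 g1 g2 g3 g4 p0 p1 q0 q1)
    (d01 : DD M sp sq)
    (xp : XL M sp g2 g3 p2 p3)
    (xq : XL M sq g2 g3 q2 q3) : False := by
  obtain ⟨ap1, ap2, rfl⟩ := up
  obtain ⟨aq1, aq2, rfl⟩ := uq
  exact full_sound t_A1 c [p0, p1, p2, p3, q0, q1, q2, q3]
    ⟨bp.2.2, bq.2.2, trivial⟩
    ⟨fp.2, fq.1, xp.1, xq.1, j01.2.2.1, j01.2.2.2.1, d01.1, trivial⟩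
    ⟨ap1, bp.1, bp.2.1, aq2, bq.1, bq.2.1, j01.1, j01.2.1, trivial⟩

theorem r_A2_22 (c : Ctx M F g0 g1 g2 g3 g4) {sp p0 p1 p2 p3 p4 pw2 pw4 pw3 sq q0 q1 q2 q3 q4 qw2 qw4 qw3 : ℤ}
    (up : R2 sp g0 g1 p0 p1)
    (ep : Sep M sp g0 g1 g2 g3 g4)
    (bp : R3 sp g2 g3 g4 p2 p3 p4)
    (cp : R3 sp g2 g4 g3 pw2 pw4 pw3)
    (uq : R2 sq g0 g1 q0 q1)
    (eq : Sep M sq g0 g1 g2 g3 g4)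
    (bq : R3 sq g2 g3 g4 q2 q3 q4)
    (cq : R3 sq g2 g4 g3 qw2 qw4 qw3)
    (j01 : Adj M g0 g1 g2 g3 g4 p0 p1 q0 q1)
    (d01 : DD M sp sq)
    (xp : XL M sp g3 g2 p3 p2)
    (xpw : XL M sp g4 g2 pw4 pw2)
    (xq : XL M sq g2 g3 q2 q3)
    (xqw : XL M sq g2 g4 qw2 qw4) : False := by
  obtain ⟨ap1, ap2, rfl⟩ := up
  obtain ⟨aq1, aq2, rfl⟩ := uq
  exact full_sound t_A2_22 c [p0, p1, p2, p3, p4, pw2, pw3, pw4, q0, q1, q2, q3, q4, qw2, qw3, qw4]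
    ⟨bp.2.2.2, cp.2.2.2, bq.2.2.2, cq.2.2.2, trivial⟩
    ⟨ep.1.1, eq.2.2.1, eq.2.2.2, xp.1, xp.2, xpw.1, xpw.2, xq.1, xqw.1, xqw.2, j01.2.2.1, j01.2.2.2.1, j01.2.2.2.2, d01.1, d01.2, trivial⟩
    ⟨ap1, bp.1, bp.2.1, bp.2.2.1, cp.1, cp.2.2.1, cp.2.1, aq2, bq.1, bq.2.1, bq.2.2.1, cq.1, cq.2.2.1, cq.2.1, j01.1, j01.2.1, trivial⟩

theorem r_A2_23 (c : Ctx M F g0 g1 g2 g3 g4) {sp p0 p1 p2 p3 p4 pw2 pw4 pw3 sq q0 q1 q3 q2 q4 qw3 qw4 qw2 : ℤ}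
    (up : R2 sp g0 g1 p0 p1)
    (ep : Sep M sp g0 g1 g2 g3 g4)
    (bp : R3 sp g2 g3 g4 p2 p3 p4)
    (cp : R3 sp g2 g4 g3 pw2 pw4 pw3)
    (uq : R2 sq g0 g1 q0 q1)
    (eq : Sep M sq g0 g1 g2 g3 g4)
    (bq : R3 sq g3 g2 g4 q3 q2 q4)
    (cq : R3 sq g3 g4 g2 qw3 qw4 qw2)
    (j01 : Adj M g0 g1 g2 g3 g4 p0 p1 q0 q1)
    (d01 : DD M sp sq)
    (xp : XL M sp g2 g3 p2 p3)
    (xpw : XL M sp g2 g4 pw2 pw4)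
    (xq : XL M sq g2 g3 q2 q3)
    (xqw : XL M sq g4 g3 qw4 qw3) : False := by
  obtain ⟨ap1, ap2, rfl⟩ := up
  obtain ⟨aq1, aq2, rfl⟩ := uq
  exact full_sound t_A2_23 c [p0, p1, p2, p3, p4, pw2, pw3, pw4, q0, q1, q2, q3, q4, qw2, qw3, qw4]
    ⟨bp.2.2.2, cp.2.2.2, bq.2.2.2, cq.2.2.2, trivial⟩
    ⟨ep.1.2.1, ep.1.2.2, eq.2.1, eq.2.2.1, xp.1, xp.2, xpw.1, xq.1, xq.2, xqw.1, j01.2.2.1, j01.2.2.2.1, j01.2.2.2.2, d01.1, d01.2, trivial⟩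
    ⟨ap1, bp.1, bp.2.1, bp.2.2.1, cp.1, cp.2.2.1, cp.2.1, aq2, bq.2.1, bq.1, bq.2.2.1, cq.2.2.1, cq.1, cq.2.1, j01.1, j01.2.1, trivial⟩

theorem r_A3 (c : Ctx M F g0 g1 g2 g3 g4) {sp p0 p1 p2 sq q0 q1 q2 : ℤ}
    (up : R2 sp g0 g1 p0 p1)
    (ep : Sep M sp g0 g1 g2 g3 g4)
    (bp : R1 sp g2 p2)
    (fp : NE3 M sp g2 g3 g4)
    (uq : R2 sq g0 g1 q0 q1)
    (eq : Sep M sq g0 g1 g2 g3 g4)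
    (bq : R1 sq g2 q2)
    (fq : NE3 M sq g2 g3 g4)
    (d01 : DD M sp sq) : False := by
  obtain ⟨ap1, ap2, rfl⟩ := up
  obtain ⟨aq1, aq2, rfl⟩ := uq
  exact full_sound t_A3 c [p0, p1, p2, q0, q1, q2]
    ⟨bp.2, bq.2, trivial⟩
    ⟨d01.1, d01.2, trivial⟩
    trivial

theorem r_B1_2323 (c : Ctx M F g0 g1 g2 g3 g4) {sp p0 p1 p2 p3 p4 sq q0 q1 q2 sr r0 r1 r2 r3 r4 : ℤ}
    (up : R2 sp g0 g1 p0 p1)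
    (ep : Sep M sp g0 g1 g2 g3 g4)
    (bp : R3 sp g2 g3 g4 p2 p3 p4)
    (uq : R2 sq g0 g1 q0 q1)
    (eq : Sep M sq g0 g1 g2 g3 g4)
    (bq : R1 sq g2 q2)
    (fq : NE3 M sq g2 g3 g4)
    (ur : R2 sr g0 g1 r0 r1)
    (er : Sep M sr g0 g1 g2 g3 g4)
    (br : R3 sr g2 g3 g4 r2 r3 r4)
    (j01 : Adj M g0 g1 g2 g3 g4 p0 p1 q0 q1)
    (j12 : Adj M g0 g1 g2 g3 g4 q0 q1 r0 r1)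
    (d02 : DD M sp sr)
    (xp : XL M sp g2 g3 p2 p3)
    (xr : XL M sr g3 g2 r3 r2) : False := by
  obtain ⟨ap1, ap2, rfl⟩ := up
  obtain ⟨aq1, aq2, rfl⟩ := uq
  obtain ⟨ar1, ar2, rfl⟩ := ur
  exact full_sound t_B1_2323 c [p0, p1, p2, p3, p4, q0, q1, q2, r0, r1, r2, r3, r4]
    ⟨bp.2.2.2, bq.2, br.2.2.2, trivial⟩
    ⟨ep.1.1, ep.1.2.1, ep.1.2.2, eq.2.1, fq.1, fq.2.1, er.1.2.1, er.2.1, er.2.2.1, er.2.2.2, xp.2, xr.1, j01.2.2.1, j01.2.2.2.1, j01.2.2.2.2, j12.2.2.1, j12.2.2.2.1, j12.2.2.2.2, d02.1, d02.2, trivial⟩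
    ⟨ap1, bp.1, bp.2.1, bp.2.2.1, aq1, aq2, ar2, br.1, br.2.1, br.2.2.1, j01.1, j01.2.1, j12.1, j12.2.1, trivial⟩

theorem r_B1_2324 (c : Ctx M F g0 g1 g2 g3 g4) {sp p0 p1 p2 p3 p4 sq q0 q1 q2 sr r0 r1 r2 r4 r3 : ℤ}
    (up : R2 sp g0 g1 p0 p1)
    (ep : Sep M sp g0 g1 g2 g3 g4)
    (bp : R3 sp g2 g3 g4 p2 p3 p4)
    (uq : R2 sq g0 g1 q0 q1)
    (eq : Sep M sq g0 g1 g2 g3 g4)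
    (bq : R1 sq g2 q2)
    (fq : NE3 M sq g2 g3 g4)
    (ur : R2 sr g0 g1 r0 r1)
    (er : Sep M sr g0 g1 g2 g3 g4)
    (br : R3 sr g2 g4 g3 r2 r4 r3)
    (j01 : Adj M g0 g1 g2 g3 g4 p0 p1 q0 q1)
    (j12 : Adj M g0 g1 g2 g3 g4 q0 q1 r0 r1)
    (d02 : DD M sp sr)
    (xp : XL M sp g2 g3 p2 p3)
    (xr : XL M sr g4 g2 r4 r2) : False := by
  obtain ⟨ap1, ap2, rfl⟩ := up
  obtain ⟨aq1, aq2, rfl⟩ := uq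
  obtain ⟨ar1, ar2, rfl⟩ := ur
  exact full_sound t_B1_2324 c [p0, p1, p2, p3, p4, q0, q1, q2, r0, r1, r2, r3, r4]
    ⟨bp.2.2.2, bq.2, br.2.2.2, trivial⟩
    ⟨ep.1.1, ep.1.2.1, ep.1.2.2, ep.2.2.1, fq.1, fq.2.1, er.1.1, er.1.2.2, er.2.1, er.2.2.1, er.2.2.2, xp.1, xp.2, xr.1, j01.2.2.1, j01.2.2.2.1, j01.2.2.2.2, j12.2.2.1, j12.2.2.2.1, j12.2.2.2.2, d02.2, trivial⟩
    ⟨ap1, bp.1, bp.2.1, bp.2.2.1, aq1, aq2, ar2, br.1, br.2.2.1, br.2.1, j01.1, j01.2.1, j12.1, j12.2.1, trivial⟩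

theorem r_B1_2334 (c : Ctx M F g0 g1 g2 g3 g4) {sp p0 p1 p2 p3 p4 sq q0 q1 q2 sr r0 r1 r3 r4 r2 : ℤ}
    (up : R2 sp g0 g1 p0 p1)
    (ep : Sep M sp g0 g1 g2 g3 g4)
    (bp : R3 sp g2 g3 g4 p2 p3 p4)
    (uq : R2 sq g0 g1 q0 q1)
    (eq : Sep M sq g0 g1 g2 g3 g4)
    (bq : R1 sq g2 q2)
    (fq : NE3 M sq g2 g3 g4)
    (ur : R2 sr g0 g1 r0 r1)
    (er : Sep M sr g0 g1 g2 g3 g4)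
    (br : R3 sr g3 g4 g2 r3 r4 r2)
    (j01 : Adj M g0 g1 g2 g3 g4 p0 p1 q0 q1)
    (j12 : Adj M g0 g1 g2 g3 g4 q0 q1 r0 r1)
    (d02 : DD M sp sr)
    (xp : XL M sp g2 g3 p2 p3)
    (xr : XL M sr g3 g4 r3 r4) : False := by
  obtain ⟨ap1, ap2, rfl⟩ := up
  obtain ⟨aq1, aq2, rfl⟩ := uq
  obtain ⟨ar1, ar2, rfl⟩ := ur
  exact full_sound t_B1_2334 c [p0, p1, p2, p3, p4, q0, q1, q2, r0, r1, r2, r3, r4]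
    ⟨bp.2.2.2, bq.2, br.2.2.2, trivial⟩
    ⟨ep.1.1, ep.1.2.1, ep.1.2.2, ep.2.1, ep.2.2.1, ep.2.2.2, eq.2.2.1, fq.1, fq.2.2, er.2.1, er.2.2.1, er.2.2.2, xp.2, xr.1, j01.2.2.1, j01.2.2.2.1, j01.2.2.2.2, j12.2.2.1, j12.2.2.2.1, j12.2.2.2.2, d02.1, trivial⟩
    ⟨ap1, bp.1, bp.2.1, bp.2.2.1, aq1, aq2, ar2, br.2.2.1, br.1, br.2.1, j01.1, j01.2.1, j12.1, j12.2.1, trivial⟩

theorem r_B1_3434 (c : Ctx M F g0 g1 g2 g3 g4) {sp p0 p1 p3 p4 p2 sq q0 q1 q2 sr r0 r1 r3 r4 r2 : ℤ}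
    (up : R2 sp g0 g1 p0 p1)
    (ep : Sep M sp g0 g1 g2 g3 g4)
    (bp : R3 sp g3 g4 g2 p3 p4 p2)
    (uq : R2 sq g0 g1 q0 q1)
    (eq : Sep M sq g0 g1 g2 g3 g4)
    (bq : R1 sq g2 q2)
    (fq : NE3 M sq g2 g3 g4)
    (ur : R2 sr g0 g1 r0 r1)
    (er : Sep M sr g0 g1 g2 g3 g4)
    (br : R3 sr g3 g4 g2 r3 r4 r2)
    (j01 : Adj M g0 g1 g2 g3 g4 p0 p1 q0 q1)
    (j12 : Adj M g0 g1 g2 g3 g4 q0 q1 r0 r1)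
    (d02 : DD M sp sr)
    (xp : XL M sp g4 g3 p4 p3)
    (xr : XL M sr g4 g3 r4 r3) : False := by
  obtain ⟨ap1, ap2, rfl⟩ := up
  obtain ⟨aq1, aq2, rfl⟩ := uq
  obtain ⟨ar1, ar2, rfl⟩ := ur
  exact full_sound t_B1_3434 c [p0, p1, p2, p3, p4, q0, q1, q2, r0, r1, r2, r3, r4]
    ⟨bp.2.2.2, bq.2, br.2.2.2, trivial⟩
    ⟨ep.1.1, ep.1.2.2, ep.2.1, fq.1, fq.2.1, fq.2.2, er.2.1, er.2.2.1, er.2.2.2, xp.1, xr.1, j01.2.2.1, j01.2.2.2.1, j01.2.2.2.2, j12.2.2.1, j12.2.2.2.1, j12.2.2.2.2, d02.2, trivial⟩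
    ⟨ap1, bp.2.2.1, bp.1, bp.2.1, ar2, br.2.2.1, br.1, br.2.1, j01.1, j01.2.1, j12.1, j12.2.1, trivial⟩

theorem r_B2_2323 (c : Ctx M F g0 g1 g2 g3 g4) {sp p0 p1 p2 p3 p4 sq q0 q1 q2 sr r0 r1 r3 ss s0 s1 s2 s3 s4 : ℤ}
    (up : R2 sp g0 g1 p0 p1)
    (ep : Sep M sp g0 g1 g2 g3 g4)
    (bp : R3 sp g2 g3 g4 p2 p3 p4)
    (uq : R2 sq g0 g1 q0 q1)
    (eq : Sep M sq g0 g1 g2 g3 g4)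
    (bq : R1 sq g2 q2)
    (fq : NE3 M sq g2 g3 g4)
    (ur : R2 sr g0 g1 r0 r1)
    (er : Sep M sr g0 g1 g2 g3 g4)
    (br : R1 sr g3 r3)
    (fr : NE3 M sr g2 g3 g4)
    (us : R2 ss g0 g1 s0 s1)
    (es : Sep M ss g0 g1 g2 g3 g4)
    (bs : R3 ss g2 g3 g4 s2 s3 s4)
    (j01 : Adj M g0 g1 g2 g3 g4 p0 p1 q0 q1)
    (j12 : Adj M g0 g1 g2 g3 g4 q0 q1 r0 r1)
    (j23 : Adj M g0 g1 g2 g3 g4 r0 r1 s0 s1)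
    (d03 : DD M sp ss)
    (d12 : DD M sq sr)
    (xp : XL M sp g2 g3 p2 p3)
    (xs : XL M ss g2 g3 s2 s3) : False := by
  obtain ⟨ap1, ap2, rfl⟩ := up
  obtain ⟨aq1, aq2, rfl⟩ := uq
  obtain ⟨ar1, ar2, rfl⟩ := ur
  obtain ⟨as1, as2, rfl⟩ := us
  exact full_sound t_B2_2323 c [p0, p1, p2, p3, p4, q0, q1, q2, r0, r1, r3, s0, s1, s2, s3, s4]
    ⟨bp.2.2.2, bq.2, br.2, bs.2.2.2, trivial⟩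
    ⟨ep.1.2.2, ep.2.2.1, fq.2.2, fr.1, es.2.2.1, es.2.2.2, j01.2.2.1, j01.2.2.2.1, j01.2.2.2.2, j12.2.2.1, j12.2.2.2.1, j12.2.2.2.2, j23.2.2.2.1, j23.2.2.2.2, d12.2, trivial⟩
    ⟨ap1, bp.1, bp.2.1, bp.2.2.1, aq1, aq2, as2, bs.1, bs.2.1, bs.2.2.1, j01.1, j01.2.1, j12.1, j12.2.1, j23.1, j23.2.1, trivial⟩

theorem r_B2_2324 (c : Ctx M F g0 g1 g2 g3 g4) {sp p0 p1 p2 p3 p4 sq q0 q1 q2 sr r0 r1 r3 ss s0 s1 s2 s4 s3 : ℤ}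
    (up : R2 sp g0 g1 p0 p1)
    (ep : Sep M sp g0 g1 g2 g3 g4)
    (bp : R3 sp g2 g3 g4 p2 p3 p4)
    (uq : R2 sq g0 g1 q0 q1)
    (eq : Sep M sq g0 g1 g2 g3 g4)
    (bq : R1 sq g2 q2)
    (fq : NE3 M sq g2 g3 g4)
    (ur : R2 sr g0 g1 r0 r1)
    (er : Sep M sr g0 g1 g2 g3 g4)
    (br : R1 sr g3 r3)
    (fr : NE3 M sr g2 g3 g4)
    (us : R2 ss g0 g1 s0 s1)
    (es : Sep M ss g0 g1 g2 g3 g4)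
    (bs : R3 ss g2 g4 g3 s2 s4 s3)
    (j01 : Adj M g0 g1 g2 g3 g4 p0 p1 q0 q1)
    (j12 : Adj M g0 g1 g2 g3 g4 q0 q1 r0 r1)
    (j23 : Adj M g0 g1 g2 g3 g4 r0 r1 s0 s1)
    (d03 : DD M sp ss)
    (d12 : DD M sq sr)
    (xp : XL M sp g3 g2 p3 p2)
    (xs : XL M ss g4 g2 s4 s2) : False := by
  obtain ⟨ap1, ap2, rfl⟩ := up
  obtain ⟨aq1, aq2, rfl⟩ := uq
  obtain ⟨ar1, ar2, rfl⟩ := ur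
  obtain ⟨as1, as2, rfl⟩ := us
  exact full_sound t_B2_2324 c [p0, p1, p2, p3, p4, q0, q1, q2, r0, r1, r3, s0, s1, s2, s3, s4]
    ⟨bp.2.2.2, bq.2, br.2, bs.2.2.2, trivial⟩
    ⟨ep.1.1, fq.1, fr.1, fr.2.2, es.1.2.2, es.2.2.1, j01.2.2.1, j01.2.2.2.1, j01.2.2.2.2, j12.2.2.1, j23.2.2.2.1, j23.2.2.2.2, trivial⟩
    ⟨ap1, bp.1, bp.2.1, bp.2.2.1, aq1, aq2, br.1, as2, bs.1, bs.2.2.1, bs.2.1, j01.1, j01.2.1, j12.1, j12.2.1, j23.1, j23.2.1, trivial⟩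

theorem r_B2_2334 (c : Ctx M F g0 g1 g2 g3 g4) {sp p0 p1 p2 p3 p4 sq q0 q1 q2 sr r0 r1 r3 ss s0 s1 s3 s4 s2 : ℤ}
    (up : R2 sp g0 g1 p0 p1)
    (ep : Sep M sp g0 g1 g2 g3 g4)
    (bp : R3 sp g2 g3 g4 p2 p3 p4)
    (uq : R2 sq g0 g1 q0 q1)
    (eq : Sep M sq g0 g1 g2 g3 g4)
    (bq : R1 sq g2 q2)
    (fq : NE3 M sq g2 g3 g4)
    (ur : R2 sr g0 g1 r0 r1)
    (er : Sep M sr g0 g1 g2 g3 g4)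
    (br : R1 sr g3 r3)
    (fr : NE3 M sr g2 g3 g4)
    (us : R2 ss g0 g1 s0 s1)
    (es : Sep M ss g0 g1 g2 g3 g4)
    (bs : R3 ss g3 g4 g2 s3 s4 s2)
    (j01 : Adj M g0 g1 g2 g3 g4 p0 p1 q0 q1)
    (j12 : Adj M g0 g1 g2 g3 g4 q0 q1 r0 r1)
    (j23 : Adj M g0 g1 g2 g3 g4 r0 r1 s0 s1)
    (d03 : DD M sp ss)
    (d12 : DD M sq sr)
    (xp : XL M sp g2 g3 p2 p3)
    (xs : XL M ss g3 g4 s3 s4) : False := by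
  obtain ⟨ap1, ap2, rfl⟩ := up
  obtain ⟨aq1, aq2, rfl⟩ := uq
  obtain ⟨ar1, ar2, rfl⟩ := ur
  obtain ⟨as1, as2, rfl⟩ := us
  exact full_sound t_B2_2334 c [p0, p1, p2, p3, p4, q0, q1, q2, r0, r1, r3, s0, s1, s2, s3, s4]
    ⟨bp.2.2.2, bq.2, br.2, bs.2.2.2, trivial⟩
    ⟨ep.1.2.1, fq.1, fq.2.1, fr.1, fr.2.2, es.2.2.1, es.2.2.2, j01.2.2.1, j01.2.2.2.1, j01.2.2.2.2, j23.2.2.1, j23.2.2.2.1, trivial⟩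
    ⟨ap1, bp.1, bp.2.1, bp.2.2.1, aq1, aq2, ar1, ar2, as2, bs.2.2.1, bs.1, bs.2.1, j01.1, j01.2.1, j12.1, j12.2.1, j23.1, j23.2.1, trivial⟩

theorem r_B2_2424 (c : Ctx M F g0 g1 g2 g3 g4) {sp p0 p1 p2 p4 p3 sq q0 q1 q2 sr r0 r1 r3 ss s0 s1 s2 s4 s3 : ℤ}
    (up : R2 sp g0 g1 p0 p1)
    (ep : Sep M sp g0 g1 g2 g3 g4)
    (bp : R3 sp g2 g4 g3 p2 p4 p3)
    (uq : R2 sq g0 g1 q0 q1)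
    (eq : Sep M sq g0 g1 g2 g3 g4)
    (bq : R1 sq g2 q2)
    (fq : NE3 M sq g2 g3 g4)
    (ur : R2 sr g0 g1 r0 r1)
    (er : Sep M sr g0 g1 g2 g3 g4)
    (br : R1 sr g3 r3)
    (fr : NE3 M sr g2 g3 g4)
    (us : R2 ss g0 g1 s0 s1)
    (es : Sep M ss g0 g1 g2 g3 g4)
    (bs : R3 ss g2 g4 g3 s2 s4 s3)
    (j01 : Adj M g0 g1 g2 g3 g4 p0 p1 q0 q1)
    (j12 : Adj M g0 g1 g2 g3 g4 q0 q1 r0 r1)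
    (j23 : Adj M g0 g1 g2 g3 g4 r0 r1 s0 s1)
    (d03 : DD M sp ss)
    (d12 : DD M sq sr)
    (xp : XL M sp g2 g4 p2 p4)
    (xs : XL M ss g2 g4 s2 s4) : False := by
  obtain ⟨ap1, ap2, rfl⟩ := up
  obtain ⟨aq1, aq2, rfl⟩ := uq
  obtain ⟨ar1, ar2, rfl⟩ := ur
  obtain ⟨as1, as2, rfl⟩ := us
  exact full_sound t_B2_2424 c [p0, p1, p2, p3, p4, q0, q1, q2, r0, r1, r3, s0, s1, s2, s3, s4]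
    ⟨bp.2.2.2, bq.2, br.2, bs.2.2.2, trivial⟩
    ⟨ep.1.1, fq.2.1, fr.1, fr.2.2, es.1.2.2, es.2.2.1, j01.2.2.1, j01.2.2.2.1, j01.2.2.2.2, j12.2.2.1, j23.2.2.1, j23.2.2.2.1, d12.1, d12.2, trivial⟩
    ⟨ap1, bp.1, bp.2.2.1, bp.2.1, aq1, aq2, as2, bs.1, bs.2.2.1, bs.2.1, j01.1, j01.2.1, j12.1, j12.2.1, j23.1, j23.2.1, trivial⟩

theorem r_B2_2434 (c : Ctx M F g0 g1 g2 g3 g4) {sp p0 p1 p2 p4 p3 sq q0 q1 q2 sr r0 r1 r3 ss s0 s1 s3 s4 s2 : ℤ}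
    (up : R2 sp g0 g1 p0 p1)
    (ep : Sep M sp g0 g1 g2 g3 g4)
    (bp : R3 sp g2 g4 g3 p2 p4 p3)
    (uq : R2 sq g0 g1 q0 q1)
    (eq : Sep M sq g0 g1 g2 g3 g4)
    (bq : R1 sq g2 q2)
    (fq : NE3 M sq g2 g3 g4)
    (ur : R2 sr g0 g1 r0 r1)
    (er : Sep M sr g0 g1 g2 g3 g4)
    (br : R1 sr g3 r3)
    (fr : NE3 M sr g2 g3 g4)
    (us : R2 ss g0 g1 s0 s1)
    (es : Sep M ss g0 g1 g2 g3 g4)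
    (bs : R3 ss g3 g4 g2 s3 s4 s2)
    (j01 : Adj M g0 g1 g2 g3 g4 p0 p1 q0 q1)
    (j12 : Adj M g0 g1 g2 g3 g4 q0 q1 r0 r1)
    (j23 : Adj M g0 g1 g2 g3 g4 r0 r1 s0 s1)
    (d03 : DD M sp ss)
    (d12 : DD M sq sr)
    (xp : XL M sp g2 g4 p2 p4)
    (xs : XL M ss g3 g4 s3 s4) : False := by
  obtain ⟨ap1, ap2, rfl⟩ := up
  obtain ⟨aq1, aq2, rfl⟩ := uq
  obtain ⟨ar1, ar2, rfl⟩ := ur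
  obtain ⟨as1, as2, rfl⟩ := us
  exact full_sound t_B2_2434 c [p0, p1, p2, p3, p4, q0, q1, q2, r0, r1, r3, s0, s1, s2, s3, s4]
    ⟨bp.2.2.2, bq.2, br.2, bs.2.2.2, trivial⟩
    ⟨ep.1.1, ep.1.2.1, ep.1.2.2, fq.1, fr.1, fr.2.2, es.1.2.2, j01.2.2.1, j01.2.2.2.1, j01.2.2.2.2, j12.2.2.1, j23.2.2.2.1, d12.1, d12.2, trivial⟩
    ⟨ap1, bp.1, bp.2.2.1, bp.2.1, aq1, aq2, ar1, ar2, as2, bs.2.2.1, bs.1, bs.2.1, j01.1, j01.2.1, j12.1, j12.2.1, j23.1, j23.2.1, trivial⟩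

theorem r_B2_3424 (c : Ctx M F g0 g1 g2 g3 g4) {sp p0 p1 p3 p4 p2 sq q0 q1 q2 sr r0 r1 r3 ss s0 s1 s2 s4 s3 : ℤ}
    (up : R2 sp g0 g1 p0 p1)
    (ep : Sep M sp g0 g1 g2 g3 g4)
    (bp : R3 sp g3 g4 g2 p3 p4 p2)
    (uq : R2 sq g0 g1 q0 q1)
    (eq : Sep M sq g0 g1 g2 g3 g4)
    (bq : R1 sq g2 q2)
    (fq : NE3 M sq g2 g3 g4)
    (ur : R2 sr g0 g1 r0 r1)
    (er : Sep M sr g0 g1 g2 g3 g4)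
    (br : R1 sr g3 r3)
    (fr : NE3 M sr g2 g3 g4)
    (us : R2 ss g0 g1 s0 s1)
    (es : Sep M ss g0 g1 g2 g3 g4)
    (bs : R3 ss g2 g4 g3 s2 s4 s3)
    (j01 : Adj M g0 g1 g2 g3 g4 p0 p1 q0 q1)
    (j12 : Adj M g0 g1 g2 g3 g4 q0 q1 r0 r1)
    (j23 : Adj M g0 g1 g2 g3 g4 r0 r1 s0 s1)
    (d03 : DD M sp ss)
    (d12 : DD M sq sr)
    (xp : XL M sp g3 g4 p3 p4)
    (xs : XL M ss g2 g4 s2 s4) : False := by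
  obtain ⟨ap1, ap2, rfl⟩ := up
  obtain ⟨aq1, aq2, rfl⟩ := uq
  obtain ⟨ar1, ar2, rfl⟩ := ur
  obtain ⟨as1, as2, rfl⟩ := us
  exact full_sound t_B2_3424 c [p0, p1, p2, p3, p4, q0, q1, q2, r0, r1, r3, s0, s1, s2, s3, s4]
    ⟨bp.2.2.2, bq.2, br.2, bs.2.2.2, trivial⟩
    ⟨ep.1.2.1, ep.1.2.2, fq.2.2, fr.1, fr.2.1, fr.2.2, es.1.2.2, es.2.1, xs.1, j01.2.2.1, j01.2.2.2.1, j01.2.2.2.2, j12.2.2.1, j23.2.2.1, j23.2.2.2.1, j23.2.2.2.2, trivial⟩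
    ⟨ap1, bp.2.2.1, bp.1, bp.2.1, bq.1, as2, bs.1, bs.2.2.1, bs.2.1, j01.1, j01.2.1, j12.1, j12.2.1, j23.1, j23.2.1, trivial⟩

theorem r_B3_23 (c : Ctx M F g0 g1 g2 g3 g4) {sp p0 p1 p2 p3 p4 sq q0 q1 q2 sr r0 r1 r3 ss s0 s1 s4 : ℤ}
    (up : R2 sp g0 g1 p0 p1)
    (ep : Sep M sp g0 g1 g2 g3 g4)
    (bp : R3 sp g2 g3 g4 p2 p3 p4)
    (uq : R2 sq g0 g1 q0 q1)
    (eq : Sep M sq g0 g1 g2 g3 g4)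
    (bq : R1 sq g2 q2)
    (fq : NE3 M sq g2 g3 g4)
    (ur : R2 sr g0 g1 r0 r1)
    (er : Sep M sr g0 g1 g2 g3 g4)
    (br : R1 sr g3 r3)
    (fr : NE3 M sr g2 g3 g4)
    (us : R2 ss g0 g1 s0 s1)
    (es : Sep M ss g0 g1 g2 g3 g4)
    (bs : R1 ss g4 s4)
    (fs : NE3 M ss g2 g3 g4)
    (j01 : Adj M g0 g1 g2 g3 g4 p0 p1 q0 q1)
    (j12 : Adj M g0 g1 g2 g3 g4 q0 q1 r0 r1)
    (j23 : Adj M g0 g1 g2 g3 g4 r0 r1 s0 s1)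
    (d13 : DD M sq ss)
    (d12 : DD M sq sr)
    (d23 : DD M sr ss) : False := by
  obtain ⟨ap1, ap2, rfl⟩ := up
  obtain ⟨aq1, aq2, rfl⟩ := uq
  obtain ⟨ar1, ar2, rfl⟩ := ur
  obtain ⟨as1, as2, rfl⟩ := us
  exact full_sound t_B3_23 c [p0, p1, p2, p3, p4, q0, q1, q2, r0, r1, r3, s0, s1, s4]
    ⟨bp.2.2.2, bq.2, br.2, bs.2, trivial⟩
    ⟨fq.1, fr.2.1, fr.2.2, es.1.2.1, es.1.2.2, fs.1, fs.2.1, j01.2.2.1, j01.2.2.2.1, j01.2.2.2.2, j12.2.2.2.1, j23.2.2.1, d13.1, d13.2, trivial⟩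
    ⟨ap1, bp.1, bp.2.1, bp.2.2.1, bq.1, as2, j01.1, j01.2.1, j12.1, j12.2.1, j23.1, j23.2.1, trivial⟩

theorem r_B3_24 (c : Ctx M F g0 g1 g2 g3 g4) {sp p0 p1 p2 p4 p3 sq q0 q1 q2 sr r0 r1 r3 ss s0 s1 s4 : ℤ}
    (up : R2 sp g0 g1 p0 p1)
    (ep : Sep M sp g0 g1 g2 g3 g4)
    (bp : R3 sp g2 g4 g3 p2 p4 p3)
    (uq : R2 sq g0 g1 q0 q1)
    (eq : Sep M sq g0 g1 g2 g3 g4)
    (bq : R1 sq g2 q2)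
    (fq : NE3 M sq g2 g3 g4)
    (ur : R2 sr g0 g1 r0 r1)
    (er : Sep M sr g0 g1 g2 g3 g4)
    (br : R1 sr g3 r3)
    (fr : NE3 M sr g2 g3 g4)
    (us : R2 ss g0 g1 s0 s1)
    (es : Sep M ss g0 g1 g2 g3 g4)
    (bs : R1 ss g4 s4)
    (fs : NE3 M ss g2 g3 g4)
    (j01 : Adj M g0 g1 g2 g3 g4 p0 p1 q0 q1)
    (j12 : Adj M g0 g1 g2 g3 g4 q0 q1 r0 r1)
    (j23 : Adj M g0 g1 g2 g3 g4 r0 r1 s0 s1)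
    (d13 : DD M sq ss)
    (d12 : DD M sq sr)
    (d23 : DD M sr ss) : False := by
  obtain ⟨ap1, ap2, rfl⟩ := up
  obtain ⟨aq1, aq2, rfl⟩ := uq
  obtain ⟨ar1, ar2, rfl⟩ := ur
  obtain ⟨as1, as2, rfl⟩ := us
  exact full_sound t_B3_24 c [p0, p1, p2, p3, p4, q0, q1, q2, r0, r1, r3, s0, s1, s4]
    ⟨bp.2.2.2, bq.2, br.2, bs.2, trivial⟩
    ⟨ep.1.2.2, fq.2.1, fr.1, fr.2.2, es.2.2.1, fs.1, j01.2.2.1, j01.2.2.2.1, j01.2.2.2.2, j23.2.2.1, trivial⟩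
    ⟨ap1, bp.1, bp.2.2.1, bp.2.1, as2, j01.1, j01.2.1, j12.1, j12.2.1, j23.1, j23.2.1, trivial⟩

theorem r_B3_34 (c : Ctx M F g0 g1 g2 g3 g4) {sp p0 p1 p3 p4 p2 sq q0 q1 q2 sr r0 r1 r3 ss s0 s1 s4 : ℤ}
    (up : R2 sp g0 g1 p0 p1)
    (ep : Sep M sp g0 g1 g2 g3 g4)
    (bp : R3 sp g3 g4 g2 p3 p4 p2)
    (uq : R2 sq g0 g1 q0 q1)
    (eq : Sep M sq g0 g1 g2 g3 g4)
    (bq : R1 sq g2 q2)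
    (fq : NE3 M sq g2 g3 g4)
    (ur : R2 sr g0 g1 r0 r1)
    (er : Sep M sr g0 g1 g2 g3 g4)
    (br : R1 sr g3 r3)
    (fr : NE3 M sr g2 g3 g4)
    (us : R2 ss g0 g1 s0 s1)
    (es : Sep M ss g0 g1 g2 g3 g4)
    (bs : R1 ss g4 s4)
    (fs : NE3 M ss g2 g3 g4)
    (j01 : Adj M g0 g1 g2 g3 g4 p0 p1 q0 q1)
    (j12 : Adj M g0 g1 g2 g3 g4 q0 q1 r0 r1)
    (j23 : Adj M g0 g1 g2 g3 g4 r0 r1 s0 s1)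
    (d13 : DD M sq ss)
    (d12 : DD M sq sr)
    (d23 : DD M sr ss) : False := by
  obtain ⟨ap1, ap2, rfl⟩ := up
  obtain ⟨aq1, aq2, rfl⟩ := uq
  obtain ⟨ar1, ar2, rfl⟩ := ur
  obtain ⟨as1, as2, rfl⟩ := us
  exact full_sound t_B3_34 c [p0, p1, p2, p3, p4, q0, q1, q2, r0, r1, r3, s0, s1, s4]
    ⟨bp.2.2.2, bq.2, br.2, bs.2, trivial⟩
    ⟨ep.1.2.2, ep.2.2.1, eq.1.1, fq.1, fq.2.1, fr.1, fr.2.1, fr.2.2, es.2.1, es.2.2.2, fs.2.2, j01.2.2.1, j01.2.2.2.1, j01.2.2.2.2, j12.2.2.1, j12.2.2.2.1, j23.2.2.1, j23.2.2.2.1, j23.2.2.2.2, d12.1, d12.2, trivial⟩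
    ⟨ap1, bp.2.2.1, bp.1, bp.2.1, ar1, ar2, as1, as2, j01.1, j01.2.1, j12.1, j12.2.1, j23.1, j23.2.1, trivial⟩

theorem r_C_232323 (c : Ctx M F g0 g1 g2 g3 g4) {sp p0 p1 p2 p3 p4 sq q0 q1 q2 q3 q4 sr r0 r1 r2 r3 r4 : ℤ}
    (up : R2 sp g0 g1 p0 p1)
    (ep : Sep M sp g0 g1 g2 g3 g4)
    (bp : R3 sp g2 g3 g4 p2 p3 p4)
    (uq : R2 sq g0 g1 q0 q1)
    (eq : Sep M sq g0 g1 g2 g3 g4)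
    (bq : R3 sq g2 g3 g4 q2 q3 q4)
    (ur : R2 sr g0 g1 r0 r1)
    (er : Sep M sr g0 g1 g2 g3 g4)
    (br : R3 sr g2 g3 g4 r2 r3 r4)
    (j01 : Adj M g0 g1 g2 g3 g4 p0 p1 q0 q1)
    (j12 : Adj M g0 g1 g2 g3 g4 q0 q1 r0 r1)
    (d01 : DD M sp sq)
    (d12 : DD M sq sr)
    (d02 : DD M sp sr)
    (xp : XL M sp g2 g3 p2 p3)
    (xq : XL M sq g2 g3 q2 q3)
    (xr : XL M sr g2 g3 r2 r3) : False := by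
  obtain ⟨ap1, ap2, rfl⟩ := up
  obtain ⟨aq1, aq2, rfl⟩ := uq
  obtain ⟨ar1, ar2, rfl⟩ := ur
  exact full_sound t_C_232323 c [p0, p1, p2, p3, p4, q0, q1, q2, q3, q4, r0, r1, r2, r3, r4]
    ⟨bp.2.2.2, bq.2.2.2, br.2.2.2, trivial⟩
    ⟨ep.1.2.1, ep.1.2.2, eq.2.2.2, er.2.1, er.2.2.1, er.2.2.2, xp.1, xp.2, xq.1, xr.1, j01.2.2.1, j01.2.2.2.1, j01.2.2.2.2, j12.2.2.1, j12.2.2.2.1, j12.2.2.2.2, d01.1, d01.2, d12.2, d02.1, trivial⟩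
    ⟨ap1, bp.1, bp.2.1, bp.2.2.1, bq.1, bq.2.1, bq.2.2.1, ar2, br.1, br.2.1, br.2.2.1, j01.1, j01.2.1, j12.1, j12.2.1, trivial⟩

theorem r_C_232324 (c : Ctx M F g0 g1 g2 g3 g4) {sp p0 p1 p2 p3 p4 sq q0 q1 q2 q3 q4 sr r0 r1 r2 r4 r3 n00_0 n00_1 n00_2 n00_3 n00_4 n21_1 n21_0 n21_2 n21_3 n21_4 : ℤ}
    (up : R2 sp g0 g1 p0 p1)
    (ep : Sep M sp g0 g1 g2 g3 g4)
    (bp : R3 sp g2 g3 g4 p2 p3 p4)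
    (uq : R2 sq g0 g1 q0 q1)
    (eq : Sep M sq g0 g1 g2 g3 g4)
    (bq : R3 sq g2 g3 g4 q2 q3 q4)
    (ur : R2 sr g0 g1 r0 r1)
    (er : Sep M sr g0 g1 g2 g3 g4)
    (br : R3 sr g2 g4 g3 r2 r4 r3)
    (j01 : Adj M g0 g1 g2 g3 g4 p0 p1 q0 q1)
    (j12 : Adj M g0 g1 g2 g3 g4 q0 q1 r0 r1)
    (d01 : DD M sp sq)
    (d12 : DD M sq sr)
    (d02 : DD M sp sr)
    (hn00 : Nb M g0 g1 g2 g3 g4 p0 p1 n00_0 n00_1 n00_2 n00_3 n00_4)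
    (hn21 : Nb M g1 g0 g2 g3 g4 r1 r0 n21_1 n21_0 n21_2 n21_3 n21_4) : False := by
  obtain ⟨ap1, ap2, rfl⟩ := up
  obtain ⟨aq1, aq2, rfl⟩ := uq
  obtain ⟨ar1, ar2, rfl⟩ := ur
  exact full_sound t_C_232324 c [p0, p1, p2, p3, p4, q0, q1, q2, q3, q4, r0, r1, r2, r3, r4, n00_0, n00_1, n00_2, n00_3, n00_4, n21_0, n21_1, n21_2, n21_3, n21_4]
    ⟨bp.2.2.2, bq.2.2.2, br.2.2.2, hn00.2.1.2.2.2, hn21.2.1.2.2.2, trivial⟩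
    ⟨ep.1.1, ep.1.2.1, er.1.2.1, er.2.1, er.2.2.2, j01.2.2.1, j01.2.2.2.1, j01.2.2.2.2, j12.2.2.1, j12.2.2.2.1, j12.2.2.2.2, hn00.1.2.2.1, hn00.1.2.2.2.1, hn00.1.2.2.2.2, hn00.2.2.2.2.1, hn00.2.2.2.2.2, hn21.1.2.2.1, hn21.1.2.2.2.1, hn21.1.2.2.2.2, hn21.2.2.2.2.2, d01.1, d01.2, d12.1, trivial⟩
    ⟨ap1, bp.1, bp.2.1, bp.2.2.1, bq.1, bq.2.1, bq.2.2.1, ar2, br.1, br.2.2.1, br.2.1, j01.1, j01.2.1, j12.1, j12.2.1, hn00.2.1.1, hn00.2.1.2.1, hn00.2.1.2.2.1, hn00.1.1, hn00.1.2.1, hn21.2.1.1, hn21.2.1.2.1, hn21.2.1.2.2.1, hn21.1.1, hn21.1.2.1, trivial⟩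

theorem r_C_232423 (c : Ctx M F g0 g1 g2 g3 g4) {sp p0 p1 p2 p3 p4 sq q0 q1 q2 q4 q3 sr r0 r1 r2 r3 r4 : ℤ}
    (up : R2 sp g0 g1 p0 p1)
    (ep : Sep M sp g0 g1 g2 g3 g4)
    (bp : R3 sp g2 g3 g4 p2 p3 p4)
    (uq : R2 sq g0 g1 q0 q1)
    (eq : Sep M sq g0 g1 g2 g3 g4)
    (bq : R3 sq g2 g4 g3 q2 q4 q3)
    (ur : R2 sr g0 g1 r0 r1)
    (er : Sep M sr g0 g1 g2 g3 g4)
    (br : R3 sr g2 g3 g4 r2 r3 r4)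
    (j01 : Adj M g0 g1 g2 g3 g4 p0 p1 q0 q1)
    (j12 : Adj M g0 g1 g2 g3 g4 q0 q1 r0 r1)
    (d01 : DD M sp sq)
    (d12 : DD M sq sr)
    (d02 : DD M sp sr)
    (xp : XL M sp g2 g3 p2 p3)
    (xq : XL M sq g2 g4 q2 q4)
    (xr : XL M sr g2 g3 r2 r3) : False := by
  obtain ⟨ap1, ap2, rfl⟩ := up
  obtain ⟨aq1, aq2, rfl⟩ := uq
  obtain ⟨ar1, ar2, rfl⟩ := ur
  exact full_sound t_C_232423 c [p0, p1, p2, p3, p4, q0, q1, q2, q3, q4, r0, r1, r2, r3, r4]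
    ⟨bp.2.2.2, bq.2.2.2, br.2.2.2, trivial⟩
    ⟨ep.1.1, ep.1.2.1, ep.2.2.2, er.2.1, er.2.2.1, er.2.2.2, xr.1, j01.2.2.1, j01.2.2.2.1, j01.2.2.2.2, j12.2.2.1, j12.2.2.2.1, j12.2.2.2.2, d01.1, d12.1, d12.2, d02.2, trivial⟩
    ⟨ap1, bp.1, bp.2.1, bp.2.2.1, bq.1, bq.2.2.1, bq.2.1, ar2, br.1, br.2.1, br.2.2.1, j01.1, j01.2.1, j12.1, j12.2.1, trivial⟩

theorem r_C_232434 (c : Ctx M F g0 g1 g2 g3 g4) {sp p0 p1 p2 p3 p4 sq q0 q1 q2 q4 q3 sr r0 r1 r3 r4 r2 n00_0 n00_1 n00_2 n00_3 n00_4 n21_1 n21_0 n21_2 n21_3 n21_4 : ℤ}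
    (up : R2 sp g0 g1 p0 p1)
    (ep : Sep M sp g0 g1 g2 g3 g4)
    (bp : R3 sp g2 g3 g4 p2 p3 p4)
    (uq : R2 sq g0 g1 q0 q1)
    (eq : Sep M sq g0 g1 g2 g3 g4)
    (bq : R3 sq g2 g4 g3 q2 q4 q3)
    (ur : R2 sr g0 g1 r0 r1)
    (er : Sep M sr g0 g1 g2 g3 g4)
    (br : R3 sr g3 g4 g2 r3 r4 r2)
    (j01 : Adj M g0 g1 g2 g3 g4 p0 p1 q0 q1)
    (j12 : Adj M g0 g1 g2 g3 g4 q0 q1 r0 r1)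
    (d01 : DD M sp sq)
    (d12 : DD M sq sr)
    (d02 : DD M sp sr)
    (hn00 : Nb M g0 g1 g2 g3 g4 p0 p1 n00_0 n00_1 n00_2 n00_3 n00_4)
    (hn21 : Nb M g1 g0 g2 g3 g4 r1 r0 n21_1 n21_0 n21_2 n21_3 n21_4) : False := by
  obtain ⟨ap1, ap2, rfl⟩ := up
  obtain ⟨aq1, aq2, rfl⟩ := uq
  obtain ⟨ar1, ar2, rfl⟩ := ur
  exact full_sound t_C_232434 c [p0, p1, p2, p3, p4, q0, q1, q2, q3, q4, r0, r1, r2, r3, r4, n00_0, n00_1, n00_2, n00_3, n00_4, n21_0, n21_1, n21_2, n21_3, n21_4]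
    ⟨bp.2.2.2, bq.2.2.2, br.2.2.2, hn00.2.1.2.2.2, hn21.2.1.2.2.2, trivial⟩
    ⟨ep.1.1, ep.1.2.2, er.2.1, er.2.2.1, er.2.2.2, j01.2.2.1, j01.2.2.2.1, j01.2.2.2.2, j12.2.2.1, j12.2.2.2.1, j12.2.2.2.2, hn00.1.2.2.1, hn00.1.2.2.2.1, hn00.1.2.2.2.2, hn00.2.2.2.1, hn00.2.2.2.2.1, hn00.2.2.2.2.2, hn21.1.2.2.1, hn21.1.2.2.2.1, hn21.1.2.2.2.2, hn21.2.2.2.2.1, d01.1, d12.1, d12.2, d02.1, trivial⟩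
    ⟨ap1, bp.1, bp.2.1, bp.2.2.1, bq.1, bq.2.2.1, bq.2.1, ar2, br.2.2.1, br.1, br.2.1, j01.1, j01.2.1, j12.1, j12.2.1, hn00.2.1.1, hn00.2.1.2.1, hn00.2.1.2.2.1, hn00.1.1, hn00.1.2.1, hn21.2.1.1, hn21.2.1.2.1, hn21.2.1.2.2.1, hn21.1.1, hn21.1.2.1, trivial⟩

theorem r_f3 (c : Ctx M F g0 g1 g2 g3 g4) {sp p0 p1 p2 p3 p4 pw2 pw3 pw4 sq q0 q2 q1 q3 sr r0 r2 r1 r4 n00_0 n00_1 n00_2 n00_3 n00_4 : ℤ}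
    (up : R2 sp g0 g1 p0 p1)
    (ep : Sep M sp g0 g1 g2 g3 g4)
    (bp : RG sp g2 g3 g4 p2 p3 p4 pw2 pw3 pw4)
    (uq : R2 sq g0 g2 q0 q2)
    (eq : Sep M sq g0 g2 g1 g3 g4)
    (bq : R2 sq g1 g3 q1 q3)
    (fq : NE2 M sq g1 g3 g4)
    (ur : R2 sr g0 g2 r0 r2)
    (er : Sep M sr g0 g2 g1 g3 g4)
    (br : R2 sr g1 g4 r1 r4)
    (fr : NE2 M sr g1 g4 g3)
    (j12 : Adj M g0 g2 g1 g3 g4 q0 q2 r0 r2)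
    (hn00 : Nb M g0 g1 g2 g3 g4 p0 p1 n00_0 n00_1 n00_2 n00_3 n00_4) : False := by
  obtain ⟨ap1, ap2, rfl⟩ := up
  obtain ⟨aq1, aq2, rfl⟩ := uq
  obtain ⟨ar1, ar2, rfl⟩ := ur
  exact full_sound t_f3 c [p0, p1, p2, p3, p4, pw2, pw3, pw4, q0, q1, q2, q3, r0, r1, r2, r4, n00_0, n00_1, n00_2, n00_3, n00_4]
    ⟨bp.1.2.2.2, bp.2.1.2.2.2, bq.2.2, br.2.2, hn00.2.1.2.2.2, trivial⟩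
    ⟨ep.1.2.1, ep.1.2.2, ep.2.1, ep.2.2.1, ep.2.2.2, eq.1.1, eq.1.2.1, eq.1.2.2, fq.1, eq.2.2.2, fq.2, er.1.2.2, er.2.1, fr.1, er.2.2.1, er.2.2.2, fr.2, j12.2.2.1, j12.2.2.2.1, j12.2.2.2.2, hn00.1.2.2.1, hn00.1.2.2.2.1, hn00.1.2.2.2.2, hn00.2.2.2.1, hn00.2.2.2.2.1, trivial⟩
    ⟨ap1, ap2, bp.1.1, bp.1.2.1, bp.1.2.2.1, bp.2.1.1, bp.2.1.2.1, bp.2.1.2.2.1, bp.2.2.2.2.1, bp.2.2.2.2.2.1, bp.2.2.2.2.2.2, bp.2.2.1.1, bp.2.2.2.1.1, bp.2.2.1.2.1, bp.2.2.2.1.2.1, bp.2.2.1.2.2, bp.2.2.2.1.2.2, aq1, bq.1, bq.2.1, br.1, ar2, br.2.1, j12.1, j12.2.1, hn00.2.1.1, hn00.2.1.2.1, hn00.2.1.2.2.1, hn00.2.2.1, hn00.1.1, hn00.1.2.1, trivial⟩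

theorem r_f5 (c : Ctx M F g0 g1 g2 g3 g4) {sp p0 p1 p2 p3 p4 pw2 pw3 pw4 sq q0 q2 q3 q4 sr r1 r2 r3 r4 n00_0 n00_1 n00_2 n00_3 n00_4 : ℤ}
    (up : R2 sp g0 g1 p0 p1)
    (ep : Sep M sp g0 g1 g2 g3 g4)
    (bp : RG sp g2 g3 g4 p2 p3 p4 pw2 pw3 pw4)
    (uq : R2 sq g0 g2 q0 q2)
    (eq : Sep M sq g0 g2 g1 g3 g4)
    (bq : R2 sq g3 g4 q3 q4)
    (fq : NE2 M sq g3 g4 g1)
    (ur : R2 sr g1 g2 r1 r2)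
    (er : Sep M sr g1 g2 g0 g3 g4)
    (br : R2 sr g3 g4 r3 r4)
    (fr : NE2 M sr g3 g4 g0)
    (j12 : Adj M g3 g4 g0 g1 g2 q3 q4 r3 r4)
    (hn00 : Nb M g0 g1 g2 g3 g4 p0 p1 n00_0 n00_1 n00_2 n00_3 n00_4) : False := by
  obtain ⟨ap1, ap2, rfl⟩ := up
  obtain ⟨aq1, aq2, rfl⟩ := uq
  obtain ⟨ar1, ar2, rfl⟩ := ur
  exact full_sound t_f5 c [p0, p1, p2, p3, p4, pw2, pw3, pw4, q0, q2, q3, q4, r1, r2, r3, r4, n00_0, n00_1, n00_2, n00_3, n00_4]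
    ⟨bp.1.2.2.2, bp.2.1.2.2.2, bq.2.2, br.2.2, hn00.2.1.2.2.2, trivial⟩
    ⟨ep.2.1, ep.2.2.1, eq.1.1, eq.1.2.1, eq.1.2.2, eq.2.1, eq.2.2.1, eq.2.2.2, er.1.1, er.2.1, er.1.2.1, er.1.2.2, er.2.2.1, er.2.2.2, j12.2.2.1, j12.2.2.2.1, j12.2.2.2.2, hn00.1.2.2.1, hn00.1.2.2.2.1, hn00.1.2.2.2.2, hn00.2.2.2.1, hn00.2.2.2.2.1, trivial⟩
    ⟨ap1, ap2, bp.1.1, bp.1.2.1, bp.1.2.2.1, bp.2.1.1, bp.2.1.2.1, bp.2.1.2.2.1, bp.2.2.2.2.1, bp.2.2.2.2.2.1, bp.2.2.2.2.2.2, bp.2.2.1.1, bp.2.2.2.1.1, bp.2.2.1.2.1, bp.2.2.2.1.2.1, bp.2.2.1.2.2, bp.2.2.2.1.2.2, aq1, aq2, bq.1, ar1, ar2, br.2.1, j12.1, j12.2.1, hn00.2.1.1, hn00.2.1.2.1, hn00.2.1.2.2.1, hn00.2.2.1, hn00.1.1, hn00.1.2.1, trivial⟩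

theorem r_hh_00 (c : Ctx M F g0 g1 g2 g3 g4) {sp p0 p1 p2 p3 p4 pw2 pw3 pw4 sq q0 q1 q2 q3 sr r0 r3 r1 r2 r4 rw1 rw2 rw4 ss s0 s3 s2 s4 : ℤ}
    (up : R2 sp g0 g1 p0 p1)
    (ep : Sep M sp g0 g1 g2 g3 g4)
    (bp : RG sp g2 g3 g4 p2 p3 p4 pw2 pw3 pw4)
    (uq : R2 sq g0 g1 q0 q1)
    (eq : Sep M sq g0 g1 g2 g3 g4)
    (bq : R2 sq g2 g3 q2 q3)
    (fq : NE2 M sq g2 g3 g4)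
    (ur : R2 sr g0 g3 r0 r3)
    (er : Sep M sr g0 g3 g1 g2 g4)
    (br : RG sr g1 g2 g4 r1 r2 r4 rw1 rw2 rw4)
    (us : R2 ss g0 g3 s0 s3)
    (es : Sep M ss g0 g3 g1 g2 g4)
    (bs : R2 ss g2 g4 s2 s4)
    (fs : NE2 M ss g2 g4 g1)
    (j01 : Adj M g0 g1 g2 g3 g4 p0 p1 q0 q1)
    (j23 : Adj M g0 g3 g1 g2 g4 r0 r3 s0 s3) : False := by
  obtain ⟨ap1, ap2, rfl⟩ := up
  obtain ⟨aq1, aq2, rfl⟩ := uq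
  obtain ⟨ar1, ar2, rfl⟩ := ur
  obtain ⟨as1, as2, rfl⟩ := us
  exact full_sound t_hh_00 c [p0, p1, p2, p3, p4, pw2, pw3, pw4, q0, q1, q2, q3, r0, r1, r2, r3, r4, rw1, rw2, rw4, s0, s2, s3, s4]
    ⟨bp.1.2.2.2, bp.2.1.2.2.2, bq.2.2, br.1.2.2.2, br.2.1.2.2.2, bs.2.2, trivial⟩
    ⟨ep.1.2.2, ep.2.1, eq.1.2.1, fq.1, fq.2, er.1.2.1, er.1.2.2, fs.1, fs.2, es.2.2.1, es.2.2.2, j01.2.2.1, j01.2.2.2.1, j01.2.2.2.2, j23.2.2.1, j23.2.2.2.1, j23.2.2.2.2, trivial⟩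
    ⟨ap1, bp.1.1, bp.1.2.1, bp.1.2.2.1, bp.2.1.1, bp.2.1.2.1, bp.2.1.2.2.1, bp.2.2.2.2.1, bp.2.2.2.2.2.1, bp.2.2.2.2.2.2, bp.2.2.2.1.1, bp.2.2.1.2.1, aq2, bq.1, bq.2.1, ar1, br.1.1, br.1.2.1, br.1.2.2.1, br.2.1.1, br.2.1.2.1, br.2.1.2.2.1, br.2.2.2.2.1, br.2.2.2.2.2.1, br.2.2.2.2.2.2, br.2.2.1.1, br.2.2.2.1.1, br.2.2.2.1.2.1, br.2.2.1.2.2, br.2.2.2.1.2.2, bs.1, as2, bs.2.1, j01.1, j01.2.1, j23.1, j23.2.1, trivial⟩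

theorem r_hh_01 (c : Ctx M F g0 g1 g2 g3 g4) {sp p0 p1 p2 p3 p4 pw2 pw3 pw4 sq q0 q1 q2 q3 sr r0 r3 r1 r2 r4 rw1 rw2 rw4 ss s0 s3 s2 s4 : ℤ}
    (up : R2 sp g0 g1 p0 p1)
    (ep : Sep M sp g0 g1 g2 g3 g4)
    (bp : RG sp g2 g3 g4 p2 p3 p4 pw2 pw3 pw4)
    (uq : R2 sq g0 g1 q0 q1)
    (eq : Sep M sq g0 g1 g2 g3 g4)
    (bq : R2 sq g2 g3 q2 q3)
    (fq : NE2 M sq g2 g3 g4)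
    (ur : R2 sr g0 g3 r0 r3)
    (er : Sep M sr g0 g3 g1 g2 g4)
    (br : RG sr g1 g2 g4 r1 r2 r4 rw1 rw2 rw4)
    (us : R2 ss g0 g3 s0 s3)
    (es : Sep M ss g0 g3 g1 g2 g4)
    (bs : R2 ss g2 g4 s2 s4)
    (fs : NE2 M ss g2 g4 g1)
    (j01 : Adj M g0 g1 g2 g3 g4 p0 p1 q0 q1)
    (j32 : Adj M g0 g3 g1 g2 g4 s0 s3 r0 r3) : False := by
  obtain ⟨ap1, ap2, rfl⟩ := up
  obtain ⟨aq1, aq2, rfl⟩ := uq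
  obtain ⟨ar1, ar2, rfl⟩ := ur
  obtain ⟨as1, as2, rfl⟩ := us
  exact full_sound t_hh_01 c [p0, p1, p2, p3, p4, pw2, pw3, pw4, q0, q1, q2, q3, r0, r1, r2, r3, r4, rw1, rw2, rw4, s0, s2, s3, s4]
    ⟨bp.1.2.2.2, bp.2.1.2.2.2, bq.2.2, br.1.2.2.2, br.2.1.2.2.2, bs.2.2, trivial⟩
    ⟨ep.1.1, ep.1.2.2, ep.2.1, ep.2.2.1, ep.2.2.2, eq.2.2.1, fq.1, fq.2, er.2.2.2, es.1.1, es.1.2.2, fs.1, es.2.2.1, j01.2.2.1, j01.2.2.2.1, j01.2.2.2.2, j32.2.2.1, j32.2.2.2.1, j32.2.2.2.2, trivial⟩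
    ⟨ap1, bp.1.1, bp.1.2.1, bp.1.2.2.1, bp.2.1.1, bp.2.1.2.1, bp.2.1.2.2.1, bp.2.2.2.2.1, bp.2.2.2.2.2.1, bp.2.2.2.2.2.2, bp.2.2.1.1, bp.2.2.2.1.1, bp.2.2.1.2.1, aq1, aq2, bq.1, bq.2.1, br.1.1, br.1.2.1, ar2, br.1.2.2.1, br.2.1.1, br.2.1.2.1, br.2.1.2.2.1, br.2.2.2.2.1, br.2.2.2.2.2.1, br.2.2.2.2.2.2, br.2.2.2.1.2.1, br.2.2.2.1.2.2, as1, bs.1, bs.2.1, j01.1, j01.2.1, j32.1, j32.2.1, trivial⟩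

theorem r_hh_10 (c : Ctx M F g0 g1 g2 g3 g4) {sp p0 p1 p2 p3 p4 pw2 pw3 pw4 sq q0 q1 q2 q3 sr r0 r3 r1 r2 r4 rw1 rw2 rw4 ss s0 s3 s2 s4 : ℤ}
    (up : R2 sp g0 g1 p0 p1)
    (ep : Sep M sp g0 g1 g2 g3 g4)
    (bp : RG sp g2 g3 g4 p2 p3 p4 pw2 pw3 pw4)
    (uq : R2 sq g0 g1 q0 q1)
    (eq : Sep M sq g0 g1 g2 g3 g4)
    (bq : R2 sq g2 g3 q2 q3)
    (fq : NE2 M sq g2 g3 g4)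
    (ur : R2 sr g0 g3 r0 r3)
    (er : Sep M sr g0 g3 g1 g2 g4)
    (br : RG sr g1 g2 g4 r1 r2 r4 rw1 rw2 rw4)
    (us : R2 ss g0 g3 s0 s3)
    (es : Sep M ss g0 g3 g1 g2 g4)
    (bs : R2 ss g2 g4 s2 s4)
    (fs : NE2 M ss g2 g4 g1)
    (j10 : Adj M g0 g1 g2 g3 g4 q0 q1 p0 p1)
    (j23 : Adj M g0 g3 g1 g2 g4 r0 r3 s0 s3) : False := by
  obtain ⟨ap1, ap2, rfl⟩ := up
  obtain ⟨aq1, aq2, rfl⟩ := uq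
  obtain ⟨ar1, ar2, rfl⟩ := ur
  obtain ⟨as1, as2, rfl⟩ := us
  exact full_sound t_hh_10 c [p0, p1, p2, p3, p4, pw2, pw3, pw4, q0, q1, q2, q3, r0, r1, r2, r3, r4, rw1, rw2, rw4, s0, s2, s3, s4]
    ⟨bp.1.2.2.2, bp.2.1.2.2.2, bq.2.2, br.1.2.2.2, br.2.1.2.2.2, bs.2.2, trivial⟩
    ⟨ep.1.1, ep.1.2.2, ep.2.1, ep.2.2.2, eq.1.2.2, eq.2.1, fq.1, fq.2, er.1.2.1, er.1.2.2, fs.1, es.2.1, fs.2, es.2.2.1, es.2.2.2, j10.2.2.1, j10.2.2.2.1, j10.2.2.2.2, j23.2.2.1, j23.2.2.2.1, j23.2.2.2.2, trivial⟩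
    ⟨ap2, bp.1.1, bp.1.2.1, bp.1.2.2.1, bp.2.1.1, bp.2.1.2.1, bp.2.1.2.2.1, bp.2.2.2.2.1, bp.2.2.2.2.2.1, bp.2.2.2.2.2.2, bp.2.2.1.1, bp.2.2.2.1.1, bp.2.2.1.2.1, bp.2.2.2.1.2.2, aq1, bq.1, bq.2.1, ar1, br.1.1, br.1.2.1, br.1.2.2.1, br.2.1.1, br.2.1.2.1, br.2.1.2.2.1, br.2.2.2.2.1, br.2.2.2.2.2.1, br.2.2.2.2.2.2, br.2.2.1.1, bs.1, as2, bs.2.1, j10.1, j10.2.1, j23.1, j23.2.1, trivial⟩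

theorem r_hh_11 (c : Ctx M F g0 g1 g2 g3 g4) {sp p0 p1 p2 p3 p4 pw2 pw3 pw4 sq q0 q1 q2 q3 sr r0 r3 r1 r2 r4 rw1 rw2 rw4 ss s0 s3 s2 s4 : ℤ}
    (up : R2 sp g0 g1 p0 p1)
    (ep : Sep M sp g0 g1 g2 g3 g4)
    (bp : RG sp g2 g3 g4 p2 p3 p4 pw2 pw3 pw4)
    (uq : R2 sq g0 g1 q0 q1)
    (eq : Sep M sq g0 g1 g2 g3 g4)
    (bq : R2 sq g2 g3 q2 q3)
    (fq : NE2 M sq g2 g3 g4)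
    (ur : R2 sr g0 g3 r0 r3)
    (er : Sep M sr g0 g3 g1 g2 g4)
    (br : RG sr g1 g2 g4 r1 r2 r4 rw1 rw2 rw4)
    (us : R2 ss g0 g3 s0 s3)
    (es : Sep M ss g0 g3 g1 g2 g4)
    (bs : R2 ss g2 g4 s2 s4)
    (fs : NE2 M ss g2 g4 g1)
    (j10 : Adj M g0 g1 g2 g3 g4 q0 q1 p0 p1)
    (j32 : Adj M g0 g3 g1 g2 g4 s0 s3 r0 r3) : False := by
  obtain ⟨ap1, ap2, rfl⟩ := up
  obtain ⟨aq1, aq2, rfl⟩ := uq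
  obtain ⟨ar1, ar2, rfl⟩ := ur
  obtain ⟨as1, as2, rfl⟩ := us
  exact full_sound t_hh_11 c [p0, p1, p2, p3, p4, pw2, pw3, pw4, q0, q1, q2, q3, r0, r1, r2, r3, r4, rw1, rw2, rw4, s0, s2, s3, s4]
    ⟨bp.1.2.2.2, bp.2.1.2.2.2, bq.2.2, br.1.2.2.2, br.2.1.2.2.2, bs.2.2, trivial⟩
    ⟨ep.1.2.2, eq.2.1, fq.1, es.1.2.1, es.1.2.2, fs.1, j10.2.2.1, j10.2.2.2.1, j10.2.2.2.2, j32.2.2.1, j32.2.2.2.1, j32.2.2.2.2, trivial⟩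
    ⟨ap2, bp.1.1, bp.1.2.1, bp.1.2.2.1, bp.2.1.1, bp.2.1.2.1, bp.2.1.2.2.1, bp.2.2.2.2.1, bp.2.2.2.2.2.1, bp.2.2.2.2.2.2, bp.2.2.1.2.1, aq1, bq.1, bq.2.1, br.1.1, br.1.2.1, ar2, br.1.2.2.1, br.2.1.1, br.2.1.2.1, br.2.1.2.2.1, br.2.2.2.2.1, br.2.2.2.2.2.1, br.2.2.2.2.2.2, as1, bs.1, bs.2.1, j10.1, j10.2.1, j32.1, j32.2.1, trivial⟩

theorem r_f10_23 (c : Ctx M F g0 g1 g2 g3 g4) {sp p0 p1 p2 p3 sq q0 q1 q2 q4 sr r0 r2 r1 r3 ss s0 s2 s1 s4 : ℤ}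
    (up : R2 sp g0 g1 p0 p1)
    (ep : Sep M sp g0 g1 g2 g3 g4)
    (bp : R2 sp g2 g3 p2 p3)
    (fp : NE2 M sp g2 g3 g4)
    (uq : R2 sq g0 g1 q0 q1)
    (eq : Sep M sq g0 g1 g2 g3 g4)
    (bq : R2 sq g2 g4 q2 q4)
    (fq : NE2 M sq g2 g4 g3)
    (ur : R2 sr g0 g2 r0 r2)
    (er : Sep M sr g0 g2 g1 g3 g4)
    (br : R2 sr g1 g3 r1 r3)
    (fr : NE2 M sr g1 g3 g4)
    (us : R2 ss g0 g2 s0 s2)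
    (es : Sep M ss g0 g2 g1 g3 g4)
    (bs : R2 ss g1 g4 s1 s4)
    (fs : NE2 M ss g1 g4 g3)
    (j01 : Adj M g0 g1 g2 g3 g4 p0 p1 q0 q1)
    (j23 : Adj M g0 g2 g1 g3 g4 r0 r2 s0 s2) : False := by
  obtain ⟨ap1, ap2, rfl⟩ := up
  obtain ⟨aq1, aq2, rfl⟩ := uq
  obtain ⟨ar1, ar2, rfl⟩ := ur
  obtain ⟨as1, as2, rfl⟩ := us
  exact full_sound t_f10_23 c [p0, p1, p2, p3, q0, q1, q2, q4, r0, r1, r2, r3, s0, s1, s2, s4]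
    ⟨bp.2.2, bq.2.2, br.2.2, bs.2.2, trivial⟩
    ⟨ep.1.1, ep.1.2.2, ep.2.1, fp.1, eq.1.1, eq.1.2.1, eq.2.1, fq.2, er.1.2.1, es.1.2.1, fs.1, fs.2, j01.2.2.1, j01.2.2.2.1, j23.2.2.1, j23.2.2.2.1, j23.2.2.2.2, trivial⟩
    ⟨ap1, bp.1, bp.2.1, aq2, bq.1, bq.2.1, ar1, br.1, br.2.1, bs.1, as2, bs.2.1, j01.1, j01.2.1, j23.1, j23.2.1, trivial⟩

theorem r_f10_32 (c : Ctx M F g0 g1 g2 g3 g4) {sp p0 p1 p2 p3 sq q0 q1 q2 q4 sr r0 r2 r1 r3 ss s0 s2 s1 s4 : ℤ}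
    (up : R2 sp g0 g1 p0 p1)
    (ep : Sep M sp g0 g1 g2 g3 g4)
    (bp : R2 sp g2 g3 p2 p3)
    (fp : NE2 M sp g2 g3 g4)
    (uq : R2 sq g0 g1 q0 q1)
    (eq : Sep M sq g0 g1 g2 g3 g4)
    (bq : R2 sq g2 g4 q2 q4)
    (fq : NE2 M sq g2 g4 g3)
    (ur : R2 sr g0 g2 r0 r2)
    (er : Sep M sr g0 g2 g1 g3 g4)
    (br : R2 sr g1 g3 r1 r3)
    (fr : NE2 M sr g1 g3 g4)
    (us : R2 ss g0 g2 s0 s2)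
    (es : Sep M ss g0 g2 g1 g3 g4)
    (bs : R2 ss g1 g4 s1 s4)
    (fs : NE2 M ss g1 g4 g3)
    (j01 : Adj M g0 g1 g2 g3 g4 p0 p1 q0 q1)
    (j32 : Adj M g0 g2 g1 g3 g4 s0 s2 r0 r2) : False := by
  obtain ⟨ap1, ap2, rfl⟩ := up
  obtain ⟨aq1, aq2, rfl⟩ := uq
  obtain ⟨ar1, ar2, rfl⟩ := ur
  obtain ⟨as1, as2, rfl⟩ := us
  exact full_sound t_f10_32 c [p0, p1, p2, p3, q0, q1, q2, q4, r0, r1, r2, r3, s0, s1, s2, s4]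
    ⟨bp.2.2, bq.2.2, br.2.2, bs.2.2, trivial⟩
    ⟨ep.1.1, ep.1.2.1, eq.2.1, eq.2.2.2, fq.2, er.2.1, fr.1, er.2.2.1, er.2.2.2, fr.2, es.1.1, es.1.2.1, fs.1, fs.2, j01.2.2.1, j01.2.2.2.1, j01.2.2.2.2, j32.2.2.1, j32.2.2.2.1, j32.2.2.2.2, trivial⟩
    ⟨ap1, bp.1, bp.2.1, aq2, bq.1, bq.2.1, br.1, ar2, br.2.1, as1, bs.1, bs.2.1, j01.1, j01.2.1, j32.1, j32.2.1, trivial⟩

theorem r_f14_000 (c : Ctx M F g0 g1 g2 g3 g4) {sp p0 p1 p2 p4 sq q0 q1 q2 q3 sr r1 r4 r2 r3 ss s0 s3 s1 s4 st t0 t2 t1 t3 : ℤ}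
    (up : R2 sp g0 g1 p0 p1)
    (ep : Sep M sp g0 g1 g2 g3 g4)
    (bp : R2 sp g2 g4 p2 p4)
    (fp : NE2 M sp g2 g4 g3)
    (uq : R2 sq g0 g1 q0 q1)
    (eq : Sep M sq g0 g1 g2 g3 g4)
    (bq : R2 sq g2 g3 q2 q3)
    (fq : NE2 M sq g2 g3 g4)
    (ur : R2 sr g1 g4 r1 r4)
    (er : Sep M sr g1 g4 g0 g2 g3)
    (br : R2 sr g2 g3 r2 r3)
    (fr : NE2 M sr g2 g3 g0)
    (us : R2 ss g0 g3 s0 s3)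
    (es : Sep M ss g0 g3 g1 g2 g4)
    (bs : R2 ss g1 g4 s1 s4)
    (fs : NE2 M ss g1 g4 g2)
    (ut : R2 st g0 g2 t0 t2)
    (et : Sep M st g0 g2 g1 g3 g4)
    (bt : R2 st g1 g3 t1 t3)
    (ft : NE2 M st g1 g3 g4)
    (j01 : Adj M g0 g1 g2 g3 g4 p0 p1 q0 q1)
    (j12 : Adj M g2 g3 g0 g1 g4 q2 q3 r2 r3)
    (j23 : Adj M g1 g4 g0 g2 g3 r1 r4 s1 s4) : False := by
  obtain ⟨ap1, ap2, rfl⟩ := up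
  obtain ⟨aq1, aq2, rfl⟩ := uq
  obtain ⟨ar1, ar2, rfl⟩ := ur
  obtain ⟨as1, as2, rfl⟩ := us
  obtain ⟨at1, at2, rfl⟩ := ut
  exact full_sound t_f14_000 c [p0, p1, p2, p4, q0, q1, q2, q3, r1, r2, r3, r4, s0, s1, s3, s4, t0, t1, t2, t3]
    ⟨bp.2.2, bq.2.2, br.2.2, bs.2.2, bt.2.2, trivial⟩
    ⟨ep.1.1, fp.1, eq.1.1, eq.1.2.1, eq.2.1, eq.2.2.1, fq.1, fr.2, er.1.2.2, es.1.1, es.1.2.1, es.1.2.2, es.2.2.1, es.2.2.2, et.1.1, et.1.2.1, et.1.2.2, et.2.2.1, et.2.2.2, ft.2, j01.2.2.1, j01.2.2.2.1, j01.2.2.2.2, j12.2.2.1, j12.2.2.2.1, j12.2.2.2.2, j23.2.2.1, j23.2.2.2.2, trivial⟩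
    ⟨ap1, bp.1, bp.2.1, aq2, bq.1, ar1, br.2.1, ar2, as1, as2, bs.2.1, at1, bt.1, at2, bt.2.1, j01.1, j01.2.1, j12.1, j12.2.1, j23.1, j23.2.1, trivial⟩

theorem r_f14_001 (c : Ctx M F g0 g1 g2 g3 g4) {sp p0 p1 p2 p4 sq q0 q1 q2 q3 sr r1 r4 r2 r3 ss s0 s3 s1 s4 st t0 t2 t1 t3 : ℤ}
    (up : R2 sp g0 g1 p0 p1)
    (ep : Sep M sp g0 g1 g2 g3 g4)
    (bp : R2 sp g2 g4 p2 p4)
    (fp : NE2 M sp g2 g4 g3)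
    (uq : R2 sq g0 g1 q0 q1)
    (eq : Sep M sq g0 g1 g2 g3 g4)
    (bq : R2 sq g2 g3 q2 q3)
    (fq : NE2 M sq g2 g3 g4)
    (ur : R2 sr g1 g4 r1 r4)
    (er : Sep M sr g1 g4 g0 g2 g3)
    (br : R2 sr g2 g3 r2 r3)
    (fr : NE2 M sr g2 g3 g0)
    (us : R2 ss g0 g3 s0 s3)
    (es : Sep M ss g0 g3 g1 g2 g4)
    (bs : R2 ss g1 g4 s1 s4)
    (fs : NE2 M ss g1 g4 g2)
    (ut : R2 st g0 g2 t0 t2)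
    (et : Sep M st g0 g2 g1 g3 g4)
    (bt : R2 st g1 g3 t1 t3)
    (ft : NE2 M st g1 g3 g4)
    (j01 : Adj M g0 g1 g2 g3 g4 p0 p1 q0 q1)
    (j12 : Adj M g2 g3 g0 g1 g4 q2 q3 r2 r3)
    (j32 : Adj M g1 g4 g0 g2 g3 s1 s4 r1 r4) : False := by
  obtain ⟨ap1, ap2, rfl⟩ := up
  obtain ⟨aq1, aq2, rfl⟩ := uq
  obtain ⟨ar1, ar2, rfl⟩ := ur
  obtain ⟨as1, as2, rfl⟩ := us
  obtain ⟨at1, at2, rfl⟩ := ut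
  exact full_sound t_f14_001 c [p0, p1, p2, p4, q0, q1, q2, q3, r1, r2, r3, r4, s0, s1, s3, s4, t0, t1, t2, t3]
    ⟨bp.2.2, bq.2.2, br.2.2, bs.2.2, bt.2.2, trivial⟩
    ⟨eq.2.2.1, eq.2.2.2, fq.1, fq.2, er.1.2.1, er.2.2.1, es.1.2.1, es.1.2.2, es.2.1, es.2.2.1, et.1.1, et.1.2.1, et.1.2.2, et.2.1, et.2.2.1, ft.2, j01.2.2.1, j01.2.2.2.1, j01.2.2.2.2, j12.2.2.1, j12.2.2.2.1, j12.2.2.2.2, j32.2.2.1, j32.2.2.2.2, trivial⟩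
    ⟨ap1, bp.1, bp.2.1, aq2, bq.1, bq.2.1, br.2.1, ar2, as1, bs.1, as2, at1, bt.1, at2, bt.2.1, j01.1, j01.2.1, j12.1, j12.2.1, j32.1, j32.2.1, trivial⟩

theorem r_f14_010 (c : Ctx M F g0 g1 g2 g3 g4) {sp p0 p1 p2 p4 sq q0 q1 q2 q3 sr r1 r4 r2 r3 ss s0 s3 s1 s4 st t0 t2 t1 t3 : ℤ}
    (up : R2 sp g0 g1 p0 p1)
    (ep : Sep M sp g0 g1 g2 g3 g4)
    (bp : R2 sp g2 g4 p2 p4)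
    (fp : NE2 M sp g2 g4 g3)
    (uq : R2 sq g0 g1 q0 q1)
    (eq : Sep M sq g0 g1 g2 g3 g4)
    (bq : R2 sq g2 g3 q2 q3)
    (fq : NE2 M sq g2 g3 g4)
    (ur : R2 sr g1 g4 r1 r4)
    (er : Sep M sr g1 g4 g0 g2 g3)
    (br : R2 sr g2 g3 r2 r3)
    (fr : NE2 M sr g2 g3 g0)
    (us : R2 ss g0 g3 s0 s3)
    (es : Sep M ss g0 g3 g1 g2 g4)
    (bs : R2 ss g1 g4 s1 s4)
    (fs : NE2 M ss g1 g4 g2)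
    (ut : R2 st g0 g2 t0 t2)
    (et : Sep M st g0 g2 g1 g3 g4)
    (bt : R2 st g1 g3 t1 t3)
    (ft : NE2 M st g1 g3 g4)
    (j01 : Adj M g0 g1 g2 g3 g4 p0 p1 q0 q1)
    (j21 : Adj M g2 g3 g0 g1 g4 r2 r3 q2 q3)
    (j23 : Adj M g1 g4 g0 g2 g3 r1 r4 s1 s4) : False := by
  obtain ⟨ap1, ap2, rfl⟩ := up
  obtain ⟨aq1, aq2, rfl⟩ := uq
  obtain ⟨ar1, ar2, rfl⟩ := ur
  obtain ⟨as1, as2, rfl⟩ := us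
  obtain ⟨at1, at2, rfl⟩ := ut
  exact full_sound t_f14_010 c [p0, p1, p2, p4, q0, q1, q2, q3, r1, r2, r3, r4, s0, s1, s3, s4, t0, t1, t2, t3]
    ⟨bp.2.2, bq.2.2, br.2.2, bs.2.2, bt.2.2, trivial⟩
    ⟨ep.1.1, ep.1.2.1, ep.1.2.2, fp.2, eq.2.1, eq.2.2.1, er.1.2.1, es.1.2.1, es.2.2.1, fs.2, et.1.2.1, ft.1, et.2.2.1, et.2.2.2, j01.2.2.1, j01.2.2.2.1, j01.2.2.2.2, j21.2.2.1, j21.2.2.2.1, j21.2.2.2.2, j23.2.2.1, j23.2.2.2.1, j23.2.2.2.2, trivial⟩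
    ⟨ap1, bp.1, bp.2.1, aq1, aq2, bq.2.1, ar1, br.1, ar2, as1, as2, bs.2.1, at1, bt.1, at2, bt.2.1, j01.1, j01.2.1, j21.1, j21.2.1, j23.1, j23.2.1, trivial⟩

theorem r_f14_011 (c : Ctx M F g0 g1 g2 g3 g4) {sp p0 p1 p2 p4 sq q0 q1 q2 q3 sr r1 r4 r2 r3 ss s0 s3 s1 s4 st t0 t2 t1 t3 : ℤ}
    (up : R2 sp g0 g1 p0 p1)
    (ep : Sep M sp g0 g1 g2 g3 g4)
    (bp : R2 sp g2 g4 p2 p4)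
    (fp : NE2 M sp g2 g4 g3)
    (uq : R2 sq g0 g1 q0 q1)
    (eq : Sep M sq g0 g1 g2 g3 g4)
    (bq : R2 sq g2 g3 q2 q3)
    (fq : NE2 M sq g2 g3 g4)
    (ur : R2 sr g1 g4 r1 r4)
    (er : Sep M sr g1 g4 g0 g2 g3)
    (br : R2 sr g2 g3 r2 r3)
    (fr : NE2 M sr g2 g3 g0)
    (us : R2 ss g0 g3 s0 s3)
    (es : Sep M ss g0 g3 g1 g2 g4)
    (bs : R2 ss g1 g4 s1 s4)
    (fs : NE2 M ss g1 g4 g2)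
    (ut : R2 st g0 g2 t0 t2)
    (et : Sep M st g0 g2 g1 g3 g4)
    (bt : R2 st g1 g3 t1 t3)
    (ft : NE2 M st g1 g3 g4)
    (j01 : Adj M g0 g1 g2 g3 g4 p0 p1 q0 q1)
    (j21 : Adj M g2 g3 g0 g1 g4 r2 r3 q2 q3)
    (j32 : Adj M g1 g4 g0 g2 g3 s1 s4 r1 r4) : False := by
  obtain ⟨ap1, ap2, rfl⟩ := up
  obtain ⟨aq1, aq2, rfl⟩ := uq
  obtain ⟨ar1, ar2, rfl⟩ := ur
  obtain ⟨as1, as2, rfl⟩ := us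
  obtain ⟨at1, at2, rfl⟩ := ut
  exact full_sound t_f14_011 c [p0, p1, p2, p4, q0, q1, q2, q3, r1, r2, r3, r4, s0, s1, s3, s4]
    ⟨bp.2.2, bq.2.2, br.2.2, bs.2.2, trivial⟩
    ⟨ep.1.2.1, eq.2.2.1, fq.2, es.2.1, es.2.2.1, fs.2, j01.2.2.1, j01.2.2.2.1, j01.2.2.2.2, j21.2.2.1, j21.2.2.2.1, j21.2.2.2.2, j32.2.2.1, j32.2.2.2.1, j32.2.2.2.2, trivial⟩
    ⟨ap1, bp.1, bp.2.1, aq2, bq.2.1, br.1, ar2, as1, bs.1, as2, j01.1, j01.2.1, j21.1, j21.2.1, j32.1, j32.2.1, trivial⟩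

theorem r_f14_100 (c : Ctx M F g0 g1 g2 g3 g4) {sp p0 p1 p2 p4 sq q0 q1 q2 q3 sr r1 r4 r2 r3 ss s0 s3 s1 s4 st t0 t2 t1 t3 : ℤ}
    (up : R2 sp g0 g1 p0 p1)
    (ep : Sep M sp g0 g1 g2 g3 g4)
    (bp : R2 sp g2 g4 p2 p4)
    (fp : NE2 M sp g2 g4 g3)
    (uq : R2 sq g0 g1 q0 q1)
    (eq : Sep M sq g0 g1 g2 g3 g4)
    (bq : R2 sq g2 g3 q2 q3)
    (fq : NE2 M sq g2 g3 g4)
    (ur : R2 sr g1 g4 r1 r4)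
    (er : Sep M sr g1 g4 g0 g2 g3)
    (br : R2 sr g2 g3 r2 r3)
    (fr : NE2 M sr g2 g3 g0)
    (us : R2 ss g0 g3 s0 s3)
    (es : Sep M ss g0 g3 g1 g2 g4)
    (bs : R2 ss g1 g4 s1 s4)
    (fs : NE2 M ss g1 g4 g2)
    (ut : R2 st g0 g2 t0 t2)
    (et : Sep M st g0 g2 g1 g3 g4)
    (bt : R2 st g1 g3 t1 t3)
    (ft : NE2 M st g1 g3 g4)
    (j10 : Adj M g0 g1 g2 g3 g4 q0 q1 p0 p1)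
    (j12 : Adj M g2 g3 g0 g1 g4 q2 q3 r2 r3)
    (j23 : Adj M g1 g4 g0 g2 g3 r1 r4 s1 s4) : False := by
  obtain ⟨ap1, ap2, rfl⟩ := up
  obtain ⟨aq1, aq2, rfl⟩ := uq
  obtain ⟨ar1, ar2, rfl⟩ := ur
  obtain ⟨as1, as2, rfl⟩ := us
  obtain ⟨at1, at2, rfl⟩ := ut
  exact full_sound t_f14_100 c [p0, p1, p2, p4, q0, q1, q2, q3, r1, r2, r3, r4, s0, s1, s3, s4]
    ⟨bp.2.2, bq.2.2, br.2.2, bs.2.2, trivial⟩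
    ⟨ep.1.2.1, ep.2.1, fp.1, eq.1.1, eq.1.2.1, fq.1, er.1.1, er.1.2.2, er.2.2.1, es.1.2.1, es.1.2.2, es.2.2.1, fs.2, es.2.2.2, j10.2.2.1, j10.2.2.2.1, j10.2.2.2.2, j12.2.2.1, j12.2.2.2.1, j12.2.2.2.2, j23.2.2.1, j23.2.2.2.1, j23.2.2.2.2, trivial⟩
    ⟨ap2, bp.1, bp.2.1, aq1, bq.1, ar1, br.2.1, as1, as2, bs.2.1, j10.1, j10.2.1, j12.1, j12.2.1, j23.1, j23.2.1, trivial⟩

theorem r_f14_101 (c : Ctx M F g0 g1 g2 g3 g4) {sp p0 p1 p2 p4 sq q0 q1 q2 q3 sr r1 r4 r2 r3 ss s0 s3 s1 s4 st t0 t2 t1 t3 : ℤ}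
    (up : R2 sp g0 g1 p0 p1)
    (ep : Sep M sp g0 g1 g2 g3 g4)
    (bp : R2 sp g2 g4 p2 p4)
    (fp : NE2 M sp g2 g4 g3)
    (uq : R2 sq g0 g1 q0 q1)
    (eq : Sep M sq g0 g1 g2 g3 g4)
    (bq : R2 sq g2 g3 q2 q3)
    (fq : NE2 M sq g2 g3 g4)
    (ur : R2 sr g1 g4 r1 r4)
    (er : Sep M sr g1 g4 g0 g2 g3)
    (br : R2 sr g2 g3 r2 r3)
    (fr : NE2 M sr g2 g3 g0)
    (us : R2 ss g0 g3 s0 s3)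
    (es : Sep M ss g0 g3 g1 g2 g4)
    (bs : R2 ss g1 g4 s1 s4)
    (fs : NE2 M ss g1 g4 g2)
    (ut : R2 st g0 g2 t0 t2)
    (et : Sep M st g0 g2 g1 g3 g4)
    (bt : R2 st g1 g3 t1 t3)
    (ft : NE2 M st g1 g3 g4)
    (j10 : Adj M g0 g1 g2 g3 g4 q0 q1 p0 p1)
    (j12 : Adj M g2 g3 g0 g1 g4 q2 q3 r2 r3)
    (j32 : Adj M g1 g4 g0 g2 g3 s1 s4 r1 r4) : False := by
  obtain ⟨ap1, ap2, rfl⟩ := up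
  obtain ⟨aq1, aq2, rfl⟩ := uq
  obtain ⟨ar1, ar2, rfl⟩ := ur
  obtain ⟨as1, as2, rfl⟩ := us
  obtain ⟨at1, at2, rfl⟩ := ut
  exact full_sound t_f14_101 c [p0, p1, p2, p4, q0, q1, q2, q3, r1, r2, r3, r4, s0, s1, s3, s4, t0, t1, t2, t3]
    ⟨bp.2.2, bq.2.2, br.2.2, bs.2.2, bt.2.2, trivial⟩
    ⟨ep.1.2.2, ep.2.1, ep.2.2.1, ep.2.2.2, fp.1, eq.2.2.2, fq.1, er.1.2.2, er.2.2.1, es.1.1, es.1.2.1, es.1.2.2, fs.1, es.2.1, es.2.2.1, et.1.1, et.1.2.1, et.1.2.2, et.2.1, et.2.2.1, et.2.2.2, ft.2, j10.2.2.1, j10.2.2.2.1, j10.2.2.2.2, j12.2.2.1, j12.2.2.2.1, j12.2.2.2.2, j32.2.2.1, j32.2.2.2.1, j32.2.2.2.2, trivial⟩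
    ⟨ap1, ap2, bp.1, bp.2.1, aq1, bq.1, bq.2.1, br.1, br.2.1, ar2, as1, bs.1, as2, bs.2.1, at1, bt.1, at2, bt.2.1, j10.1, j10.2.1, j12.1, j12.2.1, j32.1, j32.2.1, trivial⟩

theorem r_f14_110 (c : Ctx M F g0 g1 g2 g3 g4) {sp p0 p1 p2 p4 sq q0 q1 q2 q3 sr r1 r4 r2 r3 ss s0 s3 s1 s4 st t0 t2 t1 t3 : ℤ}
    (up : R2 sp g0 g1 p0 p1)
    (ep : Sep M sp g0 g1 g2 g3 g4)
    (bp : R2 sp g2 g4 p2 p4)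
    (fp : NE2 M sp g2 g4 g3)
    (uq : R2 sq g0 g1 q0 q1)
    (eq : Sep M sq g0 g1 g2 g3 g4)
    (bq : R2 sq g2 g3 q2 q3)
    (fq : NE2 M sq g2 g3 g4)
    (ur : R2 sr g1 g4 r1 r4)
    (er : Sep M sr g1 g4 g0 g2 g3)
    (br : R2 sr g2 g3 r2 r3)
    (fr : NE2 M sr g2 g3 g0)
    (us : R2 ss g0 g3 s0 s3)
    (es : Sep M ss g0 g3 g1 g2 g4)
    (bs : R2 ss g1 g4 s1 s4)
    (fs : NE2 M ss g1 g4 g2)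
    (ut : R2 st g0 g2 t0 t2)
    (et : Sep M st g0 g2 g1 g3 g4)
    (bt : R2 st g1 g3 t1 t3)
    (ft : NE2 M st g1 g3 g4)
    (j10 : Adj M g0 g1 g2 g3 g4 q0 q1 p0 p1)
    (j21 : Adj M g2 g3 g0 g1 g4 r2 r3 q2 q3)
    (j23 : Adj M g1 g4 g0 g2 g3 r1 r4 s1 s4) : False := by
  obtain ⟨ap1, ap2, rfl⟩ := up
  obtain ⟨aq1, aq2, rfl⟩ := uq
  obtain ⟨ar1, ar2, rfl⟩ := ur
  obtain ⟨as1, as2, rfl⟩ := us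
  obtain ⟨at1, at2, rfl⟩ := ut
  exact full_sound t_f14_110 c [p0, p1, p2, p4, q0, q1, q2, q3, r1, r2, r3, r4, s0, s1, s3, s4, t0, t2]
    ⟨bp.2.2, bq.2.2, br.2.2, bs.2.2, trivial⟩
    ⟨ep.1.2.1, ep.2.1, ep.2.2.1, ep.2.2.2, eq.1.1, eq.2.2.2, fr.1, fr.2, er.2.2.1, es.1.2.2, es.2.2.1, es.2.2.2, et.2.1, j10.2.2.1, j10.2.2.2.1, j10.2.2.2.2, j21.2.2.1, j21.2.2.2.1, j21.2.2.2.2, j23.2.2.1, j23.2.2.2.1, j23.2.2.2.2, trivial⟩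
    ⟨ap2, bp.1, bp.2.1, aq1, bq.1, bq.2.1, ar1, br.1, as1, as2, bs.2.1, at1, at2, j10.1, j10.2.1, j21.1, j21.2.1, j23.1, j23.2.1, trivial⟩

theorem r_f14_111 (c : Ctx M F g0 g1 g2 g3 g4) {sp p0 p1 p2 p4 sq q0 q1 q2 q3 sr r1 r4 r2 r3 ss s0 s3 s1 s4 st t0 t2 t1 t3 : ℤ}
    (up : R2 sp g0 g1 p0 p1)
    (ep : Sep M sp g0 g1 g2 g3 g4)
    (bp : R2 sp g2 g4 p2 p4)
    (fp : NE2 M sp g2 g4 g3)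
    (uq : R2 sq g0 g1 q0 q1)
    (eq : Sep M sq g0 g1 g2 g3 g4)
    (bq : R2 sq g2 g3 q2 q3)
    (fq : NE2 M sq g2 g3 g4)
    (ur : R2 sr g1 g4 r1 r4)
    (er : Sep M sr g1 g4 g0 g2 g3)
    (br : R2 sr g2 g3 r2 r3)
    (fr : NE2 M sr g2 g3 g0)
    (us : R2 ss g0 g3 s0 s3)
    (es : Sep M ss g0 g3 g1 g2 g4)
    (bs : R2 ss g1 g4 s1 s4)
    (fs : NE2 M ss g1 g4 g2)
    (ut : R2 st g0 g2 t0 t2)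
    (et : Sep M st g0 g2 g1 g3 g4)
    (bt : R2 st g1 g3 t1 t3)
    (ft : NE2 M st g1 g3 g4)
    (j10 : Adj M g0 g1 g2 g3 g4 q0 q1 p0 p1)
    (j21 : Adj M g2 g3 g0 g1 g4 r2 r3 q2 q3)
    (j32 : Adj M g1 g4 g0 g2 g3 s1 s4 r1 r4) : False := by
  obtain ⟨ap1, ap2, rfl⟩ := up
  obtain ⟨aq1, aq2, rfl⟩ := uq
  obtain ⟨ar1, ar2, rfl⟩ := ur
  obtain ⟨as1, as2, rfl⟩ := us
  obtain ⟨at1, at2, rfl⟩ := ut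
  exact full_sound t_f14_111 c [p0, p1, p2, p4, q0, q1, q2, q3, r1, r2, r3, r4, s0, s1, s3, s4]
    ⟨bp.2.2, bq.2.2, br.2.2, bs.2.2, trivial⟩
    ⟨ep.2.1, er.2.2.1, es.1.2.1, es.2.1, es.2.2.1, j10.2.2.1, j10.2.2.2.1, j21.2.2.1, j21.2.2.2.2, j32.2.2.1, j32.2.2.2.1, j32.2.2.2.2, trivial⟩
    ⟨ap2, bp.1, bp.2.1, aq1, bq.2.1, br.1, ar2, as1, bs.1, as2, j10.1, j10.2.1, j21.1, j21.2.1, j32.1, j32.2.1, trivial⟩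

theorem r_f1_a (c : Ctx M F g0 g1 g2 g3 g4) {sp p0 p1 p2 p3 p4 pw2 pw3 pw4 sq q2 q3 q0 q1 q4 qw0 qw1 qw4 : ℤ}
    (up : R2 sp g0 g1 p0 p1)
    (ep : Sep M sp g0 g1 g2 g3 g4)
    (bp : RG sp g2 g3 g4 p2 p3 p4 pw2 pw3 pw4)
    (uq : R2 sq g2 g3 q2 q3)
    (eq : Sep M sq g2 g3 g0 g1 g4)
    (bq : RG sq g0 g1 g4 q0 q1 q4 qw0 qw1 qw4)
    (cp2q2 : q2 ≤ p2)
    (cp3q3 : q3 ≤ p3) : False := by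
  obtain ⟨ap1, ap2, rfl⟩ := up
  obtain ⟨aq1, aq2, rfl⟩ := uq
  exact full_sound t_f1_a c [p0, p1, p2, p3, p4, q0, q1, q2, q3, q4, qw0, qw1, qw4]
    ⟨bp.1.2.2.2, bq.1.2.2.2, bq.2.1.2.2.2, trivial⟩
    ⟨ep.1.2.2, ep.2.2.2, trivial⟩
    ⟨bp.1.2.2.1, bq.1.1, bq.1.2.1, bq.2.1.1, bq.2.1.2.1, bq.2.2.2.2.2.2, bq.2.2.1.1, bq.2.2.2.1.1, cp2q2, cp3q3, trivial⟩

theorem r_f1_b (c : Ctx M F g0 g1 g2 g3 g4) {sp p0 p1 p2 p3 p4 pw2 pw3 pw4 sq q2 q3 q0 q1 q4 qw0 qw1 qw4 n00_0 n00_1 n00_2 n00_3 n00_4 n12_2 n12_3 n12_0 n12_1 n12_4 : ℤ}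
    (up : R2 sp g0 g1 p0 p1)
    (ep : Sep M sp g0 g1 g2 g3 g4)
    (bp : RG sp g2 g3 g4 p2 p3 p4 pw2 pw3 pw4)
    (uq : R2 sq g2 g3 q2 q3)
    (eq : Sep M sq g2 g3 g0 g1 g4)
    (bq : RG sq g0 g1 g4 q0 q1 q4 qw0 qw1 qw4)
    (hn00 : Nb M g0 g1 g2 g3 g4 p0 p1 n00_0 n00_1 n00_2 n00_3 n00_4)
    (hn12 : Nb M g2 g3 g0 g1 g4 q2 q3 n12_2 n12_3 n12_0 n12_1 n12_4)
    (cp0q0 : q0 < p0)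
    (cq1p1 : p1 ≤ q1)
    (cq2p2 : p2 < q2)
    (cp3q3 : q3 ≤ p3) : False := by
  obtain ⟨ap1, ap2, rfl⟩ := up
  obtain ⟨aq1, aq2, rfl⟩ := uq
  exact full_sound t_f1_b c [p0, p1, p2, p3, p4, pw2, pw3, pw4, q0, q1, q2, q3, q4, qw0, qw1, qw4, n00_0, n00_1, n00_2, n00_3, n00_4, n12_0, n12_1, n12_2, n12_3, n12_4]
    ⟨bp.1.2.2.2, bp.2.1.2.2.2, bq.1.2.2.2, bq.2.1.2.2.2, hn00.2.1.2.2.2, hn12.2.1.2.2.2, trivial⟩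
    ⟨ep.1.1, ep.1.2.2, ep.2.1, ep.2.2.1, ep.2.2.2, eq.1.1, eq.1.2.1, eq.1.2.2, eq.2.1, eq.2.2.1, eq.2.2.2, hn00.1.2.2.1, hn00.1.2.2.2.1, hn00.1.2.2.2.2, hn00.2.2.2.1, hn00.2.2.2.2.1, hn00.2.2.2.2.2, hn12.1.2.2.1, hn12.1.2.2.2.1, hn12.1.2.2.2.2, hn12.2.2.2.1, hn12.2.2.2.2.1, hn12.2.2.2.2.2, trivial⟩
    ⟨ap1, ap2, bp.1.1, bp.1.2.2.1, bp.2.1.1, bp.2.1.2.1, bp.2.1.2.2.1, bp.2.2.2.2.1, bp.2.2.2.2.2.2, bp.2.2.2.1.1, bp.2.2.1.2.1, bp.2.2.2.1.2.1, bp.2.2.2.1.2.2, bq.1.1, aq1, aq2, bq.1.2.2.1, bq.2.1.1, bq.2.1.2.1, bq.2.1.2.2.1, bq.2.2.2.2.1, bq.2.2.2.2.2.2, bq.2.2.2.1.1, bq.2.2.1.2.1, bq.2.2.2.1.2.1, bq.2.2.2.1.2.2, hn00.2.1.1, hn00.2.1.2.1, hn00.2.1.2.2.1, hn00.2.2.1, hn00.1.1, hn00.1.2.1, hn12.2.1.1, hn12.2.1.2.1, hn12.2.1.2.2.1, hn12.2.2.1, hn12.1.1,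 hn12.1.2.1, cp0q0, cq1p1, cq2p2, cp3q3, trivial⟩

theorem r_f1_c (c : Ctx M F g0 g1 g2 g3 g4) {sp p0 p1 p2 p3 p4 pw2 pw3 pw4 sq q2 q3 q0 q1 q4 qw0 qw1 qw4 n01_1 n01_0 n01_2 n01_3 n01_4 n13_3 n13_2 n13_0 n13_1 n13_4 : ℤ}
    (up : R2 sp g0 g1 p0 p1)
    (ep : Sep M sp g0 g1 g2 g3 g4)
    (bp : RG sp g2 g3 g4 p2 p3 p4 pw2 pw3 pw4)
    (uq : R2 sq g2 g3 q2 q3)
    (eq : Sep M sq g2 g3 g0 g1 g4)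
    (bq : RG sq g0 g1 g4 q0 q1 q4 qw0 qw1 qw4)
    (hn01 : Nb M g1 g0 g2 g3 g4 p1 p0 n01_1 n01_0 n01_2 n01_3 n01_4)
    (hn13 : Nb M g3 g2 g0 g1 g4 q3 q2 n13_3 n13_2 n13_0 n13_1 n13_4)
    (cp0q0 : q0 < p0)
    (cp1q1 : q1 < p1)
    (cq2p2 : p2 < q2)
    (cp3q3 : q3 ≤ p3) : False := by
  obtain ⟨ap1, ap2, rfl⟩ := up
  obtain ⟨aq1, aq2, rfl⟩ := uq
  exact full_sound t_f1_c c [p0, p1, p2, p3, p4, pw2, pw3, pw4, q0, q1, q2, q3, q4, qw0, qw1, qw4, n01_0, n01_1, n01_2, n01_3, n01_4, n13_0, n13_1, n13_2, n13_3, n13_4]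
    ⟨bp.1.2.2.2, bp.2.1.2.2.2, bq.1.2.2.2, bq.2.1.2.2.2, hn01.2.1.2.2.2, hn13.2.1.2.2.2, trivial⟩
    ⟨ep.1.1, ep.1.2.1, ep.1.2.2, ep.2.1, ep.2.2.2, eq.1.1, eq.1.2.1, eq.1.2.2, eq.2.1, eq.2.2.1, eq.2.2.2, hn01.1.2.2.1, hn01.1.2.2.2.1, hn01.1.2.2.2.2, hn01.2.2.2.2.1, hn01.2.2.2.2.2, hn13.1.2.2.1, hn13.1.2.2.2.1, hn13.1.2.2.2.2, hn13.2.2.2.1, hn13.2.2.2.2.2, trivial⟩
    ⟨ap1, ap2, bp.1.1, bp.1.2.2.1, bp.2.1.1, bp.2.1.2.1, bp.2.1.2.2.1, bp.2.2.2.2.1, bp.2.2.2.2.2.1, bp.2.2.2.2.2.2, bp.2.2.2.1.1, bp.2.2.1.2.1, bp.2.2.2.1.2.1, bp.2.2.2.1.2.2, bq.1.1, bq.1.2.1, aq1, aq2, bq.2.1.1, bq.2.1.2.1, bq.2.1.2.2.1, bq.2.2.2.2.1, bq.2.2.2.2.2.1, bq.2.2.1.1, bq.2.2.2.1.1, bq.2.2.2.1.2.1, bq.2.2.2.1.2.2, hn01.2.1.1, hn01.2.1.2.1, hn01.2.1.2.2.1, hn01.2.2.1,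 hn01.1.1, hn01.1.2.1, hn13.2.1.1, hn13.2.1.2.1, hn13.2.1.2.2.1, hn13.2.2.1, hn13.1.1, hn13.1.2.1, cp0q0, cp1q1, cq2p2, cp3q3, trivial⟩

theorem r_f1_d (c : Ctx M F g0 g1 g2 g3 g4) {sp p0 p1 p2 p3 p4 pw2 pw3 pw4 sq q2 q3 q0 q1 q4 qw0 qw1 qw4 n01_1 n01_0 n01_2 n01_3 n01_4 n13_3 n13_2 n13_0 n13_1 n13_4 : ℤ}
    (up : R2 sp g0 g1 p0 p1)
    (ep : Sep M sp g0 g1 g2 g3 g4)
    (bp : RG sp g2 g3 g4 p2 p3 p4 pw2 pw3 pw4)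
    (uq : R2 sq g2 g3 q2 q3)
    (eq : Sep M sq g2 g3 g0 g1 g4)
    (bq : RG sq g0 g1 g4 q0 q1 q4 qw0 qw1 qw4)
    (hn01 : Nb M g1 g0 g2 g3 g4 p1 p0 n01_1 n01_0 n01_2 n01_3 n01_4)
    (hn13 : Nb M g3 g2 g0 g1 g4 q3 q2 n13_3 n13_2 n13_0 n13_1 n13_4)
    (cp0q0 : q0 < p0)
    (cp1q1 : q1 < p1)
    (cq2p2 : p2 < q2)
    (cq3p3 : p3 < q3) : False := by
  obtain ⟨ap1, ap2, rfl⟩ := up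
  obtain ⟨aq1, aq2, rfl⟩ := uq
  exact full_sound t_f1_d c [p0, p1, p2, p3, p4, pw2, pw3, pw4, q0, q1, q2, q3, q4, qw0, qw1, qw4, n01_0, n01_1, n01_2, n01_3, n01_4, n13_0, n13_1, n13_2, n13_3, n13_4]
    ⟨bp.1.2.2.2, bp.2.1.2.2.2, bq.1.2.2.2, bq.2.1.2.2.2, hn01.2.1.2.2.2, hn13.2.1.2.2.2, trivial⟩
    ⟨ep.1.1, ep.1.2.1, ep.1.2.2, ep.2.1, ep.2.2.1, ep.2.2.2, eq.1.1, eq.1.2.1, eq.1.2.2, eq.2.1, eq.2.2.1, eq.2.2.2, hn01.1.2.2.1, hn01.1.2.2.2.1, hn01.1.2.2.2.2, hn01.2.2.2.2.2, hn13.1.2.2.1, hn13.1.2.2.2.1, hn13.1.2.2.2.2, hn13.2.2.2.1, hn13.2.2.2.2.1, hn13.2.2.2.2.2, trivial⟩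
    ⟨ap1, ap2, bp.1.1, bp.1.2.1, bp.2.1.1, bp.2.1.2.1, bp.2.1.2.2.1, bp.2.2.2.2.1, bp.2.2.2.2.2.1, bp.2.2.1.1, bp.2.2.2.1.1, bp.2.2.2.1.2.1, bp.2.2.2.1.2.2, bq.1.1, bq.1.2.1, aq1, aq2, bq.2.1.1, bq.2.1.2.1, bq.2.1.2.2.1, bq.2.2.2.2.1, bq.2.2.2.2.2.1, bq.2.2.1.1, bq.2.2.2.1.1, bq.2.2.2.1.2.1, bq.2.2.2.1.2.2, hn01.2.1.1, hn01.2.1.2.1, hn01.2.1.2.2.1, hn01.2.2.1, hn01.1.1, hn01.1.2.1, hn13.2.1.1, hn13.2.1.2.1, hn13.2.1.2.2.1, hn13.2.2.1, hn13.1.1, hn13.1.2.1, cp0q0, cp1q1, cq2p2, cq3p3, trivial⟩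

end Pool.Agent.Lib.MP_1dd8f3_al
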