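import Pool.Agent.Lib.MP_1dd8f3_al.Snd1

namespace Pool.Agent.Lib.MP_1dd8f3_al

/-- `M` is the monoid generated by five positive integers, symmetric about `F` -/
structure Ctx (M : ℤ → Prop) (F g0 g1 g2 g3 g4 : ℤ) : Prop where
  p0 : 0 < g0
  p1 : 0 < g1
  p2 : 0 < g2
  p3 : 0 < g3
  p4 : 0 < g4
  mem : ∀ a b c d e : ℤ, 0 ≤ a → 0 ≤ b → 0 ≤ c → 0 ≤ d → 0 ≤ e →
    M (a * g0 + b * g1 + c * g2 + d * g3 + e * g4)
  rep : ∀ s, M s → ∃ a b c d e : ℤ, 0 ≤ a ∧ 0 ≤ b ∧ 0 ≤ c ∧ 0 ≤ d ∧ 0 ≤ e ∧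
    s = a * g0 + b * g1 + c * g2 + d * g3 + e * g4
  nF : ¬ M F
  sym : ∀ s, ¬ M s → M (F - s)

variable {M : ℤ → Prop} {F g0 g1 g2 g3 g4 : ℤ}

theorem Ctx.nonneg (c : Ctx M F g0 g1 g2 g3 g4) {s : ℤ} (h : M s) : 0 ≤ s := by
  obtain ⟨a, b, d, e, f, h1, h2, h3, h4, h5, rfl⟩ := c.rep s h
  have := c.p0; have := c.p1; have := c.p2; have := c.p3; have := c.p4
  positivity

theorem Ctx.neg (c : Ctx M F g0 g1 g2 g3 g4) {s : ℤ} (h : s < 0) : ¬ M s := fun h1 => by
  have := c.nonneg h1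
  omega

def V6.bd (v : V6) (w : ℕ) : Prop := Bd v.a w ∧ Bd v.b w ∧ Bd v.c w ∧ Bd v.d w ∧ Bd v.e w

def V6.dv (K : ℕ) (x : ℕ → ℤ) (F g0 g1 g2 g3 g4 : ℤ) (v : V6) : ℤ :=
  ev K x v.a * g0 + ev K x v.b * g1 + ev K x v.c * g2 + ev K x v.d * g3 + ev K x v.e * g4 -
    ((v.p : ℤ) - v.n) * (F + (g0 + g1 + g2 + g3 + g4))

variable {K : ℕ} {x : ℕ → ℤ} {A : Tr} {τ : ℕ → Prop}

theorem V6.add_spec (u v : V6) {w : ℕ} (hu : u.bd w) (hv : v.bd 510) (hw : w + 510 < 4294967296) :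
    (u.add v).bd (w + 510) ∧ (u.add v).dv K x F g0 g1 g2 g3 g4 =
      u.dv K x F g0 g1 g2 g3 g4 + v.dv K x F g0 g1 g2 g3 g4 := by
  obtain ⟨a, b, c, d, e, p, n⟩ := u
  obtain ⟨a', b', c', d', e', p', n'⟩ := v
  obtain ⟨h1, h2, h3, h4, h5⟩ := hu
  obtain ⟨i1, i2, i3, i4, i5⟩ := hv
  refine ⟨⟨h1.add i1 hw, h2.add i2 hw, h3.add i3 hw, h4.add i4 hw, h5.add i5 hw⟩, ?_⟩
  change V6.dv K x F g0 g1 g2 g3 g4 ⟨a + a', b + b', c + c', d + d', e + e', p + p', n + n'⟩ = _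
  simp only [V6.dv] at *
  rw [ev_add K x h1 i1 hw, ev_add K x h2 i2 hw, ev_add K x h3 i3 hw, ev_add K x h4 i4 hw,
    ev_add K x h5 i5 hw]
  push_cast
  ring

theorem V6.z_bd (w : ℕ) : V6.z.bd w := ⟨Bd.zero _, Bd.zero _, Bd.zero _, Bd.zero _, Bd.zero _⟩

theorem comb_sound {Bs : List V6}
    (hB : ∀ b ∈ Bs, b.bd 510 ∧ b.dv K x F g0 g1 g2 g3 g4 = 0) (n : ℕ) : ∀ (y : ℕ) (v : V6) (w : ℕ),
    v.bd w → w + n * 510 < 4294967296 → (comb Bs n y v).bd (w + n * 510) ∧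
      (comb Bs n y v).dv K x F g0 g1 g2 g3 g4 = v.dv K x F g0 g1 g2 g3 g4 := by
  induction n with
  | zero => intro y v w h _; rw [Nat.zero_mul]; exact ⟨h, rfl⟩
  | succ n ih =>
    intro y v w h hw
    have e : comb Bs (n + 1) y v =
        comb Bs n (Nat.shiftRight y 16) (V6.add v (nth Bs V6.z (Nat.mod y 65536))) := by
      simp only [comb, frc_eq]
    have hb : (nth Bs V6.z (Nat.mod y 65536)).bd 510 ∧
        (nth Bs V6.z (Nat.mod y 65536)).dv K x F g0 g1 g2 g3 g4 = 0 := by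
      rcases nth_mem Bs V6.z (Nat.mod y 65536) with h1 | h1
      · rw [h1]
        exact ⟨V6.z_bd _, by simp [V6.dv, V6.z, ev_zero]⟩
      · exact hB _ h1
    obtain ⟨a1, a2⟩ := V6.add_spec (K := K) (x := x) (F := F) (g0 := g0) (g1 := g1) (g2 := g2)
      (g3 := g3) (g4 := g4) v _ h hb.1 (by omega)
    obtain ⟨b1, b2⟩ := ih (Nat.shiftRight y 16) _ _ a1 (by omega)
    rw [e, b2, a2, hb.2, add_zero]
    have e2 : w + (n + 1) * 510 = w + 510 + n * 510 := by ring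
    rw [e2]
    exact ⟨b1, rfl⟩

structure PreOK (M : ℤ → Prop) (F g0 g1 g2 g3 g4 : ℤ) (K : ℕ) (x : ℕ → ℤ) (Bs Fs : List V6)
    (Hs : List (List ℕ)) : Prop where
  hB : ∀ b ∈ Bs, b.bd 510 ∧ b.dv K x F g0 g1 g2 g3 g4 = 0
  hF : ∀ f ∈ Fs, f.bd 510 ∧ ¬ M (f.dv K x F g0 g1 g2 g3 g4 - (g0 + g1 + g2 + g3 + g4))
  hH : ∀ h ∈ Hs, (∀ D ∈ h, Bd D 510) ∧ ∃ D ∈ h, ev K x D ≤ 0

theorem mk_sound (cx : Ctx M F g0 g1 g2 g3 g4) (L : Lit K x A τ) {Bs Fs : List V6}
    {Hs : List (List ℕ)} (P : PreOK M F g0 g1 g2 g3 g4 K x Bs Fs Hs) {T : Tr}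
    (hT : ∀ j, Cl τ (T.get 3 j)) (y : ℕ) (c : ℕ → Bool)
    (h : mk ⟨K, A, Bs, Fs, Hs⟩ T y c = true) : ∃ C, c C = true ∧ Cl τ C := by
  unfold mk at h
  generalize tk y 0 = k at h
  rcases k with _ | _ | _ | k
  · change imps K A c (nth Hs [0] (tk y 3)) (Nat.shiftRight y 64) 0 = true at h
    have hh : (∀ D ∈ nth Hs [0] (tk y 3), Bd D 510) ∧ ∃ D ∈ nth Hs [0] (tk y 3), ev K x D ≤ 0 := by
      rcases nth_mem Hs [0] (tk y 3) with h1 | h1
      · rw [h1]
        exact ⟨fun D hD => by rw [List.mem_singleton.mp hD]; exact Bd.zero _,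
          0, List.mem_singleton_self _, (ev_zero _ _).le⟩
      · exact P.hH _ h1
    exact imps_sound L c _ _ _ h (fun D hD => (hh.1 D hD).mono (by omega)) (Or.inr hh.2)
  · have hf : (nth Fs V6.z (tk y 3)).bd 510 ∧ ¬ M ((nth Fs V6.z (tk y 3)).dv K x F g0 g1 g2 g3 g4 -
        (g0 + g1 + g2 + g3 + g4)) := by
      rcases nth_mem Fs V6.z (tk y 3) with h1 | h1
      · rw [h1]
        refine ⟨V6.z_bd _, cx.neg ?_⟩
        have := cx.p0; have := cx.p1; have := cx.p2; have := cx.p3; have := cx.p4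
        simp only [V6.dv, V6.z, ev_zero]
        omega
      · exact P.hF _ h1
    have hm : Nat.mod (tk y 4) 64 < 64 := Nat.mod_lt _ (by norm_num)
    obtain ⟨a1, a2⟩ := comb_sound P.hB (Nat.mod (tk y 4) 64) (Nat.shiftRight y 240) _ _ hf.1
      (by omega)
    change (V6.rec (fun a b c' d e p n => Bool.rec false
      (imps K A c [a, b, c', d, e] (Nat.shiftRight y 80) 0) (Nat.beq p n))
      (comb Bs (Nat.mod (tk y 4) 64) (Nat.shiftRight y 240) (nth Fs V6.z (tk y 3))) : Bool)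
      = true at h
    have a3 := hf.2
    rw [← a2] at a3
    generalize comb Bs (Nat.mod (tk y 4) 64) (Nat.shiftRight y 240) (nth Fs V6.z (tk y 3)) = v
      at h a1 a3
    obtain ⟨a, b, c', d, e, p, n⟩ := v
    obtain ⟨h1, h2⟩ := bool_rec h
    have hpn : p = n := Nat.eq_of_beq_eq_true h1
    subst hpn
    obtain ⟨i1, i2, i3, i4, i5⟩ := a1
    refine imps_sound L c _ _ _ h2 (fun D hD => ?_) (Or.inr ?_)
    · simp only [List.mem_cons, List.not_mem_nil, or_false] at hD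
      rcases hD with rfl | rfl | rfl | rfl | rfl
      exacts [i1.mono (by omega), i2.mono (by omega), i3.mono (by omega), i4.mono (by omega),
        i5.mono (by omega)]
    · by_contra hc
      simp only [List.mem_cons, List.not_mem_nil, or_false, exists_eq_or_imp, exists_eq_left,
        not_or, not_le] at hc
      obtain ⟨c1, c2, c3, c4, c5⟩ := hc
      apply a3
      have := cx.mem (ev K x a - 1) (ev K x b - 1) (ev K x c' - 1) (ev K x d - 1) (ev K x e - 1)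
        (by omega) (by omega) (by omega) (by omega) (by omega)
      convert this using 1
      simp only [V6.dv]
      ring
  · change frc (Nat.mod (tk y 3) 256) (fun nF => far K A (fun C => c (chain T (tk y 4)
      (Nat.shiftRight y (Nat.add 80 (Nat.mul 32 nF))) C)) nF (Nat.shiftRight y 80) 0 0) = true at h
    rw [frc_eq] at h
    have hm : Nat.mod (tk y 3) 256 < 256 := Nat.mod_lt _ (by norm_num)
    obtain ⟨C, a1, a2⟩ := far_sound L _ _ _ _ _ 0 h (Bd.zero _) (by omega)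
      (Or.inr (ev_zero _ _).le)
    exact ⟨_, a1, chain_sound L.neg hT _ _ _ a2⟩
  · exact ⟨_, h, chain_sound L.neg hT _ _ _ (hT _)⟩

theorem run_sound (cx : Ctx M F g0 g1 g2 g3 g4) (L : Lit K x A τ) {Bs Fs : List V6}
    {Hs : List (List ℕ)} (P : PreOK M F g0 g1 g2 g3 g4 K x Bs Fs Hs) (St : List ℕ) :
    ∀ (T : Tr) (U : ℕ), (∀ j, Cl τ (T.get 3 j)) → (∀ l, U.testBit l = true → ¬ τ l) →
    run ⟨K, A, Bs, Fs, Hs⟩ St T U = true → False := by
  induction St with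
  | nil => intro T U _ _ h; cases h
  | cons y St ih =>
    intro T U hT hU h
    have e : run ⟨K, A, Bs, Fs, Hs⟩ (y :: St) T U = mk ⟨K, A, Bs, Fs, Hs⟩ T y fun C =>
      Nat.rec true (fun C' _ =>
        Nat.rec (Nat.rec (run ⟨K, A, Bs, Fs, Hs⟩ St T U) (fun i _ => T.ins (Nat.succ C')
          (Nat.succ i) (fun T' => run ⟨K, A, Bs, Fs, Hs⟩ St T' U)) (tk y 1))
          (fun l _ => Bool.rec false
            (run ⟨K, A, Bs, Fs, Hs⟩ St T (Nat.lor U (Nat.shiftLeft 1 (Nat.xor l 1))))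
            (Nat.beq (Nat.succ C') (Nat.shiftLeft 1 l)))
          (tk y 2))
        (Nat.xor (Nat.lor C U) U) := by
      simp only [run, frc_eq, ap]
    rw [e] at h
    obtain ⟨C, a1, a2⟩ := mk_sound cx L P hT y _ h
    have a3 : Cl τ (Nat.xor (Nat.lor C U) U) := by
      obtain ⟨l, b1, b2⟩ := a2
      refine ⟨l, ?_, b2⟩
      change ((C ||| U) ^^^ U).testBit l = true
      have : U.testBit l = false := by
        by_contra h1
        exact hU l (by simpa using h1) b2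
      rw [Nat.testBit_xor, Nat.testBit_or, b1, this]
      rfl
    generalize Nat.xor (Nat.lor C U) U = C' at a1 a3
    cases C' with
    | zero =>
      obtain ⟨l, b1, -⟩ := a3
      simp at b1
    | succ C' =>
      generalize tk y 2 = u at a1
      cases u with
      | zero =>
        generalize tk y 1 = i at a1
        cases i with
        | zero => exact ih T U hT hU a1
        | succ i =>
          obtain ⟨T', b1, b2⟩ := Tr.ins_spec _ _ _ _ a1
          refine ih T' U (fun j => ?_) hU b1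
          rcases b2 3 j with b3 | b3
          · rw [b3]; exact hT j
          · rw [b3.2]; exact a3
      | succ l =>
        obtain ⟨b1, b2⟩ := bool_rec a1
        have b3 : C' + 1 = Nat.shiftLeft 1 l := Nat.eq_of_beq_eq_true b1
        rw [b3] at a3
        obtain ⟨l', b4, b5⟩ := a3
        rw [tb_shl, decide_eq_true_eq] at b4
        subst b4
        refine ih T _ hT (fun j hj => ?_) b2
        change (U ||| _).testBit j = true at hj
        rw [Nat.testBit_or, tb_shl, Bool.or_eq_true, decide_eq_true_eq] at hj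
        rcases hj with hj | rfl
        · exact hU j hj
        · exact fun h1 => (L.neg l).mp h1 b5

theorem frcL_eq {α : Type} (L : List V6) : ∀ f : List V6 → α, frcL L f = f L := by
  induction L with
  | nil => intro f; rfl
  | cons v L ih =>
    intro f
    obtain ⟨a, b, c, d, e, p, n⟩ := v
    have e : frcL (⟨a, b, c, d, e, p, n⟩ :: L) f =
        frcL L fun L => f (⟨a, b, c, d, e, p, n⟩ :: L) := by
      simp only [frcL, frcV, frc_eq]
    rw [e, ih]

noncomputable def dgV (g0 g1 g2 g3 g4 : ℤ) (x : ℕ → ℤ) (v : List (List ℕ)) : ℤ :=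
  evF x (nth v [] 0) * g0 + evF x (nth v [] 1) * g1 + evF x (nth v [] 2) * g2 +
    evF x (nth v [] 3) * g3 + evF x (nth v [] 4) * g4

noncomputable def dgS (g0 g1 g2 g3 g4 : ℤ) (s : List ℕ) : ℤ :=
  nth s 0 0 * g0 + nth s 0 1 * g1 + nth s 0 2 * g2 + nth s 0 3 * g3 + nth s 0 4 * g4

structure Valid (M : ℤ → Prop) (F g0 g1 g2 g3 g4 : ℤ) (x : ℕ → ℤ) (X : Cx) : Prop where
  hB : ∀ b ∈ X.bas, dgV g0 g1 g2 g3 g4 x b.1 = b.2 * (F + (g0 + g1 + g2 + g3 + g4))
  hF : ∀ f ∈ X.fam, ¬ M (dgV g0 g1 g2 g3 g4 x f.1 - dgS g0 g1 g2 g3 g4 f.2)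
  hH : ∀ h ∈ X.hyp, ∃ q ∈ h, evF x q.1 + q.2 ≤ 0

theorem bF_iff {n : ℕ} {f : List ℕ} : bF n f = true ↔ (∀ t ∈ f, t < 2 * n) ∧ f.length ≤ 255 := by
  simp [bF, Nat.blt_eq]

theorem bV_iff {n : ℕ} {v : List (List ℕ)} : bV n v = true ↔
    (((bF n (nth v [] 0) = true ∧ bF n (nth v [] 1) = true) ∧ bF n (nth v [] 2) = true) ∧
      bF n (nth v [] 3) = true) ∧ bF n (nth v [] 4) = true := by
  simp [bV]

theorem bS_iff {s : List ℕ} : bS s = true ↔
    (((nth s 0 0 ≤ 1 ∧ nth s 0 1 ≤ 1) ∧ nth s 0 2 ≤ 1) ∧ nth s 0 3 ≤ 1) ∧ nth s 0 4 ≤ 1 := by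
  simp [bS]

theorem bnd_iff {n : ℕ} {X : Cx} : bnd n X = true ↔ ((∀ b ∈ X.bas, bV n b.1 = true) ∧
    ∀ f ∈ X.fam, bV n f.1 = true ∧ bS f.2 = true) ∧
      ∀ h ∈ X.hyp, ∀ q ∈ h, bF n q.1 = true ∧ q.2 ≤ 255 := by
  simp [bnd]

theorem cF' (hK : 0 < K) (x : ℕ → ℤ) {f : List ℕ} (h : bF K f = true) :
    Bd (cF K f) 510 ∧ ev K x (cF K f) = evF x f ∧ Bd (cN K f) 510 ∧ ev K x (cN K f) = -evF x f := by
  obtain ⟨h1, h2⟩ := bF_iff.mp h
  obtain ⟨a1, a2, a3, a4⟩ := cF_spec hK x f h1 h2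
  exact ⟨a1.mono (by omega), a2, a3.mono (by omega), a4⟩

theorem cS' (hK : 0 < K) (x : ℕ → ℤ) {f : List ℕ} (h : bF K f = true) {s : ℕ} (hs : s ≤ 1) :
    Bd (cS K f (Nat.sub 1 s)) 510 ∧ ev K x (cS K f (Nat.sub 1 s)) = evF x f + 1 - s := by
  obtain ⟨h1, h2⟩ := bF_iff.mp h
  obtain ⟨a1, a2⟩ := cS_spec hK x f (1 - s) h1 h2 (by omega)
  refine ⟨a1, a2.trans ?_⟩
  omega

theorem pre_ok (cx : Ctx M F g0 g1 g2 g3 g4) (hK : 0 < K) {X : Cx} (hb : bnd K X = true)
    (V : Valid M F g0 g1 g2 g3 g4 x X) :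
    PreOK M F g0 g1 g2 g3 g4 K x (preB K X.bas) (preF K X.fam) (preH K X.hyp) := by
  obtain ⟨⟨h1, h2⟩, h3⟩ := bnd_iff.mp hb
  obtain ⟨v1, v2, v3⟩ := V
  refine ⟨?_, ?_, ?_⟩
  · generalize X.bas = L at h1 v1
    induction L with
    | nil => intro b hb; cases hb
    | cons b L ih =>
      have ih := ih (fun b hb => h1 b (List.mem_cons_of_mem _ hb))
        (fun b hb => v1 b (List.mem_cons_of_mem _ hb))
      obtain ⟨⟨⟨⟨i0, i1⟩, i2⟩, i3⟩, i4⟩ := bV_iff.mp (h1 b List.mem_cons_self)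
      have v := v1 b List.mem_cons_self
      obtain ⟨a1, a2, a3, a4⟩ := cF' hK x i0
      obtain ⟨b1, b2, b3, b4⟩ := cF' hK x i1
      obtain ⟨c1, c2, c3, c4⟩ := cF' hK x i2
      obtain ⟨d1, d2, d3, d4⟩ := cF' hK x i3
      obtain ⟨e1, e2, e3, e4⟩ := cF' hK x i4
      intro u hu
      rcases List.mem_cons.mp hu with rfl | hu
      · refine ⟨⟨a1, b1, c1, d1, e1⟩, ?_⟩
        simp only [V6.dv, a2, b2, c2, d2, e2]
        unfold dgV at v
        linear_combination v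
      · rcases List.mem_cons.mp hu with rfl | hu
        · refine ⟨⟨a3, b3, c3, d3, e3⟩, ?_⟩
          simp only [V6.dv, a4, b4, c4, d4, e4]
          unfold dgV at v
          linear_combination -v
        · exact ih u hu
  · suffices hs : ∀ u ∈ preF1 K X.fam, u.bd 510 ∧
        ¬ M (u.dv K x F g0 g1 g2 g3 g4 - (g0 + g1 + g2 + g3 + g4)) by
      intro u hu
      rcases List.mem_cons.mp hu with rfl | hu
      · refine ⟨⟨Bd.zero _, Bd.zero _, Bd.zero _, Bd.zero _, Bd.zero _⟩, ?_⟩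
        have := cx.nF
        convert this using 2
        simp [V6.dv, ev_zero]
      · exact hs u hu
    · generalize X.fam = L at h2 v2
      induction L with
      | nil => intro b hb; cases hb
      | cons b L ih =>
        have ih := ih (fun b hb => h2 b (List.mem_cons_of_mem _ hb))
          (fun b hb => v2 b (List.mem_cons_of_mem _ hb))
        obtain ⟨⟨⟨⟨i0, i1⟩, i2⟩, i3⟩, i4⟩ := bV_iff.mp (h2 b List.mem_cons_self).1
        obtain ⟨⟨⟨⟨j0, j1⟩, j2⟩, j3⟩, j4⟩ := bS_iff.mp (h2 b List.mem_cons_self).2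
        have v := v2 b List.mem_cons_self
        obtain ⟨a1, a2⟩ := cS' hK x i0 j0
        obtain ⟨b1, b2⟩ := cS' hK x i1 j1
        obtain ⟨c1, c2⟩ := cS' hK x i2 j2
        obtain ⟨d1, d2⟩ := cS' hK x i3 j3
        obtain ⟨e1, e2⟩ := cS' hK x i4 j4
        intro u hu
        rcases List.mem_cons.mp hu with rfl | hu
        · refine ⟨⟨a1, b1, c1, d1, e1⟩, ?_⟩
          convert v using 2
          simp only [V6.dv, a2, b2, c2, d2, e2, dgV, dgS]
          ring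
        · exact ih u hu
  · generalize X.hyp = L at h3 v3
    induction L with
    | nil => intro b hb; cases hb
    | cons h L ih =>
      have ih := ih (fun b hb => h3 b (List.mem_cons_of_mem _ hb))
        (fun b hb => v3 b (List.mem_cons_of_mem _ hb))
      intro u hu
      rcases List.mem_cons.mp hu with rfl | hu
      · have i := h3 h List.mem_cons_self
        have v := v3 h List.mem_cons_self
        have e : ∀ h : List (List ℕ × ℕ), (List.rec [] (fun q _ s => cS K q.1 q.2 :: s) h : List ℕ)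
            = h.map (fun q => cS K q.1 q.2) := by
          intro h
          induction h with
          | nil => rfl
          | cons q h ih => exact congrArg _ ih
        rw [e]
        have k : ∀ q ∈ h, Bd (cS K q.1 q.2) 510 ∧ ev K x (cS K q.1 q.2) = evF x q.1 + q.2 :=
          fun q hq => cS_spec hK x _ _ (bF_iff.mp (i q hq).1).1 (bF_iff.mp (i q hq).1).2 (i q hq).2
        refine ⟨fun D hD => ?_, ?_⟩
        · obtain ⟨q, hq, rfl⟩ := List.mem_map.mp hD
          exact (k q hq).1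
        · obtain ⟨q, hq, hv⟩ := v
          exact ⟨_, List.mem_map.mpr ⟨q, hq, rfl⟩, by rw [(k q hq).2]; exact hv⟩
      · exact ih u hu

theorem check_sound (cx : Ctx M F g0 g1 g2 g3 g4) (hK : 0 < K) {X : Cx} (hb : bnd K X = true)
    (V : Valid M F g0 g1 g2 g3 g4 x X) {At St : List ℕ} (h : check X K At St = true) : False := by
  unfold check at h
  rw [frcL_eq, frcL_eq] at h
  have z : ∀ j, (Tr.full 16 0).get 0 j = 0 := fun j => by
    rcases Tr.get_full 16 0 0 j with h | h <;> exact h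
  obtain ⟨A, a1, a2, a3⟩ := atoms_sound hK x _ _ _ _ h rfl (fun j _ => z j)
    (fun j => by rw [z]; exact Bd.zero _) (fun j _ => Or.inl (by rw [z, ev_zero]))
  obtain ⟨τ, L⟩ := lit_exists a2 a3
  refine run_sound cx L (pre_ok cx hK hb V) St _ _ (fun j => ?_) (fun l hl => by simp at hl) a1
  have e : (Tr.full 16 3).get 3 j = 3 := by
    rcases Tr.get_full 16 3 3 j with h | h <;> exact h
  rw [e]
  by_cases h0 : τ 0
  · exact ⟨0, by decide, h0⟩
  · exact ⟨1, by decide, (L.neg 0).mpr h0⟩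

end Pool.Agent.Lib.MP_1dd8f3_al
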