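import Pool.Agent.Lib.MP_1dd8f3_al.Snd2

namespace Pool.Agent.Lib.MP_1dd8f3_al

variable {M : ℤ → Prop} {F g0 g1 g2 g3 g4 : ℤ}

def TF (n : ℕ) (f : List ℕ) : Prop := ∀ t ∈ f, t < 2 * n

def TV (n : ℕ) (v : List (List ℕ)) : Prop := ∀ j < 5, TF n (nth v [] j)

structure TL (n : ℕ) (X : Cx) : Prop where
  hB : ∀ b ∈ X.bas, TV n b.1
  hF : ∀ f ∈ X.fam, TV n f.1 ∧ ∀ j < 5, nth f.2 0 j ≤ 1
  hH : ∀ h ∈ X.hyp, ∀ q ∈ h, TF n q.1

theorem TF.mono {n m : ℕ} {f : List ℕ} (h : TF n f) (hm : n ≤ m) : TF m f := fun t ht => by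
  have := h t ht
  omega

theorem TV.of {n : ℕ} {v : List (List ℕ)} (h : bV n v = true) : TV n v := by
  obtain ⟨⟨⟨⟨i0, i1⟩, i2⟩, i3⟩, i4⟩ := bV_iff.mp h
  intro j hj
  have : j = 0 ∨ j = 1 ∨ j = 2 ∨ j = 3 ∨ j = 4 := by omega
  rcases this with rfl | rfl | rfl | rfl | rfl
  exacts [(bF_iff.mp i0).1, (bF_iff.mp i1).1, (bF_iff.mp i2).1, (bF_iff.mp i3).1, (bF_iff.mp i4).1]

theorem TL.of {n : ℕ} {X : Cx} (h : bnd n X = true) : TL n X := by
  obtain ⟨⟨h1, h2⟩, h3⟩ := bnd_iff.mp h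
  refine ⟨fun b hb => TV.of (h1 b hb), fun f hf => ⟨TV.of (h2 f hf).1, fun j hj => ?_⟩,
    fun h hh q hq => (bF_iff.mp (h3 h hh q hq).1).1⟩
  obtain ⟨⟨⟨⟨i0, i1⟩, i2⟩, i3⟩, i4⟩ := bS_iff.mp (h2 f hf).2
  have : j = 0 ∨ j = 1 ∨ j = 2 ∨ j = 3 ∨ j = 4 := by omega
  rcases this with rfl | rfl | rfl | rfl | rfl <;> assumption

theorem evF_congr {n : ℕ} {x y : ℕ → ℤ} (h : ∀ k < n, y k = x k) {f : List ℕ} (hf : TF n f) :
    evF y f = evF x f := by
  induction f with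
  | nil => rfl
  | cons t r ih =>
    have h1 := hf t List.mem_cons_self
    have h2 := h (t / 2) (by omega)
    simp only [evF, tv, ih (fun t ht => hf t (List.mem_cons_of_mem _ ht)), h2]

theorem dgV_congr {n : ℕ} {x y : ℕ → ℤ} (h : ∀ k < n, y k = x k) {v : List (List ℕ)}
    (hv : TV n v) : dgV g0 g1 g2 g3 g4 y v = dgV g0 g1 g2 g3 g4 x v := by
  unfold dgV
  rw [evF_congr h (hv 0 (by omega)), evF_congr h (hv 1 (by omega)), evF_congr h (hv 2 (by omega)),
    evF_congr h (hv 3 (by omega)), evF_congr h (hv 4 (by omega))]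

theorem fam_nth (cx : Ctx M F g0 g1 g2 g3 g4) {n : ℕ} {X : Cx} {x : ℕ → ℤ} (T : TL n X)
    (V : Valid M F g0 g1 g2 g3 g4 x X) (i : ℕ) {f : List (List ℕ) × List ℕ}
    (hf : f = nth X.fam ([], [1, 1, 1, 1, 1]) i) : (TV n f.1 ∧ ∀ j < 5, nth f.2 0 j ≤ 1) ∧
      ¬ M (dgV g0 g1 g2 g3 g4 x f.1 - dgS g0 g1 g2 g3 g4 f.2) := by
  rcases nth_mem X.fam ([], [1, 1, 1, 1, 1]) i with h | h
  · rw [hf, h]
    refine ⟨⟨fun j _ t ht => absurd ht List.not_mem_nil, fun j hj => ?_⟩, cx.neg ?_⟩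
    · have : j = 0 ∨ j = 1 ∨ j = 2 ∨ j = 3 ∨ j = 4 := by omega
      rcases this with rfl | rfl | rfl | rfl | rfl <;> exact le_rfl
    · have := cx.p0; have := cx.p1; have := cx.p2; have := cx.p3; have := cx.p4
      change (0 : ℤ) * g0 + 0 * g1 + 0 * g2 + 0 * g3 + 0 * g4 -
        (((1 : ℕ) : ℤ) * g0 + (1 : ℕ) * g1 + (1 : ℕ) * g2 + (1 : ℕ) * g3 + (1 : ℕ) * g4) < 0
      omega
  · rw [hf]
    exact ⟨T.hF _ h, V.hF _ h⟩

theorem tv_even (x : ℕ → ℤ) (k : ℕ) : tv x (2 * k) = x k := by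
  unfold tv
  rw [if_pos (by omega), Nat.mul_div_cancel_left _ (by omega)]

theorem tv_odd (x : ℕ → ℤ) (k : ℕ) : tv x (2 * k + 1) = -x k := by
  unfold tv
  have : (2 * k + 1) / 2 = k := by omega
  rw [if_neg (by omega), this]

theorem addB_sound (cx : Ctx M F g0 g1 g2 g3 g4) {n : ℕ} {X : Cx} {x : ℕ → ℤ} (T : TL n X)
    (V : Valid M F g0 g1 g2 g3 g4 x X) (i : ℕ) :
    TL (n + 5) (addB X n i) ∧ ∃ y, Valid M F g0 g1 g2 g3 g4 y (addB X n i) := by
  obtain ⟨⟨t1, t2⟩, t3⟩ := fam_nth cx T V i rfl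
  unfold addB
  generalize nth X.fam ([], [1, 1, 1, 1, 1]) i = f at t1 t2 t3
  constructor
  · refine ⟨fun b hb => ?_, fun f hf => ⟨fun j hj => ((T.hF f hf).1 j hj).mono (by omega),
      (T.hF f hf).2⟩, fun h hh q hq => ?_⟩
    · rcases List.mem_append.mp hb with hb | hb
      · exact fun j hj => (T.hB b hb j hj).mono (by omega)
      · rw [List.mem_singleton.mp hb]
        intro j hj t ht
        have : j = 0 ∨ j = 1 ∨ j = 2 ∨ j = 3 ∨ j = 4 := by omega
        rcases this with rfl | rfl | rfl | rfl | rfl <;>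
        · have := List.mem_singleton.mp ht
          omega
    · rcases List.mem_append.mp hh with hh | hh
      · exact (T.hH h hh q hq).mono (by omega)
      · obtain ⟨j, hj, rfl⟩ := List.mem_map.mp hh
        have hj : j < 5 := by
          simp only [List.mem_cons, List.not_mem_nil, or_false] at hj
          omega
        rw [List.mem_singleton.mp hq]
        intro t ht
        rcases List.mem_cons.mp ht with rfl | ht
        · omega
        · exact (t1 j hj).mono (by omega) t ht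
  · obtain ⟨w0, w1, w2, w3, w4, a0, a1, a2, a3, a4, e⟩ := cx.rep _ (cx.sym _ t3)
    let w : ℕ → ℤ := fun j => if j = 0 then w0 else if j = 1 then w1 else if j = 2 then w2
      else if j = 3 then w3 else w4
    have hw : ∀ j, 0 ≤ w j := fun j => by
      simp only [w]
      split_ifs <;> assumption
    let y : ℕ → ℤ := fun k => if k < n then x k else
      evF x (nth f.1 [] (k - n)) - nth f.2 0 (k - n) + w (k - n) + 1
    have hy : ∀ k < n, y k = x k := fun k hk => if_pos hk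
    have hy2 : ∀ j, y (n + j) = evF x (nth f.1 [] j) - nth f.2 0 j + w j + 1 := fun j => by
      simp only [y]
      rw [if_neg (by omega), Nat.add_sub_cancel_left]
    refine ⟨y, fun b hb => ?_, fun f hf => ?_, fun h hh => ?_⟩
    · rcases List.mem_append.mp hb with hb | hb
      · rw [dgV_congr hy (T.hB b hb)]
        exact V.hB b hb
      · rw [List.mem_singleton.mp hb]
        change (tv y (2 * (n + 0)) + 0) * g0 + (tv y (2 * (n + 1)) + 0) * g1 +
          (tv y (2 * (n + 2)) + 0) * g2 + (tv y (2 * (n + 3)) + 0) * g3 +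
          (tv y (2 * (n + 4)) + 0) * g4 = ((1 : ℕ) : ℤ) * _
        simp only [tv_even, hy2]
        simp only [dgV, dgS] at e
        simp only [w]
        norm_num
        linear_combination -e
    · rw [dgV_congr hy (T.hF f hf).1]
      exact V.hF f hf
    · rcases List.mem_append.mp hh with hh | hh
      · obtain ⟨q, hq, h1⟩ := V.hH h hh
        exact ⟨q, hq, by rw [evF_congr hy (T.hH h hh q hq)]; exact h1⟩
      · obtain ⟨j, hj, rfl⟩ := List.mem_map.mp hh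
        have hj : j < 5 := by
          simp only [List.mem_cons, List.not_mem_nil, or_false] at hj
          omega
        refine ⟨_, List.mem_singleton_self _, ?_⟩
        simp only [evF, tv_odd, hy2, evF_congr hy (t1 j hj)]
        have := hw j
        have := t2 j hj
        omega

theorem go_sound (cx : Ctx M F g0 g1 g2 g3 g4) {At St : List ℕ} (l : List ℕ) :
    ∀ (X : Cx) (n : ℕ) (x : ℕ → ℤ), TL n X → Valid M F g0 g1 g2 g3 g4 x X →
      go At St l X n = true → False := by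
  induction l with
  | nil =>
    intro X n x _ V h
    simp only [go, Bool.and_eq_true, Nat.blt_eq] at h
    exact check_sound cx h.1.1 h.1.2 V h.2
  | cons i l ih =>
    intro X n x T V h
    obtain ⟨T', y, V'⟩ := addB_sound cx T V i
    exact ih _ _ y T' V' h

def Ex.ev (G x : ℕ → ℤ) : Ex → ℤ
  | .g j => G j
  | .m t j => x t * G j
  | .add a b => a.ev G x + b.ev G x
  | .sub a b => a.ev G x - b.ev G x

theorem evF_append (x : ℕ → ℤ) (a b : List ℕ) : evF x (a ++ b) = evF x a + evF x b := by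
  induction a with
  | nil => simp [evF]
  | cons t r ih => simp only [List.cons_append, evF, ih]; ring

noncomputable def GG (g0 g1 g2 g3 g4 : ℤ) : ℕ → ℤ := nth [g0, g1, g2, g3, g4] 0

theorem GG_big {j : ℕ} : GG g0 g1 g2 g3 g4 (j + 5) = 0 := rfl

def Ex.co (x : ℕ → ℤ) (e : Ex) (j s : ℕ) : ℤ := evF x (e.fm j s) + e.ct j s - e.ct j (1 - s)

theorem Ex.spec (x : ℕ → ℤ) (e : Ex) :
    e.ev (GG g0 g1 g2 g3 g4) x = e.co x 0 0 * g0 + e.co x 1 0 * g1 + e.co x 2 0 * g2 +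
      e.co x 3 0 * g3 + e.co x 4 0 * g4 ∧
    -e.ev (GG g0 g1 g2 g3 g4) x = e.co x 0 1 * g0 + e.co x 1 1 * g1 + e.co x 2 1 * g2 +
      e.co x 3 1 * g3 + e.co x 4 1 * g4 := by
  induction e with
  | g j =>
    rcases j with _ | _ | _ | _ | _ | j
    all_goals simp [Ex.ev, Ex.co, Ex.fm, Ex.ct, evF, GG_big]
    all_goals rfl
  | m t j =>
    rcases j with _ | _ | _ | _ | _ | j
    all_goals simp [Ex.ev, Ex.co, Ex.fm, Ex.ct, evF, GG_big, tv_even, tv_odd]
    all_goals exact Or.inl rfl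
  | add a b ia ib =>
    simp only [Ex.ev, Ex.co, Ex.fm, Ex.ct, evF_append] at ia ib ⊢
    push_cast at ia ib ⊢
    exact ⟨by linear_combination ia.1 + ib.1, by linear_combination ia.2 + ib.2⟩
  | sub a b ia ib =>
    simp only [Ex.ev, Ex.co, Ex.fm, Ex.ct, evF_append] at ia ib ⊢
    norm_num at ia ib ⊢
    exact ⟨by linear_combination ia.1 + ib.2, by linear_combination ia.2 + ib.1⟩

theorem Ex.spec' (x : ℕ → ℤ) (e : Ex) : e.ev (GG g0 g1 g2 g3 g4) x =
    dgV g0 g1 g2 g3 g4 x e.vec + dgS g0 g1 g2 g3 g4 (e.cts 0) - dgS g0 g1 g2 g3 g4 (e.cts 1) := by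
  rw [(e.spec x).1]
  change _ = evF x (e.fm 0 0) * g0 + evF x (e.fm 1 0) * g1 + evF x (e.fm 2 0) * g2 +
    evF x (e.fm 3 0) * g3 + evF x (e.fm 4 0) * g4 +
    (e.ct 0 0 * g0 + e.ct 1 0 * g1 + e.ct 2 0 * g2 + e.ct 3 0 * g3 + e.ct 4 0 * g4) -
    (e.ct 0 1 * g0 + e.ct 1 1 * g1 + e.ct 2 1 * g2 + e.ct 3 1 * g3 + e.ct 4 1 * g4)
  simp only [Ex.co]
  ring

theorem dgS_z5 (e : Ex) (s : ℕ) (h : z5 (e.cts s) = true) :
    dgS g0 g1 g2 g3 g4 (e.cts s) = 0 := by
  simp only [z5, Ex.cts, List.all_cons, List.all_nil, Bool.and_eq_true, Nat.beq_eq] at h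
  change (e.ct 0 s : ℤ) * g0 + e.ct 1 s * g1 + e.ct 2 s * g2 + e.ct 3 s * g3 + e.ct 4 s * g4 = 0
  rw [h.1, h.2.1, h.2.2.1, h.2.2.2.1, h.2.2.2.2.1]
  simp

def Hy.ev (x : ℕ → ℤ) : Hy → Prop
  | .pos t => 1 ≤ x t
  | .nn t => 0 ≤ x t
  | .lt t u => x t < x u
  | .le t u => x t ≤ x u
  | .or2 t u => 1 ≤ x t ∨ 1 ≤ x u
  | .or3 t u v => 1 ≤ x t ∨ 1 ≤ x u ∨ 1 ≤ x v

theorem Hy.spec (x : ℕ → ℤ) (h : Hy) (hh : h.ev x) : ∃ q ∈ h.cmp, evF x q.1 + q.2 ≤ 0 := by
  cases h <;> simp only [Hy.ev] at hh <;>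
    simp only [Hy.cmp, List.mem_cons, List.not_mem_nil, or_false, exists_eq_or_imp, exists_eq_left,
      evF, tv_even, tv_odd] <;> omega

def AB (G x : ℕ → ℤ) : List (Ex × Ex) → Prop
  | [] => True
  | b :: r => b.1.ev G x = b.2.ev G x ∧ AB G x r

def AF (M : ℤ → Prop) (G x : ℕ → ℤ) : List Ex → Prop
  | [] => True
  | e :: r => ¬ M (e.ev G x) ∧ AF M G x r

def AH (x : ℕ → ℤ) : List Hy → Prop
  | [] => True
  | h :: r => h.ev x ∧ AH x r

theorem AB.mem {G x : ℕ → ℤ} {L : List (Ex × Ex)} (h : AB G x L) :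
    ∀ b ∈ L, b.1.ev G x = b.2.ev G x := by
  induction L with
  | nil => intro b hb; cases hb
  | cons a L ih =>
    intro b hb
    rcases List.mem_cons.mp hb with rfl | hb
    exacts [h.1, ih h.2 b hb]

theorem AF.mem {G x : ℕ → ℤ} {L : List Ex} (h : AF M G x L) : ∀ b ∈ L, ¬ M (b.ev G x) := by
  induction L with
  | nil => intro b hb; cases hb
  | cons a L ih =>
    intro b hb
    rcases List.mem_cons.mp hb with rfl | hb
    exacts [h.1, ih h.2 b hb]

theorem AH.mem {x : ℕ → ℤ} {L : List Hy} (h : AH x L) : ∀ b ∈ L, b.ev x := by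
  induction L with
  | nil => intro b hb; cases hb
  | cons a L ih =>
    intro b hb
    rcases List.mem_cons.mp hb with rfl | hb
    exacts [h.1, ih h.2 b hb]

theorem full_sound {S : Sx} {n : ℕ} {l At St : List ℕ} (h : full S n l At St = true)
    (cx : Ctx M F g0 g1 g2 g3 g4) (L : List ℤ) (hB : AB (GG g0 g1 g2 g3 g4) (nth L 0) S.bas)
    (hF : AF M (GG g0 g1 g2 g3 g4) (nth L 0) S.fam) (hH : AH (nth L 0) S.hyp) : False := by
  simp only [full, Sx.ok, Bool.and_eq_true, List.all_eq_true] at h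
  obtain ⟨⟨⟨h1, h2⟩, h3⟩, h4⟩ := h
  refine go_sound cx l _ n (nth L 0) (TL.of h3) ⟨fun b hb => ?_, fun f hf => ?_, fun h hh => ?_⟩ h4
  · obtain ⟨b, hb', rfl⟩ := List.mem_map.mp hb
    clear hb
    have hb := hb'
    have e := (Ex.sub b.1 b.2).spec' (g0 := g0) (g1 := g1) (g2 := g2) (g3 := g3) (g4 := g4) (nth L 0)
    rw [dgS_z5 _ _ (h1 b hb).1, dgS_z5 _ _ (h1 b hb).2] at e
    have e2 := hB.mem b hb
    simp only [Ex.ev] at e
    simp only [Nat.cast_zero]
    linear_combination e2 - e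
  · rcases List.mem_append.mp hf with hf | hf
    · have := cx.p0; have := cx.p1; have := cx.p2; have := cx.p3; have := cx.p4
      apply cx.neg
      simp only [zf, List.mem_cons, List.not_mem_nil, or_false] at hf
      have k : ∀ a b c d e : ℕ, dgV g0 g1 g2 g3 g4 (nth L 0) [] - dgS g0 g1 g2 g3 g4 [a, b, c, d, e]
          = 0 * g0 + 0 * g1 + 0 * g2 + 0 * g3 + 0 * g4 -
            (a * g0 + b * g1 + c * g2 + d * g3 + e * g4) := fun _ _ _ _ _ => rfl
      rcases hf with rfl | rfl | rfl | rfl | rfl <;>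
      · rw [k]
        omega
    · obtain ⟨e, he, rfl⟩ := List.mem_map.mp hf
      have e1 := e.spec' (g0 := g0) (g1 := g1) (g2 := g2) (g3 := g3) (g4 := g4) (nth L 0)
      rw [dgS_z5 _ _ (h2 e he), add_zero] at e1
      rw [← e1]
      exact hF.mem e he
  · obtain ⟨q, hq, rfl⟩ := List.mem_map.mp hh
    exact q.spec _ (hH.mem q hq)

end Pool.Agent.Lib.MP_1dd8f3_al
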