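import Pool.Agent.Lib.MP_1dd8f3_al.Raw
import Pool.Agent.Lib.MP_1dd8f3_al.Mid1

namespace Pool.Agent.Lib.MP_1dd8f3_al

set_option linter.unusedVariables false

variable {M : ℤ → Prop} {F g0 g1 g2 g3 g4 : ℤ}

theorem k_A1 (c : Ctx M F g0 g1 g2 g3 g4) {s0 p0 q0 s1 p1 q1 : ℤ}
    (h0 : Cn M g0 g1 g2 g3 g4 s0 p0 q0)
    (h1 : Cn M g0 g1 g2 g3 g4 s1 p1 q1)
    (j0 : Adj M g0 g1 g2 g3 g4 p0 q0 p1 q1)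
    (m0 : M (s0 - g2 - g3))
    (f0 : NE2 M s0 g2 g3 g4)
    (m1 : M (s1 - g2 - g3))
    (f1 : NE2 M s1 g2 g3 g4)
    (d01 : s0 ≠ s1) : False := by
  obtain ⟨_, _, bp, xp⟩ := exR2 c h0.2.1 m0 f0
  obtain ⟨_, _, bq, xq⟩ := exR2 c h1.2.1 m1 f1
  exact r_A1 c h0.1 h0.2.1 bp f0 h1.1 h1.2.1 bq f1 j0 (exD c h0 h1 d01) xp xq

theorem k_A2_22 (c : Ctx M F g0 g1 g2 g3 g4) {s0 p0 q0 s1 p1 q1 : ℤ}
    (h0 : Cn M g0 g1 g2 g3 g4 s0 p0 q0)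
    (h1 : Cn M g0 g1 g2 g3 g4 s1 p1 q1)
    (j0 : Adj M g0 g1 g2 g3 g4 p0 q0 p1 q1)
    (m0 : M (s0 - g2 - g3))
    (m0' : M (s0 - g2 - g4))
    (m1 : M (s1 - g2 - g3))
    (m1' : M (s1 - g2 - g4))
    (d01 : s0 ≠ s1) : False := by
  obtain ⟨_, _, _, bp, xp⟩ := exR3' c h0.2.1 m0
  obtain ⟨_, _, _, bpw, xpw⟩ := exR3' c.s34 h0.2.1.s34 m0'
  obtain ⟨_, _, _, bq, xq⟩ := exR3 c h1.2.1 m1
  obtain ⟨_, _, _, bqw, xqw⟩ := exR3 c.s34 h1.2.1.s34 m1'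
  exact r_A2_22 c h0.1 h0.2.1 bp bpw h1.1 h1.2.1 bq bqw j0 (exD c h0 h1 d01) xp xpw xq xqw

theorem k_A2_23 (c : Ctx M F g0 g1 g2 g3 g4) {s0 p0 q0 s1 p1 q1 : ℤ}
    (h0 : Cn M g0 g1 g2 g3 g4 s0 p0 q0)
    (h1 : Cn M g0 g1 g2 g3 g4 s1 p1 q1)
    (j0 : Adj M g0 g1 g2 g3 g4 p0 q0 p1 q1)
    (m0 : M (s0 - g2 - g3))
    (m0' : M (s0 - g2 - g4))
    (m1 : M (s1 - g3 - g2))
    (m1' : M (s1 - g3 - g4))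
    (d01 : s0 ≠ s1) : False := by
  obtain ⟨_, _, _, bp, xp⟩ := exR3 c h0.2.1 m0
  obtain ⟨_, _, _, bpw, xpw⟩ := exR3 c.s34 h0.2.1.s34 m0'
  obtain ⟨_, _, _, bq, xq⟩ := exR3' c.s23 h1.2.1.s23 m1
  obtain ⟨_, _, _, bqw, xqw⟩ := exR3' c.s23.s34 h1.2.1.s23.s34 m1'
  exact r_A2_23 c h0.1 h0.2.1 bp bpw h1.1 h1.2.1 bq bqw j0 (exD c h0 h1 d01) xp xpw xq xqw

theorem k_A3 (c : Ctx M F g0 g1 g2 g3 g4) {s0 p0 q0 s1 p1 q1 : ℤ}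
    (h0 : Cn M g0 g1 g2 g3 g4 s0 p0 q0)
    (h1 : Cn M g0 g1 g2 g3 g4 s1 p1 q1)
    (f0 : NE3 M s0 g2 g3 g4)
    (l0 : M (s0 - g2))
    (f1 : NE3 M s1 g2 g3 g4)
    (l1 : M (s1 - g2))
    (d01 : s0 ≠ s1) : False := by
  obtain ⟨_, bp⟩ := exR1 c h0.2.1 f0 l0
  obtain ⟨_, bq⟩ := exR1 c h1.2.1 f1 l1
  exact r_A3 c h0.1 h0.2.1 bp f0 h1.1 h1.2.1 bq f1 (exD c h0 h1 d01)

theorem k_B1_2323 (c : Ctx M F g0 g1 g2 g3 g4) {s0 p0 q0 s1 p1 q1 s2 p2 q2 : ℤ}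
    (h0 : Cn M g0 g1 g2 g3 g4 s0 p0 q0)
    (h1 : Cn M g0 g1 g2 g3 g4 s1 p1 q1)
    (h2 : Cn M g0 g1 g2 g3 g4 s2 p2 q2)
    (j0 : Adj M g0 g1 g2 g3 g4 p0 q0 p1 q1)
    (j1 : Adj M g0 g1 g2 g3 g4 p1 q1 p2 q2)
    (m0 : M (s0 - g2 - g3))
    (f1 : NE3 M s1 g2 g3 g4)
    (l1 : M (s1 - g2))
    (m2 : M (s2 - g2 - g3))
    (d02 : s0 ≠ s2) : False := by
  obtain ⟨_, _, _, bp, xp⟩ := exR3 c h0.2.1 m0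
  obtain ⟨_, bq⟩ := exR1 c h1.2.1 f1 l1
  obtain ⟨_, _, _, br, xr⟩ := exR3' c h2.2.1 m2
  exact r_B1_2323 c h0.1 h0.2.1 bp h1.1 h1.2.1 bq f1 h2.1 h2.2.1 br j0 j1 (exD c h0 h2 d02) xp xr

theorem k_B1_2324 (c : Ctx M F g0 g1 g2 g3 g4) {s0 p0 q0 s1 p1 q1 s2 p2 q2 : ℤ}
    (h0 : Cn M g0 g1 g2 g3 g4 s0 p0 q0)
    (h1 : Cn M g0 g1 g2 g3 g4 s1 p1 q1)
    (h2 : Cn M g0 g1 g2 g3 g4 s2 p2 q2)
    (j0 : Adj M g0 g1 g2 g3 g4 p0 q0 p1 q1)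
    (j1 : Adj M g0 g1 g2 g3 g4 p1 q1 p2 q2)
    (m0 : M (s0 - g2 - g3))
    (f1 : NE3 M s1 g2 g3 g4)
    (l1 : M (s1 - g2))
    (m2 : M (s2 - g2 - g4))
    (d02 : s0 ≠ s2) : False := by
  obtain ⟨_, _, _, bp, xp⟩ := exR3 c h0.2.1 m0
  obtain ⟨_, bq⟩ := exR1 c h1.2.1 f1 l1
  obtain ⟨_, _, _, br, xr⟩ := exR3' c.s34 h2.2.1.s34 m2
  exact r_B1_2324 c h0.1 h0.2.1 bp h1.1 h1.2.1 bq f1 h2.1 h2.2.1 br j0 j1 (exD c h0 h2 d02) xp xr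

theorem k_B1_2334 (c : Ctx M F g0 g1 g2 g3 g4) {s0 p0 q0 s1 p1 q1 s2 p2 q2 : ℤ}
    (h0 : Cn M g0 g1 g2 g3 g4 s0 p0 q0)
    (h1 : Cn M g0 g1 g2 g3 g4 s1 p1 q1)
    (h2 : Cn M g0 g1 g2 g3 g4 s2 p2 q2)
    (j0 : Adj M g0 g1 g2 g3 g4 p0 q0 p1 q1)
    (j1 : Adj M g0 g1 g2 g3 g4 p1 q1 p2 q2)
    (m0 : M (s0 - g2 - g3))
    (f1 : NE3 M s1 g2 g3 g4)
    (l1 : M (s1 - g2))
    (m2 : M (s2 - g3 - g4))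
    (d02 : s0 ≠ s2) : False := by
  obtain ⟨_, _, _, bp, xp⟩ := exR3 c h0.2.1 m0
  obtain ⟨_, bq⟩ := exR1 c h1.2.1 f1 l1
  obtain ⟨_, _, _, br, xr⟩ := exR3 c.s23.s34 h2.2.1.s23.s34 m2
  exact r_B1_2334 c h0.1 h0.2.1 bp h1.1 h1.2.1 bq f1 h2.1 h2.2.1 br j0 j1 (exD c h0 h2 d02) xp xr

theorem k_B1_3434 (c : Ctx M F g0 g1 g2 g3 g4) {s0 p0 q0 s1 p1 q1 s2 p2 q2 : ℤ}
    (h0 : Cn M g0 g1 g2 g3 g4 s0 p0 q0)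
    (h1 : Cn M g0 g1 g2 g3 g4 s1 p1 q1)
    (h2 : Cn M g0 g1 g2 g3 g4 s2 p2 q2)
    (j0 : Adj M g0 g1 g2 g3 g4 p0 q0 p1 q1)
    (j1 : Adj M g0 g1 g2 g3 g4 p1 q1 p2 q2)
    (m0 : M (s0 - g3 - g4))
    (f1 : NE3 M s1 g2 g3 g4)
    (l1 : M (s1 - g2))
    (m2 : M (s2 - g3 - g4))
    (d02 : s0 ≠ s2) : False := by
  obtain ⟨_, _, _, bp, xp⟩ := exR3' c.s23.s34 h0.2.1.s23.s34 m0
  obtain ⟨_, bq⟩ := exR1 c h1.2.1 f1 l1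
  obtain ⟨_, _, _, br, xr⟩ := exR3' c.s23.s34 h2.2.1.s23.s34 m2
  exact r_B1_3434 c h0.1 h0.2.1 bp h1.1 h1.2.1 bq f1 h2.1 h2.2.1 br j0 j1 (exD c h0 h2 d02) xp xr

theorem k_B2_2323 (c : Ctx M F g0 g1 g2 g3 g4) {s0 p0 q0 s1 p1 q1 s2 p2 q2 s3 p3 q3 : ℤ}
    (h0 : Cn M g0 g1 g2 g3 g4 s0 p0 q0)
    (h1 : Cn M g0 g1 g2 g3 g4 s1 p1 q1)
    (h2 : Cn M g0 g1 g2 g3 g4 s2 p2 q2)
    (h3 : Cn M g0 g1 g2 g3 g4 s3 p3 q3)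
    (j0 : Adj M g0 g1 g2 g3 g4 p0 q0 p1 q1)
    (j1 : Adj M g0 g1 g2 g3 g4 p1 q1 p2 q2)
    (j2 : Adj M g0 g1 g2 g3 g4 p2 q2 p3 q3)
    (m0 : M (s0 - g2 - g3))
    (f1 : NE3 M s1 g2 g3 g4)
    (l1 : M (s1 - g2))
    (f2 : NE3 M s2 g2 g3 g4)
    (l2 : M (s2 - g3))
    (m3 : M (s3 - g2 - g3))
    (d03 : s0 ≠ s3)
    (d12 : s1 ≠ s2) : False := by
  obtain ⟨_, _, _, bp, xp⟩ := exR3 c h0.2.1 m0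
  obtain ⟨_, bq⟩ := exR1 c h1.2.1 f1 l1
  obtain ⟨_, br⟩ := exR1 c.s23 h2.2.1.s23 f2.s23 l2
  obtain ⟨_, _, _, bs, xs⟩ := exR3 c h3.2.1 m3
  exact r_B2_2323 c h0.1 h0.2.1 bp h1.1 h1.2.1 bq f1 h2.1 h2.2.1 br f2 h3.1 h3.2.1 bs j0 j1 j2 (exD c h0 h3 d03) (exD c h1 h2 d12) xp xs

theorem k_B2_2324 (c : Ctx M F g0 g1 g2 g3 g4) {s0 p0 q0 s1 p1 q1 s2 p2 q2 s3 p3 q3 : ℤ}
    (h0 : Cn M g0 g1 g2 g3 g4 s0 p0 q0)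
    (h1 : Cn M g0 g1 g2 g3 g4 s1 p1 q1)
    (h2 : Cn M g0 g1 g2 g3 g4 s2 p2 q2)
    (h3 : Cn M g0 g1 g2 g3 g4 s3 p3 q3)
    (j0 : Adj M g0 g1 g2 g3 g4 p0 q0 p1 q1)
    (j1 : Adj M g0 g1 g2 g3 g4 p1 q1 p2 q2)
    (j2 : Adj M g0 g1 g2 g3 g4 p2 q2 p3 q3)
    (m0 : M (s0 - g2 - g3))
    (f1 : NE3 M s1 g2 g3 g4)
    (l1 : M (s1 - g2))
    (f2 : NE3 M s2 g2 g3 g4)
    (l2 : M (s2 - g3))
    (m3 : M (s3 - g2 - g4))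
    (d03 : s0 ≠ s3)
    (d12 : s1 ≠ s2) : False := by
  obtain ⟨_, _, _, bp, xp⟩ := exR3' c h0.2.1 m0
  obtain ⟨_, bq⟩ := exR1 c h1.2.1 f1 l1
  obtain ⟨_, br⟩ := exR1 c.s23 h2.2.1.s23 f2.s23 l2
  obtain ⟨_, _, _, bs, xs⟩ := exR3' c.s34 h3.2.1.s34 m3
  exact r_B2_2324 c h0.1 h0.2.1 bp h1.1 h1.2.1 bq f1 h2.1 h2.2.1 br f2 h3.1 h3.2.1 bs j0 j1 j2 (exD c h0 h3 d03) (exD c h1 h2 d12) xp xs

theorem k_B2_2334 (c : Ctx M F g0 g1 g2 g3 g4) {s0 p0 q0 s1 p1 q1 s2 p2 q2 s3 p3 q3 : ℤ}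
    (h0 : Cn M g0 g1 g2 g3 g4 s0 p0 q0)
    (h1 : Cn M g0 g1 g2 g3 g4 s1 p1 q1)
    (h2 : Cn M g0 g1 g2 g3 g4 s2 p2 q2)
    (h3 : Cn M g0 g1 g2 g3 g4 s3 p3 q3)
    (j0 : Adj M g0 g1 g2 g3 g4 p0 q0 p1 q1)
    (j1 : Adj M g0 g1 g2 g3 g4 p1 q1 p2 q2)
    (j2 : Adj M g0 g1 g2 g3 g4 p2 q2 p3 q3)
    (m0 : M (s0 - g2 - g3))
    (f1 : NE3 M s1 g2 g3 g4)
    (l1 : M (s1 - g2))
    (f2 : NE3 M s2 g2 g3 g4)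
    (l2 : M (s2 - g3))
    (m3 : M (s3 - g3 - g4))
    (d03 : s0 ≠ s3)
    (d12 : s1 ≠ s2) : False := by
  obtain ⟨_, _, _, bp, xp⟩ := exR3 c h0.2.1 m0
  obtain ⟨_, bq⟩ := exR1 c h1.2.1 f1 l1
  obtain ⟨_, br⟩ := exR1 c.s23 h2.2.1.s23 f2.s23 l2
  obtain ⟨_, _, _, bs, xs⟩ := exR3 c.s23.s34 h3.2.1.s23.s34 m3
  exact r_B2_2334 c h0.1 h0.2.1 bp h1.1 h1.2.1 bq f1 h2.1 h2.2.1 br f2 h3.1 h3.2.1 bs j0 j1 j2 (exD c h0 h3 d03) (exD c h1 h2 d12) xp xs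

theorem k_B2_2424 (c : Ctx M F g0 g1 g2 g3 g4) {s0 p0 q0 s1 p1 q1 s2 p2 q2 s3 p3 q3 : ℤ}
    (h0 : Cn M g0 g1 g2 g3 g4 s0 p0 q0)
    (h1 : Cn M g0 g1 g2 g3 g4 s1 p1 q1)
    (h2 : Cn M g0 g1 g2 g3 g4 s2 p2 q2)
    (h3 : Cn M g0 g1 g2 g3 g4 s3 p3 q3)
    (j0 : Adj M g0 g1 g2 g3 g4 p0 q0 p1 q1)
    (j1 : Adj M g0 g1 g2 g3 g4 p1 q1 p2 q2)
    (j2 : Adj M g0 g1 g2 g3 g4 p2 q2 p3 q3)
    (m0 : M (s0 - g2 - g4))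
    (f1 : NE3 M s1 g2 g3 g4)
    (l1 : M (s1 - g2))
    (f2 : NE3 M s2 g2 g3 g4)
    (l2 : M (s2 - g3))
    (m3 : M (s3 - g2 - g4))
    (d03 : s0 ≠ s3)
    (d12 : s1 ≠ s2) : False := by
  obtain ⟨_, _, _, bp, xp⟩ := exR3 c.s34 h0.2.1.s34 m0
  obtain ⟨_, bq⟩ := exR1 c h1.2.1 f1 l1
  obtain ⟨_, br⟩ := exR1 c.s23 h2.2.1.s23 f2.s23 l2
  obtain ⟨_, _, _, bs, xs⟩ := exR3 c.s34 h3.2.1.s34 m3
  exact r_B2_2424 c h0.1 h0.2.1 bp h1.1 h1.2.1 bq f1 h2.1 h2.2.1 br f2 h3.1 h3.2.1 bs j0 j1 j2 (exD c h0 h3 d03) (exD c h1 h2 d12) xp xs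

theorem k_B2_2434 (c : Ctx M F g0 g1 g2 g3 g4) {s0 p0 q0 s1 p1 q1 s2 p2 q2 s3 p3 q3 : ℤ}
    (h0 : Cn M g0 g1 g2 g3 g4 s0 p0 q0)
    (h1 : Cn M g0 g1 g2 g3 g4 s1 p1 q1)
    (h2 : Cn M g0 g1 g2 g3 g4 s2 p2 q2)
    (h3 : Cn M g0 g1 g2 g3 g4 s3 p3 q3)
    (j0 : Adj M g0 g1 g2 g3 g4 p0 q0 p1 q1)
    (j1 : Adj M g0 g1 g2 g3 g4 p1 q1 p2 q2)
    (j2 : Adj M g0 g1 g2 g3 g4 p2 q2 p3 q3)
    (m0 : M (s0 - g2 - g4))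
    (f1 : NE3 M s1 g2 g3 g4)
    (l1 : M (s1 - g2))
    (f2 : NE3 M s2 g2 g3 g4)
    (l2 : M (s2 - g3))
    (m3 : M (s3 - g3 - g4))
    (d03 : s0 ≠ s3)
    (d12 : s1 ≠ s2) : False := by
  obtain ⟨_, _, _, bp, xp⟩ := exR3 c.s34 h0.2.1.s34 m0
  obtain ⟨_, bq⟩ := exR1 c h1.2.1 f1 l1
  obtain ⟨_, br⟩ := exR1 c.s23 h2.2.1.s23 f2.s23 l2
  obtain ⟨_, _, _, bs, xs⟩ := exR3 c.s23.s34 h3.2.1.s23.s34 m3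
  exact r_B2_2434 c h0.1 h0.2.1 bp h1.1 h1.2.1 bq f1 h2.1 h2.2.1 br f2 h3.1 h3.2.1 bs j0 j1 j2 (exD c h0 h3 d03) (exD c h1 h2 d12) xp xs

theorem k_B2_3424 (c : Ctx M F g0 g1 g2 g3 g4) {s0 p0 q0 s1 p1 q1 s2 p2 q2 s3 p3 q3 : ℤ}
    (h0 : Cn M g0 g1 g2 g3 g4 s0 p0 q0)
    (h1 : Cn M g0 g1 g2 g3 g4 s1 p1 q1)
    (h2 : Cn M g0 g1 g2 g3 g4 s2 p2 q2)
    (h3 : Cn M g0 g1 g2 g3 g4 s3 p3 q3)
    (j0 : Adj M g0 g1 g2 g3 g4 p0 q0 p1 q1)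
    (j1 : Adj M g0 g1 g2 g3 g4 p1 q1 p2 q2)
    (j2 : Adj M g0 g1 g2 g3 g4 p2 q2 p3 q3)
    (m0 : M (s0 - g3 - g4))
    (f1 : NE3 M s1 g2 g3 g4)
    (l1 : M (s1 - g2))
    (f2 : NE3 M s2 g2 g3 g4)
    (l2 : M (s2 - g3))
    (m3 : M (s3 - g2 - g4))
    (d03 : s0 ≠ s3)
    (d12 : s1 ≠ s2) : False := by
  obtain ⟨_, _, _, bp, xp⟩ := exR3 c.s23.s34 h0.2.1.s23.s34 m0
  obtain ⟨_, bq⟩ := exR1 c h1.2.1 f1 l1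
  obtain ⟨_, br⟩ := exR1 c.s23 h2.2.1.s23 f2.s23 l2
  obtain ⟨_, _, _, bs, xs⟩ := exR3 c.s34 h3.2.1.s34 m3
  exact r_B2_3424 c h0.1 h0.2.1 bp h1.1 h1.2.1 bq f1 h2.1 h2.2.1 br f2 h3.1 h3.2.1 bs j0 j1 j2 (exD c h0 h3 d03) (exD c h1 h2 d12) xp xs

theorem k_B3_23 (c : Ctx M F g0 g1 g2 g3 g4) {s0 p0 q0 s1 p1 q1 s2 p2 q2 s3 p3 q3 : ℤ}
    (h0 : Cn M g0 g1 g2 g3 g4 s0 p0 q0)
    (h1 : Cn M g0 g1 g2 g3 g4 s1 p1 q1)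
    (h2 : Cn M g0 g1 g2 g3 g4 s2 p2 q2)
    (h3 : Cn M g0 g1 g2 g3 g4 s3 p3 q3)
    (j0 : Adj M g0 g1 g2 g3 g4 p0 q0 p1 q1)
    (j1 : Adj M g0 g1 g2 g3 g4 p1 q1 p2 q2)
    (j2 : Adj M g0 g1 g2 g3 g4 p2 q2 p3 q3)
    (m0 : M (s0 - g2 - g3))
    (f1 : NE3 M s1 g2 g3 g4)
    (l1 : M (s1 - g2))
    (f2 : NE3 M s2 g2 g3 g4)
    (l2 : M (s2 - g3))
    (f3 : NE3 M s3 g2 g3 g4)
    (l3 : M (s3 - g4))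
    (d13 : s1 ≠ s3)
    (d12 : s1 ≠ s2)
    (d23 : s2 ≠ s3) : False := by
  obtain ⟨_, _, _, bp, xp⟩ := exR3 c h0.2.1 m0
  obtain ⟨_, bq⟩ := exR1 c h1.2.1 f1 l1
  obtain ⟨_, br⟩ := exR1 c.s23 h2.2.1.s23 f2.s23 l2
  obtain ⟨_, bs⟩ := exR1 c.s34.s23 h3.2.1.s34.s23 f3.s34.s23 l3
  exact r_B3_23 c h0.1 h0.2.1 bp h1.1 h1.2.1 bq f1 h2.1 h2.2.1 br f2 h3.1 h3.2.1 bs f3 j0 j1 j2 (exD c h1 h3 d13) (exD c h1 h2 d12) (exD c h2 h3 d23)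

theorem k_B3_24 (c : Ctx M F g0 g1 g2 g3 g4) {s0 p0 q0 s1 p1 q1 s2 p2 q2 s3 p3 q3 : ℤ}
    (h0 : Cn M g0 g1 g2 g3 g4 s0 p0 q0)
    (h1 : Cn M g0 g1 g2 g3 g4 s1 p1 q1)
    (h2 : Cn M g0 g1 g2 g3 g4 s2 p2 q2)
    (h3 : Cn M g0 g1 g2 g3 g4 s3 p3 q3)
    (j0 : Adj M g0 g1 g2 g3 g4 p0 q0 p1 q1)
    (j1 : Adj M g0 g1 g2 g3 g4 p1 q1 p2 q2)
    (j2 : Adj M g0 g1 g2 g3 g4 p2 q2 p3 q3)
    (m0 : M (s0 - g2 - g4))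
    (f1 : NE3 M s1 g2 g3 g4)
    (l1 : M (s1 - g2))
    (f2 : NE3 M s2 g2 g3 g4)
    (l2 : M (s2 - g3))
    (f3 : NE3 M s3 g2 g3 g4)
    (l3 : M (s3 - g4))
    (d13 : s1 ≠ s3)
    (d12 : s1 ≠ s2)
    (d23 : s2 ≠ s3) : False := by
  obtain ⟨_, _, _, bp, xp⟩ := exR3 c.s34 h0.2.1.s34 m0
  obtain ⟨_, bq⟩ := exR1 c h1.2.1 f1 l1
  obtain ⟨_, br⟩ := exR1 c.s23 h2.2.1.s23 f2.s23 l2
  obtain ⟨_, bs⟩ := exR1 c.s34.s23 h3.2.1.s34.s23 f3.s34.s23 l3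
  exact r_B3_24 c h0.1 h0.2.1 bp h1.1 h1.2.1 bq f1 h2.1 h2.2.1 br f2 h3.1 h3.2.1 bs f3 j0 j1 j2 (exD c h1 h3 d13) (exD c h1 h2 d12) (exD c h2 h3 d23)

theorem k_B3_34 (c : Ctx M F g0 g1 g2 g3 g4) {s0 p0 q0 s1 p1 q1 s2 p2 q2 s3 p3 q3 : ℤ}
    (h0 : Cn M g0 g1 g2 g3 g4 s0 p0 q0)
    (h1 : Cn M g0 g1 g2 g3 g4 s1 p1 q1)
    (h2 : Cn M g0 g1 g2 g3 g4 s2 p2 q2)
    (h3 : Cn M g0 g1 g2 g3 g4 s3 p3 q3)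
    (j0 : Adj M g0 g1 g2 g3 g4 p0 q0 p1 q1)
    (j1 : Adj M g0 g1 g2 g3 g4 p1 q1 p2 q2)
    (j2 : Adj M g0 g1 g2 g3 g4 p2 q2 p3 q3)
    (m0 : M (s0 - g3 - g4))
    (f1 : NE3 M s1 g2 g3 g4)
    (l1 : M (s1 - g2))
    (f2 : NE3 M s2 g2 g3 g4)
    (l2 : M (s2 - g3))
    (f3 : NE3 M s3 g2 g3 g4)
    (l3 : M (s3 - g4))
    (d13 : s1 ≠ s3)
    (d12 : s1 ≠ s2)
    (d23 : s2 ≠ s3) : False := by
  obtain ⟨_, _, _, bp, xp⟩ := exR3 c.s23.s34 h0.2.1.s23.s34 m0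
  obtain ⟨_, bq⟩ := exR1 c h1.2.1 f1 l1
  obtain ⟨_, br⟩ := exR1 c.s23 h2.2.1.s23 f2.s23 l2
  obtain ⟨_, bs⟩ := exR1 c.s34.s23 h3.2.1.s34.s23 f3.s34.s23 l3
  exact r_B3_34 c h0.1 h0.2.1 bp h1.1 h1.2.1 bq f1 h2.1 h2.2.1 br f2 h3.1 h3.2.1 bs f3 j0 j1 j2 (exD c h1 h3 d13) (exD c h1 h2 d12) (exD c h2 h3 d23)

theorem k_C_232323 (c : Ctx M F g0 g1 g2 g3 g4) {s0 p0 q0 s1 p1 q1 s2 p2 q2 : ℤ}
    (h0 : Cn M g0 g1 g2 g3 g4 s0 p0 q0)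
    (h1 : Cn M g0 g1 g2 g3 g4 s1 p1 q1)
    (h2 : Cn M g0 g1 g2 g3 g4 s2 p2 q2)
    (j0 : Adj M g0 g1 g2 g3 g4 p0 q0 p1 q1)
    (j1 : Adj M g0 g1 g2 g3 g4 p1 q1 p2 q2)
    (m0 : M (s0 - g2 - g3))
    (m1 : M (s1 - g2 - g3))
    (m2 : M (s2 - g2 - g3))
    (d01 : s0 ≠ s1)
    (d12 : s1 ≠ s2)
    (d02 : s0 ≠ s2) : False := by
  obtain ⟨_, _, _, bp, xp⟩ := exR3 c h0.2.1 m0
  obtain ⟨_, _, _, bq, xq⟩ := exR3 c h1.2.1 m1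
  obtain ⟨_, _, _, br, xr⟩ := exR3 c h2.2.1 m2
  exact r_C_232323 c h0.1 h0.2.1 bp h1.1 h1.2.1 bq h2.1 h2.2.1 br j0 j1 (exD c h0 h1 d01) (exD c h1 h2 d12) (exD c h0 h2 d02) xp xq xr

theorem k_C_232324 (c : Ctx M F g0 g1 g2 g3 g4) {s0 p0 q0 s1 p1 q1 s2 p2 q2 : ℤ}
    (h0 : Cn M g0 g1 g2 g3 g4 s0 p0 q0)
    (h1 : Cn M g0 g1 g2 g3 g4 s1 p1 q1)
    (h2 : Cn M g0 g1 g2 g3 g4 s2 p2 q2)
    (j0 : Adj M g0 g1 g2 g3 g4 p0 q0 p1 q1)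
    (j1 : Adj M g0 g1 g2 g3 g4 p1 q1 p2 q2)
    (m0 : M (s0 - g2 - g3))
    (m1 : M (s1 - g2 - g3))
    (m2 : M (s2 - g2 - g4))
    (d01 : s0 ≠ s1)
    (d12 : s1 ≠ s2)
    (d02 : s0 ≠ s2) : False := by
  obtain ⟨_, _, _, bp, xp⟩ := exR3 c h0.2.1 m0
  obtain ⟨_, _, _, bq, xq⟩ := exR3 c h1.2.1 m1
  obtain ⟨_, _, _, br, xr⟩ := exR3 c.s34 h2.2.1.s34 m2
  obtain ⟨_, _, _, _, _, n0⟩ := exN c h0.1 h0.2.1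
  obtain ⟨_, _, _, _, _, n2⟩ := exN c.s01 h2.1.s01 h2.2.1.s01
  exact r_C_232324 c h0.1 h0.2.1 bp h1.1 h1.2.1 bq h2.1 h2.2.1 br j0 j1 (exD c h0 h1 d01) (exD c h1 h2 d12) (exD c h0 h2 d02) n0 n2

theorem k_C_232423 (c : Ctx M F g0 g1 g2 g3 g4) {s0 p0 q0 s1 p1 q1 s2 p2 q2 : ℤ}
    (h0 : Cn M g0 g1 g2 g3 g4 s0 p0 q0)
    (h1 : Cn M g0 g1 g2 g3 g4 s1 p1 q1)
    (h2 : Cn M g0 g1 g2 g3 g4 s2 p2 q2)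
    (j0 : Adj M g0 g1 g2 g3 g4 p0 q0 p1 q1)
    (j1 : Adj M g0 g1 g2 g3 g4 p1 q1 p2 q2)
    (m0 : M (s0 - g2 - g3))
    (m1 : M (s1 - g2 - g4))
    (m2 : M (s2 - g2 - g3))
    (d01 : s0 ≠ s1)
    (d12 : s1 ≠ s2)
    (d02 : s0 ≠ s2) : False := by
  obtain ⟨_, _, _, bp, xp⟩ := exR3 c h0.2.1 m0
  obtain ⟨_, _, _, bq, xq⟩ := exR3 c.s34 h1.2.1.s34 m1
  obtain ⟨_, _, _, br, xr⟩ := exR3 c h2.2.1 m2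
  exact r_C_232423 c h0.1 h0.2.1 bp h1.1 h1.2.1 bq h2.1 h2.2.1 br j0 j1 (exD c h0 h1 d01) (exD c h1 h2 d12) (exD c h0 h2 d02) xp xq xr

theorem k_C_232434 (c : Ctx M F g0 g1 g2 g3 g4) {s0 p0 q0 s1 p1 q1 s2 p2 q2 : ℤ}
    (h0 : Cn M g0 g1 g2 g3 g4 s0 p0 q0)
    (h1 : Cn M g0 g1 g2 g3 g4 s1 p1 q1)
    (h2 : Cn M g0 g1 g2 g3 g4 s2 p2 q2)
    (j0 : Adj M g0 g1 g2 g3 g4 p0 q0 p1 q1)
    (j1 : Adj M g0 g1 g2 g3 g4 p1 q1 p2 q2)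
    (m0 : M (s0 - g2 - g3))
    (m1 : M (s1 - g2 - g4))
    (m2 : M (s2 - g3 - g4))
    (d01 : s0 ≠ s1)
    (d12 : s1 ≠ s2)
    (d02 : s0 ≠ s2) : False := by
  obtain ⟨_, _, _, bp, xp⟩ := exR3 c h0.2.1 m0
  obtain ⟨_, _, _, bq, xq⟩ := exR3 c.s34 h1.2.1.s34 m1
  obtain ⟨_, _, _, br, xr⟩ := exR3 c.s23.s34 h2.2.1.s23.s34 m2
  obtain ⟨_, _, _, _, _, n0⟩ := exN c h0.1 h0.2.1
  obtain ⟨_, _, _, _, _, n2⟩ := exN c.s01 h2.1.s01 h2.2.1.s01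
  exact r_C_232434 c h0.1 h0.2.1 bp h1.1 h1.2.1 bq h2.1 h2.2.1 br j0 j1 (exD c h0 h1 d01) (exD c h1 h2 d12) (exD c h0 h2 d02) n0 n2

theorem lA2 (c : Ctx M F g0 g1 g2 g3 g4) {s0 p0 q0 s1 p1 q1 : ℤ}
    (h0 : Cn M g0 g1 g2 g3 g4 s0 p0 q0)
    (h1 : Cn M g0 g1 g2 g3 g4 s1 p1 q1)
    (j0 : Adj M g0 g1 g2 g3 g4 p0 q0 p1 q1)
    (m0 : Hx M s0 g2 g3 g4)
    (m1 : Hx M s1 g2 g3 g4)
    (d01 : s0 ≠ s1) : False := by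
  rcases m0 with m0 | m0 | m0
  · rcases m1 with m1 | m1 | m1
    · exact k_A2_22 c h0 h1 j0 m0.1 m0.2 m1.1 m1.2 d01
    · exact k_A2_23 c h0 h1 j0 m0.1 m0.2 m1.1 m1.2 d01
    · exact k_A2_23 c.s34 h0.s34 h1.s34 j0.s34 m0.2 m0.1 m1.1 m1.2 d01
  · rcases m1 with m1 | m1 | m1
    · exact k_A2_23 c.s23 h0.s23 h1.s23 j0.s23 m0.1 m0.2 m1.1 m1.2 d01
    · exact k_A2_22 c.s23 h0.s23 h1.s23 j0.s23 m0.1 m0.2 m1.1 m1.2 d01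
    · exact k_A2_23 c.s23.s34 h0.s23.s34 h1.s23.s34 j0.s23.s34 m0.2 m0.1 m1.2 m1.1 d01
  · rcases m1 with m1 | m1 | m1
    · exact k_A2_23 c.s34.s23 h0.s34.s23 h1.s34.s23 j0.s34.s23 m0.1 m0.2 m1.2 m1.1 d01
    · exact k_A2_23 c.s34.s23.s34 h0.s34.s23.s34 h1.s34.s23.s34 j0.s34.s23.s34 m0.2 m0.1 m1.2 m1.1 d01
    · exact k_A2_22 c.s34.s23 h0.s34.s23 h1.s34.s23 j0.s34.s23 m0.1 m0.2 m1.1 m1.2 d01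

theorem lB1 (c : Ctx M F g0 g1 g2 g3 g4) {s0 p0 q0 s1 p1 q1 s2 p2 q2 : ℤ}
    (h0 : Cn M g0 g1 g2 g3 g4 s0 p0 q0)
    (h1 : Cn M g0 g1 g2 g3 g4 s1 p1 q1)
    (h2 : Cn M g0 g1 g2 g3 g4 s2 p2 q2)
    (j0 : Adj M g0 g1 g2 g3 g4 p0 q0 p1 q1)
    (j1 : Adj M g0 g1 g2 g3 g4 p1 q1 p2 q2)
    (m0 : Mx M s0 g2 g3 g4)
    (f1 : NE3 M s1 g2 g3 g4)
    (m2 : Mx M s2 g2 g3 g4)
    (d02 : s0 ≠ s2) : False := by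
  rcases m0 with m0 | m0 | m0
  · rcases h1.2.2 with l1 | l1 | l1
    · rcases m2 with m2 | m2 | m2
      · exact k_B1_2323 c h0 h1 h2 j0 j1 m0 f1 l1 m2 d02
      · exact k_B1_2324 c h0 h1 h2 j0 j1 m0 f1 l1 m2 d02
      · exact k_B1_2334 c h0 h1 h2 j0 j1 m0 f1 l1 m2 d02
    · rcases m2 with m2 | m2 | m2
      · exact k_B1_2323 c.s23 h0.s23 h1.s23 h2.s23 j0.s23 j1.s23 (es m0) f1.s23 l1 (es m2) d02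
      · exact k_B1_2334 c.s23 h0.s23 h1.s23 h2.s23 j0.s23 j1.s23 (es m0) f1.s23 l1 m2 d02
      · exact k_B1_2324 c.s23 h0.s23 h1.s23 h2.s23 j0.s23 j1.s23 (es m0) f1.s23 l1 m2 d02
    · rcases m2 with m2 | m2 | m2
      · exact k_B1_3434 c.s34.s23 h0.s34.s23 h1.s34.s23 h2.s34.s23 j0.s34.s23 j1.s34.s23 m0 f1.s34.s23 l1 m2 d02
      · exact k_B1_2334 c.s01.s34.s23 h2.s01.s34.s23 h1.s01.s34.s23 h0.s01.s34.s23 j1.s01.s34.s23 j0.s01.s34.s23 (es m2) f1.s34.s23 l1 m0 d02.symm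
      · exact k_B1_2334 c.s01.s34.s23.s34 h2.s01.s34.s23.s34 h1.s01.s34.s23.s34 h0.s01.s34.s23.s34 j1.s01.s34.s23.s34 j0.s01.s34.s23.s34 (es m2) f1.s34.s23.s34 l1 (es m0) d02.symm
  · rcases h1.2.2 with l1 | l1 | l1
    · rcases m2 with m2 | m2 | m2
      · exact k_B1_2324 c.s34 h0.s34 h1.s34 h2.s34 j0.s34 j1.s34 m0 f1.s34 l1 m2 d02
      · exact k_B1_2323 c.s34 h0.s34 h1.s34 h2.s34 j0.s34 j1.s34 m0 f1.s34 l1 m2 d02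
      · exact k_B1_2334 c.s34 h0.s34 h1.s34 h2.s34 j0.s34 j1.s34 m0 f1.s34 l1 (es m2) d02
    · rcases m2 with m2 | m2 | m2
      · exact k_B1_2334 c.s01.s23 h2.s01.s23 h1.s01.s23 h0.s01.s23 j1.s01.s23 j0.s01.s23 (es m2) f1.s23 l1 m0 d02.symm
      · exact k_B1_3434 c.s23 h0.s23 h1.s23 h2.s23 j0.s23 j1.s23 m0 f1.s23 l1 m2 d02
      · exact k_B1_2334 c.s01.s23.s34 h2.s01.s23.s34 h1.s01.s23.s34 h0.s01.s23.s34 j1.s01.s23.s34 j0.s01.s23.s34 m2 f1.s23.s34 l1 (es m0) d02.symm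
    · rcases m2 with m2 | m2 | m2
      · exact k_B1_2334 c.s34.s23 h0.s34.s23 h1.s34.s23 h2.s34.s23 j0.s34.s23 j1.s34.s23 (es m0) f1.s34.s23 l1 m2 d02
      · exact k_B1_2323 c.s34.s23 h0.s34.s23 h1.s34.s23 h2.s34.s23 j0.s34.s23 j1.s34.s23 (es m0) f1.s34.s23 l1 (es m2) d02
      · exact k_B1_2324 c.s34.s23 h0.s34.s23 h1.s34.s23 h2.s34.s23 j0.s34.s23 j1.s34.s23 (es m0) f1.s34.s23 l1 (es m2) d02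
  · rcases h1.2.2 with l1 | l1 | l1
    · rcases m2 with m2 | m2 | m2
      · exact k_B1_2334 c.s01 h2.s01 h1.s01 h0.s01 j1.s01 j0.s01 m2 f1 l1 m0 d02.symm
      · exact k_B1_2334 c.s01.s34 h2.s01.s34 h1.s01.s34 h0.s01.s34 j1.s01.s34 j0.s01.s34 m2 f1.s34 l1 (es m0) d02.symm
      · exact k_B1_3434 c h0 h1 h2 j0 j1 m0 f1 l1 m2 d02
    · rcases m2 with m2 | m2 | m2
      · exact k_B1_2324 c.s23.s34 h0.s23.s34 h1.s23.s34 h2.s23.s34 j0.s23.s34 j1.s23.s34 m0 f1.s23.s34 l1 (es m2) d02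
      · exact k_B1_2334 c.s23.s34 h0.s23.s34 h1.s23.s34 h2.s23.s34 j0.s23.s34 j1.s23.s34 m0 f1.s23.s34 l1 (es m2) d02
      · exact k_B1_2323 c.s23.s34 h0.s23.s34 h1.s23.s34 h2.s23.s34 j0.s23.s34 j1.s23.s34 m0 f1.s23.s34 l1 m2 d02
    · rcases m2 with m2 | m2 | m2
      · exact k_B1_2334 c.s34.s23.s34 h0.s34.s23.s34 h1.s34.s23.s34 h2.s34.s23.s34 j0.s34.s23.s34 j1.s34.s23.s34 (es m0) f1.s34.s23.s34 l1 (es m2) d02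
      · exact k_B1_2324 c.s34.s23.s34 h0.s34.s23.s34 h1.s34.s23.s34 h2.s34.s23.s34 j0.s34.s23.s34 j1.s34.s23.s34 (es m0) f1.s34.s23.s34 l1 (es m2) d02
      · exact k_B1_2323 c.s34.s23.s34 h0.s34.s23.s34 h1.s34.s23.s34 h2.s34.s23.s34 j0.s34.s23.s34 j1.s34.s23.s34 (es m0) f1.s34.s23.s34 l1 (es m2) d02

theorem lB2 (c : Ctx M F g0 g1 g2 g3 g4) {s0 p0 q0 s1 p1 q1 s2 p2 q2 s3 p3 q3 : ℤ}
    (h0 : Cn M g0 g1 g2 g3 g4 s0 p0 q0)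
    (h1 : Cn M g0 g1 g2 g3 g4 s1 p1 q1)
    (h2 : Cn M g0 g1 g2 g3 g4 s2 p2 q2)
    (h3 : Cn M g0 g1 g2 g3 g4 s3 p3 q3)
    (j0 : Adj M g0 g1 g2 g3 g4 p0 q0 p1 q1)
    (j1 : Adj M g0 g1 g2 g3 g4 p1 q1 p2 q2)
    (j2 : Adj M g0 g1 g2 g3 g4 p2 q2 p3 q3)
    (m0 : Mx M s0 g2 g3 g4)
    (f1 : NE3 M s1 g2 g3 g4)
    (f2 : NE3 M s2 g2 g3 g4)
    (m3 : Mx M s3 g2 g3 g4)
    (d03 : s0 ≠ s3)
    (d12 : s1 ≠ s2) : False := by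
  rcases m0 with m0 | m0 | m0
  · rcases h1.2.2 with l1 | l1 | l1
    · rcases h2.2.2 with l2 | l2 | l2
      · exact k_A3 c h1 h2 f1 l1 f2 l2 d12
      · rcases m3 with m3 | m3 | m3
        · exact k_B2_2323 c h0 h1 h2 h3 j0 j1 j2 m0 f1 l1 f2 l2 m3 d03 d12
        · exact k_B2_2324 c h0 h1 h2 h3 j0 j1 j2 m0 f1 l1 f2 l2 m3 d03 d12
        · exact k_B2_2334 c h0 h1 h2 h3 j0 j1 j2 m0 f1 l1 f2 l2 m3 d03 d12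
      · rcases m3 with m3 | m3 | m3
        · exact k_B2_2424 c.s34 h0.s34 h1.s34 h2.s34 h3.s34 j0.s34 j1.s34 j2.s34 m0 f1.s34 l1 f2.s34 l2 m3 d03 d12
        · exact k_B2_2334 c.s01.s34.s23 h3.s01.s34.s23 h2.s01.s34.s23 h1.s01.s34.s23 h0.s01.s34.s23 j2.s01.s34.s23 j1.s01.s34.s23 j0.s01.s34.s23 (es m3) f2.s34.s23 l2 f1.s34.s23 l1 m0 d03.symm d12.symm
        · exact k_B2_2434 c.s34 h0.s34 h1.s34 h2.s34 h3.s34 j0.s34 j1.s34 j2.s34 m0 f1.s34 l1 f2.s34 l2 (es m3) d03 d12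
    · rcases h2.2.2 with l2 | l2 | l2
      · rcases m3 with m3 | m3 | m3
        · exact k_B2_2323 c.s23 h0.s23 h1.s23 h2.s23 h3.s23 j0.s23 j1.s23 j2.s23 (es m0) f1.s23 l1 f2.s23 l2 (es m3) d03 d12
        · exact k_B2_2334 c.s23 h0.s23 h1.s23 h2.s23 h3.s23 j0.s23 j1.s23 j2.s23 (es m0) f1.s23 l1 f2.s23 l2 m3 d03 d12
        · exact k_B2_2324 c.s23 h0.s23 h1.s23 h2.s23 h3.s23 j0.s23 j1.s23 j2.s23 (es m0) f1.s23 l1 f2.s23 l2 m3 d03 d12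
      · exact k_A3 c.s23 h1.s23 h2.s23 f1.s23 l1 f2.s23 l2 d12
      · rcases m3 with m3 | m3 | m3
        · exact k_B2_2424 c.s23.s34 h0.s23.s34 h1.s23.s34 h2.s23.s34 h3.s23.s34 j0.s23.s34 j1.s23.s34 j2.s23.s34 (es m0) f1.s23.s34 l1 f2.s23.s34 l2 (es m3) d03 d12
        · exact k_B2_2434 c.s23.s34 h0.s23.s34 h1.s23.s34 h2.s23.s34 h3.s23.s34 j0.s23.s34 j1.s23.s34 j2.s23.s34 (es m0) f1.s23.s34 l1 f2.s23.s34 l2 (es m3) d03 d12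
        · exact k_B2_2334 c.s01.s34.s23.s34 h3.s01.s34.s23.s34 h2.s01.s34.s23.s34 h1.s01.s34.s23.s34 h0.s01.s34.s23.s34 j2.s01.s34.s23.s34 j1.s01.s34.s23.s34 j0.s01.s34.s23.s34 (es m3) f2.s34.s23.s34 l2 f1.s34.s23.s34 l1 (es m0) d03.symm d12.symm
    · rcases h2.2.2 with l2 | l2 | l2
      · rcases m3 with m3 | m3 | m3
        · exact k_B2_2424 c.s01.s34 h3.s01.s34 h2.s01.s34 h1.s01.s34 h0.s01.s34 j2.s01.s34 j1.s01.s34 j0.s01.s34 m3 f2.s34 l2 f1.s34 l1 m0 d03.symm d12.symm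
        · exact k_B2_2324 c.s01.s34 h3.s01.s34 h2.s01.s34 h1.s01.s34 h0.s01.s34 j2.s01.s34 j1.s01.s34 j0.s01.s34 m3 f2.s34 l2 f1.s34 l1 m0 d03.symm d12.symm
        · exact k_B2_3424 c.s34.s23 h0.s34.s23 h1.s34.s23 h2.s34.s23 h3.s34.s23 j0.s34.s23 j1.s34.s23 j2.s34.s23 m0 f1.s34.s23 l1 f2.s34.s23 l2 (es m3) d03 d12
      · rcases m3 with m3 | m3 | m3
        · exact k_B2_2424 c.s01.s23.s34 h3.s01.s23.s34 h2.s01.s23.s34 h1.s01.s23.s34 h0.s01.s23.s34 j2.s01.s23.s34 j1.s01.s23.s34 j0.s01.s23.s34 (es m3) f2.s23.s34 l2 f1.s23.s34 l1 (es m0) d03.symm d12.symm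
        · exact k_B2_3424 c.s34.s23.s34 h0.s34.s23.s34 h1.s34.s23.s34 h2.s34.s23.s34 h3.s34.s23.s34 j0.s34.s23.s34 j1.s34.s23.s34 j2.s34.s23.s34 (es m0) f1.s34.s23.s34 l1 f2.s34.s23.s34 l2 (es m3) d03 d12
        · exact k_B2_2324 c.s01.s23.s34 h3.s01.s23.s34 h2.s01.s23.s34 h1.s01.s23.s34 h0.s01.s23.s34 j2.s01.s23.s34 j1.s01.s23.s34 j0.s01.s23.s34 m3 f2.s23.s34 l2 f1.s23.s34 l1 (es m0) d03.symm d12.symm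
      · exact k_A3 c.s34.s23 h1.s34.s23 h2.s34.s23 f1.s34.s23 l1 f2.s34.s23 l2 d12
  · rcases h1.2.2 with l1 | l1 | l1
    · rcases h2.2.2 with l2 | l2 | l2
      · exact k_A3 c h1 h2 f1 l1 f2 l2 d12
      · rcases m3 with m3 | m3 | m3
        · exact k_B2_2334 c.s01.s23 h3.s01.s23 h2.s01.s23 h1.s01.s23 h0.s01.s23 j2.s01.s23 j1.s01.s23 j0.s01.s23 (es m3) f2.s23 l2 f1.s23 l1 m0 d03.symm d12.symm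
        · exact k_B2_2424 c h0 h1 h2 h3 j0 j1 j2 m0 f1 l1 f2 l2 m3 d03 d12
        · exact k_B2_2434 c h0 h1 h2 h3 j0 j1 j2 m0 f1 l1 f2 l2 m3 d03 d12
      · rcases m3 with m3 | m3 | m3
        · exact k_B2_2324 c.s34 h0.s34 h1.s34 h2.s34 h3.s34 j0.s34 j1.s34 j2.s34 m0 f1.s34 l1 f2.s34 l2 m3 d03 d12
        · exact k_B2_2323 c.s34 h0.s34 h1.s34 h2.s34 h3.s34 j0.s34 j1.s34 j2.s34 m0 f1.s34 l1 f2.s34 l2 m3 d03 d12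
        · exact k_B2_2334 c.s34 h0.s34 h1.s34 h2.s34 h3.s34 j0.s34 j1.s34 j2.s34 m0 f1.s34 l1 f2.s34 l2 (es m3) d03 d12
    · rcases h2.2.2 with l2 | l2 | l2
      · rcases m3 with m3 | m3 | m3
        · exact k_B2_2324 c.s01 h3.s01 h2.s01 h1.s01 h0.s01 j2.s01 j1.s01 j0.s01 m3 f2 l2 f1 l1 m0 d03.symm d12.symm
        · exact k_B2_2424 c.s01 h3.s01 h2.s01 h1.s01 h0.s01 j2.s01 j1.s01 j0.s01 m3 f2 l2 f1 l1 m0 d03.symm d12.symm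
        · exact k_B2_3424 c.s23 h0.s23 h1.s23 h2.s23 h3.s23 j0.s23 j1.s23 j2.s23 m0 f1.s23 l1 f2.s23 l2 m3 d03 d12
      · exact k_A3 c.s23 h1.s23 h2.s23 f1.s23 l1 f2.s23 l2 d12
      · rcases m3 with m3 | m3 | m3
        · exact k_B2_3424 c.s23.s34 h0.s23.s34 h1.s23.s34 h2.s23.s34 h3.s23.s34 j0.s23.s34 j1.s23.s34 j2.s23.s34 (es m0) f1.s23.s34 l1 f2.s23.s34 l2 (es m3) d03 d12
        · exact k_B2_2424 c.s01.s34.s23.s34 h3.s01.s34.s23.s34 h2.s01.s34.s23.s34 h1.s01.s34.s23.s34 h0.s01.s34.s23.s34 j2.s01.s34.s23.s34 j1.s01.s34.s23.s34 j0.s01.s34.s23.s34 (es m3) f2.s34.s23.s34 l2 f1.s34.s23.s34 l1 (es m0) d03.symm d12.symm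
        · exact k_B2_2324 c.s01.s34.s23.s34 h3.s01.s34.s23.s34 h2.s01.s34.s23.s34 h1.s01.s34.s23.s34 h0.s01.s34.s23.s34 j2.s01.s34.s23.s34 j1.s01.s34.s23.s34 j0.s01.s34.s23.s34 (es m3) f2.s34.s23.s34 l2 f1.s34.s23.s34 l1 (es m0) d03.symm d12.symm
    · rcases h2.2.2 with l2 | l2 | l2
      · rcases m3 with m3 | m3 | m3
        · exact k_B2_2334 c.s34.s23 h0.s34.s23 h1.s34.s23 h2.s34.s23 h3.s34.s23 j0.s34.s23 j1.s34.s23 j2.s34.s23 (es m0) f1.s34.s23 l1 f2.s34.s23 l2 m3 d03 d12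
        · exact k_B2_2323 c.s34.s23 h0.s34.s23 h1.s34.s23 h2.s34.s23 h3.s34.s23 j0.s34.s23 j1.s34.s23 j2.s34.s23 (es m0) f1.s34.s23 l1 f2.s34.s23 l2 (es m3) d03 d12
        · exact k_B2_2324 c.s34.s23 h0.s34.s23 h1.s34.s23 h2.s34.s23 h3.s34.s23 j0.s34.s23 j1.s34.s23 j2.s34.s23 (es m0) f1.s34.s23 l1 f2.s34.s23 l2 (es m3) d03 d12
      · rcases m3 with m3 | m3 | m3
        · exact k_B2_2434 c.s34.s23.s34 h0.s34.s23.s34 h1.s34.s23.s34 h2.s34.s23.s34 h3.s34.s23.s34 j0.s34.s23.s34 j1.s34.s23.s34 j2.s34.s23.s34 (es m0) f1.s34.s23.s34 l1 f2.s34.s23.s34 l2 (es m3) d03 d12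
        · exact k_B2_2424 c.s34.s23.s34 h0.s34.s23.s34 h1.s34.s23.s34 h2.s34.s23.s34 h3.s34.s23.s34 j0.s34.s23.s34 j1.s34.s23.s34 j2.s34.s23.s34 (es m0) f1.s34.s23.s34 l1 f2.s34.s23.s34 l2 (es m3) d03 d12
        · exact k_B2_2334 c.s01.s23.s34 h3.s01.s23.s34 h2.s01.s23.s34 h1.s01.s23.s34 h0.s01.s23.s34 j2.s01.s23.s34 j1.s01.s23.s34 j0.s01.s23.s34 m3 f2.s23.s34 l2 f1.s23.s34 l1 (es m0) d03.symm d12.symm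
      · exact k_A3 c.s34.s23 h1.s34.s23 h2.s34.s23 f1.s34.s23 l1 f2.s34.s23 l2 d12
  · rcases h1.2.2 with l1 | l1 | l1
    · rcases h2.2.2 with l2 | l2 | l2
      · exact k_A3 c h1 h2 f1 l1 f2 l2 d12
      · rcases m3 with m3 | m3 | m3
        · exact k_B2_2324 c.s01.s23 h3.s01.s23 h2.s01.s23 h1.s01.s23 h0.s01.s23 j2.s01.s23 j1.s01.s23 j0.s01.s23 (es m3) f2.s23 l2 f1.s23 l1 m0 d03.symm d12.symm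
        · exact k_B2_3424 c h0 h1 h2 h3 j0 j1 j2 m0 f1 l1 f2 l2 m3 d03 d12
        · exact k_B2_2424 c.s01.s23 h3.s01.s23 h2.s01.s23 h1.s01.s23 h0.s01.s23 j2.s01.s23 j1.s01.s23 j0.s01.s23 m3 f2.s23 l2 f1.s23 l1 m0 d03.symm d12.symm
      · rcases m3 with m3 | m3 | m3
        · exact k_B2_3424 c.s34 h0.s34 h1.s34 h2.s34 h3.s34 j0.s34 j1.s34 j2.s34 (es m0) f1.s34 l1 f2.s34 l2 m3 d03 d12
        · exact k_B2_2324 c.s01.s34.s23 h3.s01.s34.s23 h2.s01.s34.s23 h1.s01.s34.s23 h0.s01.s34.s23 j2.s01.s34.s23 j1.s01.s34.s23 j0.s01.s34.s23 (es m3) f2.s34.s23 l2 f1.s34.s23 l1 (es m0) d03.symm d12.symm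
        · exact k_B2_2424 c.s01.s34.s23 h3.s01.s34.s23 h2.s01.s34.s23 h1.s01.s34.s23 h0.s01.s34.s23 j2.s01.s34.s23 j1.s01.s34.s23 j0.s01.s34.s23 (es m3) f2.s34.s23 l2 f1.s34.s23 l1 (es m0) d03.symm d12.symm
    · rcases h2.2.2 with l2 | l2 | l2
      · rcases m3 with m3 | m3 | m3
        · exact k_B2_2334 c.s01 h3.s01 h2.s01 h1.s01 h0.s01 j2.s01 j1.s01 j0.s01 m3 f2 l2 f1 l1 m0 d03.symm d12.symm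
        · exact k_B2_2434 c.s23 h0.s23 h1.s23 h2.s23 h3.s23 j0.s23 j1.s23 j2.s23 m0 f1.s23 l1 f2.s23 l2 m3 d03 d12
        · exact k_B2_2424 c.s23 h0.s23 h1.s23 h2.s23 h3.s23 j0.s23 j1.s23 j2.s23 m0 f1.s23 l1 f2.s23 l2 m3 d03 d12
      · exact k_A3 c.s23 h1.s23 h2.s23 f1.s23 l1 f2.s23 l2 d12
      · rcases m3 with m3 | m3 | m3
        · exact k_B2_2324 c.s23.s34 h0.s23.s34 h1.s23.s34 h2.s23.s34 h3.s23.s34 j0.s23.s34 j1.s23.s34 j2.s23.s34 m0 f1.s23.s34 l1 f2.s23.s34 l2 (es m3) d03 d12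
        · exact k_B2_2334 c.s23.s34 h0.s23.s34 h1.s23.s34 h2.s23.s34 h3.s23.s34 j0.s23.s34 j1.s23.s34 j2.s23.s34 m0 f1.s23.s34 l1 f2.s23.s34 l2 (es m3) d03 d12
        · exact k_B2_2323 c.s23.s34 h0.s23.s34 h1.s23.s34 h2.s23.s34 h3.s23.s34 j0.s23.s34 j1.s23.s34 j2.s23.s34 m0 f1.s23.s34 l1 f2.s23.s34 l2 m3 d03 d12
    · rcases h2.2.2 with l2 | l2 | l2
      · rcases m3 with m3 | m3 | m3
        · exact k_B2_2434 c.s34.s23 h0.s34.s23 h1.s34.s23 h2.s34.s23 h3.s34.s23 j0.s34.s23 j1.s34.s23 j2.s34.s23 (es m0) f1.s34.s23 l1 f2.s34.s23 l2 m3 d03 d12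
        · exact k_B2_2334 c.s01.s34 h3.s01.s34 h2.s01.s34 h1.s01.s34 h0.s01.s34 j2.s01.s34 j1.s01.s34 j0.s01.s34 m3 f2.s34 l2 f1.s34 l1 (es m0) d03.symm d12.symm
        · exact k_B2_2424 c.s34.s23 h0.s34.s23 h1.s34.s23 h2.s34.s23 h3.s34.s23 j0.s34.s23 j1.s34.s23 j2.s34.s23 (es m0) f1.s34.s23 l1 f2.s34.s23 l2 (es m3) d03 d12
      · rcases m3 with m3 | m3 | m3
        · exact k_B2_2334 c.s34.s23.s34 h0.s34.s23.s34 h1.s34.s23.s34 h2.s34.s23.s34 h3.s34.s23.s34 j0.s34.s23.s34 j1.s34.s23.s34 j2.s34.s23.s34 (es m0) f1.s34.s23.s34 l1 f2.s34.s23.s34 l2 (es m3) d03 d12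
        · exact k_B2_2324 c.s34.s23.s34 h0.s34.s23.s34 h1.s34.s23.s34 h2.s34.s23.s34 h3.s34.s23.s34 j0.s34.s23.s34 j1.s34.s23.s34 j2.s34.s23.s34 (es m0) f1.s34.s23.s34 l1 f2.s34.s23.s34 l2 (es m3) d03 d12
        · exact k_B2_2323 c.s34.s23.s34 h0.s34.s23.s34 h1.s34.s23.s34 h2.s34.s23.s34 h3.s34.s23.s34 j0.s34.s23.s34 j1.s34.s23.s34 j2.s34.s23.s34 (es m0) f1.s34.s23.s34 l1 f2.s34.s23.s34 l2 (es m3) d03 d12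
      · exact k_A3 c.s34.s23 h1.s34.s23 h2.s34.s23 f1.s34.s23 l1 f2.s34.s23 l2 d12

theorem lB3 (c : Ctx M F g0 g1 g2 g3 g4) {s0 p0 q0 s1 p1 q1 s2 p2 q2 s3 p3 q3 : ℤ}
    (h0 : Cn M g0 g1 g2 g3 g4 s0 p0 q0)
    (h1 : Cn M g0 g1 g2 g3 g4 s1 p1 q1)
    (h2 : Cn M g0 g1 g2 g3 g4 s2 p2 q2)
    (h3 : Cn M g0 g1 g2 g3 g4 s3 p3 q3)
    (j0 : Adj M g0 g1 g2 g3 g4 p0 q0 p1 q1)
    (j1 : Adj M g0 g1 g2 g3 g4 p1 q1 p2 q2)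
    (j2 : Adj M g0 g1 g2 g3 g4 p2 q2 p3 q3)
    (m0 : Mx M s0 g2 g3 g4)
    (f1 : NE3 M s1 g2 g3 g4)
    (f2 : NE3 M s2 g2 g3 g4)
    (f3 : NE3 M s3 g2 g3 g4)
    (d12 : s1 ≠ s2)
    (d13 : s1 ≠ s3)
    (d23 : s2 ≠ s3) : False := by
  rcases m0 with m0 | m0 | m0
  · rcases h1.2.2 with l1 | l1 | l1
    · rcases h2.2.2 with l2 | l2 | l2
      · exact k_A3 c h1 h2 f1 l1 f2 l2 d12
      · rcases h3.2.2 with l3 | l3 | l3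
        · exact k_A3 c h1 h3 f1 l1 f3 l3 d13
        · exact k_A3 c.s23 h2.s23 h3.s23 f2.s23 l2 f3.s23 l3 d23
        · exact k_B3_23 c h0 h1 h2 h3 j0 j1 j2 m0 f1 l1 f2 l2 f3 l3 d13 d12 d23
      · rcases h3.2.2 with l3 | l3 | l3
        · exact k_A3 c h1 h3 f1 l1 f3 l3 d13
        · exact k_B3_24 c.s34 h0.s34 h1.s34 h2.s34 h3.s34 j0.s34 j1.s34 j2.s34 m0 f1.s34 l1 f2.s34 l2 f3.s34 l3 d13 d12 d23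
        · exact k_A3 c.s34.s23 h2.s34.s23 h3.s34.s23 f2.s34.s23 l2 f3.s34.s23 l3 d23
    · rcases h2.2.2 with l2 | l2 | l2
      · rcases h3.2.2 with l3 | l3 | l3
        · exact k_A3 c h2 h3 f2 l2 f3 l3 d23
        · exact k_A3 c.s23 h1.s23 h3.s23 f1.s23 l1 f3.s23 l3 d13
        · exact k_B3_23 c.s23 h0.s23 h1.s23 h2.s23 h3.s23 j0.s23 j1.s23 j2.s23 (es m0) f1.s23 l1 f2.s23 l2 f3.s23 l3 d13 d12 d23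
      · exact k_A3 c.s23 h1.s23 h2.s23 f1.s23 l1 f2.s23 l2 d12
      · rcases h3.2.2 with l3 | l3 | l3
        · exact k_B3_24 c.s23.s34 h0.s23.s34 h1.s23.s34 h2.s23.s34 h3.s23.s34 j0.s23.s34 j1.s23.s34 j2.s23.s34 (es m0) f1.s23.s34 l1 f2.s23.s34 l2 f3.s23.s34 l3 d13 d12 d23
        · exact k_A3 c.s23 h1.s23 h3.s23 f1.s23 l1 f3.s23 l3 d13
        · exact k_A3 c.s34.s23 h2.s34.s23 h3.s34.s23 f2.s34.s23 l2 f3.s34.s23 l3 d23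
    · rcases h2.2.2 with l2 | l2 | l2
      · rcases h3.2.2 with l3 | l3 | l3
        · exact k_A3 c h2 h3 f2 l2 f3 l3 d23
        · exact k_B3_34 c.s34.s23 h0.s34.s23 h1.s34.s23 h2.s34.s23 h3.s34.s23 j0.s34.s23 j1.s34.s23 j2.s34.s23 m0 f1.s34.s23 l1 f2.s34.s23 l2 f3.s34.s23 l3 d13 d12 d23
        · exact k_A3 c.s34.s23 h1.s34.s23 h3.s34.s23 f1.s34.s23 l1 f3.s34.s23 l3 d13
      · rcases h3.2.2 with l3 | l3 | l3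
        · exact k_B3_34 c.s34.s23.s34 h0.s34.s23.s34 h1.s34.s23.s34 h2.s34.s23.s34 h3.s34.s23.s34 j0.s34.s23.s34 j1.s34.s23.s34 j2.s34.s23.s34 (es m0) f1.s34.s23.s34 l1 f2.s34.s23.s34 l2 f3.s34.s23.s34 l3 d13 d12 d23
        · exact k_A3 c.s23 h2.s23 h3.s23 f2.s23 l2 f3.s23 l3 d23
        · exact k_A3 c.s34.s23 h1.s34.s23 h3.s34.s23 f1.s34.s23 l1 f3.s34.s23 l3 d13
      · exact k_A3 c.s34.s23 h1.s34.s23 h2.s34.s23 f1.s34.s23 l1 f2.s34.s23 l2 d12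
  · rcases h1.2.2 with l1 | l1 | l1
    · rcases h2.2.2 with l2 | l2 | l2
      · exact k_A3 c h1 h2 f1 l1 f2 l2 d12
      · rcases h3.2.2 with l3 | l3 | l3
        · exact k_A3 c h1 h3 f1 l1 f3 l3 d13
        · exact k_A3 c.s23 h2.s23 h3.s23 f2.s23 l2 f3.s23 l3 d23
        · exact k_B3_24 c h0 h1 h2 h3 j0 j1 j2 m0 f1 l1 f2 l2 f3 l3 d13 d12 d23
      · rcases h3.2.2 with l3 | l3 | l3
        · exact k_A3 c h1 h3 f1 l1 f3 l3 d13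
        · exact k_B3_23 c.s34 h0.s34 h1.s34 h2.s34 h3.s34 j0.s34 j1.s34 j2.s34 m0 f1.s34 l1 f2.s34 l2 f3.s34 l3 d13 d12 d23
        · exact k_A3 c.s34.s23 h2.s34.s23 h3.s34.s23 f2.s34.s23 l2 f3.s34.s23 l3 d23
    · rcases h2.2.2 with l2 | l2 | l2
      · rcases h3.2.2 with l3 | l3 | l3
        · exact k_A3 c h2 h3 f2 l2 f3 l3 d23
        · exact k_A3 c.s23 h1.s23 h3.s23 f1.s23 l1 f3.s23 l3 d13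
        · exact k_B3_34 c.s23 h0.s23 h1.s23 h2.s23 h3.s23 j0.s23 j1.s23 j2.s23 m0 f1.s23 l1 f2.s23 l2 f3.s23 l3 d13 d12 d23
      · exact k_A3 c.s23 h1.s23 h2.s23 f1.s23 l1 f2.s23 l2 d12
      · rcases h3.2.2 with l3 | l3 | l3
        · exact k_B3_34 c.s23.s34 h0.s23.s34 h1.s23.s34 h2.s23.s34 h3.s23.s34 j0.s23.s34 j1.s23.s34 j2.s23.s34 (es m0) f1.s23.s34 l1 f2.s23.s34 l2 f3.s23.s34 l3 d13 d12 d23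
        · exact k_A3 c.s23 h1.s23 h3.s23 f1.s23 l1 f3.s23 l3 d13
        · exact k_A3 c.s34.s23 h2.s34.s23 h3.s34.s23 f2.s34.s23 l2 f3.s34.s23 l3 d23
    · rcases h2.2.2 with l2 | l2 | l2
      · rcases h3.2.2 with l3 | l3 | l3
        · exact k_A3 c h2 h3 f2 l2 f3 l3 d23
        · exact k_B3_23 c.s34.s23 h0.s34.s23 h1.s34.s23 h2.s34.s23 h3.s34.s23 j0.s34.s23 j1.s34.s23 j2.s34.s23 (es m0) f1.s34.s23 l1 f2.s34.s23 l2 f3.s34.s23 l3 d13 d12 d23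
        · exact k_A3 c.s34.s23 h1.s34.s23 h3.s34.s23 f1.s34.s23 l1 f3.s34.s23 l3 d13
      · rcases h3.2.2 with l3 | l3 | l3
        · exact k_B3_24 c.s34.s23.s34 h0.s34.s23.s34 h1.s34.s23.s34 h2.s34.s23.s34 h3.s34.s23.s34 j0.s34.s23.s34 j1.s34.s23.s34 j2.s34.s23.s34 (es m0) f1.s34.s23.s34 l1 f2.s34.s23.s34 l2 f3.s34.s23.s34 l3 d13 d12 d23
        · exact k_A3 c.s23 h2.s23 h3.s23 f2.s23 l2 f3.s23 l3 d23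
        · exact k_A3 c.s34.s23 h1.s34.s23 h3.s34.s23 f1.s34.s23 l1 f3.s34.s23 l3 d13
      · exact k_A3 c.s34.s23 h1.s34.s23 h2.s34.s23 f1.s34.s23 l1 f2.s34.s23 l2 d12
  · rcases h1.2.2 with l1 | l1 | l1
    · rcases h2.2.2 with l2 | l2 | l2
      · exact k_A3 c h1 h2 f1 l1 f2 l2 d12
      · rcases h3.2.2 with l3 | l3 | l3
        · exact k_A3 c h1 h3 f1 l1 f3 l3 d13
        · exact k_A3 c.s23 h2.s23 h3.s23 f2.s23 l2 f3.s23 l3 d23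
        · exact k_B3_34 c h0 h1 h2 h3 j0 j1 j2 m0 f1 l1 f2 l2 f3 l3 d13 d12 d23
      · rcases h3.2.2 with l3 | l3 | l3
        · exact k_A3 c h1 h3 f1 l1 f3 l3 d13
        · exact k_B3_34 c.s34 h0.s34 h1.s34 h2.s34 h3.s34 j0.s34 j1.s34 j2.s34 (es m0) f1.s34 l1 f2.s34 l2 f3.s34 l3 d13 d12 d23
        · exact k_A3 c.s34.s23 h2.s34.s23 h3.s34.s23 f2.s34.s23 l2 f3.s34.s23 l3 d23
    · rcases h2.2.2 with l2 | l2 | l2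
      · rcases h3.2.2 with l3 | l3 | l3
        · exact k_A3 c h2 h3 f2 l2 f3 l3 d23
        · exact k_A3 c.s23 h1.s23 h3.s23 f1.s23 l1 f3.s23 l3 d13
        · exact k_B3_24 c.s23 h0.s23 h1.s23 h2.s23 h3.s23 j0.s23 j1.s23 j2.s23 m0 f1.s23 l1 f2.s23 l2 f3.s23 l3 d13 d12 d23
      · exact k_A3 c.s23 h1.s23 h2.s23 f1.s23 l1 f2.s23 l2 d12
      · rcases h3.2.2 with l3 | l3 | l3
        · exact k_B3_23 c.s23.s34 h0.s23.s34 h1.s23.s34 h2.s23.s34 h3.s23.s34 j0.s23.s34 j1.s23.s34 j2.s23.s34 m0 f1.s23.s34 l1 f2.s23.s34 l2 f3.s23.s34 l3 d13 d12 d23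
        · exact k_A3 c.s23 h1.s23 h3.s23 f1.s23 l1 f3.s23 l3 d13
        · exact k_A3 c.s34.s23 h2.s34.s23 h3.s34.s23 f2.s34.s23 l2 f3.s34.s23 l3 d23
    · rcases h2.2.2 with l2 | l2 | l2
      · rcases h3.2.2 with l3 | l3 | l3
        · exact k_A3 c h2 h3 f2 l2 f3 l3 d23
        · exact k_B3_24 c.s34.s23 h0.s34.s23 h1.s34.s23 h2.s34.s23 h3.s34.s23 j0.s34.s23 j1.s34.s23 j2.s34.s23 (es m0) f1.s34.s23 l1 f2.s34.s23 l2 f3.s34.s23 l3 d13 d12 d23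
        · exact k_A3 c.s34.s23 h1.s34.s23 h3.s34.s23 f1.s34.s23 l1 f3.s34.s23 l3 d13
      · rcases h3.2.2 with l3 | l3 | l3
        · exact k_B3_23 c.s34.s23.s34 h0.s34.s23.s34 h1.s34.s23.s34 h2.s34.s23.s34 h3.s34.s23.s34 j0.s34.s23.s34 j1.s34.s23.s34 j2.s34.s23.s34 (es m0) f1.s34.s23.s34 l1 f2.s34.s23.s34 l2 f3.s34.s23.s34 l3 d13 d12 d23
        · exact k_A3 c.s23 h2.s23 h3.s23 f2.s23 l2 f3.s23 l3 d23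
        · exact k_A3 c.s34.s23 h1.s34.s23 h3.s34.s23 f1.s34.s23 l1 f3.s34.s23 l3 d13
      · exact k_A3 c.s34.s23 h1.s34.s23 h2.s34.s23 f1.s34.s23 l1 f2.s34.s23 l2 d12

theorem lC (c : Ctx M F g0 g1 g2 g3 g4) {s0 p0 q0 s1 p1 q1 s2 p2 q2 : ℤ}
    (h0 : Cn M g0 g1 g2 g3 g4 s0 p0 q0)
    (h1 : Cn M g0 g1 g2 g3 g4 s1 p1 q1)
    (h2 : Cn M g0 g1 g2 g3 g4 s2 p2 q2)
    (j0 : Adj M g0 g1 g2 g3 g4 p0 q0 p1 q1)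
    (j1 : Adj M g0 g1 g2 g3 g4 p1 q1 p2 q2)
    (m0 : Mx M s0 g2 g3 g4)
    (m1 : Mx M s1 g2 g3 g4)
    (m2 : Mx M s2 g2 g3 g4)
    (d01 : s0 ≠ s1)
    (d02 : s0 ≠ s2)
    (d12 : s1 ≠ s2) : False := by
  rcases m0 with m0 | m0 | m0
  · rcases m1 with m1 | m1 | m1
    · rcases m2 with m2 | m2 | m2
      · exact k_C_232323 c h0 h1 h2 j0 j1 m0 m1 m2 d01 d12 d02
      · exact k_C_232324 c h0 h1 h2 j0 j1 m0 m1 m2 d01 d12 d02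
      · exact k_C_232324 c.s23 h0.s23 h1.s23 h2.s23 j0.s23 j1.s23 (es m0) (es m1) m2 d01 d12 d02
    · rcases m2 with m2 | m2 | m2
      · exact k_C_232423 c h0 h1 h2 j0 j1 m0 m1 m2 d01 d12 d02
      · exact k_C_232324 c.s01.s34 h2.s01.s34 h1.s01.s34 h0.s01.s34 j1.s01.s34 j0.s01.s34 m2 m1 m0 d12.symm d01.symm d02.symm
      · exact k_C_232434 c h0 h1 h2 j0 j1 m0 m1 m2 d01 d12 d02
    · rcases m2 with m2 | m2 | m2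
      · exact k_C_232423 c.s23 h0.s23 h1.s23 h2.s23 j0.s23 j1.s23 (es m0) m1 (es m2) d01 d12 d02
      · exact k_C_232434 c.s23 h0.s23 h1.s23 h2.s23 j0.s23 j1.s23 (es m0) m1 m2 d01 d12 d02
      · exact k_C_232324 c.s01.s23.s34 h2.s01.s23.s34 h1.s01.s23.s34 h0.s01.s23.s34 j1.s01.s23.s34 j0.s01.s23.s34 m2 m1 (es m0) d12.symm d01.symm d02.symm
  · rcases m1 with m1 | m1 | m1
    · rcases m2 with m2 | m2 | m2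
      · exact k_C_232324 c.s01 h2.s01 h1.s01 h0.s01 j1.s01 j0.s01 m2 m1 m0 d12.symm d01.symm d02.symm
      · exact k_C_232423 c.s34 h0.s34 h1.s34 h2.s34 j0.s34 j1.s34 m0 m1 m2 d01 d12 d02
      · exact k_C_232434 c.s34 h0.s34 h1.s34 h2.s34 j0.s34 j1.s34 m0 m1 (es m2) d01 d12 d02
    · rcases m2 with m2 | m2 | m2
      · exact k_C_232324 c.s34 h0.s34 h1.s34 h2.s34 j0.s34 j1.s34 m0 m1 m2 d01 d12 d02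
      · exact k_C_232323 c.s34 h0.s34 h1.s34 h2.s34 j0.s34 j1.s34 m0 m1 m2 d01 d12 d02
      · exact k_C_232324 c.s34.s23 h0.s34.s23 h1.s34.s23 h2.s34.s23 j0.s34.s23 j1.s34.s23 (es m0) (es m1) (es m2) d01 d12 d02
    · rcases m2 with m2 | m2 | m2
      · exact k_C_232434 c.s34.s23 h0.s34.s23 h1.s34.s23 h2.s34.s23 j0.s34.s23 j1.s34.s23 (es m0) (es m1) m2 d01 d12 d02
      · exact k_C_232423 c.s34.s23 h0.s34.s23 h1.s34.s23 h2.s34.s23 j0.s34.s23 j1.s34.s23 (es m0) (es m1) (es m2) d01 d12 d02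
      · exact k_C_232324 c.s01.s34.s23.s34 h2.s01.s34.s23.s34 h1.s01.s34.s23.s34 h0.s01.s34.s23.s34 j1.s01.s34.s23.s34 j0.s01.s34.s23.s34 (es m2) (es m1) (es m0) d12.symm d01.symm d02.symm
  · rcases m1 with m1 | m1 | m1
    · rcases m2 with m2 | m2 | m2
      · exact k_C_232324 c.s01.s23 h2.s01.s23 h1.s01.s23 h0.s01.s23 j1.s01.s23 j0.s01.s23 (es m2) (es m1) m0 d12.symm d01.symm d02.symm
      · exact k_C_232434 c.s23.s34 h0.s23.s34 h1.s23.s34 h2.s23.s34 j0.s23.s34 j1.s23.s34 m0 (es m1) (es m2) d01 d12 d02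
      · exact k_C_232423 c.s23.s34 h0.s23.s34 h1.s23.s34 h2.s23.s34 j0.s23.s34 j1.s23.s34 m0 (es m1) m2 d01 d12 d02
    · rcases m2 with m2 | m2 | m2
      · exact k_C_232434 c.s34.s23.s34 h0.s34.s23.s34 h1.s34.s23.s34 h2.s34.s23.s34 j0.s34.s23.s34 j1.s34.s23.s34 (es m0) (es m1) (es m2) d01 d12 d02
      · exact k_C_232324 c.s01.s34.s23 h2.s01.s34.s23 h1.s01.s34.s23 h0.s01.s34.s23 j1.s01.s34.s23 j0.s01.s34.s23 (es m2) (es m1) (es m0) d12.symm d01.symm d02.symm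
      · exact k_C_232423 c.s34.s23.s34 h0.s34.s23.s34 h1.s34.s23.s34 h2.s34.s23.s34 j0.s34.s23.s34 j1.s34.s23.s34 (es m0) (es m1) (es m2) d01 d12 d02
    · rcases m2 with m2 | m2 | m2
      · exact k_C_232324 c.s23.s34 h0.s23.s34 h1.s23.s34 h2.s23.s34 j0.s23.s34 j1.s23.s34 m0 m1 (es m2) d01 d12 d02
      · exact k_C_232324 c.s34.s23.s34 h0.s34.s23.s34 h1.s34.s23.s34 h2.s34.s23.s34 j0.s34.s23.s34 j1.s34.s23.s34 (es m0) (es m1) (es m2) d01 d12 d02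
      · exact k_C_232323 c.s23.s34 h0.s23.s34 h1.s23.s34 h2.s23.s34 j0.s23.s34 j1.s23.s34 m0 m1 m2 d01 d12 d02

end Pool.Agent.Lib.MP_1dd8f3_al
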